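import Pool.Agent.Lib.MP_a17b09_nt.QT.Stmts99
import Pool.Agent.Lib.MP_a17b09_nt.TP79.Fin

/-!
Project QT (MP_a17b09_nt): the law of three slots.  From the equidistribution of `Ω (f (t + j d))`
over the divisors `d` of `f t` near `t`, for most `t`, and the law of the pair `(d, f t / d)`: the
joint law of `Ω d`, `Ω (f t)`, `Ω (f (t + j d))` modulo `k`.
-/

set_option autoImplicit false

open Filter Topology Finset

namespace Pool.Agent.Lib.MP_a17b09_nt.QT

open Pool.Agent.Lib.MP_a17b09_nt.CH Pool.Agent.Lib.MP_a17b09_nt.SP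
open Pool.Agent.Lib.MP_a17b09_nt.CH.EndS
open Pool.Agent.Lib.MP_a17b09_nt.SP.EndP27
open Pool.Agent.Lib.MP_a17b09_nt.SPH Pool.Agent.Lib.MP_a17b09_nt.SPH.FinA11
open Pool.Agent.Lib.MP_a17b09_nt.TP79

/-- the conclusion of `StFinQ` -/
def FinQ (a b c : ℤ) : Prop := ∀ k : ℕ, 0 < k → ∀ j : ℕ, 0 < j → ∀ ε : ℝ, 0 < ε →
  ∃ B₀ : ℝ, 2 ≤ B₀ ∧ ∀ B : ℝ, B₀ ≤ B →
  LogNull {N : ℕ | ∃ r s : ℕ, ε * Real.log B * N < ∑ t ∈ Finset.Icc 1 N,
    |(nd a b c B t (fun d => Omn d ≡ s [MOD k] ∧ Omn (vl a b c (t + j * d)) ≡ r [MOD k]) : ℝ) -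
      (nd a b c B t (fun d => Omn d ≡ s [MOD k]) : ℝ) / k|}

theorem filt_one (N t₀ : ℕ) :
    (Finset.Icc 1 N).filter (fun t => t ≡ t₀ [MOD 1]) = Finset.Icc 1 N := by
  apply Finset.filter_true_of_mem
  intro t _
  exact Nat.modEq_one

/-- the law of `Ω d` and `Ω (f t)` -/
theorem law_dt {a b c : ℤ} {h t₀ : ℕ} {α β κ : ℝ} (hf : ∀ t : ℕ, fv a b c t ≠ 0)
    (hO : OnP a b c h t₀ α β) (hT : TwNull a b c h t₀ α β)
    (hκ : Tendsto (fun N : ℕ => (pairCount a b c h t₀ α β (fun _ _ => True) N : ℝ) / N) atTop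
      (𝓝 κ)) {k : ℕ} (hk : 0 < k) (r s : ℕ) {ε : ℝ} (hε : 0 < ε) :
    LogNull {N : ℕ | ε * N < |(pairCount a b c h t₀ α β (fun t d => Omn d ≡ r [MOD k] ∧
      Om a b c t ≡ s [MOD k]) N : ℝ) - κ / k ^ 2 * N|} := by
  classical
  have h1 := pair_null hf hO _ (κ / k ^ 2)
    (fun M => pair_law hf hO hκ hT hk none (some 0) (by simp) r (s + (k - 1) * r) M) hε
  have e1 : ∀ N : ℕ, pairCount a b c h t₀ α β (fun t d => Omn d ≡ r [MOD k] ∧
      Om a b c t ≡ s [MOD k]) N = pairCount a b c h t₀ α β (fun t d =>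
        Omn (eslot a b c t d none) ≡ r [MOD k] ∧
        Omn (eslot a b c t d (some 0)) ≡ s + (k - 1) * r [MOD k]) N := by
    intro N
    rw [count_eq hf, count_eq hf]
    refine Finset.sum_congr rfl fun t _ => ?_
    congr 1
    refine Finset.filter_congr fun d hd => ?_
    have hd1 : d ∣ (fv a b c t).natAbs :=
      Nat.dvd_of_mem_divisors (Finset.mem_filter.1 hd).1
    have h2 := om_slot hf hd1 0
    rw [zero_mul, add_zero] at h2
    rw [h2]
    have e2 : Omn (eslot a b c t d none) = Omn d := rfl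
    rw [e2]
    refine and_congr_right fun h3 => ?_
    obtain ⟨k', rfl⟩ : ∃ k', k = k' + 1 := ⟨k - 1, by omega⟩
    rw [Nat.add_sub_cancel]
    constructor
    · intro h4
      have h5 : r + Omn (eslot a b c t d (some 0)) ≡ s [MOD (k' + 1)] :=
        (Nat.ModEq.add_right _ h3.symm).trans h4
      have h6 : r + (s + k' * r) ≡ s [MOD (k' + 1)] := by
        have : r + (s + k' * r) = s + (k' + 1) * r := by ring
        rw [this]
        exact Nat.add_modulus_mul_modEq_iff.2 rfl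
      exact Nat.ModEq.add_left_cancel' r (h5.trans h6.symm)
    · intro h4
      have h6 : r + (s + k' * r) ≡ s [MOD (k' + 1)] := by
        have : r + (s + k' * r) = s + (k' + 1) * r := by ring
        rw [this]
        exact Nat.add_modulus_mul_modEq_iff.2 rfl
      exact (Nat.ModEq.add h3 h4).trans h6
  simp only [e1]
  exact h1

/-- restriction to the `t` of one class -/
theorem pc_cls {a b c : ℤ} (hf : ∀ t : ℕ, fv a b c t ≠ 0) (B : ℝ) (j k r s u N : ℕ) :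
    |(pairCount a b c 1 0 (1 / B) 1 (fun t d => Omn d ≡ r [MOD k] ∧ Om a b c t ≡ s [MOD k] ∧
        Om a b c (t + j * d) ≡ u [MOD k]) N : ℝ) -
      (pairCount a b c 1 0 (1 / B) 1 (fun t d => Omn d ≡ r [MOD k] ∧
        Om a b c t ≡ s [MOD k]) N : ℝ) / k| ≤ ∑ t ∈ Finset.Icc 1 N,
    |(nd a b c B t (fun d => Omn d ≡ r [MOD k] ∧ Omn (vl a b c (t + j * d)) ≡ u [MOD k]) : ℝ) -
      (nd a b c B t (fun d => Omn d ≡ r [MOD k]) : ℝ) / k| := by
  classical
  rw [count_eq hf, count_eq hf, filt_one]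
  push_cast
  rw [Finset.sum_div, ← Finset.sum_sub_distrib]
  refine (Finset.abs_sum_le_sum_abs _ _).trans (Finset.sum_le_sum fun t _ => ?_)
  by_cases ht : Om a b c t ≡ s [MOD k]
  · apply le_of_eq
    have e1 : ((nearG a b c (1 / B) 1 t).filter (fun d => Omn d ≡ r [MOD k] ∧
        Om a b c t ≡ s [MOD k] ∧ Om a b c (t + j * d) ≡ u [MOD k])).card =
        nd a b c B t (fun d => Omn d ≡ r [MOD k] ∧ Omn (vl a b c (t + j * d)) ≡ u [MOD k]) := by
      unfold nd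
      congr 1
      ext d
      simp only [Finset.mem_filter]
      constructor
      · rintro ⟨h1, h2, -, h3⟩
        exact ⟨h1, h2, h3⟩
      · rintro ⟨h1, h2, h3⟩
        exact ⟨h1, h2, ht, h3⟩
    have e2 : ((nearG a b c (1 / B) 1 t).filter (fun d => Omn d ≡ r [MOD k] ∧
        Om a b c t ≡ s [MOD k])).card = nd a b c B t (fun d => Omn d ≡ r [MOD k]) := by
      unfold nd
      congr 1
      ext d
      simp only [Finset.mem_filter]
      constructor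
      · rintro ⟨h1, h2, -⟩
        exact ⟨h1, h2⟩
      · rintro ⟨h1, h2⟩
        exact ⟨h1, h2, ht⟩
    rw [e1, e2]
  · rw [Finset.filter_false_of_mem (fun d _ h => ht h.2.1),
      Finset.filter_false_of_mem (fun d _ h => ht h.2)]
    simp

/-- the inputs with `h = 1` -/
theorem kap_lim {a b c : ℤ} (hf : ∀ t : ℕ, fv a b c t ≠ 0) {κ : ℝ} (hκ : Kap a b c κ) {B : ℝ}
    (hB : 2 ≤ B) :
    Tendsto (fun N : ℕ => (pairCount a b c 1 0 (1 / B) 1 (fun _ _ => True) N : ℝ) / N) atTop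
      (𝓝 (κ * Real.log B)) := by
  have h1 := hκ.2.1 (1 / B) 1 (by positivity) (by rw [div_lt_one (by linarith)]; linarith)
  have e1 : (1 : ℝ) / (1 / B) = B := by rw [one_div_one_div]
  rw [e1] at h1
  refine h1.congr fun N => ?_
  rw [count_eq hf (fun _ _ => True) N, filt_one]
  simp only [Finset.filter_true]

/-- **the law of three slots** `Ω d`, `Ω (f t)`, `Ω (f (t + j d))` modulo `k`, `t / B ≤ d ≤ t` -/
theorem tri {a b c : ℤ} (ha : 0 < a) (hns : ¬ IsSquare (b ^ 2 - 4 * a * c)) (hQ : FinQ a b c)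
    {κ : ℝ} (hκ : Kap a b c κ) {k : ℕ} (hk : 0 < k) {j : ℕ} (hj : 0 < j) {ε : ℝ} (hε : 0 < ε) :
    ∃ B₀ : ℝ, 2 ≤ B₀ ∧ ∀ B : ℝ, B₀ ≤ B → ∀ r s u : ℕ, LogNull {N : ℕ | ε * Real.log B * N <
      |(pairCount a b c 1 0 (1 / B) 1 (fun t d => Omn d ≡ r [MOD k] ∧ Om a b c t ≡ s [MOD k] ∧
        Om a b c (t + j * d) ≡ u [MOD k]) N : ℝ) - κ * Real.log B / k ^ 3 * N|} := by
  have hf := fv_ne hns
  have hk0 : (0 : ℝ) < k := by exact_mod_cast hk
  have hk1 : (1 : ℝ) ≤ k := by exact_mod_cast hk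
  obtain ⟨B₀, hB0, hB⟩ := hQ k hk j hj (ε / 2) (by positivity)
  refine ⟨B₀, hB0, fun B hBB r s u => ?_⟩
  have hB2 : 2 ≤ B := hB0.trans hBB
  have hlB : 0 < Real.log B := Real.log_pos (by linarith)
  obtain ⟨hO, hT, -⟩ := input ha hns one_pos 0 (α := 1 / B) (β := 1) (by positivity)
    (by rw [div_lt_one (by linarith)]; linarith)
  have h1 := law_dt hf hO hT (kap_lim hf hκ hB2) hk r s (ε := ε / 2 * Real.log B) (by positivity)
  refine LogNull.mono (logNull_union (hB B hBB) h1) fun N hN => ?_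
  by_contra hcon
  rw [Set.mem_union, not_or] at hcon
  obtain ⟨g1, g2⟩ := hcon
  simp only [Set.mem_ofPred_eq, not_exists, not_lt] at g1 g2
  have g3 := (pc_cls hf B j k r s u N).trans (g1 u r)
  rw [Set.mem_ofPred_eq] at hN
  have hN0 : (0 : ℝ) ≤ N := Nat.cast_nonneg _
  set x : ℝ := (pairCount a b c 1 0 (1 / B) 1 (fun t d => Omn d ≡ r [MOD k] ∧
    Om a b c t ≡ s [MOD k] ∧ Om a b c (t + j * d) ≡ u [MOD k]) N : ℝ)
  set y : ℝ := (pairCount a b c 1 0 (1 / B) 1 (fun t d => Omn d ≡ r [MOD k] ∧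
    Om a b c t ≡ s [MOD k]) N : ℝ)
  have g4 : |y / k - κ * Real.log B / k ^ 3 * N| ≤ ε / 2 * Real.log B * N := by
    have e1 : y / k - κ * Real.log B / k ^ 3 * N = (y - κ * Real.log B / k ^ 2 * N) / k := by
      field_simp
    rw [e1, abs_div, abs_of_pos hk0, div_le_iff₀ hk0]
    refine g2.trans ?_
    exact le_mul_of_one_le_right (by positivity) hk1
  have g5 : |x - κ * Real.log B / k ^ 3 * N| ≤ |x - y / k| + |y / k - κ * Real.log B / k ^ 3 * N| :=
    abs_sub_le _ _ _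
  linarith

/-- **all classes occur**: for every `k` and all large `B`, a positive proportion of the pairs with
`t ≤ N`, every large `N` -/
theorem tri_pos {a b c : ℤ} (ha : 0 < a) (hns : ¬ IsSquare (b ^ 2 - 4 * a * c))
    (hQ : FinQ a b c) {κ : ℝ} (hκ : Kap a b c κ) {k : ℕ} (hk : 0 < k) {j : ℕ} (hj : 0 < j) :
    ∃ B₀ : ℝ, 2 ≤ B₀ ∧ ∀ B : ℝ, B₀ ≤ B → ∀ r s u : ℕ, ∃ c' : ℝ, 0 < c' ∧ ∀ᶠ N : ℕ in atTop,
      c' * N ≤ (pairCount a b c 1 0 (1 / B) 1 (fun t d => Omn d ≡ r [MOD k] ∧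
        Om a b c t ≡ s [MOD k] ∧ Om a b c (t + j * d) ≡ u [MOD k]) N : ℝ) := by
  have hκ0 := hκ.1
  have hk0 : (0 : ℝ) < k := by exact_mod_cast hk
  obtain ⟨B₀, hB0, hB⟩ := tri ha hns hQ hκ hk hj (ε := κ / (2 * k ^ 3)) (by positivity)
  refine ⟨B₀, hB0, fun B hBB r s u => ?_⟩
  have hlB : 0 < Real.log B := Real.log_pos (by linarith)
  refine lower_all' (κ := κ / (2 * k ^ 3) * Real.log B) (fun m n hmn => Nat.cast_le.2
    (pc_mono _ hmn)) (by positivity) (LogNull.mono (hB B hBB r s u) fun N hN => ?_)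
  rw [Set.mem_ofPred_eq] at hN ⊢
  have h1 : κ * Real.log B / k ^ 3 * N = κ / (2 * k ^ 3) * Real.log B * N +
      κ / (2 * k ^ 3) * Real.log B * N := by
    field_simp
    ring
  rw [lt_abs]
  right
  linarith

end Pool.Agent.Lib.MP_a17b09_nt.QT
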