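import Pool.Agent.Lib.MP_a17b09_nt.QT.All_64
import Pool.Agent.Lib.MP_a17b09_nt.QT.Kat_99
import Pool.Agent.Lib.MP_a17b09_nt.QT.Tri79

/-!
# Project QT (MP_a17b09): the closed theorems (helper64)
-/

set_option autoImplicit false

open Filter Topology Finset

namespace Pool.Agent.Lib.MP_a17b09_nt.QT

open CH CH.PE HY SP
open SPH (vl)

theorem stKat_all64 : StKat := stKat_99 stTkR_all64 stTr_64

/-- `Ω (f (t + j d))`, `d ∣ f t`, `t / B ≤ d ≤ t`, for most `t` -/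
theorem quen_all64 (a b c : ℤ) (ha : 0 < a) (hns : ¬ IsSquare (b ^ 2 - 4 * a * c)) :
    Quen a b c := quen_64 stKat_all64 a b c ha hns

/-- the law of `Ω (f (t + j d))` for most `t`, `Ω d` prescribed -/
theorem finQ_all64 (a b c : ℤ) (ha : 0 < a) (hns : ¬ IsSquare (b ^ 2 - 4 * a * c)) :
    FinQ a b c := stFinQ_98 a b c ha (fv_ne64 hns) (quen_all64 a b c ha hns)

/-- the law of the pair for most `t` -/
theorem finQ2_all64 (a b c : ℤ) (ha : 0 < a) (hns : ¬ IsSquare (b ^ 2 - 4 * a * c)) (k : ℕ)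
    (hk : 0 < k) (j : ℕ) (hj : 0 < j) (ε : ℝ) (hε : 0 < ε) : ∃ B₀ : ℝ, 2 ≤ B₀ ∧ ∀ B : ℝ,
    B₀ ≤ B → LogNull {N : ℕ | ∃ r s : ℕ, ε * Real.log B * N < ∑ t ∈ Finset.Icc 1 N,
      |(nd a b c B t (fun d => Omn d ≡ s [MOD k] ∧ Omn (vl a b c (t + j * d)) ≡ r [MOD k]) : ℝ) -
        (nd a b c B t (fun _ => True) : ℝ) / k ^ 2|} :=
  stFinQ2_98 a b c ha (fv_ne64 hns) (quen_all64 a b c ha hns) (quen0_all64 a b c ha hns) k hk j hj
    ε hε

end Pool.Agent.Lib.MP_a17b09_nt.QT
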