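import Pool.Agent.Lib.MP_a17b09_nt.QT.Stmts99
import Pool.Agent.Lib.MP_a17b09_nt.CH.FinT22
import Pool.Agent.Lib.MP_a17b09_nt.CH.EndS98
import Pool.Agent.Lib.MP_a17b09_nt.AN.Ty98

/-!
Project QT, K2: the values `f (t + j d)` are equidistributed modulo `k` for most `t`, by finite
Fourier inversion.
-/

set_option autoImplicit false

open Filter Topology Finset

namespace Pool.Agent.Lib.MP_a17b09_nt.QT

open CH CH.PE HY SP
open AS (cf)
open SPH (vl)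

namespace Fin98

/-- the value is `d` times the cofactor -/
theorem vl_eq {a b c : ℤ} {B : ℝ} {t d : ℕ} (hd : d ∈ nearG a b c (1 / B) 1 t) (j : ℕ) :
    vl a b c (t + j * d) = d * cf a b c t d j ∧ 0 < d := by
  unfold nearG at hd
  have h1 := (Finset.mem_filter.1 hd).1
  have h2 : d ∣ (fv a b c t).natAbs := Nat.dvd_of_mem_divisors h1
  have h3 : 0 < d := Nat.pos_of_mem_divisors h1
  refine ⟨?_, h3⟩
  unfold cf
  rw [Nat.mul_div_cancel']
  have h4 : (d : ℤ) ∣ fv a b c t := Int.natCast_dvd.2 h2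
  unfold vl
  refine Int.natCast_dvd.1 ?_
  have h5 : a * (((t + j * d : ℕ) : ℤ)) ^ 2 + b * ((t + j * d : ℕ) : ℤ) + c =
      fv a b c t + d * (a * (2 * t * j + j ^ 2 * d) + b * j) := by
    unfold fv
    push_cast
    ring
  rw [h5]
  exact dvd_add h4 (dvd_mul_right _ _)

theorem omn_eq {a b c : ℤ} (hf : ∀ t : ℕ, fv a b c t ≠ 0) {B : ℝ} {t d : ℕ}
    (hd : d ∈ nearG a b c (1 / B) 1 t) (j : ℕ) :
    Omn (vl a b c (t + j * d)) = Omn d + Omn (cf a b c t d j) := by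
  obtain ⟨h1, h2⟩ := vl_eq hd j
  have h3 : vl a b c (t + j * d) ≠ 0 := Int.natAbs_ne_zero.2 (hf (t + j * d))
  rw [h1] at h3 ⊢
  exact ArithmeticFunction.cardFactors_mul h2.ne' (right_ne_zero_of_mul h3)

/-- the deviation is an average of the twisted sums -/
theorem dev {z : ℂ} {k : ℕ} (hk : 0 < k) (hz : IsPrimitiveRoot z k) (N : Finset ℕ)
    (A B : ℕ → ℕ) (r s : ℕ) :
    (((N.filter (fun d => A d ≡ s [MOD k] ∧ B d ≡ r [MOD k])).card : ℕ) : ℂ) -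
      (((N.filter (fun d => A d ≡ s [MOD k])).card : ℕ) : ℂ) / k =
    ∑ p ∈ (range k ×ˢ range k).filter (fun p => p.2 ≠ 0), (1 / (k : ℂ) ^ 2) *
      ((z⁻¹ ^ p.1) ^ s * (z⁻¹ ^ p.2) ^ r) * ∑ d ∈ N, (z ^ p.1) ^ A d * (z ^ p.2) ^ B d := by
  have hk0 : (k : ℂ) ≠ 0 := by exact_mod_cast hk.ne'
  rw [FinT22.card_eq hk hz N A B s r, ← sum_filter_add_sum_filter_not (range k ×ˢ range k)
    (fun p => p.2 ≠ 0), add_sub_assoc, add_eq_left, sub_eq_zero]
  have h1 : (range k ×ˢ range k).filter (fun p => ¬ p.2 ≠ 0) =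
      (range k).map ⟨fun i => (i, 0), fun i j h => (Prod.mk.inj h).1⟩ := by
    ext ⟨p, q⟩
    simp only [mem_filter, mem_product, mem_range, not_not, Finset.mem_map, Function.Embedding.coeFn_mk,
      Prod.mk.injEq]
    constructor
    · rintro ⟨⟨h1, _⟩, h2⟩
      exact ⟨p, h1, rfl, h2.symm⟩
    · rintro ⟨x, h1, h2, h3⟩
      subst h2
      exact ⟨⟨h1, by omega⟩, h3.symm⟩
  rw [h1, sum_map]
  simp only [Function.Embedding.coeFn_mk, pow_zero, one_pow, mul_one]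
  have h2 : ∀ i ∈ range k, 1 / (k : ℂ) ^ 2 * (z⁻¹ ^ i) ^ s * ∑ d ∈ N, (z ^ i) ^ A d =
      ∑ d ∈ N, 1 / (k : ℂ) ^ 2 * ((z ^ i) ^ A d * (z⁻¹ ^ i) ^ s) := by
    intro i _
    rw [mul_sum]
    exact sum_congr rfl fun d _ => by ring
  rw [sum_congr rfl h2, sum_comm, card_filter]
  push_cast
  rw [sum_div]
  refine sum_congr rfl fun d _ => ?_
  rw [← mul_sum, Inv22.ind hk hz]
  split_ifs
  · field_simp
  · simp

/-- the deviation is small if the twisted sums are small -/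
theorem bound {a b c : ℤ} (hf : ∀ t : ℕ, fv a b c t ≠ 0) {z : ℂ} {k : ℕ} (hk : 0 < k)
    (hz : IsPrimitiveRoot z k) (B : ℝ) (j r s t : ℕ) :
    |(nd a b c B t (fun d => Omn d ≡ s [MOD k] ∧ Omn (vl a b c (t + j * d)) ≡ r [MOD k]) : ℝ) -
      (nd a b c B t (fun d => Omn d ≡ s [MOD k]) : ℝ) / k| ≤
    ∑ p ∈ (range k ×ˢ range k).filter (fun p => p.2 ≠ 0), (1 / (k : ℝ) ^ 2) *
      ‖DS a b c B (z ^ p.1 * z ^ p.2) (z ^ p.2) j t‖ := by
  classical
  have h0 := dev hk hz (nearG a b c (1 / B) 1 t) (fun d => Omn d)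
    (fun d => Omn (vl a b c (t + j * d))) r s
  have hn : ‖z‖ = 1 := hz.norm'_eq_one hk.ne'
  have h1 : |(nd a b c B t (fun d => Omn d ≡ s [MOD k] ∧
      Omn (vl a b c (t + j * d)) ≡ r [MOD k]) : ℝ) -
      (nd a b c B t (fun d => Omn d ≡ s [MOD k]) : ℝ) / k| =
      ‖((((nearG a b c (1 / B) 1 t).filter (fun d => Omn d ≡ s [MOD k] ∧
        Omn (vl a b c (t + j * d)) ≡ r [MOD k])).card : ℕ) : ℂ) -
      ((((nearG a b c (1 / B) 1 t).filter (fun d => Omn d ≡ s [MOD k])).card : ℕ) : ℂ) / k‖ := by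
    rw [← Real.norm_eq_abs, ← Complex.norm_real]
    congr 1
    unfold nd
    push_cast
    congr!
  rw [h1, h0]
  refine (norm_sum_le _ _).trans (sum_le_sum fun p _ => ?_)
  rw [norm_mul, norm_mul, norm_mul]
  have h2 : ‖(z⁻¹ ^ p.1) ^ s‖ = 1 := by
    rw [norm_pow, norm_pow, norm_inv, hn, inv_one, one_pow, one_pow]
  have h3 : ‖(z⁻¹ ^ p.2) ^ r‖ = 1 := by
    rw [norm_pow, norm_pow, norm_inv, hn, inv_one, one_pow, one_pow]
  have h4 : ‖(1 / (k : ℂ) ^ 2)‖ = 1 / (k : ℝ) ^ 2 := by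
    rw [norm_div, norm_one, norm_pow, Complex.norm_natCast]
  have h5 : ∑ d ∈ nearG a b c (1 / B) 1 t, (z ^ p.1) ^ Omn d *
      (z ^ p.2) ^ Omn (vl a b c (t + j * d)) =
      DS a b c B (z ^ p.1 * z ^ p.2) (z ^ p.2) j t := by
    unfold DS
    refine sum_congr rfl fun d hd => ?_
    rw [omn_eq hf hd j, pow_add, mul_pow, mul_assoc]
  rw [h2, h3, h4, h5, mul_one, mul_one]

end Fin98

open Fin98 in
/-- K2 -/
theorem stFinQ_98 : StFinQ := by
  classical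
  intro a b c _ hf hQ k hk j hj ε hε
  have hk0 : (0 : ℝ) < k := by exact_mod_cast hk
  obtain ⟨z, hz⟩ : ∃ z : ℂ, IsPrimitiveRoot z k :=
    ⟨_, Complex.isPrimitiveRoot_exp k hk.ne'⟩
  have hzk : ∀ i, (z ^ i) ^ k = 1 := by
    intro i
    rw [← pow_mul, Nat.mul_comm, pow_mul, hz.pow_eq_one, one_pow]
  set P := (range k ×ˢ range k).filter (fun p => p.2 ≠ 0) with hP
  have hne : ∀ p ∈ P, z ^ p.2 ≠ 1 := by
    intro p hp h
    have h1 := mem_filter.1 hp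
    have h2 := mem_range.1 (mem_product.1 h1.1).2
    have h3 := hz.dvd_of_pow_eq_one p.2 h
    exact h1.2 (Nat.eq_zero_of_dvd_of_lt h3 h2)
  have hq : ∀ p ∈ P, ∃ B₀ : ℝ, 2 ≤ B₀ ∧ ∀ B : ℝ, B₀ ≤ B → LogNull {N : ℕ | ε * Real.log B * N <
      ∑ t ∈ Finset.Icc 1 N, ‖DS a b c B (z ^ p.1 * z ^ p.2) (z ^ p.2) j t‖} := by
    intro p hp
    refine hQ (z ^ p.1 * z ^ p.2) (z ^ p.2) k hk ?_ (hzk _) (hne p hp) j hj ε hε
    rw [mul_pow, hzk, hzk, one_mul]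
  choose! B0 hB2 hB0 using hq
  have hsum : ∀ p ∈ P, B0 p ≤ ∑ p ∈ P, B0 p := fun p hp =>
    single_le_sum (f := B0) (fun q hq => le_trans (by norm_num) (hB2 q hq)) hp
  have hpos : 0 ≤ ∑ p ∈ P, B0 p := sum_nonneg fun q hq => le_trans (by norm_num) (hB2 q hq)
  refine ⟨2 + ∑ p ∈ P, B0 p, by linarith, fun B hB => ?_⟩
  have hB1 : 2 ≤ B := by linarith
  have hlog : 0 ≤ Real.log B := Real.log_nonneg (by linarith)
  refine EndS.LogNull.mono (AN.Ty98.lognull_union P (fun p => {N : ℕ | ε * Real.log B * N <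
    ∑ t ∈ Finset.Icc 1 N, ‖DS a b c B (z ^ p.1 * z ^ p.2) (z ^ p.2) j t‖})
    (fun p hp => hB0 p hp B (by linarith [hsum p hp]))) ?_
  intro N hN
  by_contra hcon
  obtain ⟨r, s, hrs⟩ := hN
  have h1 : ∀ p ∈ P, ∑ t ∈ Finset.Icc 1 N,
      ‖DS a b c B (z ^ p.1 * z ^ p.2) (z ^ p.2) j t‖ ≤ ε * Real.log B * N := by
    intro p hp
    by_contra h
    exact hcon ⟨p, hp, not_le.1 h⟩
  have hcard : (P.card : ℝ) ≤ (k : ℝ) ^ 2 := by
    have h2 : P.card ≤ k * k := by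
      refine (card_filter_le _ _).trans ?_
      rw [card_product, card_range]
    have h3 : (P.card : ℝ) ≤ (k : ℝ) * k := by exact_mod_cast h2
    rw [sq]
    exact h3
  have h2 : ∑ t ∈ Finset.Icc 1 N,
      |(nd a b c B t (fun d => Omn d ≡ s [MOD k] ∧ Omn (vl a b c (t + j * d)) ≡ r [MOD k]) : ℝ) -
        (nd a b c B t (fun d => Omn d ≡ s [MOD k]) : ℝ) / k| ≤ ε * Real.log B * N := by
    calc _ ≤ ∑ t ∈ Finset.Icc 1 N, ∑ p ∈ P, (1 / (k : ℝ) ^ 2) *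
          ‖DS a b c B (z ^ p.1 * z ^ p.2) (z ^ p.2) j t‖ :=
          sum_le_sum fun t _ => bound hf hk hz B j r s t
      _ = ∑ p ∈ P, (1 / (k : ℝ) ^ 2) * ∑ t ∈ Finset.Icc 1 N,
          ‖DS a b c B (z ^ p.1 * z ^ p.2) (z ^ p.2) j t‖ := by
          rw [sum_comm]
          exact sum_congr rfl fun p _ => (mul_sum _ _ _).symm
      _ ≤ ∑ p ∈ P, (1 / (k : ℝ) ^ 2) * (ε * Real.log B * N) :=
          sum_le_sum fun p hp => mul_le_mul_of_nonneg_left (h1 p hp) (by positivity)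
      _ = (P.card / (k : ℝ) ^ 2) * (ε * Real.log B * N) := by
          rw [sum_const, nsmul_eq_mul]
          ring
      _ ≤ 1 * (ε * Real.log B * N) := by
          refine mul_le_mul_of_nonneg_right ?_ (by positivity)
          rw [div_le_one (by positivity)]
          exact hcard
      _ = ε * Real.log B * N := one_mul _
  exact absurd hrs (not_lt.2 h2)

end Pool.Agent.Lib.MP_a17b09_nt.QT
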