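import Pool.Agent.Lib.MP_a17b09_nt.QT.StmtsG99
import Pool.Agent.Lib.MP_a17b09_nt.QT.Fin_98

/-!
Project QT, G5 (helper53): the conditional law of the slot `j`, by Fourier inversion in the class of
`Ω d`.
-/

set_option autoImplicit false

open Filter Topology Finset

namespace Pool.Agent.Lib.MP_a17b09_nt.QT

open CH CH.PE HY SP

open AS (cf)

namespace CondG53

/-- `z ^ Ω` is completely multiplicative -/
theorem cmul {z : ℂ} (hz : ‖z‖ = 1) : CMul (fun d => z ^ Omn d) := by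
  refine ⟨fun m n hm hn => ?_, fun n => ?_⟩
  · show z ^ Omn (m * n) = z ^ Omn m * z ^ Omn n
    rw [← pow_add]
    congr 1
    exact ArithmeticFunction.cardFactors_mul hm hn
  · show ‖z ^ Omn n‖ ≤ 1
    rw [norm_pow, hz, one_pow]

/-- the deviation as an average of twisted sums -/
theorem dev {a b c : ℤ} {T T' T'' : ℕ → Prop} {δ : ℝ} {z : ℂ} {k : ℕ} (hk : 0 < k)
    (hz : IsPrimitiveRoot z k) (B : ℝ) (j r s t : ℕ) :
    |(nd a b c B t (fun d => T d ∧ T' (cf a b c t d 0) ∧ T'' (cf a b c t d j) ∧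
      Omn d ≡ r [MOD k] ∧ Omn (cf a b c t d j) ≡ s [MOD k]) : ℝ) -
      δ / k * (nd a b c B t (fun d => T d ∧ T' (cf a b c t d 0) ∧ Omn d ≡ r [MOD k]) : ℝ)| ≤
    ∑ i ∈ range k, (1 / (k : ℝ)) * ‖∑ d ∈ nearG a b c (1 / B) 1 t,
      (z ^ i) ^ Omn d * gT a b c T T' t d * iT T'' δ k s (cf a b c t d j)‖ := by
  classical
  have hk0 : (k : ℂ) ≠ 0 := by exact_mod_cast hk.ne'
  have hn : ‖z‖ = 1 := hz.norm'_eq_one hk.ne'
  have h1 : (((nd a b c B t (fun d => T d ∧ T' (cf a b c t d 0) ∧ T'' (cf a b c t d j) ∧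
      Omn d ≡ r [MOD k] ∧ Omn (cf a b c t d j) ≡ s [MOD k]) : ℝ) -
      δ / k * (nd a b c B t (fun d => T d ∧ T' (cf a b c t d 0) ∧ Omn d ≡ r [MOD k]) : ℝ) : ℝ) : ℂ) =
      ∑ d ∈ nearG a b c (1 / B) 1 t, (if Omn d ≡ r [MOD k] then (1 : ℂ) else 0) *
        (gT a b c T T' t d * iT T'' δ k s (cf a b c t d j)) := by
    unfold nd
    push_cast
    rw [card_filter, card_filter]
    push_cast
    rw [mul_sum, ← sum_sub_distrib]
    refine sum_congr rfl fun d _ => ?_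
    unfold gT iT AN.ind
    by_cases c1 : T d <;> by_cases c2 : T' (cf a b c t d 0) <;>
      by_cases c3 : T'' (cf a b c t d j) <;> by_cases c4 : Omn d ≡ r [MOD k] <;>
      by_cases c5 : Omn (cf a b c t d j) ≡ s [MOD k] <;> simp [c1, c2, c3, c4, c5]
  have h2 : ∀ d : ℕ, (if Omn d ≡ r [MOD k] then (1 : ℂ) else 0) =
      ∑ i ∈ range k, 1 / (k : ℂ) * ((z ^ i) ^ Omn d * (z⁻¹ ^ i) ^ r) := by
    intro d
    rw [← mul_sum, Inv22.ind hk hz]
    split_ifs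
    · field_simp
    · simp
  have h3 : ∑ d ∈ nearG a b c (1 / B) 1 t, (if Omn d ≡ r [MOD k] then (1 : ℂ) else 0) *
      (gT a b c T T' t d * iT T'' δ k s (cf a b c t d j)) =
      ∑ i ∈ range k, (1 / (k : ℂ) * (z⁻¹ ^ i) ^ r) * ∑ d ∈ nearG a b c (1 / B) 1 t,
        (z ^ i) ^ Omn d * gT a b c T T' t d * iT T'' δ k s (cf a b c t d j) := by
    simp_rw [h2, sum_mul, mul_sum]
    rw [sum_comm]
    refine sum_congr rfl fun i _ => sum_congr rfl fun d _ => ?_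
    ring
  rw [← Real.norm_eq_abs, ← Complex.norm_real, h1, h3]
  refine (norm_sum_le _ _).trans (sum_le_sum fun i _ => ?_)
  rw [norm_mul, norm_mul]
  have h4 : ‖(z⁻¹ ^ i) ^ r‖ = 1 := by
    rw [norm_pow, norm_pow, norm_inv, hn, inv_one, one_pow, one_pow]
  have h5 : ‖(1 / (k : ℂ))‖ = 1 / (k : ℝ) := by
    rw [norm_div, norm_one, Complex.norm_natCast]
  rw [h4, h5, mul_one]

end CondG53

open CondG53 in
/-- (G5) -/
theorem stCondL_53 : StCondL := by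
  classical
  intro a b c _ _ T T' T'' δ hL k hk j hj ε hε
  have hk0 : (0 : ℝ) < k := by exact_mod_cast hk
  obtain ⟨z, hz⟩ : ∃ z : ℂ, IsPrimitiveRoot z k :=
    ⟨_, Complex.isPrimitiveRoot_exp k hk.ne'⟩
  have hn : ‖z‖ = 1 := hz.norm'_eq_one hk.ne'
  obtain ⟨B₀, hB2, hB0⟩ := hL k hk j hj ε hε
  refine ⟨B₀, hB2, fun B hB => ?_⟩
  refine EndS.LogNull.mono (hB0 B hB) ?_
  intro N hN
  by_contra hcon
  obtain ⟨r, s, hrs⟩ := hN
  have h1 : ∀ i ∈ range k, ∑ t ∈ Finset.Icc 1 N, ‖∑ d ∈ nearG a b c (1 / B) 1 t,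
      (z ^ i) ^ Omn d * gT a b c T T' t d * iT T'' δ k s (cf a b c t d j)‖ ≤
      ε * Real.log B * N := by
    intro i _
    by_contra h
    have hzi : ‖z ^ i‖ = 1 := by rw [norm_pow, hn, one_pow]
    exact hcon ⟨s, fun d => (z ^ i) ^ Omn d, cmul hzi, not_le.1 h⟩
  have h2 : ∑ t ∈ Finset.Icc 1 N,
      |(nd a b c B t (fun d => T d ∧ T' (cf a b c t d 0) ∧ T'' (cf a b c t d j) ∧
        Omn d ≡ r [MOD k] ∧ Omn (cf a b c t d j) ≡ s [MOD k]) : ℝ) -
        δ / k * (nd a b c B t (fun d => T d ∧ T' (cf a b c t d 0) ∧ Omn d ≡ r [MOD k]) : ℝ)| ≤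
      ε * Real.log B * N := by
    calc _ ≤ ∑ t ∈ Finset.Icc 1 N, ∑ i ∈ range k, (1 / (k : ℝ)) *
          ‖∑ d ∈ nearG a b c (1 / B) 1 t,
            (z ^ i) ^ Omn d * gT a b c T T' t d * iT T'' δ k s (cf a b c t d j)‖ :=
          sum_le_sum fun t _ => dev hk hz B j r s t
      _ = ∑ i ∈ range k, (1 / (k : ℝ)) * ∑ t ∈ Finset.Icc 1 N,
          ‖∑ d ∈ nearG a b c (1 / B) 1 t,
            (z ^ i) ^ Omn d * gT a b c T T' t d * iT T'' δ k s (cf a b c t d j)‖ := by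
          rw [sum_comm]
          exact sum_congr rfl fun i _ => (mul_sum _ _ _).symm
      _ ≤ ∑ i ∈ range k, (1 / (k : ℝ)) * (ε * Real.log B * N) :=
          sum_le_sum fun i hi => mul_le_mul_of_nonneg_left (h1 i hi) (by positivity)
      _ = ε * Real.log B * N := by
          rw [sum_const, card_range, nsmul_eq_mul]
          field_simp
  exact absurd hrs (not_lt.2 h2)

end Pool.Agent.Lib.MP_a17b09_nt.QT
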