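import Pool.Agent.Lib.MP_a17b09_nt.QT.StmtsT3
import Pool.Agent.Lib.MP_a17b09_nt.QT.Kat_99

/-!
Project QT (MP_a17b09_nt), stage 2, T2 (helper11): `StDilE`, the weights of the events do not change
when a prime is removed, except near the ends of the windows.
-/

set_option autoImplicit false

open Filter Topology Finset

namespace Pool.Agent.Lib.MP_a17b09_nt.QT

open CH CH.PE HY SP
open PQ (B1)
open AN (Ev ind wz wd Dens Ty Nd StOk StDen cntN)
open AN.Ty98 (lognull_union exists_nd)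
open AN.Da98 (cnt_ne ty_win dens_w lognull_lt pc_le pc_bdd)
open AS (wslot cf LawTy)
open AS.Ty3 (nd_triv cf_large)
open AS.T11 (null_union null_mono)
open SPH (vl)

namespace D11

variable {a b c : ℤ}

/-- the events of `A m` and `A p m` differ only if `p m` has a prime near an end of a window -/
theorem is_ne (E : Ev) (hu : ∀ i, 0 < E.u i) {A p : ℕ} (hA : 1 ≤ A) (hp : 1 ≤ p)
    (W : Finset ℝ) (hWE : ∀ i, ∀ w : ℝ, (w = E.u i ∨ w = E.v i) → 0 < w → w < 1 → w ∈ W)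
    (η : ℝ → ℝ) (hη : ∀ w ∈ W, 0 < η w) (hη2 : ∀ w ∈ W, 0 < w - η w) :
    ∃ n0 : ℕ, ∀ m : ℕ, n0 ≤ p * m → ¬ (E.Is (A * m) ↔ E.Is (A * (p * m))) →
      ∃ w ∈ W, Ty (fun _ : Fin 1 => w - η w) (fun _ => w + η w) {c | c 0 ≠ 0} (p * m) := by
  have hA0 : (0 : ℝ) < A := by exact_mod_cast hA
  have hA1 : (1 : ℝ) ≤ A := by exact_mod_cast hA
  -- one window
  have hn0 : ∀ i : Fin E.m, ∃ n0 : ℕ, ∀ n : ℕ, n0 ≤ n →
      cntN n (E.u i) (E.v i) n ≠ cntN ((p * n : ℕ) : ℝ) (E.u i) (E.v i) (p * n) →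
      ∃ w ∈ W, ∃ q : ℕ, q.Prime ∧ q ∣ p * n ∧
      ((p * n : ℕ) : ℝ) ^ (w - η w / 2) < q ∧ (q : ℝ) ≤ ((p * n : ℕ) : ℝ) ^ (w + η w / 2) := by
    intro i
    set η0 : ℝ := min (if E.u i ∈ W then η (E.u i) / 2 else 1)
      (if E.v i ∈ W then η (E.v i) / 2 else 1) with hη0
    have h1 : 0 < η0 := by
      rw [hη0]
      refine lt_min ?_ ?_
      · split_ifs with hh
        · exact half_pos (hη _ hh)
        · exact one_pos
      · split_ifs with hh
        · exact half_pos (hη _ hh)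
        · exact one_pos
    obtain ⟨n0, hn0⟩ := cnt_ne hp (v := E.v i) (hu i) h1
    refine ⟨max n0 1, fun n hn hne => ?_⟩
    obtain ⟨w, hw1, hw2, hw3, q, hq1, hq2, hq3, hq4⟩ := hn0 n ((le_max_left _ _).trans hn) hne
    have hwW : w ∈ W := hWE i w hw1 hw2 hw3
    have hle : η0 ≤ η w / 2 := by
      rcases hw1 with h | h
      · subst h
        rw [hη0, if_pos hwW]
        exact min_le_left _ _
      · subst h
        rw [hη0, if_pos hwW]
        exact min_le_right _ _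
    have hb : (1 : ℝ) ≤ ((p * n : ℕ) : ℝ) := by
      exact_mod_cast Nat.mul_pos hp ((le_max_right _ _).trans hn)
    exact ⟨w, hwW, q, hq1, hq2,
      lt_of_le_of_lt (Real.rpow_le_rpow_of_exponent_le hb (by linarith)) hq3,
      hq4.trans (Real.rpow_le_rpow_of_exponent_le hb (by linarith))⟩
  choose n0 hn0' using hn0
  -- large `M`
  have hev : ∀ᶠ M : ℕ in atTop, (∀ w ∈ W, (A : ℝ) ^ (w + η w / 2) ≤ (M : ℝ) ^ (η w / 2) ∧
      (A : ℝ) ≤ (M : ℝ) ^ (w - η w)) ∧ p * (Finset.univ.sup n0) + 1 ≤ M := by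
    refine ((Finset.eventually_all W).2 fun w hw => ?_).and (eventually_ge_atTop _)
    refine Filter.Eventually.and ?_ ?_
    · exact ((tendsto_rpow_atTop (half_pos (hη w hw))).comp
        tendsto_natCast_atTop_atTop).eventually_ge_atTop _
    · exact ((tendsto_rpow_atTop (hη2 w hw)).comp
        tendsto_natCast_atTop_atTop).eventually_ge_atTop _
  obtain ⟨M0, hM0⟩ := eventually_atTop.1 hev
  refine ⟨M0, fun m hm hne => ?_⟩
  obtain ⟨k1, k2⟩ := hM0 (p * m) hm
  have hm1 : Finset.univ.sup n0 ≤ m := by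
    by_contra h
    push Not at h
    have : p * m ≤ p * (Finset.univ.sup n0) := Nat.mul_le_mul_left p h.le
    omega
  have hM1 : 1 ≤ p * m := by omega
  have hMR : (1 : ℝ) ≤ ((p * m : ℕ) : ℝ) := by exact_mod_cast hM1
  have hMp : (0 : ℝ) < ((p * m : ℕ) : ℝ) := by linarith
  have hex : ∃ i : Fin E.m, cntN ((A * m : ℕ) : ℝ) (E.u i) (E.v i) (A * m) ≠
      cntN ((p * (A * m) : ℕ) : ℝ) (E.u i) (E.v i) (p * (A * m)) := by
    by_contra hno
    push Not at hno
    apply hne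
    rw [show A * (p * m) = p * (A * m) by ring]
    unfold Ev.Is Ev.At
    constructor
    · intro h i
      rw [← hno i]
      exact h i
    · intro h i
      rw [hno i]
      exact h i
  obtain ⟨i, hi⟩ := hex
  have hn1 : n0 i ≤ A * m := (Finset.le_sup (f := n0) (Finset.mem_univ i)).trans
    (hm1.trans (Nat.le_mul_of_pos_left m hA))
  obtain ⟨w, hwW, q, hq1, hq2, hq3, hq4⟩ := hn0' i (A * m) hn1 hi
  obtain ⟨g1, g2⟩ := k1 w hwW
  have hcast : ((p * (A * m) : ℕ) : ℝ) = (A : ℝ) * ((p * m : ℕ) : ℝ) := by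
    push_cast
    ring
  rw [hcast] at hq3 hq4
  have hle : ((p * m : ℕ) : ℝ) ≤ (A : ℝ) * ((p * m : ℕ) : ℝ) := by nlinarith
  have hηw := hη w hwW
  have hηw2 := hη2 w hwW
  have hlow : ((p * m : ℕ) : ℝ) ^ (w - η w) < q := by
    refine lt_of_le_of_lt ?_ hq3
    calc ((p * m : ℕ) : ℝ) ^ (w - η w) ≤ ((p * m : ℕ) : ℝ) ^ (w - η w / 2) :=
          Real.rpow_le_rpow_of_exponent_le hMR (by linarith)
      _ ≤ ((A : ℝ) * ((p * m : ℕ) : ℝ)) ^ (w - η w / 2) :=
          Real.rpow_le_rpow hMp.le hle (by linarith)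
  refine ⟨w, hwW, (ty_win hM1).2 ⟨q, hq1, ?_, hlow, ?_⟩⟩
  · rw [show p * (A * m) = A * (p * m) by ring] at hq2
    rcases (Nat.Prime.dvd_mul hq1).1 hq2 with h | h
    · exfalso
      have h7 : (q : ℝ) ≤ A := by exact_mod_cast Nat.le_of_dvd hA h
      linarith
    · exact h
  · refine hq4.trans ?_
    rw [Real.mul_rpow hA0.le hMp.le]
    calc (A : ℝ) ^ (w + η w / 2) * ((p * m : ℕ) : ℝ) ^ (w + η w / 2) ≤
          ((p * m : ℕ) : ℝ) ^ (η w / 2) * ((p * m : ℕ) : ℝ) ^ (w + η w / 2) :=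
          mul_le_mul_of_nonneg_right g1 (Real.rpow_nonneg hMp.le _)
      _ = ((p * m : ℕ) : ℝ) ^ (w + η w) := by
          rw [← Real.rpow_add hMp]
          congr 1
          ring

/-- the one-slot law for the windows -/
theorem one_slot {κ α β : ℝ} (hL : LawTy a b c 1 0 α β κ) (j : ℕ) {w η σ : ℝ} (hw : 0 < w - η)
    (hσ : Nd (Ty (fun _ : Fin 1 => w - η) (fun _ => w + η) {c | c 0 ≠ 0}) σ) {ε : ℝ}
    (hε : 0 < ε) : LogNull {N : ℕ | ε * N < |(pairCount a b c 1 0 α β (fun t d =>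
      Ty (fun _ : Fin 1 => w - η) (fun _ => w + η) {c | c 0 ≠ 0} (cf a b c t d j)) N : ℝ)
        - σ * κ * N|} := by
  have h1 := (hL 0 1 (fun i : Fin 0 => i.elim0) (fun i : Fin 0 => i.elim0)
    (fun _ : Fin 1 => w - η) (fun _ => w + η) Set.univ {c | c 0 ≠ 0} 1 σ
    (fun i => i.elim0) (fun _ => hw) nd_triv hσ 1 one_pos 0 0 ε hε).1 j
  refine null_mono h1 fun N hN => ?_
  simp only [Set.mem_ofPred_eq] at hN ⊢
  have e1 : (fun t d => Ty (fun i : Fin 0 => i.elim0) (fun i : Fin 0 => i.elim0) Set.univ d ∧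
      Ty (fun _ : Fin 1 => w - η) (fun _ => w + η) {c | c 0 ≠ 0} (cf a b c t d j) ∧
      ArithmeticFunction.cardFactors d ≡ 0 [MOD 1] ∧
      ArithmeticFunction.cardFactors (cf a b c t d j) ≡ 0 [MOD 1]) =
      fun t d => Ty (fun _ : Fin 1 => w - η) (fun _ => w + η) {c | c 0 ≠ 0}
        (cf a b c t d j) := by
    funext t d
    apply propext
    constructor
    · exact fun h => h.2.1
    · exact fun h => ⟨by simp [Ty], h, Nat.modEq_one, Nat.modEq_one⟩
  rw [e1]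
  have e2 : 1 * σ * κ / ((1 : ℕ) : ℝ) ^ 2 * (N : ℝ) = σ * κ * N := by
    push_cast
    ring
  rw [e2]
  exact hN

/-- the count as a sum -/
theorem pc_eq (hf : ∀ t : ℕ, fv a b c t ≠ 0) (α β : ℝ) (P : ℕ → ℕ → Prop)
    [∀ t, DecidablePred (P t)] (N : ℕ) : (pairCount a b c 1 0 α β P N : ℝ) =
    ∑ t ∈ Finset.Icc 1 N, (((nearG a b c α β t).filter (P t)).card : ℝ) := by
  unfold pairCount
  rw [Finset.filter_true_of_mem fun t _ => Nat.modEq_one]
  push_cast
  exact Finset.sum_congr rfl fun t _ => by rw [EndH20.ncard_eq (hf t) α β (P t)]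

/-- the pairs for which the event changes -/
theorem bad_null (hOk : StOk) (hDen : StDen) (ha : 0 < a) (hf : ∀ t : ℕ, fv a b c t ≠ 0)
    {α β κ : ℝ} (hβ : 0 < β) (hκ : 0 < κ) (hL : LawTy a b c 1 0 α β κ) (E : Ev)
    (hu : ∀ i, 0 < E.u i) {p : ℕ} (hp : p.Prime) (i : ℕ) {ε : ℝ} (hε : 0 < ε)
    (P : ℕ → ℕ → Prop) [∀ t, DecidablePred (P t)]
    (hP : ∀ t d, d ∈ nearG a b c α β t → P t d → p * d ∣ (fv a b c t).natAbs ∧
      ¬ (E.Is (wslot a b c t d (some (i * p)) / p) ↔ E.Is (wslot a b c t d (some (i * p))))) :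
    LogNull {N : ℕ | ε * N <
      ∑ t ∈ Finset.Icc 1 N, (((nearG a b c α β t).filter (P t)).card : ℝ)} := by
  classical
  have hA1 : 1 ≤ a.natAbs := Int.natAbs_pos.2 ha.ne'
  set W : Finset ℝ := (Finset.univ.image E.u ∪ Finset.univ.image E.v).filter
    (fun w => 0 < w ∧ w < 1) with hW
  have hWE : ∀ i, ∀ w : ℝ, (w = E.u i ∨ w = E.v i) → 0 < w → w < 1 → w ∈ W := by
    intro i w hw1 hw2 hw3
    rw [hW, Finset.mem_filter, Finset.mem_union]
    refine ⟨?_, hw2, hw3⟩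
    rcases hw1 with h | h
    · exact Or.inl (Finset.mem_image.2 ⟨i, Finset.mem_univ _, h.symm⟩)
    · exact Or.inr (Finset.mem_image.2 ⟨i, Finset.mem_univ _, h.symm⟩)
  have hWc : (0 : ℝ) < (W.card : ℝ) + 1 := by positivity
  have hw : ∀ w ∈ W, ∃ η : ℝ, 0 < η ∧ 0 < w - η ∧ ∃ σ : ℝ, σ ≤ ε / (4 * κ * (W.card + 1)) ∧
      Nd (Ty (fun _ : Fin 1 => w - η) (fun _ => w + η) {c | c 0 ≠ 0}) σ := by
    intro w hw
    obtain ⟨η, hη, hη2, hη3⟩ := dens_w (Finset.mem_filter.1 hw).2.1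
      (show 0 < ε / (4 * κ * (W.card + 1)) by positivity)
    obtain ⟨σ, hσ⟩ := exists_nd hOk hDen (fun _ : Fin 1 => w - η) (fun _ => w + η)
      (fun _ => hη2) {c | c 0 ≠ 0}
    exact ⟨η, hη, hη2, σ, hη3 σ hσ, hσ⟩
  choose! η hη hη2 σ hσ hNd using hw
  set Bw : ℝ → ℕ → ℕ → Prop := fun w t d =>
    Ty (fun _ : Fin 1 => w - η w) (fun _ => w + η w) {c | c 0 ≠ 0} (cf a b c t d (i * p)) with hBw
  have hBn : ∀ w ∈ W, LogNull {N : ℕ | ε / (4 * (W.card + 1)) * N <
      |(pairCount a b c 1 0 α β (Bw w) N : ℝ) - σ w * κ * N|} := fun w hw =>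
    one_slot hL (i * p) (hη2 w hw) (hNd w hw) (by positivity)
  obtain ⟨n0, hn0⟩ := is_ne E hu hA1 hp.one_le W hWE η hη hη2
  obtain ⟨t1, ht1⟩ := cf_large (b := b) (c := c) (α := α) ha hβ (i * p) n0
  obtain ⟨C1, hC1⟩ := pc_bdd hf 1 0 α β t1
  have hle := pc_le hf 1 0 α β W Bw P (fun t _ => t < t1) (fun t _ => t < t1)
    (fun t d hd h1 => by
      by_cases ht : t < t1
      · exact Or.inl ht
      · refine Or.inr (Or.inr ?_)
        obtain ⟨h2, h3⟩ := hP t d hd h1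
        have hn := ht1 t (not_lt.1 ht) d hd
        have hF : (fv a b c t).natAbs ≠ 0 := Int.natAbs_ne_zero.2 (hf t)
        have hpd : p * d ≠ 0 := fun h => hF (by rw [h] at h2; exact Nat.eq_zero_of_zero_dvd h2)
        have hd0 : 0 < d := Nat.pos_of_ne_zero (right_ne_zero_of_mul hpd)
        have e1 : cf a b c t d (i * p) = p * cf a b c t (p * d) i :=
          K99.slot_shift hp.pos hd0 h2 i
        have e2 : wslot a b c t d (some (i * p)) = a.natAbs * (p * cf a b c t (p * d) i) := by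
          rw [← e1]
          rfl
        have e3 : wslot a b c t d (some (i * p)) / p = a.natAbs * cf a b c t (p * d) i := by
          rw [e2, show a.natAbs * (p * cf a b c t (p * d) i) =
            p * (a.natAbs * cf a b c t (p * d) i) by ring, Nat.mul_div_cancel_left _ hp.pos]
        rw [e3, e2] at h3
        rw [e1] at hn
        obtain ⟨w, hwW, h4⟩ := hn0 _ hn h3
        refine ⟨w, hwW, ?_⟩
        show Ty _ _ _ (cf a b c t d (i * p))
        rw [e1]
        exact h4)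
  obtain ⟨N1, hN1⟩ := exists_nat_ge (8 * C1 / ε + 1)
  refine null_mono (null_union (lognull_lt N1) (lognull_union W _ hBn)) fun N hN => ?_
  by_contra hno
  rw [Set.mem_union, not_or] at hno
  obtain ⟨g1, g3⟩ := hno
  simp only [Set.mem_ofPred_eq, not_lt, not_exists, not_and] at g1 g3 hN
  rw [← pc_eq hf α β P N] at hN
  have hNp : (0 : ℝ) < N := by
    have h1 : (8 * C1 / ε + 1 : ℝ) ≤ N := hN1.trans (by exact_mod_cast g1)
    have h2 : (0 : ℝ) ≤ 8 * C1 / ε := by positivity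
    linarith
  have hC1N : (C1 : ℝ) ≤ ε / 8 * N := by
    have h1 : (8 * C1 / ε + 1 : ℝ) ≤ N := hN1.trans (by exact_mod_cast g1)
    have h2 : (8 * C1 / ε : ℝ) ≤ N := by linarith
    rw [div_le_iff₀ hε] at h2
    linarith
  have hB : ∑ w ∈ W, (pairCount a b c 1 0 α β (Bw w) N : ℝ) ≤ ε / 2 * N := by
    have h1 : ∀ w ∈ W, (pairCount a b c 1 0 α β (Bw w) N : ℝ) ≤
        ε / (2 * (W.card + 1)) * N := by
      intro w hw
      have h2 := (abs_le.1 (g3 w hw)).2
      have h3 : σ w * κ ≤ ε / (4 * (W.card + 1)) := by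
        calc σ w * κ ≤ ε / (4 * κ * (W.card + 1)) * κ :=
              mul_le_mul_of_nonneg_right (hσ w hw) hκ.le
          _ = ε / (4 * (W.card + 1)) := by
              field_simp
      have h5 : ε / (2 * (W.card + 1)) * (N : ℝ) =
          ε / (4 * (W.card + 1)) * N + ε / (4 * (W.card + 1)) * N := by
        field_simp
        ring
      have h6 : σ w * κ * N ≤ ε / (4 * (W.card + 1)) * N :=
        mul_le_mul_of_nonneg_right h3 hNp.le
      linarith
    refine (Finset.sum_le_sum h1).trans ?_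
    rw [Finset.sum_const, nsmul_eq_mul]
    have h6 : (W.card : ℝ) * (ε / (2 * (W.card + 1)) * N) ≤
        ((W.card : ℝ) + 1) * (ε / (2 * (W.card + 1)) * N) :=
      mul_le_mul_of_nonneg_right (by linarith) (by positivity)
    refine h6.trans (le_of_eq ?_)
    field_simp
  have hR : (pairCount a b c 1 0 α β (fun t _ => t < t1) N : ℝ) ≤ ε / 8 * N :=
    le_trans (by exact_mod_cast hC1 N) hC1N
  have k1 : (pairCount a b c 1 0 α β P N : ℝ) ≤
      pairCount a b c 1 0 α β (fun t _ => t < t1) N +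
      pairCount a b c 1 0 α β (fun t _ => t < t1) N +
      ∑ w ∈ W, (pairCount a b c 1 0 α β (Bw w) N : ℝ) := by
    exact_mod_cast hle N
  have h7 : 0 < ε * N := mul_pos hε hNp
  linarith

/-- the slots are positive and divisible by `p` -/
theorem slot_eq (ha : 0 < a) (hf : ∀ t : ℕ, fv a b c t ≠ 0) {p t d i : ℕ} (hp : p.Prime)
    (h2 : p * d ∣ (fv a b c t).natAbs) : ∃ n : ℕ, n ≠ 0 ∧
    wslot a b c t d (some (i * p)) = p * n ∧ wslot a b c t d (some (i * p)) / p = n := by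
  have hF : (fv a b c t).natAbs ≠ 0 := Int.natAbs_ne_zero.2 (hf t)
  have hpd : p * d ≠ 0 := fun h => hF (by rw [h] at h2; exact Nat.eq_zero_of_zero_dvd h2)
  have hd0 : 0 < d := Nat.pos_of_ne_zero (right_ne_zero_of_mul hpd)
  have e1 : cf a b c t d (i * p) = p * cf a b c t (p * d) i := K99.slot_shift hp.pos hd0 h2 i
  have hne : cf a b c t (p * d) i ≠ 0 := K99.cf_ne hf h2 i
  have e2 : wslot a b c t d (some (i * p)) = p * (a.natAbs * cf a b c t (p * d) i) := by
    have : wslot a b c t d (some (i * p)) = a.natAbs * cf a b c t d (i * p) := rfl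
    rw [this, e1]
    ring
  refine ⟨a.natAbs * cf a b c t (p * d) i, mul_ne_zero (Int.natAbs_ne_zero.2 ha.ne') hne, e2, ?_⟩
  rw [e2, Nat.mul_div_cancel_left _ hp.pos]

end D11

open D11 in
/-- **T2** -/
theorem stDilE_11 : StDilE := by
  intro hOk hDen a b c ha hf hlaw E δ hE hD p hp
  have hu : ∀ i, 0 < E.u i := fun i => (hE i).1
  refine ⟨fun z hz i B hB ε hε => ?_, fun i B hB ε hε => ?_⟩
  · have hB0 : (0 : ℝ) < B := by linarith
    obtain ⟨κ, hκ, _, hL⟩ := hlaw (1 / B) 1 (by positivity)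
      ((div_lt_one hB0).2 (by linarith))
    have hz0 : z ≠ 0 := by
      intro h
      rw [h, norm_zero] at hz
      exact zero_ne_one hz
    refine bad_null hOk hDen ha hf one_pos hκ hL E hu hp i hε _ fun t d _ h => ⟨h.1, fun hiff => ?_⟩
    apply h.2
    obtain ⟨n, hn0, e1, e2⟩ := slot_eq (i := i) ha hf hp h.1
    rw [e2, e1] at hiff ⊢
    unfold AN.wz AN.ind
    rw [K99.om_pmul hp hn0, pow_succ]
    by_cases hn : E.Is n
    · rw [if_pos hn, if_pos (hiff.1 hn)]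
      field_simp
    · rw [if_neg hn, if_neg fun h5 => hn (hiff.2 h5)]
      simp
  · have hB0 : (0 : ℝ) < B := by linarith
    obtain ⟨κ, hκ, _, hL⟩ := hlaw (1 / B) 1 (by positivity)
      ((div_lt_one hB0).2 (by linarith))
    refine bad_null hOk hDen ha hf one_pos hκ hL E hu hp i hε _ fun t d _ h => ⟨h.1, fun hiff => ?_⟩
    apply h.2
    unfold AN.wd AN.ind
    by_cases hn : E.Is (wslot a b c t d (some (i * p)) / p)
    · rw [if_pos hn, if_pos (hiff.1 hn), one_mul]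
    · rw [if_neg hn, if_neg fun h5 => hn (hiff.2 h5), one_mul]

end Pool.Agent.Lib.MP_a17b09_nt.QT
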