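import Pool.Agent.Lib.MP_a17b09_nt.QT.StmtsT3
import Pool.Agent.Lib.MP_a17b09_nt.AN.TProg_11

/-!
# Project QT (MP_a17b09), stage 2, row T4 (helper64): types, and without the factor `a`
-/

set_option autoImplicit false

open Filter Topology Finset

namespace Pool.Agent.Lib.MP_a17b09_nt.QT

open CH CH.PE HY SP
open PQ (B1)
open AN (Ev Dens Ty Nd StOk StDen cntN)
open AN.Ty98 (box mem_box is_iff ty_iff ind_ty nd_ty lognull_union pc_sum exists_ok exists_nd)
open AN.Da98 (cnt_ne ty_win dens_w lognull_lt pc_le pc_bdd)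
open AS (wslot cf LawTy)
open AS.Ty3 (cf_large cf_pos near_mem nd_triv)
open SPH (vl)

namespace TH64

/-- the counts for `n` and for `A n` differ only at primes of `n` near the ends of the window -/
theorem cnt_ne2 {A : ℕ} (hA : 1 ≤ A) {u v η : ℝ} (hu : 0 < u) (hη : 0 < η) :
    ∃ n0 : ℕ, ∀ n : ℕ, n0 ≤ n → cntN n u v n ≠ cntN ((A * n : ℕ) : ℝ) u v (A * n) →
      ∃ w : ℝ, (w = u ∨ w = v) ∧ 0 < w ∧ w < 1 ∧ ∃ p : ℕ, p.Prime ∧ p ∣ n ∧
        (n : ℝ) ^ (w - η) < p ∧ (p : ℝ) ≤ (n : ℝ) ^ (w + η) := by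
  have hA1 : (1 : ℝ) ≤ A := by exact_mod_cast hA
  obtain ⟨w0, hw0, hw0u, hw0v⟩ : ∃ w0 : ℝ, 0 < w0 ∧ w0 ≤ u ∧ (0 < v → w0 ≤ v) := by
    by_cases hv : 0 < v
    · exact ⟨min u v, lt_min hu hv, min_le_left _ _, fun _ => min_le_right _ _⟩
    · exact ⟨u, hu, le_rfl, fun h => absurd h hv⟩
  set η' : ℝ := min (min (η / 2) (w0 / 2)) 1 with hη'
  have hη'0 : 0 < η' := lt_min (lt_min (by positivity) (by positivity)) one_pos
  have hη'1 : η' ≤ η / 2 := (min_le_left _ _).trans (min_le_left _ _)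
  have hη'2 : η' ≤ w0 / 2 := (min_le_left _ _).trans (min_le_right _ _)
  have hη'3 : η' ≤ 1 := min_le_right _ _
  obtain ⟨n0, hn0⟩ := cnt_ne hA (v := v) hu hη'0
  have l1 : ∀ᶠ n : ℕ in atTop, (A : ℝ) ≤ (n : ℝ) ^ (w0 / 2) :=
    ((tendsto_rpow_atTop (by positivity : (0 : ℝ) < w0 / 2)).comp
      tendsto_natCast_atTop_atTop).eventually_ge_atTop _
  have l2 : ∀ᶠ n : ℕ in atTop, (A : ℝ) ^ (2 : ℝ) ≤ (n : ℝ) ^ (η / 2) :=
    ((tendsto_rpow_atTop (by positivity : (0 : ℝ) < η / 2)).comp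
      tendsto_natCast_atTop_atTop).eventually_ge_atTop _
  obtain ⟨n1, hn1⟩ := eventually_atTop.1 (l1.and (l2.and (eventually_ge_atTop 1)))
  refine ⟨max n0 n1, fun n hn hne => ?_⟩
  obtain ⟨w, hw1, hw2, hw3, p, hp1, hp2, hp3, hp4⟩ := hn0 n ((le_max_left _ _).trans hn) hne
  obtain ⟨k1, k2, k3⟩ := hn1 n ((le_max_right _ _).trans hn)
  have hww : w0 ≤ w := by
    rcases hw1 with h | h
    · rw [h]; exact hw0u
    · rw [h]; exact hw0v (h ▸ hw2)
  have hn1' : (1 : ℝ) ≤ n := by exact_mod_cast k3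
  have hnA : (n : ℝ) ≤ ((A * n : ℕ) : ℝ) := by
    push_cast
    nlinarith
  have hlow : (n : ℝ) ^ (w - η') < p := by
    refine lt_of_le_of_lt ?_ hp3
    exact Real.rpow_le_rpow (by linarith) hnA (by linarith)
  have hpA : (A : ℝ) < p := by
    refine lt_of_le_of_lt (k1.trans ?_) hlow
    exact Real.rpow_le_rpow_of_exponent_le hn1' (by linarith)
  have hpA' : ¬ p ∣ A := by
    intro h
    have h1 := Nat.le_of_dvd hA h
    have h2 : (p : ℝ) ≤ A := by exact_mod_cast h1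
    linarith
  refine ⟨w, hw1, hw2, hw3, p, hp1, (hp1.dvd_mul.1 hp2).resolve_left hpA', ?_, ?_⟩
  · refine lt_of_le_of_lt ?_ hlow
    exact Real.rpow_le_rpow_of_exponent_le hn1' (by linarith)
  · refine hp4.trans ?_
    push_cast
    rw [Real.mul_rpow (by linarith) (by linarith)]
    calc (A : ℝ) ^ (w + η') * (n : ℝ) ^ (w + η')
        ≤ (A : ℝ) ^ (2 : ℝ) * (n : ℝ) ^ (w + η / 2) := by
          apply mul_le_mul (Real.rpow_le_rpow_of_exponent_le hA1 (by linarith))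
            (Real.rpow_le_rpow_of_exponent_le hn1' (by linarith)) (by positivity) (by positivity)
      _ ≤ (n : ℝ) ^ (η / 2) * (n : ℝ) ^ (w + η / 2) :=
          mul_le_mul_of_nonneg_right k2 (by positivity)
      _ = (n : ℝ) ^ (w + η) := by
          rw [← Real.rpow_add (by linarith)]
          congr 1
          ring

variable {a b c : ℤ} {h t₀ : ℕ} {α β : ℝ}

/-- few pairs for which the type of the slot changes under the factor `A` -/
theorem few (hOk : StOk) (hDen : StDen) (hf : ∀ t : ℕ, fv a b c t ≠ 0) {A : ℕ} (hA1 : 1 ≤ A)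
    {x : ℕ → ℕ → ℕ} {κ : ℝ} (hκ : 0 < κ)
    (hx : ∀ n0 : ℕ, ∃ t1 : ℕ, ∀ t : ℕ, t1 ≤ t → ∀ d ∈ nearG a b c α β t, n0 ≤ x t d)
    (hN : ∀ (m : ℕ) (u v : Fin m → ℝ) (S : Set (Fin m → ℕ)) (δ : ℝ), (∀ i, 0 < u i) →
      Nd (Ty u v S) δ → ∀ ε : ℝ, 0 < ε → LogNull {N : ℕ | ε * N <
      |(pairCount a b c h t₀ α β (fun t d => Ty u v S (x t d)) N : ℝ) - δ * κ * N|})
    {m : ℕ} (u' v' : Fin m → ℝ) (hu' : ∀ i, 0 < u' i) (S' : Set (Fin m → ℕ)) {ε : ℝ}
    (hε : 0 < ε) : LogNull {N : ℕ | ε * N < (pairCount a b c h t₀ α β (fun t d =>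
      ¬ (Ty u' v' S' (x t d) ↔ Ty u' v' S' (A * x t d))) N : ℝ)} := by
  classical
  set W : Finset ℝ := (Finset.univ.image u' ∪ Finset.univ.image v').filter
    (fun w => 0 < w ∧ w < 1) with hW
  have hWc : (0 : ℝ) < (W.card : ℝ) + 1 := by positivity
  set P1 : ℕ → ℕ → Prop := fun t d => ¬ (Ty u' v' S' (x t d) ↔ Ty u' v' S' (A * x t d))
    with hP1
  have hw : ∀ w ∈ W, ∃ η : ℝ, 0 < η ∧ 0 < w - η ∧ ∃ σ : ℝ, σ ≤ ε / (4 * κ * (W.card + 1)) ∧
      Nd (Ty (fun _ : Fin 1 => w - η) (fun _ => w + η) {c | c 0 ≠ 0}) σ := by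
    intro w hw
    obtain ⟨η, hη, hη2, hη3⟩ := dens_w (Finset.mem_filter.1 hw).2.1
      (show 0 < ε / (4 * κ * (W.card + 1)) by positivity)
    obtain ⟨σ, hσ⟩ := exists_nd hOk hDen (fun _ : Fin 1 => w - η) (fun _ => w + η)
      (fun _ => hη2) {c | c 0 ≠ 0}
    exact ⟨η, hη, hη2, σ, hη3 σ hσ, hσ⟩
  choose! η hη hη2 σ hσ hNd using hw
  set Bw : ℝ → ℕ → ℕ → Prop := fun w t d =>
    Ty (fun _ : Fin 1 => w - η w) (fun _ => w + η w) {c | c 0 ≠ 0} (x t d) with hBw
  have hBn : ∀ w ∈ W, LogNull {N : ℕ | ε / (4 * (W.card + 1)) * N <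
      |(pairCount a b c h t₀ α β (Bw w) N : ℝ) - σ w * κ * N|} := fun w hw =>
    hN 1 (fun _ : Fin 1 => w - η w) (fun _ => w + η w) {c | c 0 ≠ 0} (σ w)
      (fun _ => hη2 w hw) (hNd w hw) (ε / (4 * (W.card + 1))) (by positivity)
  -- the counts differ only near the ends
  have hn0 : ∀ i : Fin m, ∃ n0 : ℕ, ∀ n : ℕ, n0 ≤ n →
      cntN n (u' i) (v' i) n ≠ cntN ((A * n : ℕ) : ℝ) (u' i) (v' i) (A * n) →
      ∃ w ∈ W, ∃ p : ℕ, p.Prime ∧ p ∣ n ∧
      (n : ℝ) ^ (w - η w) < p ∧ (p : ℝ) ≤ (n : ℝ) ^ (w + η w) := by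
    intro i
    have hpos : ∀ w ∈ W, 0 < η w := hη
    set η0 : ℝ := min (if u' i ∈ W then η (u' i) else 1) (if v' i ∈ W then η (v' i) else 1)
      with hη0
    have h1 : 0 < η0 := by
      rw [hη0]
      refine lt_min ?_ ?_
      · split_ifs with hh
        · exact hpos _ hh
        · exact one_pos
      · split_ifs with hh
        · exact hpos _ hh
        · exact one_pos
    obtain ⟨n0, hn0⟩ := cnt_ne2 hA1 (v := v' i) (hu' i) h1
    refine ⟨max n0 1, fun n hn hne => ?_⟩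
    obtain ⟨w, hw1, hw2, hw3, p, hp1, hp2, hp3, hp4⟩ := hn0 n ((le_max_left _ _).trans hn) hne
    have hwW : w ∈ W := by
      rw [hW, Finset.mem_filter, Finset.mem_union]
      refine ⟨?_, hw2, hw3⟩
      rcases hw1 with h | h
      · exact Or.inl (Finset.mem_image.2 ⟨i, Finset.mem_univ _, h.symm⟩)
      · exact Or.inr (Finset.mem_image.2 ⟨i, Finset.mem_univ _, h.symm⟩)
    have hle : η0 ≤ η w := by
      rcases hw1 with h | h
      · subst h
        rw [hη0, if_pos hwW]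
        exact min_le_left _ _
      · subst h
        rw [hη0, if_pos hwW]
        exact min_le_right _ _
    have hb : (1 : ℝ) ≤ (n : ℝ) := by
      exact_mod_cast (le_max_right _ _).trans hn
    exact ⟨w, hwW, p, hp1, hp2,
      lt_of_le_of_lt (Real.rpow_le_rpow_of_exponent_le hb (by linarith)) hp3,
      hp4.trans (Real.rpow_le_rpow_of_exponent_le hb (by linarith))⟩
  choose n0 hn0' using hn0
  obtain ⟨t1, ht1⟩ := hx (max (Finset.univ.sup n0) 1)
  obtain ⟨C1, hC1⟩ := pc_bdd hf h t₀ α β t1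
  have hdiff : ∀ t d : ℕ, d ∈ nearG a b c α β t → ¬ t < t1 → P1 t d → ∃ w ∈ W, Bw w t d := by
    intro t d hd ht hne
    have hn := ht1 t (not_lt.1 ht) d hd
    set n := x t d with hndef
    have hn1 : 1 ≤ n := (le_max_right _ _).trans hn
    have hex : ∃ i : Fin m, cntN n (u' i) (v' i) n ≠
        cntN ((A * n : ℕ) : ℝ) (u' i) (v' i) (A * n) := by
      by_contra hno
      push Not at hno
      apply hne
      unfold Ty
      rw [funext hno]
    obtain ⟨i, hi⟩ := hex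
    have h1 : n0 i ≤ n := (Finset.le_sup (f := n0) (Finset.mem_univ i)).trans
      ((le_max_left _ _).trans hn)
    obtain ⟨w, hwW, hp⟩ := hn0' i n h1 hi
    exact ⟨w, hwW, (ty_win hn1).2 hp⟩
  have hle1 := pc_le hf h t₀ α β W Bw P1 (fun _ _ => False) (fun t _ => t < t1)
    (fun t d hd h1 => by
      by_cases ht : t < t1
      · exact Or.inr (Or.inl ht)
      · exact Or.inr (Or.inr (hdiff t d hd ht h1)))
  have hfalse : ∀ N : ℕ, pairCount a b c h t₀ α β (fun _ _ => False) N = 0 := by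
    intro N
    unfold pairCount
    refine Finset.sum_eq_zero fun t _ => ?_
    simp
  obtain ⟨N1, hN1⟩ := exists_nat_ge (4 * C1 / ε + 1)
  -- the exceptional set
  have hU : LogNull ({N : ℕ | N < N1} ∪
      {N | ∃ w ∈ W, N ∈ {N : ℕ | ε / (4 * (W.card + 1)) * N <
      |(pairCount a b c h t₀ α β (Bw w) N : ℝ) - σ w * κ * N|}}) := by
    have g : ∀ E1 E2 : Set ℕ, LogNull E1 → LogNull E2 → LogNull (E1 ∪ E2) := by
      intro E1 E2 h1 h2
      refine EndS.LogNull.mono (lognull_union (Finset.univ : Finset Bool)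
        (fun i => if i then E1 else E2) fun i _ => by cases i <;> simpa) fun n hn => ?_
      rcases hn with hn | hn
      · exact ⟨true, Finset.mem_univ _, by simpa using hn⟩
      · exact ⟨false, Finset.mem_univ _, by simpa using hn⟩
    exact g _ _ (lognull_lt N1) (lognull_union W _ hBn)
  refine EndS.LogNull.mono hU fun N hN => ?_
  by_contra hno
  rw [Set.mem_union, not_or] at hno
  obtain ⟨g1, g3⟩ := hno
  simp only [Set.mem_ofPred_eq, not_lt, not_exists, not_and] at g1 g3 hN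
  have hNp : (0 : ℝ) < N := by
    have h1 : (4 * C1 / ε + 1 : ℝ) ≤ N := hN1.trans (by exact_mod_cast g1)
    have h2 : (0 : ℝ) ≤ 4 * C1 / ε := by positivity
    linarith
  have hC1N : (C1 : ℝ) ≤ ε / 4 * N := by
    have h1 : (4 * C1 / ε + 1 : ℝ) ≤ N := hN1.trans (by exact_mod_cast g1)
    have h2 : (4 * C1 / ε : ℝ) ≤ N := by linarith
    rw [div_le_iff₀ hε] at h2
    linarith
  have hB : ∑ w ∈ W, (pairCount a b c h t₀ α β (Bw w) N : ℝ) ≤ ε / 2 * N := by
    have h1 : ∀ w ∈ W, (pairCount a b c h t₀ α β (Bw w) N : ℝ) ≤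
        ε / (2 * (W.card + 1)) * N := by
      intro w hw
      have h2 := (abs_le.1 (g3 w hw)).2
      have h3 : σ w * κ ≤ ε / (4 * (W.card + 1)) := by
        calc σ w * κ ≤ ε / (4 * κ * (W.card + 1)) * κ :=
              mul_le_mul_of_nonneg_right (hσ w hw) hκ.le
          _ = ε / (4 * (W.card + 1)) := by
              field_simp
      have h5 : ε / (2 * (W.card + 1)) * (N : ℝ) =
          ε / (4 * (W.card + 1)) * N + ε / (4 * (W.card + 1)) * N := by
        field_simp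
        ring
      have h6 : σ w * κ * N ≤ ε / (4 * (W.card + 1)) * N :=
        mul_le_mul_of_nonneg_right h3 hNp.le
      linarith
    refine (Finset.sum_le_sum h1).trans ?_
    rw [Finset.sum_const, nsmul_eq_mul]
    have h6 : (W.card : ℝ) * (ε / (2 * (W.card + 1)) * N) ≤
        ((W.card : ℝ) + 1) * (ε / (2 * (W.card + 1)) * N) :=
      mul_le_mul_of_nonneg_right (by linarith) (by positivity)
    refine h6.trans (le_of_eq ?_)
    field_simp
  have hR : (pairCount a b c h t₀ α β (fun t _ => t < t1) N : ℝ) ≤ ε / 4 * N :=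
    le_trans (by exact_mod_cast hC1 N) hC1N
  have k1 : (pairCount a b c h t₀ α β P1 N : ℝ) ≤
      pairCount a b c h t₀ α β (fun t _ => t < t1) N +
      ∑ w ∈ W, (pairCount a b c h t₀ α β (Bw w) N : ℝ) := by
    have := hle1 N
    rw [hfalse, zero_add] at this
    exact_mod_cast this
  have : 0 < ε / 4 * N := by positivity
  linarith

theorem pc_eq (hf : ∀ t : ℕ, fv a b c t ≠ 0) (P : ℕ → ℕ → Prop) [∀ t d, Decidable (P t d)]
    (N : ℕ) :
    (pairCount a b c 1 0 α β P N : ℝ) = ∑ t ∈ Finset.Icc 1 N, ∑ d ∈ nearG a b c α β t,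
      if P t d then (1 : ℝ) else 0 := by
  unfold pairCount
  rw [Finset.filter_true_of_mem (fun t _ => Nat.modEq_one)]
  push_cast
  refine Finset.sum_congr rfl fun t _ => ?_
  rw [EndH20.ncard_eq (hf t) α β (P t), ← Finset.sum_filter, Finset.sum_const, nsmul_eq_mul,
    mul_one]

theorem iT_mod (T : ℕ → Prop) (δ : ℝ) (k r n : ℕ) : iT T δ k (r % k) n = iT T δ k r n := by
  classical
  have h1 : (T n ∧ Omn n ≡ r % k [MOD k]) ↔ (T n ∧ Omn n ≡ r [MOD k]) := by
    have h2 : r % k ≡ r [MOD k] := Nat.mod_modEq r k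
    exact ⟨fun h => ⟨h.1, h.2.trans h2⟩, fun h => ⟨h.1, h.2.trans h2.symm⟩⟩
  unfold iT
  by_cases h3 : T n ∧ Omn n ≡ r [MOD k]
  · rw [if_pos h3, if_pos (h1.2 h3)]
  · rw [if_neg h3, if_neg (fun h => h3 (h1.1 h))]

open Classical in
/-- the sum over the exact counts -/
theorem iT_sum {m : ℕ} {u v : Fin m → ℝ} (hu : ∀ i, 0 < u i) (S : Set (Fin m → ℕ)) {δ : ℝ}
    (E : (Fin m → ℕ) → Ev) (D : (Fin m → ℕ) → ℝ)
    (hi : ∀ c, ∀ n : ℕ, 1 ≤ n → ((⟨m, u, v, c⟩ : Ev).Is n ↔ (E c).Is n))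
    (eδ : δ = ∑ c ∈ (box u).filter (fun c => c ∈ S), D c) (k r : ℕ) {n : ℕ} (hn : 1 ≤ n) :
    iT (Ty u v S) δ k r n = ∑ c ∈ (box u).filter (fun c => c ∈ S), iT (E c).Is (D c) k r n := by
  unfold iT
  rw [Finset.sum_sub_distrib, eδ]
  congr 1
  · by_cases hO : Omn n ≡ r [MOD k]
    · have h1 := congrArg (fun x : ℕ => (x : ℂ)) (ind_ty (v := v) hu S hn)
      simp only [Nat.cast_ite, Nat.cast_sum, Nat.cast_one, Nat.cast_zero] at h1
      rw [show (if Ty u v S n ∧ Omn n ≡ r [MOD k] then (1 : ℂ) else 0) =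
        if Ty u v S n then 1 else 0 by simp [hO], h1]
      refine Finset.sum_congr rfl fun c _ => ?_
      by_cases h2 : (E c).Is n
      · rw [if_pos ((hi c n hn).2 h2), if_pos ⟨h2, hO⟩]
      · rw [if_neg (fun h => h2 ((hi c n hn).1 h)), if_neg (fun h => h2 h.1)]
    · rw [if_neg (fun h => hO h.2)]
      exact (Finset.sum_eq_zero fun c _ => if_neg (fun h => hO h.2)).symm
  · push_cast
    rw [Finset.sum_div]

/-- the factor `A` -/
theorem iT_mul (T : ℕ → Prop) [∀ n, Decidable (T n)] (δ : ℝ) (k r : ℕ) {A x : ℕ} (hA : 1 ≤ A)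
    (hx : 1 ≤ x) :
    ‖iT T δ k r x - iT T δ k (r + Omn A) (A * x)‖ ≤ if ¬ (T x ↔ T (A * x)) then (1 : ℝ) else 0 := by
  classical
  have e1 : Omn (A * x) = Omn A + Omn x := by
    unfold CH.Omn
    exact ArithmeticFunction.cardFactors_mul (by omega) (by omega)
  have e2 : Omn (A * x) ≡ r + Omn A [MOD k] ↔ Omn x ≡ r [MOD k] := by
    rw [e1, add_comm (Omn A)]
    exact ⟨fun h => Nat.ModEq.add_right_cancel' _ h, fun h => h.add_right _⟩
  unfold iT
  rw [sub_sub_sub_cancel_right]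
  by_cases h0 : T x ↔ T (A * x)
  · have h1 : (T x ∧ Omn x ≡ r [MOD k]) ↔ (T (A * x) ∧ Omn (A * x) ≡ r + Omn A [MOD k]) := by
      rw [e2, h0]
    simp only [h1, sub_self, norm_zero]
    split_ifs <;> norm_num
  · rw [if_pos h0]
    split_ifs <;> simp

end TH64

open TH64 in
/-- (T4) types, and without the factor `a` -/
theorem stTypH_64 : StTypH := by
  classical
  intro hOk hDen a b c ha hf hLaw κ hK hQ m u v S δ hu hδ k hk j hj ε hε
  choose E D hE hD hi hN using fun c => exists_ok hOk hDen v hu c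
  set G := (box u).filter (fun c => c ∈ S) with hG
  have eδ : δ = ∑ c ∈ G, D c := tendsto_nhds_unique hδ (nd_ty hu S D hN)
  have hA1 : 1 ≤ a.natAbs := Int.natAbs_pos.2 ha.ne'
  set A := a.natAbs with hA
  have hGc : (0 : ℝ) < (G.card : ℝ) + 1 := by positivity
  set e1 : ℝ := ε / (2 * ((G.card : ℝ) + 1)) with he1
  have he10 : 0 < e1 := by positivity
  have hq : ∀ i : (Fin m → ℕ) × ℕ, ∃ B₀ : ℝ, 2 ≤ B₀ ∧ ∀ B : ℝ, B₀ ≤ B →
      LogNull {N : ℕ | ∃ h : ℕ → ℂ, CMul h ∧ e1 * Real.log B * N < ∑ t ∈ Finset.Icc 1 N,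
        ‖∑ d ∈ nearG a b c (1 / B) 1 t, h d * iT (E i.1).Is (D i.1) k i.2
          (wslot a b c t d (some j))‖} := fun i =>
    hQ (E i.1) (D i.1) (hE i.1) (hD i.1) k hk i.2 j hj e1 he10
  choose B1 hB12 hB1 using hq
  set G2 := G ×ˢ Finset.range k with hG2
  refine ⟨2 + ∑ i ∈ G2, B1 i, ?_, fun B hB => ?_⟩
  · have : 0 ≤ ∑ i ∈ G2, B1 i := Finset.sum_nonneg fun i _ => by linarith [hB12 i]
    linarith
  have hB2 : 2 ≤ B := by
    have : 0 ≤ ∑ i ∈ G2, B1 i := Finset.sum_nonneg fun i _ => by linarith [hB12 i]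
    linarith
  have hB0 : 0 < B := by linarith
  have hlB : 0 < Real.log B := Real.log_pos (by linarith)
  have hBi : ∀ i ∈ G2, B1 i ≤ B := by
    intro i hi
    have := Finset.single_le_sum (f := B1) (fun i _ => by linarith [hB12 i]) hi
    linarith
  -- the pairs for which the type changes
  have hα : (0 : ℝ) < 1 / B := by positivity
  have hαβ : 1 / B < 1 := by
    rw [div_lt_one hB0]
    linarith
  obtain ⟨κ', hκ', hlim, hL⟩ := hLaw (1 / B) 1 hα hαβ
  have hN1 : ∀ (m : ℕ) (u v : Fin m → ℝ) (S : Set (Fin m → ℕ)) (δ : ℝ),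
      (∀ i, 0 < u i) → Nd (Ty u v S) δ → ∀ ε : ℝ, 0 < ε → LogNull {N : ℕ | ε * N <
      |(pairCount a b c 1 0 (1 / B) 1 (fun t d => Ty u v S (cf a b c t d j)) N : ℝ)
        - δ * κ' * N|} := by
    intro m u v S δ hu hδ ε hε
    have h1 := (hL 0 m (fun i : Fin 0 => i.elim0) (fun i : Fin 0 => i.elim0) u v
      Set.univ S 1 δ (fun i => i.elim0) hu nd_triv hδ 1 one_pos 0 0 ε hε).1 j
    refine EndS.LogNull.mono h1 fun N hN => ?_
    simp only [Set.mem_ofPred_eq] at hN ⊢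
    have e1 : (fun t d => Ty (fun i : Fin 0 => i.elim0) (fun i : Fin 0 => i.elim0) Set.univ d ∧
        Ty u v S (cf a b c t d j) ∧
        ArithmeticFunction.cardFactors d ≡ 0 [MOD 1] ∧
        ArithmeticFunction.cardFactors (cf a b c t d j) ≡ 0 [MOD 1]) =
        fun t d => Ty u v S (cf a b c t d j) := by
      funext t d
      apply propext
      constructor
      · exact fun h => h.2.1
      · exact fun h => ⟨by simp [Ty], h, Nat.modEq_one, Nat.modEq_one⟩
    rw [e1]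
    have e2 : 1 * δ * κ' / ((1 : ℕ) : ℝ) ^ 2 * (N : ℝ) = δ * κ' * N := by
      push_cast
      ring
    rw [e2]
    exact hN
  have hfew := few (h := 1) (t₀ := 0) hOk hDen hf hA1 hκ' (cf_large ha one_pos j) hN1 u v hu S
    (show 0 < ε / 2 * Real.log B by positivity)
  have hU : LogNull ({N | ∃ i ∈ G2, N ∈ {N : ℕ | ∃ h : ℕ → ℂ, CMul h ∧ e1 * Real.log B * N <
      ∑ t ∈ Finset.Icc 1 N, ‖∑ d ∈ nearG a b c (1 / B) 1 t, h d * iT (E i.1).Is (D i.1) k i.2
          (wslot a b c t d (some j))‖}} ∪ {N : ℕ | ε / 2 * Real.log B * N <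
      (pairCount a b c 1 0 (1 / B) 1 (fun t d =>
        ¬ (Ty u v S (cf a b c t d j) ↔ Ty u v S (A * cf a b c t d j))) N : ℝ)}) :=
    AS.T11.null_union (lognull_union _ _ fun i hi => hB1 i B (hBi i hi)) hfew
  refine EndS.LogNull.mono hU fun N hN => ?_
  by_contra hno
  rw [Set.mem_union, not_or] at hno
  obtain ⟨g1, g2⟩ := hno
  simp only [Set.mem_ofPred_eq, not_lt, not_exists, not_and] at g1 g2
  obtain ⟨r, h, hh, hN⟩ := hN
  -- the bound
  set r1 := (r + Omn A) % k with hr1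
  have hr1k : r1 < k := Nat.mod_lt _ hk
  have b1 : ∀ c' ∈ G, ∑ t ∈ Finset.Icc 1 N, ‖∑ d ∈ nearG a b c (1 / B) 1 t,
      h d * iT (E c').Is (D c') k r1 (wslot a b c t d (some j))‖ ≤ e1 * Real.log B * N := by
    intro c' hc
    exact g1 (c', r1) (Finset.mem_product.2 ⟨hc, Finset.mem_range.2 hr1k⟩) h hh
  have b2 : ∀ t ∈ Finset.Icc 1 N, ‖∑ d ∈ nearG a b c (1 / B) 1 t,
      h d * iT (Ty u v S) δ k r (cf a b c t d j)‖ ≤
      ∑ c' ∈ G, ‖∑ d ∈ nearG a b c (1 / B) 1 t,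
        h d * iT (E c').Is (D c') k r1 (wslot a b c t d (some j))‖ +
      ∑ d ∈ nearG a b c (1 / B) 1 t,
        if ¬ (Ty u v S (cf a b c t d j) ↔ Ty u v S (A * cf a b c t d j)) then (1 : ℝ) else 0 := by
    intro t _
    have f1 : ∑ d ∈ nearG a b c (1 / B) 1 t, h d * iT (Ty u v S) δ k r (cf a b c t d j) =
        ∑ c' ∈ G, (∑ d ∈ nearG a b c (1 / B) 1 t,
          h d * iT (E c').Is (D c') k r1 (wslot a b c t d (some j))) +
        ∑ d ∈ nearG a b c (1 / B) 1 t, h d * (iT (Ty u v S) δ k r (cf a b c t d j) -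
          iT (Ty u v S) δ k (r + Omn A) (A * cf a b c t d j)) := by
      rw [Finset.sum_comm, ← Finset.sum_add_distrib]
      refine Finset.sum_congr rfl fun d hd => ?_
      have hx := cf_pos hf (near_mem hd) j
      have h2 : wslot a b c t d (some j) = A * cf a b c t d j := rfl
      rw [← Finset.mul_sum, h2, hr1, Finset.sum_congr rfl fun c' _ => iT_mod _ _ _ _ _,
        ← iT_sum hu S E D hi eδ k (r + Omn A) (Nat.mul_pos hA1 hx)]
      ring
    rw [f1]
    refine (norm_add_le _ _).trans (add_le_add (norm_sum_le _ _) ?_)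
    refine (norm_sum_le _ _).trans (Finset.sum_le_sum fun d hd => ?_)
    rw [norm_mul]
    have hx := cf_pos hf (near_mem hd) j
    refine (mul_le_of_le_one_left (norm_nonneg _) (hh.2 d)).trans ?_
    exact iT_mul (Ty u v S) δ k r hA1 hx
  have b3 : ∑ t ∈ Finset.Icc 1 N, ‖∑ d ∈ nearG a b c (1 / B) 1 t,
      h d * iT (Ty u v S) δ k r (cf a b c t d j)‖ ≤
      G.card * (e1 * Real.log B * N) + ε / 2 * Real.log B * N := by
    refine (Finset.sum_le_sum b2).trans ?_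
    rw [Finset.sum_add_distrib, Finset.sum_comm, ← pc_eq hf]
    refine add_le_add ?_ g2
    refine (Finset.sum_le_sum b1).trans ?_
    rw [Finset.sum_const, nsmul_eq_mul]
  have b4 : (G.card : ℝ) * (e1 * Real.log B * N) ≤ ε / 2 * Real.log B * N := by
    have h1 : (G.card : ℝ) * e1 ≤ ε / 2 := by
      rw [he1, mul_div_assoc', div_le_div_iff₀ (by positivity) (by norm_num)]
      nlinarith
    calc (G.card : ℝ) * (e1 * Real.log B * N) = (G.card * e1) * (Real.log B * N) := by ring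
      _ ≤ ε / 2 * (Real.log B * N) := mul_le_mul_of_nonneg_right h1 (by positivity)
      _ = ε / 2 * Real.log B * N := by ring
  linarith

end Pool.Agent.Lib.MP_a17b09_nt.QT
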