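import Pool.Agent.Lib.MP_a17b09_nt.QT.StmtsG99
import Pool.Agent.Lib.MP_a17b09_nt.QT.DilE_11
import Pool.Agent.Lib.MP_a17b09_nt.QT.TypH_64

/-!
Project QT (MP_a17b09_nt), stage 3, row G2 (helper42): the fixed weight of the types of `d` and of
`|f t| / d` does not change when a prime is moved from `|f t| / d` to `d`, for almost all pairs.
-/

set_option autoImplicit false

open Filter Topology Finset

namespace Pool.Agent.Lib.MP_a17b09_nt.QT

open CH CH.PE HY SP
open AN (ind Ty Nd StOk StDen)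
open AS (cf LawTy)
open AS.Ty3 (nd_triv cf_large)
open AS.T11 (null_union null_mono)

namespace DG42

variable {a b c : ℤ} {α β κ : ℝ}

/-- the law of the type of `d` -/
theorem law_d (hL : LawTy a b c 1 0 α β κ) {m : ℕ} {u v : Fin m → ℝ} {S : Set (Fin m → ℕ)}
    {δ : ℝ} (hu : ∀ i, 0 < u i) (hδ : Nd (Ty u v S) δ) {ε : ℝ} (hε : 0 < ε) :
    LogNull {N : ℕ | ε * N < |(pairCount a b c 1 0 α β (fun _ d => Ty u v S d) N : ℝ) -
      δ * κ * N|} := by
  have h1 := (hL m 0 u v (fun i : Fin 0 => i.elim0) (fun i : Fin 0 => i.elim0) S Set.univ δ 1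
    hu (fun i => i.elim0) hδ nd_triv 1 one_pos 0 0 ε hε).1 0
  refine null_mono h1 fun N hN => ?_
  simp only [Set.mem_ofPred_eq] at hN ⊢
  have e1 : (fun t d => Ty u v S d ∧
      Ty (fun i : Fin 0 => i.elim0) (fun i : Fin 0 => i.elim0) Set.univ (cf a b c t d 0) ∧
      ArithmeticFunction.cardFactors d ≡ 0 [MOD 1] ∧
      ArithmeticFunction.cardFactors (cf a b c t d 0) ≡ 0 [MOD 1]) =
      fun (_ d : ℕ) => Ty u v S d := by
    funext t d
    apply propext
    constructor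
    · exact fun h => h.1
    · exact fun h => ⟨h, by simp [Ty], Nat.modEq_one, Nat.modEq_one⟩
  rw [e1]
  have e2 : δ * 1 * κ / ((1 : ℕ) : ℝ) ^ 2 * (N : ℝ) = δ * κ * N := by
    push_cast
    ring
  rw [e2]
  exact hN

/-- the law of the type of `|f t| / d` -/
theorem law_c (hL : LawTy a b c 1 0 α β κ) {m : ℕ} {u v : Fin m → ℝ} {S : Set (Fin m → ℕ)}
    {δ : ℝ} (hu : ∀ i, 0 < u i) (hδ : Nd (Ty u v S) δ) {ε : ℝ} (hε : 0 < ε) :
    LogNull {N : ℕ | ε * N < |(pairCount a b c 1 0 α β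
      (fun t d => Ty u v S (cf a b c t d 0)) N : ℝ) - δ * κ * N|} := by
  have h1 := (hL 0 m (fun i : Fin 0 => i.elim0) (fun i : Fin 0 => i.elim0) u v Set.univ S 1 δ
    (fun i => i.elim0) hu nd_triv hδ 1 one_pos 0 0 ε hε).1 0
  refine null_mono h1 fun N hN => ?_
  simp only [Set.mem_ofPred_eq] at hN ⊢
  have e1 : (fun t d => Ty (fun i : Fin 0 => i.elim0) (fun i : Fin 0 => i.elim0) Set.univ d ∧
      Ty u v S (cf a b c t d 0) ∧
      ArithmeticFunction.cardFactors d ≡ 0 [MOD 1] ∧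
      ArithmeticFunction.cardFactors (cf a b c t d 0) ≡ 0 [MOD 1]) =
      fun t d => Ty u v S (cf a b c t d 0) := by
    funext t d
    apply propext
    constructor
    · exact fun h => h.2.1
    · exact fun h => ⟨by simp [Ty], h, Nat.modEq_one, Nat.modEq_one⟩
  rw [e1]
  have e2 : 1 * δ * κ / ((1 : ℕ) : ℝ) ^ 2 * (N : ℝ) = δ * κ * N := by
    push_cast
    ring
  rw [e2]
  exact hN

/-- the pairs `(t, d)` with `p d ∣ f t` whose weight changes -/
theorem card_le (hf : ∀ t : ℕ, fv a b c t ≠ 0) {p : ℕ} (hp : p.Prime) {B : ℝ}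
    (P P1 P2 : ℕ → ℕ → Prop) [∀ t, DecidablePred (P t)] [∀ t, DecidablePred (P1 t)]
    [∀ t, DecidablePred (P2 t)]
    (h : ∀ t d : ℕ, P t d → p * d ∣ (fv a b c t).natAbs ∧ (P1 t d ∨ P2 t (p * d))) (t : ℕ) :
    ((nearG a b c (1 / B) 1 t).filter (P t)).card ≤
      ((nearG a b c (1 / B) 1 t).filter (P1 t)).card +
      ((nearG a b c (p / B) p t).filter (P2 t)).card := by
  have hp0 : (0 : ℝ) < p := by exact_mod_cast hp.pos
  have h1 : ((nearG a b c (1 / B) 1 t).filter (P t)).card =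
      (((nearG a b c (1 / B) 1 t).filter (P t)).filter (P1 t)).card +
      (((nearG a b c (1 / B) 1 t).filter (P t)).filter (fun d => ¬ P1 t d)).card :=
    (Finset.card_filter_add_card_filter_not (P1 t)).symm
  rw [h1]
  refine add_le_add (Finset.card_le_card fun d hd => ?_) ?_
  · obtain ⟨h2, h3⟩ := Finset.mem_filter.1 hd
    exact Finset.mem_filter.2 ⟨(Finset.mem_filter.1 h2).1, h3⟩
  · refine Finset.card_le_card_of_injOn (fun d => p * d) (fun d hd => ?_)
      (fun d _ d' _ he => Nat.eq_of_mul_eq_mul_left hp.pos he)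
    obtain ⟨h2, h3⟩ := Finset.mem_filter.1 (Finset.mem_coe.1 hd)
    obtain ⟨h4, h5⟩ := Finset.mem_filter.1 h2
    obtain ⟨h6, h7⟩ := h t d h5
    unfold nearG at h4
    obtain ⟨_, h9, h10⟩ := Finset.mem_filter.1 h4
    refine Finset.mem_coe.2 (Finset.mem_filter.2 ⟨?_, h7.resolve_left h3⟩)
    unfold nearG
    refine Finset.mem_filter.2 ⟨Nat.mem_divisors.2 ⟨h6, Int.natAbs_ne_zero.2 (hf t)⟩, ?_, ?_⟩
    · push_cast
      calc (p : ℝ) / B * t = p * (1 / B * t) := by ring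
        _ ≤ p * d := mul_le_mul_of_nonneg_left h9 hp0.le
    · push_cast
      calc (p : ℝ) * d ≤ p * (1 * t) := mul_le_mul_of_nonneg_left h10 hp0.le
        _ = p * t := by ring

end DG42

open DG42 in
/-- **G2** -/
theorem stDilG_42 : StDilG := by
  classical
  intro hOk hDen a b c ha hf hlaw m m' u v u' v' S S' hu hu' p hp B hB ε hε
  have hB0 : (0 : ℝ) < B := by linarith
  have hp0 : (0 : ℝ) < p := by exact_mod_cast hp.pos
  obtain ⟨κ1, hκ1, _, hL1⟩ := hlaw (1 / B) 1 (by positivity) ((div_lt_one hB0).2 (by linarith))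
  obtain ⟨κ2, hκ2, _, hL2⟩ := hlaw (p / B) p (by positivity)
    (div_lt_self hp0 (by linarith))
  set P1 : ℕ → ℕ → Prop := fun _ d => ¬ (Ty u v S d ↔ Ty u v S (p * d)) with hP1
  set P2 : ℕ → ℕ → Prop := fun t d => ¬ (Ty u' v' S' (cf a b c t d 0) ↔
    Ty u' v' S' (p * cf a b c t d 0)) with hP2
  have f1 : LogNull {N : ℕ | ε / 2 * N < (pairCount a b c 1 0 (1 / B) 1 P1 N : ℝ)} := by
    refine TH64.few (x := fun _ d => d) hOk hDen hf hp.one_le hκ1 (fun n0 => ?_)
      (fun m u v S δ hu hδ ε hε => law_d hL1 hu hδ hε) u v hu S (half_pos hε)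
    obtain ⟨t1, ht1⟩ := exists_nat_ge (B * n0)
    refine ⟨t1, fun t ht d hd => ?_⟩
    unfold nearG at hd
    have h1 := (Finset.mem_filter.1 hd).2.1
    have h2 : B * n0 ≤ t := ht1.trans (by exact_mod_cast ht)
    have h3 : (n0 : ℝ) ≤ 1 / B * t := by
      rw [one_div, ← div_eq_inv_mul, le_div_iff₀ hB0]
      linarith
    exact_mod_cast h3.trans h1
  have f2 : LogNull {N : ℕ | ε / 2 * N < (pairCount a b c 1 0 (p / B) p P2 N : ℝ)} := by
    refine TH64.few (x := fun t d => cf a b c t d 0) hOk hDen hf hp.one_le hκ2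
      (fun n0 => cf_large ha hp0 0 n0)
      (fun m u v S δ hu hδ ε hε => law_c hL2 hu hδ hε) u' v' hu' S' (half_pos hε)
  refine null_mono (null_union f1 f2) fun N hN => ?_
  by_contra hno
  rw [Set.mem_union, not_or] at hno
  obtain ⟨g1, g2⟩ := hno
  simp only [Set.mem_ofPred_eq, not_lt] at g1 g2 hN
  set P : ℕ → ℕ → Prop := fun t d => p * d ∣ (fv a b c t).natAbs ∧
    gT a b c (Ty u v S) (Ty u' v' S') t (p * d) ≠ gT a b c (Ty u v S) (Ty u' v' S') t d with hP
  have key : ∀ t d : ℕ, P t d → p * d ∣ (fv a b c t).natAbs ∧ (P1 t d ∨ P2 t (p * d)) := by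
    rintro t d ⟨h1, h2⟩
    refine ⟨h1, ?_⟩
    by_contra hno
    rw [not_or] at hno
    obtain ⟨h3, h4⟩ := hno
    apply h2
    have hF : (fv a b c t).natAbs ≠ 0 := Int.natAbs_ne_zero.2 (hf t)
    have hpd : p * d ≠ 0 := fun h => hF (by rw [h] at h1; exact Nat.eq_zero_of_zero_dvd h1)
    have hd0 : 0 < d := Nat.pos_of_ne_zero (right_ne_zero_of_mul hpd)
    have e1 : cf a b c t d 0 = p * cf a b c t (p * d) 0 := by
      have := K99.slot_shift (a := a) (b := b) (c := c) hp.pos hd0 h1 0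
      rwa [Nat.zero_mul] at this
    have h3' : Ty u v S d ↔ Ty u v S (p * d) := not_not.1 h3
    have h4' : Ty u' v' S' (cf a b c t (p * d) 0) ↔ Ty u' v' S' (cf a b c t d 0) := by
      rw [e1]
      exact not_not.1 h4
    unfold gT AN.ind
    rw [if_congr h3' rfl rfl, if_congr h4' rfl rfl]
  have hle : ∑ t ∈ Finset.Icc 1 N, (((nearG a b c (1 / B) 1 t).filter (P t)).card : ℝ) ≤
      pairCount a b c 1 0 (1 / B) 1 P1 N + pairCount a b c 1 0 (p / B) p P2 N := by
    rw [D11.pc_eq hf (1 / B) 1 P1 N, D11.pc_eq hf (p / B) p P2 N, ← Finset.sum_add_distrib]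
    refine Finset.sum_le_sum fun t _ => ?_
    exact_mod_cast card_le hf hp P P1 P2 key t
  have hN' : ε * N < ∑ t ∈ Finset.Icc 1 N,
      (((nearG a b c (1 / B) 1 t).filter (P t)).card : ℝ) := by
    refine lt_of_lt_of_eq hN (Finset.sum_congr rfl fun t _ => ?_)
    congr 1
  linarith

end Pool.Agent.Lib.MP_a17b09_nt.QT
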