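import Pool.Agent.Lib.MP_a17b09_nt.QT.StmtsG99
import Pool.Agent.Lib.MP_a17b09_nt.QT.Tri79

/-!
Project QT (MP_a17b09_nt): the lower bounds for all large `N` from the law of three slots.
-/

set_option autoImplicit false

open Filter Topology Finset

namespace Pool.Agent.Lib.MP_a17b09_nt.QT

open Pool.Agent.Lib.MP_a17b09_nt.CH Pool.Agent.Lib.MP_a17b09_nt.SP
open Pool.Agent.Lib.MP_a17b09_nt.CH.EndS
open Pool.Agent.Lib.MP_a17b09_nt.SP.EndP27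
open Pool.Agent.Lib.MP_a17b09_nt.SPH Pool.Agent.Lib.MP_a17b09_nt.SPH.FinA11
open Pool.Agent.Lib.MP_a17b09_nt.TP79
open AN (Ty Nd)
open AS (cf)

/-- types of positive density: a positive proportion of the pairs with `t ≤ N`, every large `N` -/
theorem three_pos {a b c : ℤ} {κ : ℝ} (hκ0 : 0 < κ) (hT : Three a b c κ) {m m' m'' : ℕ}
    {u v : Fin m → ℝ} {u' v' : Fin m' → ℝ} {u'' v'' : Fin m'' → ℝ} {S : Set (Fin m → ℕ)}
    {S' : Set (Fin m' → ℕ)} {S'' : Set (Fin m'' → ℕ)} {δ δ' δ'' : ℝ} (hu : ∀ i, 0 < u i)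
    (hu' : ∀ i, 0 < u' i) (hu'' : ∀ i, 0 < u'' i) (hδ : Nd (Ty u v S) δ)
    (hδ' : Nd (Ty u' v' S') δ') (hδ'' : Nd (Ty u'' v'' S'') δ'') (h0 : 0 < δ) (h0' : 0 < δ')
    (h0'' : 0 < δ'') {k : ℕ} (hk : 0 < k) {j : ℕ} (hj : 0 < j) :
    ∃ B₀ : ℝ, 2 ≤ B₀ ∧ ∀ B : ℝ, B₀ ≤ B → ∀ r s q : ℕ, ∃ c' : ℝ, 0 < c' ∧ ∀ᶠ N : ℕ in atTop,
      c' * N ≤ (pairCount a b c 1 0 (1 / B) 1 (fun t d => Ty u v S d ∧
        Ty u' v' S' (cf a b c t d 0) ∧ Ty u'' v'' S'' (cf a b c t d j) ∧ Omn d ≡ r [MOD k] ∧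
        Omn (cf a b c t d 0) ≡ s [MOD k] ∧ Omn (cf a b c t d j) ≡ q [MOD k]) N : ℝ) := by
  have hk0 : (0 : ℝ) < k := by exact_mod_cast hk
  obtain ⟨B₀, hB0, hB⟩ := hT m m' m'' u v u' v' u'' v'' S S' S'' δ δ' δ'' hu hu' hu'' hδ hδ' hδ''
    k hk j hj (δ * δ' * δ'' * κ / (2 * k ^ 3)) (by positivity)
  refine ⟨B₀, hB0, fun B hBB r s q => ?_⟩
  have hlB : 0 < Real.log B := Real.log_pos (by linarith)
  refine lower_all' (κ := δ * δ' * δ'' * κ / (2 * k ^ 3) * Real.log B) (fun m n hmn =>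
    Nat.cast_le.2 (pc_mono _ hmn)) (by positivity) (LogNull.mono (hB B hBB) fun N hN =>
      ⟨r, s, q, ?_⟩)
  rw [Set.mem_ofPred_eq] at hN
  have h1 : δ * δ' * δ'' * κ * Real.log B / k ^ 3 * N =
      δ * δ' * δ'' * κ / (2 * k ^ 3) * Real.log B * N +
      δ * δ' * δ'' * κ / (2 * k ^ 3) * Real.log B * N := by
    field_simp
    ring
  rw [lt_abs]
  right
  linarith

end Pool.Agent.Lib.MP_a17b09_nt.QT
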