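import Pool.Agent.Lib.MP_a17b09_nt.QT.StmtsT3

/-!
Project QT (MP_a17b09_nt), stage 3 (helper99): a fixed stable weight `g t d` of the pair beside the
completely multiplicative function `h d`.  With `g = 1_T (d) 1_T' (f t / d)` one gets: for most `t` the
cofactor `|f (t + j d)| / d`, `j ≥ 1`, behaves like a random integer when `d` runs over the divisors of
`f t` near `t` with prescribed types and classes of `d` and `f t / d`; so `d`, `|f t| / d`,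
`|f (t + j d)| / d` behave like three independent random integers.
-/

set_option autoImplicit false

open Filter Topology Finset

namespace Pool.Agent.Lib.MP_a17b09_nt.QT

open CH CH.PE HY SP
open PQ (B1)
open AN (Ev ind wz wd Dens Ty Nd StOk StDen)
open AS (wslot cf LawTy)
open SPH (vl)

/-- `g t (p d) = g t d` for almost all pairs with `p ∣ f t / d` -/
def DilG (a b c : ℤ) (g : ℕ → ℕ → ℂ) (p : ℕ) : Prop := ∀ B : ℝ, 2 ≤ B → ∀ ε : ℝ, 0 < ε →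
  LogNull {N : ℕ | ε * N < ∑ t ∈ Finset.Icc 1 N, (((nearG a b c (1 / B) 1 t).filter
    (fun d => p * d ∣ (fv a b c t).natAbs ∧ g t (p * d) ≠ g t d)).card : ℝ)}

/-- a weight of the slot `j`, a fixed weight of the pair, all completely multiplicative `h d` -/
def QuenG (a b c : ℤ) (g : ℕ → ℕ → ℂ) (w : ℕ → ℂ) : Prop := ∀ j : ℕ, 0 < j → ∀ ε : ℝ, 0 < ε →
  ∃ B₀ : ℝ, 2 ≤ B₀ ∧ ∀ B : ℝ, B₀ ≤ B → LogNull {N : ℕ | ∃ h : ℕ → ℂ, CMul h ∧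
    ε * Real.log B * N < ∑ t ∈ Finset.Icc 1 N, ‖∑ d ∈ nearG a b c (1 / B) 1 t,
      h d * g t d * w (wslot a b c t d (some j))‖}

/-- (G1) Katai's argument (fork of `Kat_99`) -/
def StKatG : Prop := ∀ (a b c : ℤ), 0 < a → (∀ t : ℕ, fv a b c t ≠ 0) → ∀ κ : ℝ, Kap a b c κ →
  (∀ X : ℝ, ∃ P : Finset ℕ, (∀ p ∈ P, Spl a b c p) ∧ X ≤ mass P) → ∀ w : ℕ → ℂ, B1 w →
  ∀ g : ℕ → ℕ → ℂ, (∀ t d, ‖g t d‖ ≤ 1) → (∀ p : ℕ, Spl a b c p → DilG a b c g p) →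
  TwNullX a b c w (fun n => (starRingEnd ℂ) (w n)) →
  (∀ p : ℕ, Spl a b c p → ∃ cp : ℂ, ‖cp‖ ≤ 1 ∧ DilW a b c w p cp) → QuenG a b c g w

/-- the law of pairs for all windows -/
def Pair1 (a b c : ℤ) : Prop := ∀ α β : ℝ, 0 < α → α < β → ∃ κ : ℝ, 0 < κ ∧
  Tendsto (fun N : ℕ => (pairCount a b c 1 0 α β (fun _ _ => True) N : ℝ) / N) atTop (𝓝 κ) ∧
  LawTy a b c 1 0 α β κ

/-- the weight of the types of `d` and `|f t| / d` -/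
noncomputable def gT (a b c : ℤ) (T T' : ℕ → Prop) (t d : ℕ) : ℂ :=
  ind T d * ind T' (cf a b c t d 0)

/-- (G2) types are stable: unless `d` or `|f t| / d` has a prime factor near the ends of the
windows (`LawTy` with `j = 0`, `AN.Da98.cnt_ne`, `AN.Da98.dens_w`) -/
def StDilG : Prop := StOk → StDen → ∀ (a b c : ℤ), 0 < a → (∀ t : ℕ, fv a b c t ≠ 0) →
  Pair1 a b c → ∀ (m m' : ℕ) (u v : Fin m → ℝ) (u' v' : Fin m' → ℝ) (S : Set (Fin m → ℕ))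
    (S' : Set (Fin m' → ℕ)), (∀ i, 0 < u i) → (∀ i, 0 < u' i) → ∀ p : ℕ, p.Prime →
    DilG a b c (gT a b c (Ty u v S) (Ty u' v' S')) p

/-- the weights of all events with the fixed weight `g` -/
def QuenEG (a b c : ℤ) (g : ℕ → ℕ → ℂ) : Prop := ∀ (E : Ev) (δ : ℝ), E.Ok → Dens E δ →
  (∀ (z : ℂ) (k : ℕ), 0 < k → z ^ k = 1 → z ≠ 1 → QuenG a b c g (wz z E.Is)) ∧
  QuenG a b c g (wd δ E.Is)

/-- (G3) Fourier inversion in the slot `j` (fork of `stFinE_98`) -/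
def StFinEG : Prop := ∀ (a b c : ℤ), 0 < a → (∀ t : ℕ, fv a b c t ≠ 0) → ∀ g : ℕ → ℕ → ℂ,
  QuenEG a b c g → ∀ (E : Ev) (δ : ℝ), E.Ok → Dens E δ → ∀ k : ℕ, 0 < k → ∀ r : ℕ,
  QuenG a b c g (iT E.Is δ k r)

/-- the final law for a type of the slot `j` -/
def LawG (a b c : ℤ) (g : ℕ → ℕ → ℂ) (T : ℕ → Prop) (δ : ℝ) : Prop := ∀ k : ℕ, 0 < k →
  ∀ j : ℕ, 0 < j → ∀ ε : ℝ, 0 < ε → ∃ B₀ : ℝ, 2 ≤ B₀ ∧ ∀ B : ℝ, B₀ ≤ B → LogNull {N : ℕ |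
    ∃ r : ℕ, ∃ h : ℕ → ℂ, CMul h ∧ ε * Real.log B * N < ∑ t ∈ Finset.Icc 1 N,
      ‖∑ d ∈ nearG a b c (1 / B) 1 t, h d * g t d * iT T δ k r (cf a b c t d j)‖}

/-- (G4) types, and without the factor `a` (`StTypH` with `g`) -/
def StTypG : Prop := StOk → StDen → ∀ (a b c : ℤ), 0 < a → (∀ t : ℕ, fv a b c t ≠ 0) →
  Pair1 a b c → ∀ κ : ℝ, Kap a b c κ → ∀ g : ℕ → ℕ → ℂ, (∀ t d, ‖g t d‖ ≤ 1) →
  (∀ (E : Ev) (δ : ℝ), E.Ok → Dens E δ → ∀ k : ℕ, 0 < k → ∀ r : ℕ,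
    QuenG a b c g (iT E.Is δ k r)) →
  ∀ (m : ℕ) (u v : Fin m → ℝ) (S : Set (Fin m → ℕ)) (δ : ℝ), (∀ i, 0 < u i) →
    Nd (Ty u v S) δ → LawG a b c g (Ty u v S) δ

/-- for most `t`, the divisors near `t` with prescribed data of `d` and `|f t| / d`: the slot `j`
behaves like a random integer -/
def CondL (a b c : ℤ) (T T' T'' : ℕ → Prop) (δ : ℝ) : Prop := ∀ k : ℕ, 0 < k → ∀ j : ℕ, 0 < j →
  ∀ ε : ℝ, 0 < ε → ∃ B₀ : ℝ, 2 ≤ B₀ ∧ ∀ B : ℝ, B₀ ≤ B → LogNull {N : ℕ | ∃ r s : ℕ,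
    ε * Real.log B * N < ∑ t ∈ Finset.Icc 1 N,
    |(nd a b c B t (fun d => T d ∧ T' (cf a b c t d 0) ∧ T'' (cf a b c t d j) ∧
      Omn d ≡ r [MOD k] ∧ Omn (cf a b c t d j) ≡ s [MOD k]) : ℝ) -
      δ / k * (nd a b c B t (fun d => T d ∧ T' (cf a b c t d 0) ∧ Omn d ≡ r [MOD k]) : ℝ)|}

/-- (G5) from `LawG` with `g = gT`, `h = z ^ Ω` (as `stFinQ_98`) -/
def StCondL : Prop := ∀ (a b c : ℤ), 0 < a → (∀ t : ℕ, fv a b c t ≠ 0) →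
  ∀ (T T' T'' : ℕ → Prop) (δ : ℝ), LawG a b c (gT a b c T T') T'' δ → CondL a b c T T' T'' δ

/-- three slots: `d`, `|f t| / d`, `|f (t + j d)| / d` behave like independent random integers -/
def Three (a b c : ℤ) (κ : ℝ) : Prop := ∀ (m m' m'' : ℕ) (u v : Fin m → ℝ) (u' v' : Fin m' → ℝ)
  (u'' v'' : Fin m'' → ℝ) (S : Set (Fin m → ℕ)) (S' : Set (Fin m' → ℕ)) (S'' : Set (Fin m'' → ℕ))
  (δ δ' δ'' : ℝ), (∀ i, 0 < u i) → (∀ i, 0 < u' i) → (∀ i, 0 < u'' i) → Nd (Ty u v S) δ →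
  Nd (Ty u' v' S') δ' → Nd (Ty u'' v'' S'') δ'' → ∀ k : ℕ, 0 < k → ∀ j : ℕ, 0 < j → ∀ ε : ℝ,
  0 < ε → ∃ B₀ : ℝ, 2 ≤ B₀ ∧ ∀ B : ℝ, B₀ ≤ B → LogNull {N : ℕ | ∃ r s q : ℕ,
    ε * Real.log B * N < |(pairCount a b c 1 0 (1 / B) 1 (fun t d => Ty u v S d ∧
      Ty u' v' S' (cf a b c t d 0) ∧ Ty u'' v'' S'' (cf a b c t d j) ∧ Omn d ≡ r [MOD k] ∧
      Omn (cf a b c t d 0) ≡ s [MOD k] ∧ Omn (cf a b c t d j) ≡ q [MOD k]) N : ℝ) -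
      δ * δ' * δ'' * κ * Real.log B / k ^ 3 * N|}

/-- (G6) from `CondL` and the law of pairs (`LawTy` with `j = 0` at the window `(1 / B, 1)`); the
class of `Ω (|f t| / d)` is a function of `t` and of the class of `Ω d` -/
def StThree : Prop := ∀ (a b c : ℤ), 0 < a → (∀ t : ℕ, fv a b c t ≠ 0) → ∀ κ : ℝ,
  Kap a b c κ → Pair1 a b c →
  (∀ (m m' m'' : ℕ) (u v : Fin m → ℝ) (u' v' : Fin m' → ℝ) (u'' v'' : Fin m'' → ℝ)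
    (S : Set (Fin m → ℕ)) (S' : Set (Fin m' → ℕ)) (S'' : Set (Fin m'' → ℕ)) (δ'' : ℝ),
    (∀ i, 0 < u i) → (∀ i, 0 < u' i) → (∀ i, 0 < u'' i) → Nd (Ty u'' v'' S'') δ'' →
    CondL a b c (Ty u v S) (Ty u' v' S') (Ty u'' v'' S'') δ'') → Three a b c κ

end Pool.Agent.Lib.MP_a17b09_nt.QT
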