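import Pool.Agent.Lib.MP_a17b09_nt.QT.StmtsG99
import Pool.Agent.Lib.MP_a17b09_nt.QT.Tri79

/-!
Project QT (MP_a17b09_nt), row G6: `d`, `|f t| / d`, `|f (t + j d)| / d` behave like three independent
random integers: from the conditional law for most `t` and the law of the pair `(d, |f t| / d)`.
-/

set_option autoImplicit false

open Filter Topology Finset

namespace Pool.Agent.Lib.MP_a17b09_nt.QT

open Pool.Agent.Lib.MP_a17b09_nt.CH Pool.Agent.Lib.MP_a17b09_nt.SP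
open Pool.Agent.Lib.MP_a17b09_nt.CH.EndS
open Pool.Agent.Lib.MP_a17b09_nt.SP.EndP27
open Pool.Agent.Lib.MP_a17b09_nt.SPH Pool.Agent.Lib.MP_a17b09_nt.SPH.FinA11
open Pool.Agent.Lib.MP_a17b09_nt.TP79
open AN (Ty Nd)
open AS (cf LawTy)

namespace Three79

/-- the class of `Ω (f t)` -/
theorem om_zero {a b c : ℤ} (hf : ∀ t : ℕ, fv a b c t ≠ 0) {B : ℝ} {t d : ℕ}
    (hd : d ∈ nearG a b c (1 / B) 1 t) : Om a b c t = Omn d + Omn (cf a b c t d 0) := by
  have hd1 : d ∣ (fv a b c t).natAbs := Nat.dvd_of_mem_divisors (Finset.mem_filter.1 hd).1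
  have h2 := om_slot hf hd1 0
  rw [zero_mul, add_zero] at h2
  rw [h2]
  congr 2

/-- restriction to the `t` of one class, with further conditions -/
theorem pc_cls_g {a b c : ℤ} (hf : ∀ t : ℕ, fv a b c t ≠ 0) (B : ℝ) (j k r s q N : ℕ)
    (T T' T'' : ℕ → Prop) (δ : ℝ) :
    |(pairCount a b c 1 0 (1 / B) 1 (fun t d => T d ∧ T' (cf a b c t d 0) ∧
        T'' (cf a b c t d j) ∧ Omn d ≡ r [MOD k] ∧ Omn (cf a b c t d 0) ≡ s [MOD k] ∧
        Omn (cf a b c t d j) ≡ q [MOD k]) N : ℝ) -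
      δ / k * (pairCount a b c 1 0 (1 / B) 1 (fun t d => T d ∧ T' (cf a b c t d 0) ∧
        Omn d ≡ r [MOD k] ∧ Omn (cf a b c t d 0) ≡ s [MOD k]) N : ℝ)| ≤ ∑ t ∈ Finset.Icc 1 N,
    |(nd a b c B t (fun d => T d ∧ T' (cf a b c t d 0) ∧ T'' (cf a b c t d j) ∧
      Omn d ≡ r [MOD k] ∧ Omn (cf a b c t d j) ≡ q [MOD k]) : ℝ) -
      δ / k * (nd a b c B t (fun d => T d ∧ T' (cf a b c t d 0) ∧ Omn d ≡ r [MOD k]) : ℝ)| := by
  classical
  rw [count_eq hf, count_eq hf, filt_one]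
  push_cast
  rw [Finset.mul_sum, ← Finset.sum_sub_distrib]
  refine (Finset.abs_sum_le_sum_abs _ _).trans (Finset.sum_le_sum fun t _ => ?_)
  have key : ∀ d ∈ nearG a b c (1 / B) 1 t, Omn d ≡ r [MOD k] →
      (Omn (cf a b c t d 0) ≡ s [MOD k] ↔ Om a b c t ≡ r + s [MOD k]) := by
    intro d hd hr
    rw [om_zero hf hd]
    constructor
    · intro h1
      exact Nat.ModEq.add hr h1
    · intro h1
      exact Nat.ModEq.add_left_cancel hr h1
  by_cases ht : Om a b c t ≡ r + s [MOD k]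
  · apply le_of_eq
    have e1 : ((nearG a b c (1 / B) 1 t).filter (fun d => T d ∧ T' (cf a b c t d 0) ∧
        T'' (cf a b c t d j) ∧ Omn d ≡ r [MOD k] ∧ Omn (cf a b c t d 0) ≡ s [MOD k] ∧
        Omn (cf a b c t d j) ≡ q [MOD k])).card =
        nd a b c B t (fun d => T d ∧ T' (cf a b c t d 0) ∧ T'' (cf a b c t d j) ∧
          Omn d ≡ r [MOD k] ∧ Omn (cf a b c t d j) ≡ q [MOD k]) := by
      unfold nd
      congr 1
      ext d
      simp only [Finset.mem_filter]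
      constructor
      · rintro ⟨h0, h1, h2, h3, h4, -, h6⟩
        exact ⟨h0, h1, h2, h3, h4, h6⟩
      · rintro ⟨h0, h1, h2, h3, h4, h6⟩
        exact ⟨h0, h1, h2, h3, h4, (key d h0 h4).2 ht, h6⟩
    have e2 : ((nearG a b c (1 / B) 1 t).filter (fun d => T d ∧ T' (cf a b c t d 0) ∧
        Omn d ≡ r [MOD k] ∧ Omn (cf a b c t d 0) ≡ s [MOD k])).card =
        nd a b c B t (fun d => T d ∧ T' (cf a b c t d 0) ∧ Omn d ≡ r [MOD k]) := by
      unfold nd
      congr 1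
      ext d
      simp only [Finset.mem_filter]
      constructor
      · rintro ⟨h0, h1, h2, h4, -⟩
        exact ⟨h0, h1, h2, h4⟩
      · rintro ⟨h0, h1, h2, h4⟩
        exact ⟨h0, h1, h2, h4, (key d h0 h4).2 ht⟩
    rw [e1, e2]
  · rw [Finset.filter_false_of_mem (fun d hd h => ht ((key d hd h.2.2.2.1).1 h.2.2.2.2.1)),
      Finset.filter_false_of_mem (fun d hd h => ht ((key d hd h.2.2.1).1 h.2.2.2))]
    simp

end Three79

open Three79 in
/-- (G6) -/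
theorem stThree_79 : StThree := by
  intro a b c ha hf κ hκ hP hC m m' m'' u v u' v' u'' v'' S S' S'' δ δ' δ'' hu hu' hu'' hδ hδ' hδ''
    k hk j hj ε hε
  have hk0 : (0 : ℝ) < k := by exact_mod_cast hk
  have hk1 : (1 : ℝ) ≤ k := by exact_mod_cast hk
  obtain ⟨B₀, hB0, hB⟩ := hC m m' m'' u v u' v' u'' v'' S S' S'' δ'' hu hu' hu'' hδ'' k hk j hj
    (ε / 2) (by positivity)
  refine ⟨B₀, hB0, fun B hBB => ?_⟩
  have hB2 : 2 ≤ B := hB0.trans hBB
  have hlB : 0 < Real.log B := Real.log_pos (by linarith)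
  obtain ⟨κB, -, hlim, hlaw⟩ := hP (1 / B) 1 (by positivity)
    (by rw [div_lt_one (by linarith)]; linarith)
  have hκB : κB = κ * Real.log B := tendsto_nhds_unique hlim (kap_lim hf hκ hB2)
  subst hκB
  set D : ℝ := |δ''| + 1 with hD
  have hD0 : 0 < D := by positivity
  have hL : ∀ r s : ℕ, LogNull {N : ℕ | ε / 2 * Real.log B / D * N <
      |(pairCount a b c 1 0 (1 / B) 1 (fun t d => Ty u v S d ∧ Ty u' v' S' (cf a b c t d 0) ∧
        Omn d ≡ r [MOD k] ∧ Omn (cf a b c t d 0) ≡ s [MOD k]) N : ℝ) -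
      δ * δ' * (κ * Real.log B) / k ^ 2 * N|} := fun r s =>
    (hlaw m m' u v u' v' S S' δ δ' hu hu' hδ hδ' k hk r s (ε / 2 * Real.log B / D)
      (by positivity)).1 0
  have hU := AN.Ty98.lognull_union (Finset.range k ×ˢ Finset.range k)
    (fun p : ℕ × ℕ => {N : ℕ | ε / 2 * Real.log B / D * N <
      |(pairCount a b c 1 0 (1 / B) 1 (fun t d => Ty u v S d ∧ Ty u' v' S' (cf a b c t d 0) ∧
        Omn d ≡ p.1 [MOD k] ∧ Omn (cf a b c t d 0) ≡ p.2 [MOD k]) N : ℝ) -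
      δ * δ' * (κ * Real.log B) / k ^ 2 * N|}) (fun p _ => hL p.1 p.2)
  refine LogNull.mono (logNull_union (hB B hBB) hU) fun N hN => ?_
  obtain ⟨r, s, q, hN⟩ := hN
  by_contra hcon
  rw [Set.mem_union, not_or] at hcon
  obtain ⟨g1, g2⟩ := hcon
  simp only [Set.mem_ofPred_eq, not_exists, not_lt] at g1
  have g3 := (pc_cls_g hf B j k r s q N (Ty u v S) (Ty u' v' S') (Ty u'' v'' S'') δ'').trans
    (g1 r q)
  have g4 : |(pairCount a b c 1 0 (1 / B) 1 (fun t d => Ty u v S d ∧ Ty u' v' S' (cf a b c t d 0) ∧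
      Omn d ≡ r [MOD k] ∧ Omn (cf a b c t d 0) ≡ s [MOD k]) N : ℝ) -
      δ * δ' * (κ * Real.log B) / k ^ 2 * N| ≤ ε / 2 * Real.log B / D * N := by
    by_contra h
    apply g2
    refine ⟨(r % k, s % k), Finset.mem_product.2 ⟨Finset.mem_range.2 (Nat.mod_lt _ hk),
      Finset.mem_range.2 (Nat.mod_lt _ hk)⟩, ?_⟩
    rw [Set.mem_ofPred_eq]
    have e1 : ∀ x y : ℕ, (x ≡ y % k [MOD k] ↔ x ≡ y [MOD k]) := fun x y =>
      ⟨fun h => h.trans (Nat.mod_modEq y k), fun h => h.trans (Nat.mod_modEq y k).symm⟩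
    simp only [e1]
    exact not_le.1 h
  have hN0 : (0 : ℝ) ≤ N := Nat.cast_nonneg _
  set x : ℝ := (pairCount a b c 1 0 (1 / B) 1 (fun t d => Ty u v S d ∧
      Ty u' v' S' (cf a b c t d 0) ∧ Ty u'' v'' S'' (cf a b c t d j) ∧ Omn d ≡ r [MOD k] ∧
      Omn (cf a b c t d 0) ≡ s [MOD k] ∧ Omn (cf a b c t d j) ≡ q [MOD k]) N : ℝ)
  set y : ℝ := (pairCount a b c 1 0 (1 / B) 1 (fun t d => Ty u v S d ∧
      Ty u' v' S' (cf a b c t d 0) ∧ Omn d ≡ r [MOD k] ∧ Omn (cf a b c t d 0) ≡ s [MOD k]) N : ℝ)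
  have g5 : |δ'' / k * y - δ * δ' * δ'' * κ * Real.log B / k ^ 3 * N| ≤
      ε / 2 * Real.log B * N := by
    have e1 : δ'' / k * y - δ * δ' * δ'' * κ * Real.log B / k ^ 3 * N =
        δ'' / k * (y - δ * δ' * (κ * Real.log B) / k ^ 2 * N) := by
      field_simp
    rw [e1, abs_mul, abs_div, abs_of_pos hk0]
    have h1 : |δ''| / k ≤ D := by
      have h2 : |δ''| / k ≤ |δ''| := div_le_self (abs_nonneg _) hk1
      rw [hD]
      linarith
    calc |δ''| / k * |y - δ * δ' * (κ * Real.log B) / k ^ 2 * N| ≤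
        D * (ε / 2 * Real.log B / D * N) :=
          mul_le_mul h1 g4 (abs_nonneg _) hD0.le
      _ = ε / 2 * Real.log B * N := by field_simp
  have g6 : |x - δ * δ' * δ'' * κ * Real.log B / k ^ 3 * N| ≤ |x - δ'' / k * y| +
      |δ'' / k * y - δ * δ' * δ'' * κ * Real.log B / k ^ 3 * N| := abs_sub_le _ _ _
  rw [Set.mem_ofPred_eq] at *
  linarith

end Pool.Agent.Lib.MP_a17b09_nt.QT
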