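import Pool.Agent.Lib.MP_a17b09_nt.QT.Six79
import Pool.Agent.Lib.MP_a17b09_nt.QT.StmtsG99
import Pool.Agent.Lib.MP_a17b09_nt.QT.Three79
import Pool.Agent.Lib.MP_a17b09_nt.AN.STy3

/-!
Project QT (MP_a17b09_nt): the eight parity patterns of `Ω (f t)`, `Ω (f (t + j d))`,
`Ω (f (t + 2 j d))` for the pairs with a prescribed type of `d` and a prescribed class of `Ω d`
modulo `k`: each for at least `1 / 16 - ε` of these pairs.
-/

set_option autoImplicit false

open Filter Topology Finset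

namespace Pool.Agent.Lib.MP_a17b09_nt.QT

open Pool.Agent.Lib.MP_a17b09_nt.CH Pool.Agent.Lib.MP_a17b09_nt.SP
open Pool.Agent.Lib.MP_a17b09_nt.CH.EndS
open Pool.Agent.Lib.MP_a17b09_nt.SP.EndP27
open Pool.Agent.Lib.MP_a17b09_nt.SPH Pool.Agent.Lib.MP_a17b09_nt.SPH.FinA11
open Pool.Agent.Lib.MP_a17b09_nt.TP79
open AN (Ty Nd)
open AS (cf)

/-- the law of `Ω (f t)`, `Ω (f (t + i d))` modulo `2` for the pairs with `W d` -/
def LawW (a b c : ℤ) (κ ρ : ℝ) (W : ℕ → Prop) : Prop := ∀ i : ℕ, 0 < i → ∀ ε : ℝ, 0 < ε →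
  ∃ B₀ : ℝ, 2 ≤ B₀ ∧ ∀ B : ℝ, B₀ ≤ B → ∀ s u : ℕ, LogNull {N : ℕ | ε * Real.log B * N <
    |(pairCount a b c 1 0 (1 / B) 1 (fun t d => W d ∧ Om a b c t ≡ s [MOD 2] ∧
      Om a b c (t + i * d) ≡ u [MOD 2]) N : ℝ) - ρ * κ * Real.log B / 4 * N|}

open Six79 in
/-- **eight patterns**, for the pairs with `W d` -/
theorem six_w {a b c : ℤ} (hf : ∀ t : ℕ, fv a b c t ≠ 0) {κ : ℝ} (hκ : Kap a b c κ) {ρ : ℝ}
    {W : ℕ → Prop} (hL : LawW a b c κ ρ W) {j : ℕ} (hj : 0 < j) {ε : ℝ} (hε : 0 < ε) :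
    ∃ B₀ : ℝ, 2 ≤ B₀ ∧ ∀ B : ℝ, B₀ ≤ B → ∀ r s u : ℕ, LogNull {N : ℕ |
      (pairCount a b c 1 0 (1 / B) 1 (fun t d => W d ∧ Om a b c t ≡ r [MOD 2] ∧
        Om a b c (t + j * d) ≡ s [MOD 2] ∧ Om a b c (t + 2 * j * d) ≡ u [MOD 2]) N : ℝ) <
        (ρ / 16 - ε) * (κ * Real.log B) * N} := by
  have hκ0 := hκ.1
  set ε' : ℝ := ε * κ / 8 with hε'
  have hε0 : 0 < ε' := by positivity
  obtain ⟨B1, hB1, g1⟩ := hL j hj ε' hε0
  obtain ⟨B2, hB2, g2⟩ := hL (2 * j) (by omega) ε' hε0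
  obtain ⟨B3, hB3, g3⟩ := hL (3 * j) (by omega) ε' hε0
  set B4 : ℝ := Real.exp ((3 * j + 1) / (ε / 2)) with hB4
  refine ⟨max (max B1 B2) (max B3 B4), le_trans hB1 ((le_max_left _ _).trans (le_max_left _ _)),
    fun B hB r s u => ?_⟩
  have hBB1 : B1 ≤ B := ((le_max_left _ _).trans (le_max_left _ _)).trans hB
  have hBB2 : B2 ≤ B := ((le_max_right _ _).trans (le_max_left _ _)).trans hB
  have hBB3 : B3 ≤ B := ((le_max_left _ _).trans (le_max_right _ _)).trans hB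
  have hBB4 : B4 ≤ B := ((le_max_right _ _).trans (le_max_right _ _)).trans hB
  have h2B : 2 ≤ B := hB1.trans hBB1
  have hlB : 0 < Real.log B := Real.log_pos (by linarith)
  have hC : κ * (3 * j + 1) ≤ ε / 2 * κ * Real.log B := by
    have h1 : (3 * j + 1) / (ε / 2) ≤ Real.log B := by
      rw [Real.le_log_iff_exp_le (by linarith)]
      exact hBB4
    rw [div_le_iff₀ (by positivity)] at h1
    calc κ * (3 * j + 1) ≤ κ * (Real.log B * (ε / 2)) := mul_le_mul_of_nonneg_left h1 hκ0.le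
      _ = ε / 2 * κ * Real.log B := by ring
  -- the bad scales
  obtain ⟨N0, hN0⟩ := Filter.eventually_atTop.1 (shift_le hf hκ j h2B)
  have hbad := logNull_union (logNull_union (g1 B hBB1 r s) (g1 B hBB1 s (u + 1)))
    (logNull_union (logNull_union (g1 B hBB1 (s + 1) u) (logNull_union (g2 B hBB2 r (u + 1))
      (g2 B hBB2 r u))) (logNull_union (g3 B hBB3 0 1) (g3 B hBB3 1 0)))
  refine logNull_fin hbad N0 fun N hN hNN => ?_
  by_contra hcon
  simp only [Set.mem_union, not_or, Set.mem_ofPred_eq, not_lt] at hcon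
  rw [Set.mem_ofPred_eq] at hN
  obtain ⟨⟨a1, a2⟩, ⟨a3, a4, a5⟩, a6, a7⟩ := hcon
  have hsh := hN0 N hNN
  have hN0 : (0 : ℝ) ≤ N := Nat.cast_nonneg _
  have hS : κ * (3 * j + 1) * N ≤ ε / 2 * κ * Real.log B * N :=
    mul_le_mul_of_nonneg_right hC hN0
  have e1 : ∀ t d : ℕ, t + j * d + j * d = t + 2 * j * d := fun t d => by ring
  have e2 : ∀ t d : ℕ, t + j * d + 2 * j * d = t + 3 * j * d := fun t d => by ring
  -- two shifted pairs
  have b1 := hsh (fun t d => W d ∧ Om a b c t ≡ s [MOD 2] ∧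
    Om a b c (t + j * d) ≡ u + 1 [MOD 2])
  have b2 := hsh (fun t d => W d ∧ Om a b c t ≡ s + 1 [MOD 2] ∧
    Om a b c (t + j * d) ≡ u [MOD 2])
  -- the parity class
  have b3 := hsh (fun t d => W d ∧ Om a b c t + Om a b c (t + j * d) +
    Om a b c (t + 2 * j * d) ≡ r + s + u [MOD 2])
  simp only [e1, e2] at b1 b2 b3
  have b4 := pc_le_add (h := 1) (t₀ := 0) hf (α := 1 / B) (β := 1)
    (P := fun t d => W d ∧ Om a b c t + Om a b c (t + 3 * j * d) ≡ 1 [MOD 2])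
    (Q := fun t d => W d ∧ Om a b c t + Om a b c (t + j * d) +
      Om a b c (t + 2 * j * d) ≡ r + s + u [MOD 2])
    (R := fun t d => W d ∧ Om a b c (t + j * d) + Om a b c (t + 2 * j * d) +
      Om a b c (t + 3 * j * d) ≡ r + s + u [MOD 2]) (by
        intro t d h1
        obtain ⟨h2, h3⟩ := h1
        simp only [Nat.ModEq] at h3 ⊢
        simp only [h2, true_and]
        omega) N
  have b5 := pc_diff_w (h := 1) (t₀ := 0) hf (1 / B) 1 (fun _ d => W d)
    (fun t _ => Om a b c t) (fun t d => Om a b c (t + 3 * j * d)) N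
  have b6 := pc_parity_w (h := 1) (t₀ := 0) hf (1 / B) 1 (fun _ d => W d)
    (fun t _ => Om a b c t) (fun t d => Om a b c (t + j * d))
    (fun t d => Om a b c (t + 2 * j * d)) r s u N
  have b4' : (pairCount a b c 1 0 (1 / B) 1 (fun t d => W d ∧
      Om a b c t + Om a b c (t + 3 * j * d) ≡ 1 [MOD 2]) N : ℝ) ≤
      pairCount a b c 1 0 (1 / B) 1 (fun t d => W d ∧ Om a b c t +
        Om a b c (t + j * d) + Om a b c (t + 2 * j * d) ≡ r + s + u [MOD 2]) N +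
      pairCount a b c 1 0 (1 / B) 1 (fun t d => W d ∧ Om a b c (t + j * d) +
        Om a b c (t + 2 * j * d) + Om a b c (t + 3 * j * d) ≡ r + s + u [MOD 2]) N := by
    exact_mod_cast b4
  rw [abs_le] at a1 a2 a3 a4 a5 a6 a7
  have f1 : ρ * κ * Real.log B / 4 * N = ρ * (κ * Real.log B * N) / 4 := by ring
  rw [f1] at a1 a2 a3 a4 a5 a6 a7
  have f2 : ε' * Real.log B * N = ε / 8 * (κ * Real.log B * N) := by
    rw [hε']
    ring
  rw [f2] at a1 a2 a3 a4 a5 a6 a7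
  have f3 : ε / 2 * κ * Real.log B * N = ε / 2 * (κ * Real.log B * N) := by ring
  rw [f3] at hS
  have f4 : (ρ / 16 - ε) * (κ * Real.log B) * N =
      ρ * (κ * Real.log B * N) / 16 - ε * (κ * Real.log B * N) := by ring
  rw [f4] at hN
  have f5 : 0 ≤ ε * (κ * Real.log B * N) := by positivity
  have c1 := a1.1
  have c2 := a2.2
  have c3 := a3.2
  have c4 := a4.2
  have c5 := a5.1
  have c6 := a6.1
  have c7 := a7.1
  have f6 : ε / 8 * (κ * Real.log B * N) = ε * (κ * Real.log B * N) / 8 := by ring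
  have f7 : ε / 2 * (κ * Real.log B * N) = ε * (κ * Real.log B * N) / 2 := by ring
  rw [f6] at c1 c2 c3 c4 c5 c6 c7
  rw [f7] at hS
  generalize ε * (κ * Real.log B * N) = E at *
  generalize ρ * (κ * Real.log B * N) = M at *
  generalize κ * (3 * j + 1) * N = S at *
  linarith

namespace SixT79

theorem card_par (k r s : ℕ) :
    ((Finset.range (2 * k)).filter (fun x => r + x ≡ s [MOD 2])).card = k := by
  have h1 : (Finset.range (2 * k)).filter (fun x => r + x ≡ s [MOD 2]) =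
      (Finset.range (2 * k)).filter (fun x => x ≡ s + r [MOD 2]) := by
    refine Finset.filter_congr fun x _ => ?_
    simp only [Nat.ModEq]
    omega
  rw [h1, ← Nat.count_eq_card_filter_range, Nat.count_modEq_card _ two_pos]
  simp

theorem card_cls {k : ℕ} (hk : 0 < k) (w : ℕ) :
    ((Finset.range (2 * k)).filter (fun x => x ≡ w [MOD k])).card = 2 := by
  rw [← Nat.count_eq_card_filter_range, Nat.count_modEq_card _ hk]
  simp [Nat.mul_div_cancel _ hk]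

/-- the classes modulo `2 k` -/
def F (k w s u : ℕ) : Finset (ℕ × ℕ × ℕ) :=
  (Finset.range (2 * k) ×ˢ Finset.range (2 * k) ×ˢ Finset.range (2 * k)).filter (fun x =>
    x.1 ≡ w [MOD k] ∧ x.1 + x.2.1 ≡ s [MOD 2] ∧ x.1 + x.2.2 ≡ u [MOD 2])

theorem card_F {k : ℕ} (hk : 0 < k) (w s u : ℕ) : (F k w s u).card = 2 * k ^ 2 := by
  classical
  unfold F
  rw [Finset.card_filter, Finset.sum_product]
  have h1 : ∀ x : ℕ, ∑ y ∈ Finset.range (2 * k) ×ˢ Finset.range (2 * k),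
      (if x ≡ w [MOD k] ∧ x + y.1 ≡ s [MOD 2] ∧ x + y.2 ≡ u [MOD 2] then 1 else 0) =
      if x ≡ w [MOD k] then k ^ 2 else 0 := by
    intro x
    by_cases hx : x ≡ w [MOD k]
    · simp only [hx, true_and, if_true]
      rw [← Finset.card_filter, Finset.filter_product (fun y => x + y ≡ s [MOD 2])
        (fun y => x + y ≡ u [MOD 2]), Finset.card_product, card_par, card_par, sq]
    · simp only [hx, false_and, if_false, Finset.sum_const_zero]
  simp only [h1]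
  rw [← Finset.sum_filter, Finset.sum_const, card_cls hk w, smul_eq_mul]

/-- the class of `Ω (f (t + i d))` -/
theorem om_add {a b c : ℤ} (hf : ∀ t : ℕ, fv a b c t ≠ 0) {B : ℝ} {t d : ℕ}
    (hd : d ∈ nearG a b c (1 / B) 1 t) (i : ℕ) :
    Om a b c (t + i * d) = Omn d + Omn (cf a b c t d i) := by
  have hd1 : d ∣ (fv a b c t).natAbs := Nat.dvd_of_mem_divisors (Finset.mem_filter.1 hd).1
  rw [om_slot hf hd1 i]
  congr 2

/-- the decomposition into the classes modulo `2 k` -/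
theorem decomp {a b c : ℤ} (hf : ∀ t : ℕ, fv a b c t ≠ 0) (B : ℝ) {k : ℕ} (hk : 0 < k)
    (w s u i N : ℕ) (T : ℕ → Prop) (T' T'' : ℕ → Prop) (h' : ∀ n, T' n) (h'' : ∀ n, T'' n) :
    (pairCount a b c 1 0 (1 / B) 1 (fun t d => (T d ∧ Omn d ≡ w [MOD k]) ∧
      Om a b c t ≡ s [MOD 2] ∧ Om a b c (t + i * d) ≡ u [MOD 2]) N : ℝ) =
    ∑ x ∈ F k w s u, (pairCount a b c 1 0 (1 / B) 1 (fun t d => T d ∧ T' (cf a b c t d 0) ∧
      T'' (cf a b c t d i) ∧ Omn d ≡ x.1 [MOD (2 * k)] ∧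
      Omn (cf a b c t d 0) ≡ x.2.1 [MOD (2 * k)] ∧
      Omn (cf a b c t d i) ≡ x.2.2 [MOD (2 * k)]) N : ℝ) := by
  classical
  simp only [TP79.pc_sum hf]
  rw [Finset.sum_comm]
  refine Finset.sum_congr rfl fun t _ => ?_
  rw [Finset.sum_comm]
  refine Finset.sum_congr rfl fun d hd => ?_
  have hk2 : 0 < 2 * k := by omega
  have e1 := om_add hf hd 0
  rw [zero_mul, add_zero] at e1
  have e2 := om_add hf hd i
  rw [e1, e2]
  set x0 : ℕ × ℕ × ℕ := (Omn d % (2 * k), Omn (cf a b c t d 0) % (2 * k),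
    Omn (cf a b c t d i) % (2 * k)) with hx0
  have m1 : ∀ n : ℕ, n % (2 * k) ≡ n [MOD k] := fun n =>
    (Nat.mod_modEq n (2 * k)).of_mul_left 2
  have m2 : ∀ n : ℕ, n % (2 * k) ≡ n [MOD 2] := fun n =>
    (Nat.mod_modEq n (2 * k)).of_mul_right k
  by_cases hc : (T d ∧ Omn d ≡ w [MOD k]) ∧ Omn d + Omn (cf a b c t d 0) ≡ s [MOD 2] ∧
      Omn d + Omn (cf a b c t d i) ≡ u [MOD 2]
  · rw [if_pos hc]
    obtain ⟨⟨c1, c2⟩, c3, c4⟩ := hc
    have hmem : x0 ∈ F k w s u := by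
      unfold F
      rw [Finset.mem_filter, Finset.mem_product, Finset.mem_product, Finset.mem_range,
        Finset.mem_range, Finset.mem_range]
      exact ⟨⟨Nat.mod_lt _ hk2, Nat.mod_lt _ hk2, Nat.mod_lt _ hk2⟩, (m1 _).trans c2,
        ((m2 _).add (m2 _)).trans c3, ((m2 _).add (m2 _)).trans c4⟩
    rw [Finset.sum_eq_single_of_mem x0 hmem]
    · rw [if_pos]
      exact ⟨c1, h' _, h'' _, (Nat.mod_modEq _ _).symm, (Nat.mod_modEq _ _).symm,
        (Nat.mod_modEq _ _).symm⟩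
    · intro x hx hne
      rw [if_neg]
      rintro ⟨-, -, -, h2, h3, h4⟩
      apply hne
      unfold F at hx
      rw [Finset.mem_filter, Finset.mem_product, Finset.mem_product, Finset.mem_range,
        Finset.mem_range, Finset.mem_range] at hx
      obtain ⟨⟨l1, l2, l3⟩, -⟩ := hx
      rw [hx0]
      refine Prod.ext ?_ (Prod.ext ?_ ?_)
      · exact (Nat.mod_eq_of_lt l1).symm.trans h2.symm
      · exact (Nat.mod_eq_of_lt l2).symm.trans h3.symm
      · exact (Nat.mod_eq_of_lt l3).symm.trans h4.symm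
  · rw [if_neg hc]
    symm
    refine Finset.sum_eq_zero fun x hx => if_neg fun hx2 => hc ?_
    obtain ⟨g1, -, -, g2, g3, g4⟩ := hx2
    unfold F at hx
    rw [Finset.mem_filter] at hx
    obtain ⟨-, f1, f2, f3⟩ := hx
    exact ⟨⟨g1, (g2.of_mul_left 2).trans f1⟩,
      ((g2.of_mul_right k).add (g3.of_mul_right k)).trans f2,
      ((g2.of_mul_right k).add (g4.of_mul_right k)).trans f3⟩

end SixT79

open SixT79 in
/-- the law of the two parities for the pairs with a prescribed type of `d` and class of `Ω d` -/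
theorem lawW_of {a b c : ℤ} (hf : ∀ t : ℕ, fv a b c t ≠ 0) {κ : ℝ} (hT : Three a b c κ) {m : ℕ}
    {u v : Fin m → ℝ} {S : Set (Fin m → ℕ)} {δ : ℝ} (hu : ∀ i, 0 < u i) (hδ : Nd (Ty u v S) δ)
    {k : ℕ} (hk : 0 < k) (w : ℕ) :
    LawW a b c κ (δ / k) (fun d => Ty u v S d ∧ Omn d ≡ w [MOD k]) := by
  intro i hi ε hε
  have hk0 : (0 : ℝ) < k := by exact_mod_cast hk
  obtain ⟨B₀, hB0, hB⟩ := hT m 0 0 u v (fun i => i.elim0) (fun i => i.elim0) (fun i => i.elim0)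
    (fun i => i.elim0) S Set.univ Set.univ δ 1 1 hu (fun i => i.elim0) (fun i => i.elim0) hδ
    AS.Ty3.nd_triv AS.Ty3.nd_triv (2 * k) (by omega) i hi (ε / (2 * k ^ 2)) (by positivity)
  refine ⟨B₀, hB0, fun B hBB s q => LogNull.mono (hB B hBB) fun N hN => ?_⟩
  have hlB : 0 < Real.log B := Real.log_pos (by linarith)
  by_contra hcon
  simp only [Set.mem_ofPred_eq, not_exists, not_lt] at hcon
  rw [Set.mem_ofPred_eq, decomp hf B hk w s q i N (Ty u v S) (Ty (fun i => i.elim0)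
    (fun i => i.elim0) Set.univ) (Ty (fun i => i.elim0) (fun i => i.elim0) Set.univ)
    (fun n => Set.mem_univ _) (fun n => Set.mem_univ _)] at hN
  have h1 : δ / k * κ * Real.log B / 4 * N = ∑ x ∈ F k w s q,
      δ * 1 * 1 * κ * Real.log B / ((2 * k : ℕ) : ℝ) ^ 3 * N := by
    rw [Finset.sum_const, card_F hk, nsmul_eq_mul]
    push_cast
    field_simp
    ring
  rw [h1, ← Finset.sum_sub_distrib] at hN
  have h2 := (Finset.abs_sum_le_sum_abs _ (F k w s q)).trans (Finset.sum_le_sum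
    fun x _ => hcon x.1 x.2.1 x.2.2)
  rw [Finset.sum_const, card_F hk, nsmul_eq_mul] at h2
  have h3 : ((2 * k ^ 2 : ℕ) : ℝ) * (ε / (2 * k ^ 2) * Real.log B * N) = ε * Real.log B * N := by
    push_cast
    field_simp
  rw [h3] at h2
  exact absurd h2 (not_le.2 hN)

/-- **eight patterns** for the pairs with a prescribed type of `d` and class of `Ω d` modulo `k` -/
theorem six_t {a b c : ℤ} (hf : ∀ t : ℕ, fv a b c t ≠ 0) {κ : ℝ} (hκ : Kap a b c κ)
    (hT : Three a b c κ) {m : ℕ} {u v : Fin m → ℝ} {S : Set (Fin m → ℕ)} {δ : ℝ}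
    (hu : ∀ i, 0 < u i) (hδ : Nd (Ty u v S) δ) {k : ℕ} (hk : 0 < k) {j : ℕ} (hj : 0 < j) {ε : ℝ}
    (hε : 0 < ε) : ∃ B₀ : ℝ, 2 ≤ B₀ ∧ ∀ B : ℝ, B₀ ≤ B → ∀ w r s q : ℕ, LogNull {N : ℕ |
      (pairCount a b c 1 0 (1 / B) 1 (fun t d => (Ty u v S d ∧ Omn d ≡ w [MOD k]) ∧
        Om a b c t ≡ r [MOD 2] ∧ Om a b c (t + j * d) ≡ s [MOD 2] ∧
        Om a b c (t + 2 * j * d) ≡ q [MOD 2]) N : ℝ) <
        (δ / k / 16 - ε) * (κ * Real.log B) * N} := by
  choose B₀ hB0 hB using fun w : ℕ => six_w hf hκ (lawW_of hf hT hu hδ hk w) hj hε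
  refine ⟨(Finset.range k).sup' ⟨0, Finset.mem_range.2 hk⟩ B₀, ?_, fun B hBB w r s q => ?_⟩
  · exact (hB0 0).trans (Finset.le_sup' B₀ (Finset.mem_range.2 hk))
  · have h1 : B₀ (w % k) ≤ B :=
      (Finset.le_sup' B₀ (Finset.mem_range.2 (Nat.mod_lt w hk))).trans hBB
    have h2 := hB (w % k) B h1 r s q
    have e1 : ∀ x : ℕ, (x ≡ w % k [MOD k] ↔ x ≡ w [MOD k]) := fun x =>
      ⟨fun h => h.trans (Nat.mod_modEq w k), fun h => h.trans (Nat.mod_modEq w k).symm⟩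
    simp only [e1] at h2
    exact h2

end Pool.Agent.Lib.MP_a17b09_nt.QT
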