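import Pool.Agent.Lib.MP_a17b09_nt.QT.AllQ3
import Pool.Agent.Lib.MP_a17b09_nt.QT.DilG_42
import Pool.Agent.Lib.MP_a17b09_nt.QT.CondG_53
import Pool.Agent.Lib.MP_a17b09_nt.QT.SixT79
import Pool.Agent.Lib.MP_a17b09_nt.QT.Pos79

/-!
Project QT (MP_a17b09_nt): the closed theorems for the hand-in.
-/

set_option autoImplicit false

open Filter Topology Finset

namespace Pool.Agent.Lib.MP_a17b09_nt.QT

open CH CH.PE HY SP
open AN (Ty Nd)

/-- for most `t`, every completely multiplicative function of `d`, types of `d` and `|f t| / d` -/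
theorem lawT_all79 (a b c : ℤ) (ha : 0 < a) (hns : ¬ IsSquare (b ^ 2 - 4 * a * c))
    {m m' m'' : ℕ} (u v : Fin m → ℝ) (u' v' : Fin m' → ℝ) (u'' v'' : Fin m'' → ℝ)
    (S : Set (Fin m → ℕ)) (S' : Set (Fin m' → ℕ)) (S'' : Set (Fin m'' → ℕ)) (δ'' : ℝ)
    (hu : ∀ i, 0 < u i) (hu' : ∀ i, 0 < u' i) (hu'' : ∀ i, 0 < u'' i)
    (hδ : Nd (Ty u'' v'' S'') δ'') :
    LawG a b c (gT a b c (Ty u v S) (Ty u' v' S')) (Ty u'' v'' S'') δ'' :=
  lawG_all3 a b c ha hns _ (gT_le a b c _ _) (fun p hp => stDilG_42 AN.stOk_18 AN.stDen_all98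
    a b c ha (fv_ne64 hns) (pair1_all3 a b c ha hns) m m' u v u' v' S S' hu hu' p hp.1) m'' u'' v''
    S'' δ'' hu'' hδ

/-- for most `t`, classes -/
theorem condL_all79 (a b c : ℤ) (ha : 0 < a) (hns : ¬ IsSquare (b ^ 2 - 4 * a * c))
    {m m' m'' : ℕ} (u v : Fin m → ℝ) (u' v' : Fin m' → ℝ) (u'' v'' : Fin m'' → ℝ)
    (S : Set (Fin m → ℕ)) (S' : Set (Fin m' → ℕ)) (S'' : Set (Fin m'' → ℕ)) (δ'' : ℝ)
    (hu : ∀ i, 0 < u i) (hu' : ∀ i, 0 < u' i) (hu'' : ∀ i, 0 < u'' i)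
    (hδ : Nd (Ty u'' v'' S'') δ'') :
    CondL a b c (Ty u v S) (Ty u' v' S') (Ty u'' v'' S'') δ'' :=
  stCondL_53 a b c ha (fv_ne64 hns) _ _ _ _ (lawT_all79 a b c ha hns u v u' v' u'' v'' S S' S''
    δ'' hu hu' hu'' hδ)

/-- three independent random integers -/
theorem three_all79 (a b c : ℤ) (ha : 0 < a) (hns : ¬ IsSquare (b ^ 2 - 4 * a * c)) (κ : ℝ)
    (hκ : Kap a b c κ) : Three a b c κ := three_of3 stDilG_42 stCondL_53 a b c ha hns κ hκ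

end Pool.Agent.Lib.MP_a17b09_nt.QT
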