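import Pool.Agent.Lib.MP_a17b09_nt.QT.Stmts99
import Pool.Agent.Lib.MP_a17b09_nt.AN.SInH_53
import Pool.Agent.Lib.MP_a17b09_nt.AN.W98

/-!
Project QT (MP_a17b09_nt), X2 (helper53): the twisted sums of two slots with a periodic weight for
all events, any nonsquare discriminant.
-/

set_option autoImplicit false

open Filter Topology Finset

namespace Pool.Agent.Lib.MP_a17b09_nt.QT

open CH CH.PE HY SP
open AN (Ev ind wz wd Dens GWt)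
open ANH (GWtH)
open AN.W98
open AS (StInW StInHW InW InHW not_sq53)

/-- (X2) -/
theorem stEvX_53 (hTw : StTwX) (hTwH : StTwXH) (hIn : StInW) (hInH : StInHW)
    (hGA : ∀ d : ℕ, 0 < d → AN.StGA d) (hGAH : ∀ d : ℕ, ¬ IsSquare d → ANH.StGAH d) :
    StEvX := by
  intro a b c ha hns E E' δ δ' hE hE' hd hd'
  rcases lt_or_ge (b ^ 2 - 4 * a * c) 0 with hD | hD
  · obtain ⟨d, hdd⟩ : ∃ d : ℕ, 4 * a * c - b ^ 2 = (d : ℤ) :=
      ⟨_, (Int.toNat_of_nonneg (by linarith)).symm⟩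
    have hd0 : 0 < d := by
      have : (0 : ℤ) < d := by rw [← hdd]; linarith
      exact_mod_cast this
    have gE : ∀ m : ℕ, 0 < m → GWt (d * m ^ 2) E.Is δ := fun m hm =>
      hGA _ (Nat.mul_pos hd0 (pow_pos hm 2)) E δ hE hd
    have gE' : ∀ m : ℕ, 0 < m → GWt (d * m ^ 2) E'.Is δ' := fun m hm =>
      hGA _ (Nat.mul_pos hd0 (pow_pos hm 2)) E' δ' hE' hd'
    obtain ⟨i1, i2, i3⟩ := hIn d hd0 E.Is E'.Is δ δ' gE gE'
    obtain ⟨j1, j2, j3⟩ := hIn d hd0 E'.Is E.Is δ' δ gE' gE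
    refine ⟨?_, ?_, ?_⟩
    · intro z1 z2 k hk h1 h2 h12
      have hn1 : ‖z1‖ = 1 := Complex.norm_eq_one_of_pow_eq_one h1 hk.ne'
      have hn2 : ‖z2‖ = 1 := Complex.norm_eq_one_of_pow_eq_one h2 hk.ne'
      exact hTw a b c d ha hd0 hdd _ _ (b1_wz hn1 _) (b1_wz hn2 _) (i1 z1 z2 k hk h1 h2 h12)
        (j1 z2 z1 k hk h2 h1 h12.symm)
    · exact hTw a b c d ha hd0 hdd _ _ (b1_wd hd.1 hd.2.1) (b1_ind _) i2 j3
    · exact hTw a b c d ha hd0 hdd _ _ (b1_ind _) (b1_wd hd'.1 hd'.2.1) i3 j2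
  · obtain ⟨d, hdd⟩ : ∃ d : ℕ, b ^ 2 - 4 * a * c = (d : ℤ) :=
      ⟨_, (Int.toNat_of_nonneg hD).symm⟩
    have hns' : ¬ IsSquare d := by
      rintro ⟨r, hr⟩
      exact hns ⟨(r : ℤ), by rw [hdd, hr]; push_cast; ring⟩
    have gE : ∀ m : ℕ, 0 < m → GWtH (d * m ^ 2) E.Is δ := fun m hm =>
      hGAH _ (not_sq53 hns' hm) E δ hE hd
    have gE' : ∀ m : ℕ, 0 < m → GWtH (d * m ^ 2) E'.Is δ' := fun m hm =>
      hGAH _ (not_sq53 hns' hm) E' δ' hE' hd'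
    obtain ⟨i1, i2, i3⟩ := hInH d hns' E.Is E'.Is δ δ' gE gE'
    obtain ⟨j1, j2, j3⟩ := hInH d hns' E'.Is E.Is δ' δ gE' gE
    refine ⟨?_, ?_, ?_⟩
    · intro z1 z2 k hk h1 h2 h12
      have hn1 : ‖z1‖ = 1 := Complex.norm_eq_one_of_pow_eq_one h1 hk.ne'
      have hn2 : ‖z2‖ = 1 := Complex.norm_eq_one_of_pow_eq_one h2 hk.ne'
      exact hTwH a b c ha d hdd hns' _ _ (b1_wz hn1 _) (b1_wz hn2 _) (i1 z1 z2 k hk h1 h2 h12)
        (j1 z2 z1 k hk h2 h1 h12.symm)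
    · exact hTwH a b c ha d hdd hns' _ _ (b1_wd hd.1 hd.2.1) (b1_ind _) i2 j3
    · exact hTwH a b c ha d hdd hns' _ _ (b1_ind _) (b1_wd hd'.1 hd'.2.1) i3 j2

end Pool.Agent.Lib.MP_a17b09_nt.QT
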