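import Pool.Agent.Lib.MP_a17b09_nt.QT.StmtsQ3
import Pool.Agent.Lib.MP_a17b09_nt.QT.Fin_98

/-!
Project QT, K3: the pairs `(Ω d, Ω (f (t + j d)))` are equidistributed modulo `k` for most `t`, by
double finite Fourier inversion.
-/

set_option autoImplicit false

open Filter Topology Finset

namespace Pool.Agent.Lib.MP_a17b09_nt.QT

open CH CH.PE HY SP
open AS (cf)
open SPH (vl)

namespace Fin98

/-- the first numbers are exceptions -/
theorem lognull_ev {E : Set ℕ} (h : ∀ᶠ N : ℕ in atTop, N ∉ E) : LogNull E := by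
  obtain ⟨N1, hN1⟩ := eventually_atTop.1 h
  intro ε hε
  refine ⟨0, fun H _ => ⟨N1, fun N hN => ?_⟩⟩
  have h1 : ∑ n ∈ Finset.Ioc N (2 ^ H * N), E.indicator (fun n => (1 : ℝ) / n) n = 0 := by
    refine Finset.sum_eq_zero fun n hn => Set.indicator_of_notMem (hN1 n ?_) _
    exact hN.trans (Finset.mem_Ioc.1 hn).1.le
  rw [h1]
  positivity

/-- the twisted sum with both roots of unity -/
noncomputable def G (a b c : ℤ) (B : ℝ) (z1 z2 : ℂ) (j t : ℕ) : ℂ :=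
  ∑ d ∈ nearG a b c (1 / B) 1 t, z1 ^ Omn d * z2 ^ Omn (vl a b c (t + j * d))

/-- the deviation is an average of the twisted sums -/
theorem dev2 {z : ℂ} {k : ℕ} (hk : 0 < k) (hz : IsPrimitiveRoot z k) (N : Finset ℕ)
    (A B : ℕ → ℕ) (r s : ℕ) :
    (((N.filter (fun d => A d ≡ s [MOD k] ∧ B d ≡ r [MOD k])).card : ℕ) : ℂ) -
      (N.card : ℂ) / (k : ℂ) ^ 2 =
    ∑ p ∈ (range k ×ˢ range k).erase (0, 0), (1 / (k : ℂ) ^ 2) *
      ((z⁻¹ ^ p.1) ^ s * (z⁻¹ ^ p.2) ^ r) * ∑ d ∈ N, (z ^ p.1) ^ A d * (z ^ p.2) ^ B d := by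
  have h0 : ((0, 0) : ℕ × ℕ) ∈ range k ×ˢ range k :=
    mem_product.2 ⟨mem_range.2 hk, mem_range.2 hk⟩
  rw [FinT22.card_eq hk hz N A B s r, ← add_sum_erase _ _ h0]
  simp only [pow_zero, one_pow, mul_one, sum_const, nsmul_eq_mul]
  ring

/-- the deviation is small if the twisted sums are small -/
theorem bound2 {a b c : ℤ} {z : ℂ} {k : ℕ} (hk : 0 < k)
    (hz : IsPrimitiveRoot z k) (B : ℝ) (j r s t : ℕ) :
    |(nd a b c B t (fun d => Omn d ≡ s [MOD k] ∧ Omn (vl a b c (t + j * d)) ≡ r [MOD k]) : ℝ) -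
      (nd a b c B t (fun _ => True) : ℝ) / (k : ℝ) ^ 2| ≤
    ∑ p ∈ (range k ×ˢ range k).erase (0, 0), (1 / (k : ℝ) ^ 2) *
      ‖G a b c B (z ^ p.1) (z ^ p.2) j t‖ := by
  classical
  have h0 := dev2 hk hz (nearG a b c (1 / B) 1 t) (fun d => Omn d)
    (fun d => Omn (vl a b c (t + j * d))) r s
  have hn : ‖z‖ = 1 := hz.norm'_eq_one hk.ne'
  have h1 : |(nd a b c B t (fun d => Omn d ≡ s [MOD k] ∧
      Omn (vl a b c (t + j * d)) ≡ r [MOD k]) : ℝ) -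
      (nd a b c B t (fun _ => True) : ℝ) / (k : ℝ) ^ 2| =
      ‖((((nearG a b c (1 / B) 1 t).filter (fun d => Omn d ≡ s [MOD k] ∧
        Omn (vl a b c (t + j * d)) ≡ r [MOD k])).card : ℕ) : ℂ) -
      ((nearG a b c (1 / B) 1 t).card : ℂ) / (k : ℂ) ^ 2‖ := by
    rw [← Real.norm_eq_abs, ← Complex.norm_real]
    congr 1
    have h2 : nd a b c B t (fun _ => True) = (nearG a b c (1 / B) 1 t).card := by
      unfold nd
      refine congrArg _ ?_
      ext x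
      simp
    rw [h2]
    unfold nd
    push_cast
    congr!
  rw [h1, h0]
  refine (norm_sum_le _ _).trans (sum_le_sum fun p _ => ?_)
  rw [norm_mul, norm_mul, norm_mul]
  have h2 : ‖(z⁻¹ ^ p.1) ^ s‖ = 1 := by
    rw [norm_pow, norm_pow, norm_inv, hn, inv_one, one_pow, one_pow]
  have h3 : ‖(z⁻¹ ^ p.2) ^ r‖ = 1 := by
    rw [norm_pow, norm_pow, norm_inv, hn, inv_one, one_pow, one_pow]
  have h4 : ‖(1 / (k : ℂ) ^ 2)‖ = 1 / (k : ℝ) ^ 2 := by
    rw [norm_div, norm_one, norm_pow, Complex.norm_natCast]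
  rw [h2, h3, h4, mul_one, mul_one]
  exact le_of_eq rfl

theorem G_eq {a b c : ℤ} (hf : ∀ t : ℕ, fv a b c t ≠ 0) (B : ℝ) (z1 z2 : ℂ) (j t : ℕ) :
    G a b c B z1 z2 j t = DS a b c B (z1 * z2) z2 j t := by
  unfold DS G
  refine sum_congr rfl fun d hd => ?_
  rw [omn_eq hf hd j, pow_add, mul_pow, mul_assoc]

/-- all twisted sums are small for most `t` -/
theorem small {a b c : ℤ} (hf : ∀ t : ℕ, fv a b c t ≠ 0) (hQ : Quen a b c) (hQ0 : Quen0 a b c)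
    {z : ℂ} {k : ℕ} (hk : 0 < k) (hz : IsPrimitiveRoot z k) {j : ℕ} (hj : 0 < j) {ε : ℝ}
    (hε : 0 < ε) : ∀ p ∈ (range k ×ˢ range k).erase (0, 0), ∃ B₀ : ℝ, 2 ≤ B₀ ∧
    ∀ B : ℝ, B₀ ≤ B → LogNull {N : ℕ | ε * Real.log B * N <
      ∑ t ∈ Finset.Icc 1 N, ‖G a b c B (z ^ p.1) (z ^ p.2) j t‖} := by
  intro p hp
  have hzk : ∀ i, (z ^ i) ^ k = 1 := by
    intro i
    rw [← pow_mul, Nat.mul_comm, pow_mul, hz.pow_eq_one, one_pow]
  have hne : ∀ i, i < k → i ≠ 0 → z ^ i ≠ 1 := by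
    intro i hi hi0 h
    exact hi0 (Nat.eq_zero_of_dvd_of_lt (hz.dvd_of_pow_eq_one i h) hi)
  have h1 := mem_erase.1 hp
  have h2 := mem_product.1 h1.2
  by_cases h3 : p.2 = 0
  · have h4 : p.1 ≠ 0 := fun h => h1.1 (Prod.ext h h3)
    obtain ⟨B₀, h5, h6⟩ := hQ0 (z ^ p.1) k hk (hzk _) (hne _ (mem_range.1 h2.1) h4) ε hε
    refine ⟨B₀, h5, fun B hB => lognull_ev ?_⟩
    filter_upwards [h6 B hB] with N hN
    show ¬ (_ < _)
    refine not_lt.2 (le_trans (le_of_eq (sum_congr rfl fun t _ => ?_)) hN)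
    unfold G
    rw [h3, pow_zero]
    congr 1
    exact sum_congr rfl fun d _ => by rw [one_pow, mul_one]
  · obtain ⟨B₀, h5, h6⟩ := hQ (z ^ p.1 * z ^ p.2) (z ^ p.2) k hk
      (by rw [mul_pow, hzk, hzk, one_mul]) (hzk _) (hne _ (mem_range.1 h2.2) h3) j hj ε hε
    refine ⟨B₀, h5, fun B hB => ?_⟩
    simpa only [G_eq hf] using h6 B hB

end Fin98

open Fin98 in
/-- K3 -/
theorem stFinQ2_98 : StFinQ2 := by
  classical
  intro a b c _ hf hQ hQ0 k hk j hj ε hε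
  have hk0 : (0 : ℝ) < k := by exact_mod_cast hk
  obtain ⟨z, hz⟩ : ∃ z : ℂ, IsPrimitiveRoot z k :=
    ⟨_, Complex.isPrimitiveRoot_exp k hk.ne'⟩
  set P := (range k ×ˢ range k).erase (0, 0) with hP
  have hq := small hf hQ hQ0 hk hz hj hε
  rw [← hP] at hq
  choose! B0 hB2 hB0 using hq
  have hsum : ∀ p ∈ P, B0 p ≤ ∑ p ∈ P, B0 p := fun p hp =>
    single_le_sum (f := B0) (fun q hq => le_trans (by norm_num) (hB2 q hq)) hp
  have hpos : 0 ≤ ∑ p ∈ P, B0 p := sum_nonneg fun q hq => le_trans (by norm_num) (hB2 q hq)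
  refine ⟨2 + ∑ p ∈ P, B0 p, by linarith, fun B hB => ?_⟩
  have hB1 : 2 ≤ B := by linarith
  have hlog : 0 ≤ Real.log B := Real.log_nonneg (by linarith)
  refine EndS.LogNull.mono (AN.Ty98.lognull_union P (fun p => {N : ℕ | ε * Real.log B * N <
    ∑ t ∈ Finset.Icc 1 N, ‖G a b c B (z ^ p.1) (z ^ p.2) j t‖})
    (fun p hp => hB0 p hp B (by linarith [hsum p hp]))) ?_
  intro N hN
  by_contra hcon
  obtain ⟨r, s, hrs⟩ := hN
  have h1 : ∀ p ∈ P, ∑ t ∈ Finset.Icc 1 N,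
      ‖G a b c B (z ^ p.1) (z ^ p.2) j t‖ ≤ ε * Real.log B * N := by
    intro p hp
    by_contra h
    exact hcon ⟨p, hp, not_le.1 h⟩
  have hcard : (P.card : ℝ) ≤ (k : ℝ) ^ 2 := by
    have h2 : P.card ≤ k * k := by
      refine (card_erase_le).trans ?_
      rw [card_product, card_range]
    have h3 : (P.card : ℝ) ≤ (k : ℝ) * k := by exact_mod_cast h2
    rw [sq]
    exact h3
  have h2 : ∑ t ∈ Finset.Icc 1 N,
      |(nd a b c B t (fun d => Omn d ≡ s [MOD k] ∧ Omn (vl a b c (t + j * d)) ≡ r [MOD k]) : ℝ) -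
        (nd a b c B t (fun _ => True) : ℝ) / k ^ 2| ≤ ε * Real.log B * N := by
    calc _ ≤ ∑ t ∈ Finset.Icc 1 N, ∑ p ∈ P, (1 / (k : ℝ) ^ 2) *
          ‖G a b c B (z ^ p.1) (z ^ p.2) j t‖ :=
          sum_le_sum fun t _ => bound2 hk hz B j r s t
      _ = ∑ p ∈ P, (1 / (k : ℝ) ^ 2) * ∑ t ∈ Finset.Icc 1 N,
          ‖G a b c B (z ^ p.1) (z ^ p.2) j t‖ := by
          rw [sum_comm]
          exact sum_congr rfl fun p _ => (mul_sum _ _ _).symm
      _ ≤ ∑ p ∈ P, (1 / (k : ℝ) ^ 2) * (ε * Real.log B * N) :=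
          sum_le_sum fun p hp => mul_le_mul_of_nonneg_left (h1 p hp) (by positivity)
      _ = (P.card / (k : ℝ) ^ 2) * (ε * Real.log B * N) := by
          rw [sum_const, nsmul_eq_mul]
          ring
      _ ≤ 1 * (ε * Real.log B * N) := by
          refine mul_le_mul_of_nonneg_right ?_ (by positivity)
          rw [div_le_one (by positivity)]
          exact hcard
      _ = ε * Real.log B * N := one_mul _
  exact absurd hrs (not_lt.2 h2)

end Pool.Agent.Lib.MP_a17b09_nt.QT
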