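import Pool.Agent.Lib.MP_a17b09_nt.QT.Stmts99
import Pool.Agent.Lib.MP_a17b09_nt.HY.TopH20
import Pool.Agent.Lib.MP_a17b09_nt.CH.TopS64

/-!
Project QT (MP_a17b09_nt), row C1 (helper3): `StKap`, the number of pairs and the mean of `rho`.
-/

set_option autoImplicit false

open Filter Topology Finset

namespace Pool.Agent.Lib.MP_a17b09_nt.QT

open CH CH.PE HY SP

namespace Kap3

theorem fv_ne {a b c : ℤ} (hns : ¬ IsSquare (b ^ 2 - 4 * a * c)) (t : ℕ) : fv a b c t ≠ 0 := by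
  intro h0
  apply hns
  refine ⟨2 * a * t + b, ?_⟩
  unfold fv at h0
  linear_combination (-4 * a) * h0

/-- the pairs with `d ≤ t < 2 d`, `d ≤ n` -/
theorem card_one {a b c : ℤ} (n : ℕ) :
    {p : ℕ × ℕ | PG a b c 1 0 p ∧ p.2 ≤ n ∧ (1 : ℝ) ≤ (p.1 : ℝ) / p.2 ∧
      (p.1 : ℝ) / p.2 < 2}.ncard = ∑ d ∈ Finset.Icc 1 n, rho a b c d := by
  classical
  set G : Finset (Σ _ : ℕ, ℕ) := (Finset.Icc 1 n).sigma
    (fun d => (Finset.range d).filter (fun t : ℕ => (d : ℤ) ∣ fv a b c t)) with hG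
  have key : ∀ d s : ℕ, (d : ℤ) ∣ fv a b c (d + s) ↔ (d : ℤ) ∣ fv a b c s := by
    intro d s
    have e1 : fv a b c (d + s) = fv a b c s + (d : ℤ) * (a * (2 * s + d) + b) := by
      unfold fv
      push_cast
      ring
    rw [e1]
    exact (dvd_add_left (dvd_mul_right _ _))
  have e1 : {p : ℕ × ℕ | PG a b c 1 0 p ∧ p.2 ≤ n ∧ (1 : ℝ) ≤ (p.1 : ℝ) / p.2 ∧
      (p.1 : ℝ) / p.2 < 2} = (fun x : (Σ _ : ℕ, ℕ) => (x.1 + x.2, x.1)) '' (G : Set _) := by
    ext ⟨t, d⟩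
    simp only [Set.mem_ofPred_eq, Set.mem_image, hG, Finset.coe_sigma, Set.mem_sigma_iff,
      Finset.mem_coe, Finset.mem_Icc, Finset.mem_filter, Finset.mem_range, Prod.mk.injEq]
    constructor
    · rintro ⟨⟨h1, -, h3⟩, h4, h5, h6⟩
      have hd : (0 : ℝ) < d := by exact_mod_cast h1
      rw [le_div_iff₀ hd] at h5
      rw [div_lt_iff₀ hd] at h6
      have h7 : d ≤ t := by
        have : (d : ℝ) ≤ t := by linarith
        exact_mod_cast this
      have h8 : t < 2 * d := by exact_mod_cast h6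
      refine ⟨⟨d, t - d⟩, ⟨⟨h1, h4⟩, by show t - d < d; omega, ?_⟩, ?_, rfl⟩
      · have h9 := (key d (t - d)).1
        rw [show d + (t - d) = t by omega] at h9
        exact h9 h3
      · show d + (t - d) = t
        omega
    · rintro ⟨⟨d', s⟩, ⟨⟨h1, h2⟩, h3, h4⟩, h5, h6⟩
      simp only at h1 h2 h3 h4 h5 h6
      subst h6
      have hd : (0 : ℝ) < d' := by exact_mod_cast h1
      refine ⟨⟨h1, Nat.modEq_one, ?_⟩, h2, ?_, ?_⟩
      · show (d' : ℤ) ∣ fv a b c t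
        rw [← h5]
        exact (key d' s).2 h4
      · rw [le_div_iff₀ hd]
        rw [← h5]
        push_cast
        have : (0 : ℝ) ≤ s := Nat.cast_nonneg _
        linarith
      · rw [div_lt_iff₀ hd]
        rw [← h5]
        push_cast
        have : (s : ℝ) < d' := by exact_mod_cast h3
        linarith
  rw [e1, Set.ncard_image_of_injOn, Set.ncard_coe_finset, hG, Finset.card_sigma]
  · rfl
  · rintro ⟨d, s⟩ _ ⟨d', s'⟩ _ h
    simp only [Prod.mk.injEq] at h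
    obtain ⟨h1, h2⟩ := h
    subst h2
    have : s = s' := by omega
    rw [this]

theorem cst_one {a b c : ℤ} {α β : ℝ} (N : ℕ) :
    CST a b c α β 1 0 1 0 0 N = ∑ t ∈ Finset.Icc 1 N, (nearG a b c α β t).card := by
  unfold CST
  rw [Finset.filter_true_of_mem fun t _ => Nat.modEq_one]
  refine Finset.sum_congr rfl fun t _ => ?_
  rw [Finset.filter_true_of_mem fun d _ => ⟨Nat.modEq_one, Nat.modEq_one⟩]

/-- from the number of points -/
theorem core {a b c : ℤ} (hf : ∀ t : ℕ, fv a b c t ≠ 0) {κ : ℝ} (hκ : 0 < κ)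
    (hcnt : ∀ x y : ℝ, 0 < x → x < y →
      (∀ n : ℕ, {p : ℕ × ℕ | PG a b c 1 0 p ∧ p.2 ≤ n ∧ x ≤ (p.1 : ℝ) / p.2 ∧
        (p.1 : ℝ) / p.2 < y}.Finite) ∧
      Tendsto (fun n : ℕ => (({p : ℕ × ℕ | PG a b c 1 0 p ∧ p.2 ≤ n ∧ x ≤ (p.1 : ℝ) / p.2 ∧
        (p.1 : ℝ) / p.2 < y}.ncard : ℕ) : ℝ) / n) atTop (𝓝 (κ * (y - x)))) :
    Kap a b c κ := by
  refine ⟨hκ, fun α β hα hαβ => ?_, ?_⟩
  · have hβ : 0 < β := hα.trans hαβ
    have h1 : 1 / β < 1 / α := one_div_lt_one_div_of_lt hα hαβ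
    have h2 : 0 < 1 / β := by positivity
    have h3 := MS64.natW (ℕ × ℕ) (PG a b c 1 0) (fun p => p.2) (fun p => (p.1 : ℝ) / p.2)
      (fun x y hx hxy n => (hcnt x y hx hxy).1 n) κ
      (fun x y hx hxy => (hcnt x y hx hxy).2) (1 / β) (1 / α) h2 h1 (MainG3.W a b c 1 0 α β)
      (fun X p => MainG3.mem_W hα hβ X p)
    have e1 : 1 / α / (1 / β) = β / α := by
      field_simp
    rw [e1] at h3
    refine h3.congr fun X => ?_
    rw [MS93.card_W hf hβ X, cst_one]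
  · have h4 := (hcnt 1 2 one_pos (by norm_num)).2
    rw [show κ * (2 - 1) = κ by ring] at h4
    refine h4.congr fun n => ?_
    rw [card_one]

end Kap3

open Kap3 in
/-- **row C1** -/
theorem stKap_3 : StKap := by
  intro a b c ha hns
  have hf := fv_ne hns
  rcases lt_or_ge (b ^ 2 - 4 * a * c) 0 with hD | hD
  · obtain ⟨κ, hκ, hcnt⟩ := (cntG_3 (stCntB_18 F64.stR_all) stSys_68) a b c ha hD 1 one_pos 0
    exact ⟨κ, core hf hκ hcnt⟩
  · obtain ⟨d, hd⟩ : ∃ d : ℕ, b ^ 2 - 4 * a * c = d := ⟨_, (Int.toNat_of_nonneg hD).symm⟩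
    have hnd : ¬ IsSquare d := by
      rintro ⟨s, hs⟩
      apply hns
      refine ⟨s, ?_⟩
      rw [hd, hs]
      push_cast
      ring
    obtain ⟨κ, hκ, hcnt⟩ := (stHCntG_18 (stHR_46 stHbox_7) stHSys_68) a b c ha d hd hnd 1
      one_pos 0
    exact ⟨κ, core hf hκ hcnt⟩

end Pool.Agent.Lib.MP_a17b09_nt.QT
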