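import Pool.Agent.Lib.MP_a17b09_nt.QT.StmtsQ3

/-!
Project QT (MP_a17b09_nt), row K0 (helper3): `StKat0` from `StTkR` and `StTr`: the numbers `Ω d`,
`d ∣ f t`, `t / B ≤ d ≤ t`, are equidistributed modulo `k` for most `t`.
-/

set_option autoImplicit false

open Filter Topology Finset

namespace Pool.Agent.Lib.MP_a17b09_nt.QT

open CH CH.PE HY SP

namespace Kat0

variable {a b c : ℤ}

theorem mem_near {α β : ℝ} {t d : ℕ} : d ∈ nearG a b c α β t ↔
    d ∈ (fv a b c t).natAbs.divisors ∧ α * t ≤ d ∧ (d : ℝ) ≤ β * t := by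
  unfold nearG
  rw [Finset.mem_filter]

/-- the window moved by the factor `m`: upper bound -/
theorem shift_le (hf : ∀ t : ℕ, fv a b c t ≠ 0) {B : ℝ} (hB : 1 ≤ B) {m : ℕ} (hm : 1 ≤ m)
    (t : ℕ) : ((nearG a b c (1 / B) 1 t).filter (fun d => m ∣ (fv a b c t).natAbs / d)).card ≤
      ((nearG a b c (1 / B) 1 t).filter (fun d => m ∣ d)).card + (nearG a b c 1 m t).card := by
  classical
  have hF : (fv a b c t).natAbs ≠ 0 := Int.natAbs_ne_zero.2 (hf t)
  have hm0 : (1 : ℝ) ≤ m := by exact_mod_cast hm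
  have ht0 : (0 : ℝ) ≤ t := Nat.cast_nonneg _
  rw [← Finset.card_image_of_injective _ (f := fun d : ℕ => m * d)
    (fun x y h => Nat.eq_of_mul_eq_mul_left hm h)]
  refine (Finset.card_le_card ?_).trans (Finset.card_union_le _ _)
  intro x hx
  rw [Finset.mem_image] at hx
  obtain ⟨d, hd, rfl⟩ := hx
  obtain ⟨hd1, hd2⟩ := Finset.mem_filter.1 hd
  obtain ⟨hd3, hd4, hd5⟩ := mem_near.1 hd1
  obtain ⟨hd6, -⟩ := Nat.mem_divisors.1 hd3
  have hdvd : m * d ∣ (fv a b c t).natAbs := by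
    obtain ⟨e, he⟩ := hd2
    refine ⟨e, ?_⟩
    calc (fv a b c t).natAbs = d * ((fv a b c t).natAbs / d) := (Nat.mul_div_cancel' hd6).symm
      _ = m * d * e := by rw [he]; ring
  have hmem : m * d ∈ (fv a b c t).natAbs.divisors := Nat.mem_divisors.2 ⟨hdvd, hF⟩
  have h0 : (d : ℝ) ≤ m * d := by nlinarith [Nat.cast_nonneg (α := ℝ) d]
  rw [Finset.mem_union]
  by_cases h1 : ((m * d : ℕ) : ℝ) ≤ 1 * t
  · left
    refine Finset.mem_filter.2 ⟨mem_near.2 ⟨hmem, ?_, h1⟩, dvd_mul_right _ _⟩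
    push_cast
    linarith
  · right
    refine mem_near.2 ⟨hmem, ?_, ?_⟩
    · push Not at h1
      exact h1.le
    · push_cast
      have : (m : ℝ) * d ≤ m * (1 * t) := mul_le_mul_of_nonneg_left hd5 (by linarith)
      linarith

/-- the window moved by the factor `m`: lower bound -/
theorem shift_ge (hf : ∀ t : ℕ, fv a b c t ≠ 0) {B : ℝ} (hB : 1 ≤ B) {m : ℕ} (hm : 1 ≤ m)
    (t : ℕ) : ((nearG a b c (1 / B) 1 t).filter (fun d => m ∣ d)).card ≤
      ((nearG a b c (1 / B) 1 t).filter (fun d => m ∣ (fv a b c t).natAbs / d)).card +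
        (nearG a b c (1 / B) (m / B) t).card := by
  classical
  have hF : (fv a b c t).natAbs ≠ 0 := Int.natAbs_ne_zero.2 (hf t)
  have hm0 : (1 : ℝ) ≤ m := by exact_mod_cast hm
  have ht0 : (0 : ℝ) ≤ t := Nat.cast_nonneg _
  have hB0 : 0 < B := by linarith
  rw [← Finset.card_image_of_injective ((nearG a b c (1 / B) 1 t).filter
    (fun d => m ∣ (fv a b c t).natAbs / d)) (f := fun d : ℕ => m * d)
    (fun x y h => Nat.eq_of_mul_eq_mul_left hm h)]
  refine (Finset.card_le_card ?_).trans (Finset.card_union_le _ _)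
  intro x hx
  obtain ⟨hx1, hx2⟩ := Finset.mem_filter.1 hx
  obtain ⟨hx3, hx4, hx5⟩ := mem_near.1 hx1
  obtain ⟨hx6, -⟩ := Nat.mem_divisors.1 hx3
  rw [Finset.mem_union]
  by_cases h1 : (x : ℝ) ≤ m / B * t
  · right
    exact mem_near.2 ⟨hx3, hx4, h1⟩
  · left
    push Not at h1
    obtain ⟨d, hd⟩ := hx2
    have hxR : (x : ℝ) = m * d := by rw [hd]; push_cast; ring
    have hdx : d ∣ (fv a b c t).natAbs := (Dvd.intro_left m hd.symm).trans hx6
    have hd0 : 0 < d := Nat.pos_of_dvd_of_pos hdx (Nat.pos_of_ne_zero hF)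
    rw [Finset.mem_image]
    refine ⟨d, Finset.mem_filter.2 ⟨mem_near.2 ⟨Nat.mem_divisors.2 ⟨hdx, hF⟩, ?_, ?_⟩, ?_⟩,
      hd.symm⟩
    · rw [hxR] at h1
      have h2 : (m : ℝ) / B * t = m * (1 / B * t) := by ring
      rw [h2] at h1
      exact (lt_of_mul_lt_mul_left h1 (by linarith)).le
    · have h2 : (d : ℝ) ≤ m * d := by nlinarith [Nat.cast_nonneg (α := ℝ) d]
      linarith
    · obtain ⟨e, he⟩ := hx6
      refine ⟨e, ?_⟩
      rw [he, hd, mul_comm m d, mul_assoc, Nat.mul_div_cancel_left _ hd0]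

/-- expansion of the square -/
theorem sq_exp (D : Finset ℕ) (x : ℕ → ℕ) (P : Finset ℕ) (S : ℝ) :
    ∑ d ∈ D, ((omP P (x d) : ℝ) - S) ^ 2 =
      ∑ p ∈ P, ∑ q ∈ P, ((D.filter (fun d => Nat.lcm p q ∣ x d)).card : ℝ) -
      2 * S * ∑ p ∈ P, ((D.filter (fun d => p ∣ x d)).card : ℝ) + S ^ 2 * D.card := by
  classical
  have h1 : ∀ d, (omP P (x d) : ℝ) = ∑ p ∈ P, if p ∣ x d then (1 : ℝ) else 0 := by
    intro d
    unfold omP
    rw [Finset.sum_boole]
  have h2 : ∀ d, (omP P (x d) : ℝ) ^ 2 =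
      ∑ p ∈ P, ∑ q ∈ P, if Nat.lcm p q ∣ x d then (1 : ℝ) else 0 := by
    intro d
    rw [h1, sq, Finset.sum_mul_sum]
    refine Finset.sum_congr rfl fun p _ => Finset.sum_congr rfl fun q _ => ?_
    by_cases hp : p ∣ x d
    · by_cases hq : q ∣ x d
      · rw [if_pos hp, if_pos hq, if_pos (Nat.lcm_dvd hp hq), mul_one]
      · rw [if_neg hq, mul_zero, if_neg fun h => hq ((Nat.dvd_lcm_right p q).trans h)]
    · rw [if_neg hp, zero_mul, if_neg fun h => hp ((Nat.dvd_lcm_left p q).trans h)]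
  have e1 : ∑ d ∈ D, ((omP P (x d) : ℝ) - S) ^ 2 = ∑ d ∈ D, (omP P (x d) : ℝ) ^ 2 -
      2 * S * ∑ d ∈ D, (omP P (x d) : ℝ) + S ^ 2 * D.card := by
    rw [Finset.mul_sum, ← Finset.sum_sub_distrib, Finset.card_eq_sum_ones]
    push_cast
    rw [Finset.mul_sum, ← Finset.sum_add_distrib]
    exact Finset.sum_congr rfl fun d _ => by ring
  rw [e1]
  have e2 : ∑ d ∈ D, (omP P (x d) : ℝ) ^ 2 =
      ∑ p ∈ P, ∑ q ∈ P, ((D.filter (fun d => Nat.lcm p q ∣ x d)).card : ℝ) := by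
    rw [Finset.sum_congr rfl fun d _ => h2 d, Finset.sum_comm]
    refine Finset.sum_congr rfl fun p _ => ?_
    rw [Finset.sum_comm]
    refine Finset.sum_congr rfl fun q _ => ?_
    rw [Finset.sum_boole]
  have e3 : ∑ d ∈ D, (omP P (x d) : ℝ) = ∑ p ∈ P, ((D.filter (fun d => p ∣ x d)).card : ℝ) := by
    rw [Finset.sum_congr rfl fun d _ => h1 d, Finset.sum_comm]
    refine Finset.sum_congr rfl fun p _ => ?_
    rw [Finset.sum_boole]
  rw [e2, e3]

/-- the second variance at `t` -/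
theorem var_le (hf : ∀ t : ℕ, fv a b c t ≠ 0) {B : ℝ} (hB : 1 ≤ B) {P : Finset ℕ}
    (hP : ∀ p ∈ P, 1 ≤ p) {S : ℝ} (hS : 0 ≤ S) (t : ℕ) :
    ∑ d ∈ nearG a b c (1 / B) 1 t, ((omP P ((fv a b c t).natAbs / d) : ℝ) - S) ^ 2 ≤
      ∑ d ∈ nearG a b c (1 / B) 1 t, ((omP P d : ℝ) - S) ^ 2 +
      (∑ p ∈ P, ∑ q ∈ P, ((nearG a b c 1 (Nat.lcm p q : ℕ) t).card : ℝ) +
        2 * S * ∑ p ∈ P, ((nearG a b c (1 / B) (p / B) t).card : ℝ)) := by
  classical
  rw [sq_exp _ (fun d => (fv a b c t).natAbs / d), sq_exp _ (fun d => d)]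
  have h1 : ∑ p ∈ P, ∑ q ∈ P, (((nearG a b c (1 / B) 1 t).filter
      (fun d => Nat.lcm p q ∣ (fv a b c t).natAbs / d)).card : ℝ) ≤
      ∑ p ∈ P, ∑ q ∈ P, (((nearG a b c (1 / B) 1 t).filter (fun d => Nat.lcm p q ∣ d)).card : ℝ) +
      ∑ p ∈ P, ∑ q ∈ P, ((nearG a b c 1 (Nat.lcm p q : ℕ) t).card : ℝ) := by
    rw [← Finset.sum_add_distrib]
    refine Finset.sum_le_sum fun p hp => ?_
    rw [← Finset.sum_add_distrib]
    refine Finset.sum_le_sum fun q hq => ?_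
    have h2 : 1 ≤ Nat.lcm p q := Nat.lcm_pos (hP p hp) (hP q hq)
    exact_mod_cast shift_le hf hB h2 t
  have h3 : ∑ p ∈ P, (((nearG a b c (1 / B) 1 t).filter (fun d => p ∣ d)).card : ℝ) ≤
      ∑ p ∈ P, (((nearG a b c (1 / B) 1 t).filter
        (fun d => p ∣ (fv a b c t).natAbs / d)).card : ℝ) +
      ∑ p ∈ P, ((nearG a b c (1 / B) (p / B) t).card : ℝ) := by
    rw [← Finset.sum_add_distrib]
    refine Finset.sum_le_sum fun p hp => ?_
    exact_mod_cast shift_ge hf hB (hP p hp) t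
  have h4 := mul_le_mul_of_nonneg_left h3 (by linarith : 0 ≤ 2 * S)
  linarith

/-- two sets -/
theorem two_sets {g : ℕ → ℂ} (hg : ∀ n, ‖g n‖ ≤ 1) (U V X Y : Finset ℕ) (h1 : U \ V ⊆ X)
    (h2 : V \ U ⊆ Y) : ‖∑ d ∈ U, g d - ∑ d ∈ V, g d‖ ≤ X.card + Y.card := by
  classical
  have e1 : ∑ d ∈ U, g d - ∑ d ∈ V, g d = ∑ d ∈ U \ V, g d - ∑ d ∈ V \ U, g d := by
    rw [Finset.sum_sdiff_sub_sum_sdiff]
  rw [e1]
  refine (norm_sub_le _ _).trans (add_le_add ?_ ?_)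
  · refine (norm_sum_le _ _).trans ((Finset.sum_le_sum fun d _ => hg d).trans ?_)
    rw [Finset.sum_const, nsmul_eq_mul, mul_one]
    exact_mod_cast Finset.card_le_card h1
  · refine (norm_sum_le _ _).trans ((Finset.sum_le_sum fun d _ => hg d).trans ?_)
    rw [Finset.sum_const, nsmul_eq_mul, mul_one]
    exact_mod_cast Finset.card_le_card h2

/-- one prime -/
theorem prime_le (hf : ∀ t : ℕ, fv a b c t ≠ 0) {B : ℝ} (hB : 1 ≤ B) {p : ℕ} (hp : p.Prime)
    {z : ℂ} (hz : ‖z‖ = 1) (t : ℕ) :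
    ‖∑ d ∈ (nearG a b c (1 / B) 1 t).filter (fun d => p ∣ d), z ^ Omn d -
      z * ∑ d ∈ (nearG a b c (1 / B) 1 t).filter (fun d => p ∣ (fv a b c t).natAbs / d),
        z ^ Omn d‖ ≤ (nearG a b c (1 / (p * B)) (1 / B) t).card +
          (nearG a b c (1 / p) 1 t).card := by
  classical
  have hF : (fv a b c t).natAbs ≠ 0 := Int.natAbs_ne_zero.2 (hf t)
  have hB0 : 0 < B := by linarith
  have hp0 : (0 : ℝ) < p := by exact_mod_cast hp.pos
  have hp1 : (1 : ℝ) ≤ p := by exact_mod_cast hp.one_lt.le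
  set U : Finset ℕ := (fv a b c t).natAbs.divisors.filter (fun d : ℕ =>
    p * d ∣ (fv a b c t).natAbs ∧ 1 / B * t ≤ ((p * d : ℕ) : ℝ) ∧ ((p * d : ℕ) : ℝ) ≤ 1 * t)
    with hU
  have e1 : ∑ d ∈ (nearG a b c (1 / B) 1 t).filter (fun d => p ∣ d), z ^ Omn d =
      z * ∑ d ∈ U, z ^ Omn d := by
    rw [Finset.mul_sum]
    symm
    refine Finset.sum_bij (fun d _ => p * d) ?_ ?_ ?_ ?_
    · intro d hd
      obtain ⟨h1, h2, h3, h4⟩ := Finset.mem_filter.1 hd
      exact Finset.mem_filter.2 ⟨mem_near.2 ⟨Nat.mem_divisors.2 ⟨h2, hF⟩, h3, h4⟩,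
        dvd_mul_right _ _⟩
    · intro d _ d' _ h
      exact Nat.eq_of_mul_eq_mul_left hp.pos h
    · intro x hx
      obtain ⟨h1, d, hd⟩ := Finset.mem_filter.1 hx
      obtain ⟨h2, h3, h4⟩ := mem_near.1 h1
      have h5 := (Nat.mem_divisors.1 h2).1
      refine ⟨d, Finset.mem_filter.2 ⟨Nat.mem_divisors.2 ⟨(Dvd.intro_left p hd.symm).trans h5, hF⟩,
        ?_, ?_, ?_⟩, hd.symm⟩
      · rw [← hd]
        exact h5
      · rw [← hd]
        exact h3
      · rw [← hd]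
        exact h4
    · intro d hd
      have h1 := Finset.mem_filter.1 hd
      have hd0 : d ≠ 0 := by
        rintro rfl
        exact hF (Nat.eq_zero_of_zero_dvd (Nat.mem_divisors.1 h1.1).1)
      have h2 : Omn (p * d) = 1 + Omn d := by
        unfold Omn
        rw [ArithmeticFunction.cardFactors_mul hp.ne_zero hd0,
          ArithmeticFunction.cardFactors_apply_prime hp]
      rw [h2, pow_add, pow_one]
  rw [e1, ← mul_sub, norm_mul, hz, one_mul]
  refine two_sets (fun n => ?_) U _ _ _ ?_ ?_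
  · rw [norm_pow, hz, one_pow]
  · intro d hd
    obtain ⟨h1, h2⟩ := Finset.mem_sdiff.1 hd
    obtain ⟨h3, h4, h5, h6⟩ := Finset.mem_filter.1 h1
    have h7 := (Nat.mem_divisors.1 h3).1
    have hd0 : 0 < d := Nat.pos_of_dvd_of_pos h7 (Nat.pos_of_ne_zero hF)
    have hdp : p ∣ (fv a b c t).natAbs / d := by
      obtain ⟨e, he⟩ := h4
      refine ⟨e, ?_⟩
      rw [he, mul_comm p d, mul_assoc, Nat.mul_div_cancel_left _ hd0]
    push_cast at h5 h6
    have h8 : (d : ℝ) ≤ p * d := by nlinarith [Nat.cast_nonneg (α := ℝ) d]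
    refine mem_near.2 ⟨h3, ?_, ?_⟩
    · have h9 : 1 / (p * B) * (t : ℝ) = (1 / B * t) / p := by
        field_simp
      rw [h9, div_le_iff₀ hp0]
      linarith
    · by_contra h9
      push Not at h9
      exact h2 (Finset.mem_filter.2 ⟨mem_near.2 ⟨h3, h9.le, by linarith⟩, hdp⟩)
  · intro d hd
    obtain ⟨h1, h2⟩ := Finset.mem_sdiff.1 hd
    obtain ⟨h3, h4⟩ := Finset.mem_filter.1 h1
    obtain ⟨h5, h6, h7⟩ := mem_near.1 h3
    have h8 := (Nat.mem_divisors.1 h5).1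
    have hdvd : p * d ∣ (fv a b c t).natAbs := by
      obtain ⟨e, he⟩ := h4
      refine ⟨e, ?_⟩
      calc (fv a b c t).natAbs = d * ((fv a b c t).natAbs / d) := (Nat.mul_div_cancel' h8).symm
        _ = p * d * e := by rw [he]; ring
    have h9 : (d : ℝ) ≤ p * d := by nlinarith [Nat.cast_nonneg (α := ℝ) d]
    refine mem_near.2 ⟨h5, ?_, h7⟩
    by_contra h10
    push Not at h10
    apply h2
    refine Finset.mem_filter.2 ⟨h5, hdvd, ?_, ?_⟩
    · push_cast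
      linarith
    · push_cast
      have h11 : 1 / (p : ℝ) * t = t / p := by ring
      rw [h11, lt_div_iff₀ hp0] at h10
      linarith

/-- the inequality at `t` -/
theorem at_t (hf : ∀ t : ℕ, fv a b c t ≠ 0) {B : ℝ} (hB : 1 ≤ B) {P : Finset ℕ}
    (hP : ∀ p ∈ P, p.Prime) {S lam : ℝ} (hS : 0 ≤ S) (hlam : 0 < lam) {z : ℂ} (hz : ‖z‖ = 1)
    (t : ℕ) : ‖1 - z‖ * S * ‖∑ d ∈ nearG a b c (1 / B) 1 t, z ^ Omn d‖ ≤
      (∑ d ∈ nearG a b c (1 / B) 1 t, ((omP P d : ℝ) - S) ^ 2) / lam +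
      lam * (nearG a b c (1 / B) 1 t).card +
      (∑ p ∈ P, ∑ q ∈ P, ((nearG a b c 1 (Nat.lcm p q : ℕ) t).card : ℝ) +
        2 * S * ∑ p ∈ P, ((nearG a b c (1 / B) (p / B) t).card : ℝ)) / lam +
      ∑ p ∈ P, (((nearG a b c (1 / (p * B)) (1 / B) t).card : ℝ) +
          (nearG a b c (1 / p) 1 t).card) := by
  classical
  set D := nearG a b c (1 / B) 1 t with hD
  set F := (fv a b c t).natAbs with hFd
  have hom : ∀ x : ℕ → ℕ, ∑ d ∈ D, ((omP P (x d) : ℝ) : ℂ) * z ^ Omn d =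
      ∑ p ∈ P, ∑ d ∈ D.filter (fun d => p ∣ x d), z ^ Omn d := by
    intro x
    have h1 : ∀ d, ((omP P (x d) : ℝ) : ℂ) = ∑ p ∈ P, if p ∣ x d then (1 : ℂ) else 0 := by
      intro d
      unfold omP
      rw [Finset.sum_boole]
      push_cast
      rfl
    rw [Finset.sum_congr rfl fun d _ => by rw [h1 d, Finset.sum_mul], Finset.sum_comm]
    refine Finset.sum_congr rfl fun p _ => ?_
    rw [Finset.sum_filter]
    refine Finset.sum_congr rfl fun d _ => ?_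
    by_cases h : p ∣ x d
    · rw [if_pos h, if_pos h, one_mul]
    · rw [if_neg h, if_neg h, zero_mul]
  have key : (1 - z) * S * ∑ d ∈ D, z ^ Omn d =
      ∑ d ∈ D, ((S - omP P d : ℝ) : ℂ) * z ^ Omn d +
      ∑ p ∈ P, (∑ d ∈ D.filter (fun d => p ∣ d), z ^ Omn d -
        z * ∑ d ∈ D.filter (fun d => p ∣ F / d), z ^ Omn d) +
      z * ∑ d ∈ D, ((omP P (F / d) - S : ℝ) : ℂ) * z ^ Omn d := by
    have h1 := hom (fun d => d)
    have h2 := hom (fun d => F / d)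
    rw [Finset.sum_sub_distrib, ← Finset.mul_sum, ← h1, ← h2]
    have h3 : ∑ d ∈ D, ((S - omP P d : ℝ) : ℂ) * z ^ Omn d =
        S * ∑ d ∈ D, z ^ Omn d - ∑ d ∈ D, ((omP P d : ℝ) : ℂ) * z ^ Omn d := by
      rw [Finset.mul_sum, ← Finset.sum_sub_distrib]
      refine Finset.sum_congr rfl fun d _ => ?_
      push_cast
      ring
    have h4 : ∑ d ∈ D, ((omP P (F / d) - S : ℝ) : ℂ) * z ^ Omn d =
        ∑ d ∈ D, ((omP P (F / d) : ℝ) : ℂ) * z ^ Omn d - S * ∑ d ∈ D, z ^ Omn d := by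
      rw [Finset.mul_sum, ← Finset.sum_sub_distrib]
      refine Finset.sum_congr rfl fun d _ => ?_
      push_cast
      ring
    rw [h3, h4]
    ring
  have n1 : ‖1 - z‖ * S * ‖∑ d ∈ D, z ^ Omn d‖ = ‖(1 - z) * S * ∑ d ∈ D, z ^ Omn d‖ := by
    rw [norm_mul, norm_mul, Complex.norm_real, Real.norm_of_nonneg hS]
  have hsq : ∀ y : ℝ, |y| ≤ y ^ 2 / lam / 2 + lam / 2 := by
    intro y
    have h1 : 0 ≤ (|y| - lam) ^ 2 / (2 * lam) := by positivity
    have h2 : (|y| - lam) ^ 2 / (2 * lam) = y ^ 2 / lam / 2 + lam / 2 - |y| := by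
      have h3 : (|y| - lam) ^ 2 = y ^ 2 - 2 * lam * |y| + lam ^ 2 := by
        rw [sub_sq, sq_abs]
        ring
      rw [h3]
      field_simp
      ring
    linarith
  have b1 : ∀ y : ℕ → ℝ, ‖∑ d ∈ D, ((y d : ℝ) : ℂ) * z ^ Omn d‖ ≤
      (∑ d ∈ D, (y d) ^ 2) / lam / 2 + lam / 2 * D.card := by
    intro y
    refine (norm_sum_le _ _).trans ?_
    calc ∑ d ∈ D, ‖((y d : ℝ) : ℂ) * z ^ Omn d‖ ≤ ∑ d ∈ D, ((y d) ^ 2 / lam / 2 + lam / 2) := by
          refine Finset.sum_le_sum fun d _ => ?_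
          rw [norm_mul, norm_pow, hz, one_pow, mul_one, Complex.norm_real, Real.norm_eq_abs]
          exact hsq _
      _ = (∑ d ∈ D, (y d) ^ 2) / lam / 2 + lam / 2 * D.card := by
          rw [Finset.sum_add_distrib, Finset.sum_const, nsmul_eq_mul, Finset.sum_div,
            Finset.sum_div]
          ring
  have b2 : ‖∑ p ∈ P, (∑ d ∈ D.filter (fun d => p ∣ d), z ^ Omn d -
        z * ∑ d ∈ D.filter (fun d => p ∣ F / d), z ^ Omn d)‖ ≤
      ∑ p ∈ P, (((nearG a b c (1 / (p * B)) (1 / B) t).card : ℝ) +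
          (nearG a b c (1 / p) 1 t).card) :=
    (norm_sum_le _ _).trans (Finset.sum_le_sum fun p hp => prime_le hf hB (hP p hp) hz t)
  have b3 := b1 (fun d => S - omP P d)
  have b4 := b1 (fun d => omP P (F / d) - S)
  have b5 := var_le hf hB (fun p hp => (hP p hp).one_lt.le) hS t (P := P)
  rw [n1, key]
  have t1 := norm_add_le (∑ d ∈ D, ((S - omP P d : ℝ) : ℂ) * z ^ Omn d +
      ∑ p ∈ P, (∑ d ∈ D.filter (fun d => p ∣ d), z ^ Omn d -
        z * ∑ d ∈ D.filter (fun d => p ∣ F / d), z ^ Omn d))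
      (z * ∑ d ∈ D, ((omP P (F / d) - S : ℝ) : ℂ) * z ^ Omn d)
  have t2 := norm_add_le (∑ d ∈ D, ((S - omP P d : ℝ) : ℂ) * z ^ Omn d)
      (∑ p ∈ P, (∑ d ∈ D.filter (fun d => p ∣ d), z ^ Omn d -
        z * ∑ d ∈ D.filter (fun d => p ∣ F / d), z ^ Omn d))
  rw [norm_mul z, hz, one_mul] at t1
  have e5 : ∑ d ∈ D, (S - (omP P d : ℝ)) ^ 2 = ∑ d ∈ D, ((omP P d : ℝ) - S) ^ 2 :=
    Finset.sum_congr rfl fun d _ => by ring
  rw [e5] at b3
  have b6 := div_le_div_of_nonneg_right b5 hlam.le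
  rw [add_div] at b6
  have h0 : 0 ≤ (∑ p ∈ P, ∑ q ∈ P, ((nearG a b c 1 (Nat.lcm p q : ℕ) t).card : ℝ) +
        2 * S * ∑ p ∈ P, ((nearG a b c (1 / B) (p / B) t).card : ℝ)) / lam := by
    refine div_nonneg (add_nonneg (Finset.sum_nonneg fun p _ => Finset.sum_nonneg fun q _ =>
      Nat.cast_nonneg _) (mul_nonneg (by linarith) (Finset.sum_nonneg fun p _ =>
      Nat.cast_nonneg _))) hlam.le
  generalize (∑ p ∈ P, ∑ q ∈ P, ((nearG a b c 1 (Nat.lcm p q : ℕ) t).card : ℝ) +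
        2 * S * ∑ p ∈ P, ((nearG a b c (1 / B) (p / B) t).card : ℝ)) / lam = Z1 at h0 b6 ⊢
  generalize (∑ d ∈ D, ((omP P d : ℝ) - S) ^ 2) / lam = Z2 at b3 b6 ⊢
  generalize (∑ d ∈ D, ((omP P (F / d) : ℝ) - S) ^ 2) / lam = Z3 at b4 b6
  generalize ∑ p ∈ P, (((nearG a b c (1 / (p * B)) (1 / B) t).card : ℝ) +
          (nearG a b c (1 / p) 1 t).card) = Z4 at b2 ⊢
  linarith

/-- the number of pairs in a window -/
theorem near_ev {κ : ℝ} (hK : Kap a b c κ) {α β : ℝ} (hα : 0 < α) (hαβ : α < β) :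
    ∀ᶠ N : ℕ in atTop, ∑ t ∈ Finset.Icc 1 N, ((nearG a b c α β t).card : ℝ) ≤
      (κ * Real.log (β / α) + 1) * N := by
  have h1 := hK.2.1 α β hα hαβ
  filter_upwards [h1.eventually (eventually_le_nhds (show κ * Real.log (β / α) <
    κ * Real.log (β / α) + 1 by linarith)), eventually_ge_atTop 1] with N hN hN1
  have hN0 : (0 : ℝ) < N := by exact_mod_cast hN1
  rw [div_le_iff₀ hN0] at hN
  push_cast at hN
  exact hN

end Kat0

open Kat0 in
/-- **row K0** -/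
theorem stKat0_3 (hTk : StTkR) (hTr : StTr) : StKat0 := by
  intro a b c ha hf κ hK hMass z k hk hzk hz1 ε hε
  have hκ := hK.1
  have hz : ‖z‖ = 1 := Complex.norm_eq_one_of_pow_eq_one hzk hk.ne'
  have hδ : 0 < ‖1 - z‖ := norm_pos_iff.2 (sub_ne_zero.2 hz1.symm)
  set δz := ‖1 - z‖ with hδz
  set Y : ℝ := 2 * (81 * κ + 2) / (δz * ε) with hY
  have hY0 : 0 < Y := by positivity
  obtain ⟨P, hP, hPS⟩ := hMass (Y ^ 2 + 1)
  set S := mass P with hS
  have hS0 : 0 < S := by nlinarith [sq_nonneg Y]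
  set lam := Real.sqrt S with hlam
  have hlam0 : 0 < lam := Real.sqrt_pos.2 hS0
  have hlam2 : lam * lam = S := Real.mul_self_sqrt hS0.le
  have hYl : Y ≤ lam := by
    rw [hlam]
    exact Real.le_sqrt_of_sq_le (by linarith)
  obtain ⟨hTk1, -⟩ := hTk a b c κ hK P hP hS0
  have hV := hTr a b c hf (fun d => ((omP P d : ℝ) - S) ^ 2) (fun d => sq_nonneg _)
    (2 * κ * S) (by positivity) hTk1
  set C1 : ℝ := (∑ p ∈ P, ∑ q ∈ P, (κ * Real.log (Nat.lcm p q : ℕ) + 1) +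
      2 * S * ∑ p ∈ P, (κ * Real.log p + 1)) / lam +
    ∑ p ∈ P, ((κ * Real.log p + 1) + (κ * Real.log p + 1)) with hC1
  have hpp : ∀ p ∈ P, p.Prime := fun p hp => (hP p hp).1
  refine ⟨max 2 (Real.exp (2 * C1 / (δz * S * ε))), le_max_left _ _, fun B hB => ?_⟩
  have hB2 : 2 ≤ B := (le_max_left _ _).trans hB
  have hB0 : 0 < B := by linarith
  have hB1 : 1 ≤ B := by linarith
  have hlogB : 2 * C1 / (δz * S * ε) ≤ Real.log B := by
    rw [Real.le_log_iff_exp_le hB0]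
    exact (le_max_right _ _).trans hB
  have hlog2 : 1 / 2 ≤ Real.log B := by
    have h1 : Real.log 2 ≤ Real.log B := Real.log_le_log (by norm_num) hB2
    have h2 := Real.log_two_gt_d9
    linarith
  -- the windows
  have w0 := near_ev hK (α := 1 / B) (β := 1) (by positivity) (by
    rw [div_lt_one hB0]; linarith)
  have w1 : ∀ᶠ N : ℕ in atTop, ∀ p ∈ P, ∀ q ∈ P, ∑ t ∈ Finset.Icc 1 N,
      ((nearG a b c 1 (Nat.lcm p q : ℕ) t).card : ℝ) ≤
        (κ * Real.log ((Nat.lcm p q : ℕ) / 1) + 1) * N := by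
    rw [Filter.eventually_all_finset]
    intro p hp
    rw [Filter.eventually_all_finset]
    intro q hq
    refine near_ev hK one_pos ?_
    have h1 : p ≤ Nat.lcm p q := Nat.le_of_dvd (Nat.lcm_pos (hpp p hp).pos (hpp q hq).pos)
      (Nat.dvd_lcm_left p q)
    have h2 := (hpp p hp).one_lt
    exact_mod_cast lt_of_lt_of_le h2 h1
  have w2 : ∀ᶠ N : ℕ in atTop, ∀ p ∈ P, ∑ t ∈ Finset.Icc 1 N,
      ((nearG a b c (1 / B) (p / B) t).card : ℝ) ≤
        (κ * Real.log (p / B / (1 / B)) + 1) * N := by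
    rw [Filter.eventually_all_finset]
    intro p hp
    refine near_ev hK (by positivity) ?_
    have h2 : (1 : ℝ) < p := by exact_mod_cast (hpp p hp).one_lt
    exact div_lt_div_of_pos_right h2 hB0
  have w3 : ∀ᶠ N : ℕ in atTop, ∀ p ∈ P, ∑ t ∈ Finset.Icc 1 N,
      ((nearG a b c (1 / (p * B)) (1 / B) t).card : ℝ) ≤
        (κ * Real.log (1 / B / (1 / (p * B))) + 1) * N := by
    rw [Filter.eventually_all_finset]
    intro p hp
    have h2 : (1 : ℝ) < p := by exact_mod_cast (hpp p hp).one_lt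
    refine near_ev hK (by positivity) ?_
    exact one_div_lt_one_div_of_lt hB0 (by nlinarith)
  have w4 : ∀ᶠ N : ℕ in atTop, ∀ p ∈ P, ∑ t ∈ Finset.Icc 1 N,
      ((nearG a b c (1 / p) 1 t).card : ℝ) ≤
        (κ * Real.log (1 / (1 / p)) + 1) * N := by
    rw [Filter.eventually_all_finset]
    intro p hp
    have h2 : (1 : ℝ) < p := by exact_mod_cast (hpp p hp).one_lt
    refine near_ev hK (by positivity) ?_
    rw [div_lt_one (by linarith)]
    exact h2
  filter_upwards [hV B hB2, w0, w1, w2, w3, w4] with N v0 v1 v2 v3 v4 v5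
  have hN0 : (0 : ℝ) ≤ N := Nat.cast_nonneg _
  have hsum : δz * S * ∑ t ∈ Finset.Icc 1 N, ‖∑ d ∈ nearG a b c (1 / B) 1 t, z ^ Omn d‖ ≤
      (40 * (2 * κ * S) * Real.log B * N) / lam +
      lam * ((κ * Real.log (1 / (1 / B)) + 1) * N) + C1 * N := by
    rw [Finset.mul_sum]
    refine (Finset.sum_le_sum fun t _ => at_t hf hB1 hpp hS0.le hlam0 hz t).trans ?_
    rw [Finset.sum_add_distrib, Finset.sum_add_distrib, Finset.sum_add_distrib,
      ← Finset.sum_div, ← Finset.mul_sum, ← Finset.sum_div, Finset.sum_add_distrib,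
      ← Finset.mul_sum]
    have x1 : ∑ t ∈ Finset.Icc 1 N, ∑ p ∈ P, ∑ q ∈ P,
        ((nearG a b c 1 (Nat.lcm p q : ℕ) t).card : ℝ) ≤
        (∑ p ∈ P, ∑ q ∈ P, (κ * Real.log (Nat.lcm p q : ℕ) + 1)) * N := by
      rw [Finset.sum_comm, Finset.sum_mul]
      refine Finset.sum_le_sum fun p hp => ?_
      rw [Finset.sum_comm, Finset.sum_mul]
      refine Finset.sum_le_sum fun q hq => ?_
      have := v2 p hp q hq
      rwa [div_one] at this
    have x2 : ∑ t ∈ Finset.Icc 1 N, ∑ p ∈ P, ((nearG a b c (1 / B) (p / B) t).card : ℝ) ≤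
        (∑ p ∈ P, (κ * Real.log p + 1)) * N := by
      rw [Finset.sum_comm, Finset.sum_mul]
      refine Finset.sum_le_sum fun p hp => ?_
      have := v3 p hp
      have e1 : (p : ℝ) / B / (1 / B) = p := by field_simp
      rwa [e1] at this
    have x3 : ∑ t ∈ Finset.Icc 1 N, ∑ p ∈ P, (((nearG a b c (1 / (p * B)) (1 / B) t).card : ℝ) +
          (nearG a b c (1 / p) 1 t).card) ≤
        (∑ p ∈ P, ((κ * Real.log p + 1) + (κ * Real.log p + 1))) * N := by
      rw [Finset.sum_comm, Finset.sum_mul]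
      refine Finset.sum_le_sum fun p hp => ?_
      rw [Finset.sum_add_distrib, add_mul]
      have hp0 : (p : ℝ) ≠ 0 := by exact_mod_cast (hpp p hp).ne_zero
      have y1 := v4 p hp
      have y2 := v5 p hp
      have e1 : 1 / B / (1 / ((p : ℝ) * B)) = p := by field_simp
      have e2 : 1 / (1 / (p : ℝ)) = p := by field_simp
      rw [e1] at y1
      rw [e2] at y2
      exact add_le_add y1 y2
    have x4 : (∑ t ∈ Finset.Icc 1 N, ∑ p ∈ P, ∑ q ∈ P,
        ((nearG a b c 1 (Nat.lcm p q : ℕ) t).card : ℝ) +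
        2 * S * ∑ t ∈ Finset.Icc 1 N, ∑ p ∈ P, ((nearG a b c (1 / B) (p / B) t).card : ℝ)) / lam ≤
        ((∑ p ∈ P, ∑ q ∈ P, (κ * Real.log (Nat.lcm p q : ℕ) + 1) +
          2 * S * ∑ p ∈ P, (κ * Real.log p + 1)) / lam) * N := by
      rw [div_mul_eq_mul_div]
      refine div_le_div_of_nonneg_right ?_ hlam0.le
      have := mul_le_mul_of_nonneg_left x2 (by linarith : 0 ≤ 2 * S)
      nlinarith
    have x5 := div_le_div_of_nonneg_right v0 hlam0.le
    have x6 := mul_le_mul_of_nonneg_left v1 hlam0.le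
    have e9 : C1 * N = ((∑ p ∈ P, ∑ q ∈ P, (κ * Real.log (Nat.lcm p q : ℕ) + 1) +
        2 * S * ∑ p ∈ P, (κ * Real.log p + 1)) / lam) * N +
        (∑ p ∈ P, ((κ * Real.log p + 1) + (κ * Real.log p + 1))) * N := by
      rw [hC1, add_mul]
    rw [e9]
    linarith
  have e1 : 1 / (1 / B) = B := by field_simp
  rw [e1] at hsum
  set T := ∑ t ∈ Finset.Icc 1 N, ‖∑ d ∈ nearG a b c (1 / B) 1 t, z ^ Omn d‖ with hT
  have e2 : (40 * (2 * κ * S) * Real.log B * N) / lam = 80 * κ * lam * Real.log B * N := by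
    rw [div_eq_iff hlam0.ne', ← hlam2]
    ring
  rw [e2] at hsum
  have h1 : lam * ((κ * Real.log B + 1) * N) ≤ lam * ((κ + 2) * Real.log B * N) := by
    refine mul_le_mul_of_nonneg_left (mul_le_mul_of_nonneg_right ?_ hN0) hlam0.le
    linarith
  have h2 : C1 ≤ δz * S * ε / 2 * Real.log B := by
    rw [div_le_iff₀ (by positivity)] at hlogB
    linarith
  have h3 : (81 * κ + 2) ≤ δz * ε / 2 * lam := by
    have h4 : 2 * (81 * κ + 2) ≤ lam * (δz * ε) := by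
      rw [hY, div_le_iff₀ (by positivity)] at hYl
      exact hYl
    linarith
  have h5 : δz * S * T ≤ δz * S * (ε * Real.log B * N) := by
    have h6 : lam * (81 * κ + 2) * Real.log B * N ≤ lam * (δz * ε / 2 * lam) * Real.log B * N := by
      refine mul_le_mul_of_nonneg_right (mul_le_mul_of_nonneg_right
        (mul_le_mul_of_nonneg_left h3 hlam0.le) (by linarith)) hN0
    have h7 : C1 * N ≤ δz * S * ε / 2 * Real.log B * N := mul_le_mul_of_nonneg_right h2 hN0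
    have h8 : lam * (δz * ε / 2 * lam) * Real.log B * N = δz * S * ε / 2 * Real.log B * N := by
      rw [← hlam2]
      ring
    nlinarith
  exact le_of_mul_le_mul_left h5 (mul_pos hδ hS0)

end Pool.Agent.Lib.MP_a17b09_nt.QT
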