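import Pool.Agent.Lib.MP_a17b09_nt.AN.TStmts3
import Pool.Agent.Lib.MP_a17b09_nt.HY.StmtsR20

/-!
Project QT (MP_a17b09_nt): the values `f (t + j d)` for the divisors `d` of `f t` near `t`.  For most
`t` the numbers `Ω (f (t + j d))`, `d ∣ f t`, `t / B ≤ d ≤ t`, are equidistributed modulo `k`, also if
`Ω d` is prescribed modulo `k` (`B` large, almost all `N`).  Proof: Katai's argument for the pairs
`(t, d)`, the dilations `(t, p d) ↦ (t, d)` fix `t`; the off-diagonal terms are sums for two slots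
`j p`, `j q` with the condition `p q ∣ f t / d`.  Statements.  Paper: /team-store/QT99.md.
-/

set_option autoImplicit false

open Filter Topology Finset

namespace Pool.Agent.Lib.MP_a17b09_nt.QT

open CH CH.PE HY SP
open PQ (B1)
open AN (Ev ind wz wd Dens)
open AS (wslot cf InW InHW StInW StInHW StNullLW StHNullLW)
open SPH (vl)

/-! ### The law of two slots with a periodic weight -/

/-- periodic modulo `L` and bounded by `1` -/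
def Per (L : ℕ) (χ : ℤ → ℂ) : Prop := (∀ x y : ℤ, χ (x + L * y) = χ x) ∧ ∀ x, ‖χ x‖ ≤ 1

/-- the twisted sum for two slots with the weight `χ (a f t / d)` -/
noncomputable def TwX (a b c : ℤ) (α β : ℝ) (χ : ℤ → ℂ) (w1 w2 : ℕ → ℂ) (o1 o2 : Option ℕ)
    (N : ℕ) : ℂ := ∑ t ∈ Finset.Icc 1 N, ∑ d ∈ nearG a b c α β t,
  χ (a * (fv a b c t / d)) * (w1 (wslot a b c t d o1) * w2 (wslot a b c t d o2))

/-- the twisted sums of two different slots vanish in mean, all periodic weights, all windows -/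
def TwNullX (a b c : ℤ) (w1 w2 : ℕ → ℂ) : Prop := ∀ α β : ℝ, 0 < α → α < β →
  ∀ L : ℕ, 0 < L → ∀ χ : ℤ → ℂ, Per L χ → ∀ o1 o2 : Option ℕ, o1 ≠ o2 → ∀ M : LMean,
  M.E (fun N : ℕ => ‖TwX a b c α β χ w1 w2 o1 o2 N‖ / N) = 0

/-- (X1) fork of `AS.stTwPW_64`: `h = 1`, `phi` times `χ`, the period `2 a L` -/
def StTwX : Prop := ∀ (a b c : ℤ) (d : ℕ), 0 < a → 0 < d → 4 * a * c - b ^ 2 = d →
  ∀ w1 w2 : ℕ → ℂ, B1 w1 → B1 w2 → InW d w1 w2 → InW d w2 w1 → TwNullX a b c w1 w2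

/-- (X1H) fork of `AS.stHTwPW_42` -/
def StTwXH : Prop := ∀ (a b c : ℤ), 0 < a → ∀ d : ℕ, b ^ 2 - 4 * a * c = d → ¬ IsSquare d →
  ∀ w1 w2 : ℕ → ℂ, B1 w1 → B1 w2 → InHW d w1 w2 → InHW d w2 w1 → TwNullX a b c w1 w2

/-- (X2) all events, any nonsquare discriminant (fork of `AS.stEvS_53`, `AS.stEvSH_53`; from `StTwX`,
`StTwXH`, `StInW`, `StInHW`, `StGA`, `StGAH`) -/
def StEvX : Prop := ∀ (a b c : ℤ), 0 < a → ¬ IsSquare (b ^ 2 - 4 * a * c) →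
  ∀ (E E' : Ev) (δ δ' : ℝ), E.Ok → E'.Ok → Dens E δ → Dens E' δ' →
  (∀ (z1 z2 : ℂ) (k : ℕ), 0 < k → z1 ^ k = 1 → z2 ^ k = 1 → (z1 ≠ 1 ∨ z2 ≠ 1) →
    TwNullX a b c (wz z1 E.Is) (wz z2 E'.Is)) ∧
  TwNullX a b c (wd δ E.Is) (ind E'.Is) ∧ TwNullX a b c (ind E.Is) (wd δ' E'.Is)

/-! ### Counts -/

/-- the number of roots modulo `d` -/
def rho (a b c : ℤ) (d : ℕ) : ℕ :=
  ((Finset.range d).filter (fun t : ℕ => (d : ℤ) ∣ fv a b c t)).card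

/-- the number of pairs and the mean of `rho` -/
def Kap (a b c : ℤ) (κ : ℝ) : Prop := 0 < κ ∧
  (∀ α β : ℝ, 0 < α → α < β → Tendsto (fun N : ℕ => ((∑ t ∈ Finset.Icc 1 N,
    (nearG a b c α β t).card : ℕ) : ℝ) / N) atTop (𝓝 (κ * Real.log (β / α)))) ∧
  Tendsto (fun n : ℕ => ((∑ d ∈ Finset.Icc 1 n, rho a b c d : ℕ) : ℝ) / n) atTop (𝓝 κ)

/-- (C1) from `StCntG`, `StHCntG` with `h = 1` (for the second limit `x = 1`, `y = 2`) as in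
`MS64.mainS`, `HY.stHMainS_93` -/
def StKap : Prop := ∀ a b c : ℤ, 0 < a → ¬ IsSquare (b ^ 2 - 4 * a * c) → ∃ κ : ℝ, Kap a b c κ

/-- split primes -/
def Spl (a b c : ℤ) (p : ℕ) : Prop := p.Prime ∧ ¬ (p : ℤ) ∣ 2 * a ∧
  ¬ (p : ℤ) ∣ b ^ 2 - 4 * a * c ∧ ∃ r : ℤ, (p : ℤ) ∣ r ^ 2 - (b ^ 2 - 4 * a * c)

/-- (C2) the roots modulo `p d` -/
def StRho : Prop := ∀ (a b c : ℤ) (p : ℕ), Spl a b c p → ∀ d : ℕ, 0 < d →
  rho a b c (p * d) = if p ∣ d then rho a b c d else 2 * rho a b c d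

/-- the mass of a set of primes -/
noncomputable def mass (P : Finset ℕ) : ℝ := ∑ p ∈ P, 2 / ((p : ℝ) + 1)

/-- the number of primes of `P` that divide `d` -/
def omP (P : Finset ℕ) (d : ℕ) : ℕ := (P.filter (fun p => p ∣ d)).card

/-- (C3) sets of split primes of large mass -/
def StMass : Prop := ∀ (a b c : ℤ), 0 < a → ¬ IsSquare (b ^ 2 - 4 * a * c) → ∀ X : ℝ,
  ∃ P : Finset ℕ, (∀ p ∈ P, Spl a b c p) ∧ X ≤ mass P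

/-- (C4) Turan-Kubilius for the weight `rho`, and the multiples of one prime (from `StRho`) -/
def StTkR : Prop := ∀ (a b c : ℤ) (κ : ℝ), Kap a b c κ → ∀ P : Finset ℕ,
  (∀ p ∈ P, Spl a b c p) → 0 < mass P →
  (∀ᶠ n : ℕ in atTop, ∑ d ∈ Finset.Icc 1 n, (rho a b c d : ℝ) * ((omP P d : ℝ) - mass P) ^ 2 ≤
    2 * κ * mass P * n) ∧
  ∀ p ∈ P, ∀ᶠ n : ℕ in atTop, ∑ d ∈ (Finset.Icc 1 n).filter (fun d => p ∣ d),
    (rho a b c d : ℝ) ≤ 2 * κ * (2 / ((p : ℝ) + 1)) * n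

/-- (C5) from the weight `rho` to the pairs: each `d` has at most `2 rho(d) min(B, N / d)` numbers
`t`; dyadic blocks -/
def StTr : Prop := ∀ (a b c : ℤ), (∀ t : ℕ, fv a b c t ≠ 0) → ∀ φ : ℕ → ℝ, (∀ d, 0 ≤ φ d) →
  ∀ c0 : ℝ, 0 < c0 → (∀ᶠ n : ℕ in atTop, ∑ d ∈ Finset.Icc 1 n, (rho a b c d : ℝ) * φ d ≤ c0 * n) →
  ∀ B : ℝ, 2 ≤ B → ∀ᶠ N : ℕ in atTop, ∑ t ∈ Finset.Icc 1 N, ∑ d ∈ nearG a b c (1 / B) 1 t, φ d ≤
    40 * c0 * Real.log B * N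

/-! ### The final statements -/

/-- the sum over the divisors near `t` -/
noncomputable def DS (a b c : ℤ) (B : ℝ) (z0 z1 : ℂ) (j t : ℕ) : ℂ :=
  ∑ d ∈ nearG a b c (1 / B) 1 t, z0 ^ Omn d * z1 ^ Omn (cf a b c t d j)

/-- the sum over the divisors near `t` is small for most `t` -/
def Quen (a b c : ℤ) : Prop := ∀ (z0 z1 : ℂ) (k : ℕ), 0 < k → z0 ^ k = 1 → z1 ^ k = 1 →
  z1 ≠ 1 → ∀ j : ℕ, 0 < j → ∀ ε : ℝ, 0 < ε → ∃ B₀ : ℝ, 2 ≤ B₀ ∧ ∀ B : ℝ, B₀ ≤ B →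
  LogNull {N : ℕ | ε * Real.log B * N < ∑ t ∈ Finset.Icc 1 N, ‖DS a b c B z0 z1 j t‖}

/-- (K1) Katai's argument -/
def StKat : Prop := ∀ (a b c : ℤ), 0 < a → (∀ t : ℕ, fv a b c t ≠ 0) → ∀ κ : ℝ, Kap a b c κ →
  (∀ X : ℝ, ∃ P : Finset ℕ, (∀ p ∈ P, Spl a b c p) ∧ X ≤ mass P) →
  (∀ (z1 z2 : ℂ) (k : ℕ), 0 < k → z1 ^ k = 1 → z2 ^ k = 1 → (z1 ≠ 1 ∨ z2 ≠ 1) →
    TwNullX a b c (fun n => z1 ^ Omn n) (fun n => z2 ^ Omn n)) → Quen a b c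

open Classical in
/-- the number of `d ∣ f t`, `t / B ≤ d ≤ t`, with `P d` -/
noncomputable def nd (a b c : ℤ) (B : ℝ) (t : ℕ) (P : ℕ → Prop) : ℕ :=
  ((nearG a b c (1 / B) 1 t).filter P).card

/-- (K2) the final statement, from `Quen` (Fourier inversion modulo `k`) -/
def StFinQ : Prop := ∀ (a b c : ℤ), 0 < a → (∀ t : ℕ, fv a b c t ≠ 0) → Quen a b c →
  ∀ k : ℕ, 0 < k → ∀ j : ℕ, 0 < j → ∀ ε : ℝ, 0 < ε → ∃ B₀ : ℝ, 2 ≤ B₀ ∧ ∀ B : ℝ, B₀ ≤ B →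
  LogNull {N : ℕ | ∃ r s : ℕ, ε * Real.log B * N < ∑ t ∈ Finset.Icc 1 N,
    |(nd a b c B t (fun d => Omn d ≡ s [MOD k] ∧ Omn (vl a b c (t + j * d)) ≡ r [MOD k]) : ℝ) -
      (nd a b c B t (fun d => Omn d ≡ s [MOD k]) : ℝ) / k|}

end Pool.Agent.Lib.MP_a17b09_nt.QT
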