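import Pool.Agent.Lib.MP_a17b09_nt.AN.Mert12
import Pool.Agent.Lib.MP_a17b09_nt.QT.Stmts99

/-!
# Project QT (MP_a17b09): sets of split primes of large mass (helper64)
-/

set_option autoImplicit false

open Filter Topology Finset

namespace Pool.Agent.Lib.MP_a17b09_nt.QT

namespace M64

theorem sq_mod {D : ℤ} {p : ℕ} (hp : p.Prime) (h2 : p ≠ 2) (hD : ¬ (p : ℤ) ∣ D)
    (h1 : p ≡ 1 [MOD 4 * D.natAbs]) : ∃ r : ℤ, (p : ℤ) ∣ r ^ 2 - D := by
  have := Fact.mk hp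
  have hodd : Odd p := hp.odd_of_ne_two h2
  have hD0 : D.natAbs ≠ 0 := by
    intro h
    apply hD
    rw [Int.natAbs_eq_zero] at h
    rw [h]
    exact dvd_zero _
  have e1 : jacobiSym D p = 1 := by
    rw [jacobiSym.mod_right D hodd]
    have e2 : p % (4 * D.natAbs) = 1 := by
      have := h1
      unfold Nat.ModEq at this
      rw [this]
      exact Nat.mod_eq_of_lt (by omega)
    rw [e2, jacobiSym.one_right]
  rw [← jacobiSym.legendreSym.to_jacobiSym] at e1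
  have h3 : (D : ZMod p) ≠ 0 := by
    intro h
    exact hD ((ZMod.intCast_zmod_eq_zero_iff_dvd D p).1 h)
  obtain ⟨x, hx⟩ := (legendreSym.eq_one_iff p h3).1 e1
  obtain ⟨r, hr⟩ := ZMod.intCast_surjective x
  refine ⟨r, (ZMod.intCast_zmod_eq_zero_iff_dvd _ p).1 ?_⟩
  push_cast
  rw [hr, hx]
  ring

theorem spl {a b c : ℤ} (ha : 0 < a) (hD : b ^ 2 - 4 * a * c ≠ 0) {p : ℕ} (hp : p.Prime)
    (h : p ≡ 1 [MOD 4 * a.natAbs * (b ^ 2 - 4 * a * c).natAbs]) : Spl a b c p := by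
  set D := b ^ 2 - 4 * a * c with hDd
  have hndvd : ∀ m : ℤ, m.natAbs ∣ 4 * a.natAbs * D.natAbs → ¬ (p : ℤ) ∣ m := by
    intro m hm hpm
    have h1 : p ∣ 4 * a.natAbs * D.natAbs := (Int.natCast_dvd.1 hpm).trans hm
    have h2 : p ≡ 1 [MOD p] := h.of_dvd h1
    have h3 : p ∣ 1 := (Nat.modEq_zero_iff_dvd.1 (h2.symm.trans (Nat.modEq_zero_iff_dvd.2 dvd_rfl)))
    exact hp.one_lt.ne' (Nat.dvd_one.1 h3)
  have hD1 : ¬ (p : ℤ) ∣ D := hndvd D (Dvd.intro_left _ rfl)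
  have h2a : ¬ (p : ℤ) ∣ 2 * a := by
    apply hndvd
    rw [Int.natAbs_mul]
    exact ⟨2 * D.natAbs, by simp; ring⟩
  have hp2 : p ≠ 2 := by
    rintro rfl
    exact h2a ⟨a, by push_cast; ring⟩
  refine ⟨hp, h2a, hD1, sq_mod hp hp2 hD1 (h.of_dvd ⟨a.natAbs, by ring⟩)⟩

end M64

open M64 in
/-- (C3) sets of split primes of large mass -/
theorem stMass_64 : StMass := by
  intro a b c ha hns X
  have hD : b ^ 2 - 4 * a * c ≠ 0 := by
    intro h
    exact hns ⟨0, by rw [h]; ring⟩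
  set q : ℕ := 4 * a.natAbs * (b ^ 2 - 4 * a * c).natAbs with hq
  have hq0 : 0 < q := by
    have h1 : 0 < a.natAbs := Int.natAbs_pos.2 ha.ne'
    have h2 : 0 < (b ^ 2 - 4 * a * c).natAbs := Int.natAbs_pos.2 hD
    positivity
  have hφ : (0 : ℝ) < (Nat.totient q : ℝ) := by exact_mod_cast Nat.totient_pos.2 hq0
  set Y : ℝ := |X| + 1 with hY
  have hY0 : 0 < Y := by positivity
  have hβ : (1 : ℝ) < Real.exp (Nat.totient q * Y) := by
    rw [Real.one_lt_exp_iff]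
    positivity
  have hlim := AN.Mert12.win_class q hq0 1 (Nat.coprime_one_left q) one_pos hβ
  rw [div_one, Real.log_exp, ← mul_assoc, one_div, inv_mul_cancel₀ hφ.ne', one_mul] at hlim
  have hX : X < Y := by
    have := le_abs_self X
    linarith
  obtain ⟨N, hN⟩ := (hlim.eventually (lt_mem_nhds hX)).exists
  refine ⟨AN.Mert12.Wc q 1 1 (Real.exp (Nat.totient q * Y)) N, fun p hp => ?_, hN.le.trans ?_⟩
  · rw [AN.Mert12.Wc, Finset.mem_filter] at hp
    exact spl ha hD hp.2.1 hp.2.2.1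
  · unfold mass
    apply Finset.sum_le_sum
    intro p hp
    rw [AN.Mert12.Wc, Finset.mem_filter] at hp
    have hp1 : (1 : ℝ) < p := by exact_mod_cast hp.2.1.one_lt
    rw [div_le_div_iff₀ (by linarith) (by linarith)]
    linarith

end Pool.Agent.Lib.MP_a17b09_nt.QT
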