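import Pool.Agent.Lib.MP_a17b09_nt.QT.Stmts99

/-!
Row C2 of project QT: the number of roots modulo `p d` for a split prime `p`.
-/

set_option autoImplicit false

open Filter Topology Finset

namespace Pool.Agent.Lib.MP_a17b09_nt.QT

open CH

namespace R11

theorem cnt_zmod (p : ℕ) [NeZero p] (A : Finset (ZMod p)) :
    ((Finset.range p).filter (fun s : ℕ => (s : ZMod p) ∈ A)).card = A.card := by
  have h : (Finset.range p).filter (fun s : ℕ => (s : ZMod p) ∈ A) = A.image ZMod.val := by
    ext s
    simp only [Finset.mem_filter, Finset.mem_range, Finset.mem_image]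
    constructor
    · rintro ⟨h1, h2⟩
      exact ⟨_, h2, ZMod.val_cast_of_lt h1⟩
    · rintro ⟨x, hx, rfl⟩
      exact ⟨ZMod.val_lt x, by rwa [ZMod.natCast_zmod_val]⟩
  rw [h, Finset.card_image_of_injective _ (ZMod.val_injective p)]

theorem sum_split (g : ℕ → ℕ) (d p : ℕ) :
    ∑ t ∈ Finset.range (p * d), g t =
      ∑ t ∈ Finset.range d, ∑ s ∈ Finset.range p, g (t + d * s) := by
  rw [Finset.sum_comm]
  induction p with
  | zero => simp
  | succ p ih =>
    rw [Nat.succ_mul, Finset.sum_range_add, ih, Finset.sum_range_succ]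
    congr 1
    refine Finset.sum_congr rfl fun x _ => ?_
    congr 1
    ring

theorem two_roots (p : ℕ) [Fact p.Prime] (A B C r : ZMod p) (hA : A ≠ 0) (h2 : (2 : ZMod p) ≠ 0)
    (hr : r ≠ 0) (hD : B ^ 2 - 4 * A * C = r ^ 2) :
    (Finset.univ.filter (fun x : ZMod p => C + x * B + A * x ^ 2 = 0)).card = 2 := by
  have h2A : 2 * A ≠ 0 := mul_ne_zero h2 hA
  have h : Finset.univ.filter (fun x : ZMod p => C + x * B + A * x ^ 2 = 0) =
      {(-B + r) / (2 * A), (-B - r) / (2 * A)} := by
    ext x
    rw [Finset.mem_filter, Finset.mem_insert, Finset.mem_singleton, eq_div_iff h2A,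
      eq_div_iff h2A]
    constructor
    · rintro ⟨-, h⟩
      have h1 : (x * (2 * A) - (-B + r)) * (x * (2 * A) - (-B - r)) = 0 := by
        linear_combination (4 * A) * h + hD
      rcases mul_eq_zero.1 h1 with h3 | h3
      · exact Or.inl (sub_eq_zero.1 h3)
      · exact Or.inr (sub_eq_zero.1 h3)
    · intro h
      refine ⟨Finset.mem_univ x, ?_⟩
      have h1 : (x * (2 * A) - (-B + r)) * (x * (2 * A) - (-B - r)) = 0 := by
        rcases h with h | h
        · rw [h]; ring
        · rw [h]; ring
      have h3 : (2 * (2 * A)) * (C + x * B + A * x ^ 2) = 0 := by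
        linear_combination h1 - hD
      exact (mul_eq_zero.1 h3).resolve_left (mul_ne_zero h2 h2A)
  rw [h, Finset.card_pair]
  intro h3
  rw [div_left_inj' h2A] at h3
  have h4 : 2 * r = 0 := by linear_combination h3
  exact (mul_ne_zero h2 hr) h4

theorem one_root (p : ℕ) [Fact p.Prime] (B C : ZMod p) (hB : B ≠ 0) :
    (Finset.univ.filter (fun x : ZMod p => C + x * B + 0 * x ^ 2 = 0)).card = 1 := by
  have h : Finset.univ.filter (fun x : ZMod p => C + x * B + 0 * x ^ 2 = 0) = {-C / B} := by
    ext x
    rw [Finset.mem_filter, Finset.mem_singleton, eq_div_iff hB]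
    constructor
    · rintro ⟨-, h⟩
      linear_combination h
    · intro h
      refine ⟨Finset.mem_univ x, ?_⟩
      linear_combination h
  rw [h, Finset.card_singleton]

end R11

open R11 in
/-- row C2 -/
theorem stRho_11 : StRho := by
  classical
  intro a b c p hp d hd
  obtain ⟨hpp, h2a, hDp, r, hr⟩ := hp
  have : Fact p.Prime := ⟨hpp⟩
  -- nonzero residues
  have h2a' : ((2 * a : ℤ) : ZMod p) ≠ 0 := by
    rw [Ne, ZMod.intCast_zmod_eq_zero_iff_dvd]; exact h2a
  push_cast at h2a'
  have ha0 : (a : ZMod p) ≠ 0 := right_ne_zero_of_mul h2a'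
  have h20 : (2 : ZMod p) ≠ 0 := left_ne_zero_of_mul h2a'
  have hD0 : ((b ^ 2 - 4 * a * c : ℤ) : ZMod p) ≠ 0 := by
    rw [Ne, ZMod.intCast_zmod_eq_zero_iff_dvd]; exact hDp
  have hr' : ((r ^ 2 - (b ^ 2 - 4 * a * c) : ℤ) : ZMod p) = 0 := by
    rw [ZMod.intCast_zmod_eq_zero_iff_dvd]; exact hr
  push_cast at hD0 hr'
  have hrD : (b : ZMod p) ^ 2 - 4 * a * c = (r : ZMod p) ^ 2 := by linear_combination -hr'
  have hr0 : (r : ZMod p) ≠ 0 := by
    intro h
    apply hD0
    rw [hrD, h]
    ring
  -- the fibres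
  have key : ∀ t : ℕ, ∑ s ∈ Finset.range p,
      (if ((p * d : ℕ) : ℤ) ∣ fv a b c (t + d * s) then 1 else 0) =
      if (d : ℤ) ∣ fv a b c t then (if p ∣ d then 1 else 2) else 0 := by
    intro t
    have hexp : ∀ s : ℕ, fv a b c (t + d * s) =
        fv a b c t + d * (s * (2 * a * t + b) + a * d * s ^ 2) := by
      intro s
      simp only [fv]
      push_cast
      ring
    by_cases ht : (d : ℤ) ∣ fv a b c t
    · rw [if_pos ht]
      obtain ⟨m, hm⟩ := ht
      have hd0 : (d : ℤ) ≠ 0 := by exact_mod_cast hd.ne'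
      have hiff : ∀ s : ℕ, ((p * d : ℕ) : ℤ) ∣ fv a b c (t + d * s) ↔
          (s : ZMod p) ∈ Finset.univ.filter (fun x : ZMod p =>
            (m : ZMod p) + x * (2 * a * t + b) + (a * d) * x ^ 2 = 0) := by
        intro s
        rw [hexp s, hm, ← mul_add, Nat.cast_mul, mul_comm (p : ℤ) d,
          mul_dvd_mul_iff_left hd0, ← ZMod.intCast_zmod_eq_zero_iff_dvd, Finset.mem_filter]
        push_cast
        constructor
        · intro h
          exact ⟨Finset.mem_univ _, by linear_combination h⟩
        · rintro ⟨-, h⟩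
          linear_combination h
      rw [← Finset.card_filter, Finset.filter_congr (fun s _ => hiff s), cnt_zmod]
      have hmz : (a : ZMod p) * t ^ 2 + b * t + c = d * m := by
        have h := congrArg (fun z : ℤ => (z : ZMod p)) hm
        simp only [fv] at h
        push_cast at h
        exact h
      by_cases hpd : p ∣ d
      · rw [if_pos hpd]
        have hd1 : (d : ZMod p) = 0 := by
          rw [ZMod.natCast_eq_zero_iff]; exact hpd
        have hB : (2 * a * t + b : ZMod p) ≠ 0 := by
          intro h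
          apply hD0
          rw [hd1, zero_mul] at hmz
          linear_combination (2 * a * t + b) * h - 4 * a * hmz
        rw [hd1, mul_zero]
        exact one_root p _ _ hB
      · rw [if_neg hpd]
        have hd1 : (d : ZMod p) ≠ 0 := by
          rw [Ne, ZMod.natCast_eq_zero_iff]; exact hpd
        refine two_roots p _ _ _ (r : ZMod p) (mul_ne_zero ha0 hd1) h20 hr0 ?_
        rw [← hrD]
        linear_combination (4 * a) * hmz
    · rw [if_neg ht]
      refine Finset.sum_eq_zero fun s _ => ?_
      rw [if_neg]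
      intro h
      apply ht
      have h1 : (d : ℤ) ∣ fv a b c (t + d * s) := by
        refine dvd_trans ?_ h
        rw [Nat.cast_mul]
        exact Dvd.intro_left _ rfl
      rw [hexp s] at h1
      exact (dvd_add_left (Dvd.intro _ rfl)).1 h1
  have h1 : rho a b c (p * d) = ∑ t ∈ Finset.range d,
      if (d : ℤ) ∣ fv a b c t then (if p ∣ d then 1 else 2) else 0 := by
    rw [rho, Finset.card_filter, sum_split]
    exact Finset.sum_congr rfl fun t _ => key t
  rw [h1, ← Finset.sum_filter, Finset.sum_const, smul_eq_mul, ← rho]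
  split_ifs
  · ring
  · ring

end Pool.Agent.Lib.MP_a17b09_nt.QT
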