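import Pool.Agent.Lib.MP_a17b09_nt.QT.Stmts99

/-!
Row C4 of project QT: Turan-Kubilius for the weight `rho` (the number of roots modulo `d`), from
`StRho`.
-/

set_option autoImplicit false

open Filter Topology Finset

namespace Pool.Agent.Lib.MP_a17b09_nt.QT

namespace T11

/-- a sequence which is controlled by its value at `n / p` up to `o(n)` is `o(n)` -/
theorem decay (e : ℕ → ℝ) (p : ℕ) (hp : 2 ≤ p)
    (h : ∀ ε : ℝ, 0 < ε → ∀ᶠ n : ℕ in atTop, |e n| ≤ |e (n / p)| + ε * n) :
    Tendsto (fun n : ℕ => e n / n) atTop (𝓝 0) := by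
  rw [Metric.tendsto_atTop]
  intro ε hε
  obtain ⟨N0, hN0⟩ := eventually_atTop.1 (h (ε / 4) (by positivity))
  set C : ℝ := ∑ n ∈ Finset.range (N0 + 1), |e n| with hC
  have hC0 : 0 ≤ C := Finset.sum_nonneg fun _ _ => abs_nonneg _
  have key : ∀ n : ℕ, |e n| ≤ C + ε / 2 * n := by
    intro n
    induction n using Nat.strong_induction_on with
    | _ n ih =>
      by_cases hn : n ≤ N0
      · have h1 : |e n| ≤ C :=
          Finset.single_le_sum (f := fun n => |e n|) (fun _ _ => abs_nonneg _)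
            (Finset.mem_range.2 (by omega))
        have h2 : 0 ≤ ε / 2 * (n : ℝ) := by positivity
        linarith
      · push Not at hn
        have hlt : n / p < n := Nat.div_lt_self (by omega) (by omega)
        have h1 := hN0 n hn.le
        have h2 := ih _ hlt
        have h3 : ((n / p : ℕ) : ℝ) ≤ n / 2 := by
          have h4 : n / p * 2 ≤ n := by
            calc n / p * 2 ≤ n / p * p := Nat.mul_le_mul_left _ hp
              _ ≤ n := Nat.div_mul_le_self n p
          have h5 : ((n / p : ℕ) : ℝ) * 2 ≤ n := by exact_mod_cast h4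
          linarith
        have h6 : ε / 2 * ((n / p : ℕ) : ℝ) ≤ ε / 2 * ((n : ℝ) / 2) :=
          mul_le_mul_of_nonneg_left h3 (by positivity)
        nlinarith
  obtain ⟨M, hM⟩ := exists_nat_gt (2 * (C + 1) / ε)
  refine ⟨M + 1, fun n hn => ?_⟩
  have hn0 : (0 : ℝ) < n := by
    have : 0 < n := by omega
    exact_mod_cast this
  have hMn : (M : ℝ) ≤ n := by exact_mod_cast (by omega : M ≤ n)
  rw [Real.dist_eq, sub_zero, abs_div, abs_of_pos hn0, div_lt_iff₀ hn0]
  have h1 := key n
  have h2 : 2 * (C + 1) < ε * n := by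
    have h3 : 2 * (C + 1) / ε < n := lt_of_lt_of_le hM hMn
    rw [div_lt_iff₀ hε] at h3
    linarith
  linarith

/-- the multiples of `p` -/
theorem sum_dvd (w : ℕ → ℝ) (p : ℕ) (hp : 0 < p) (n : ℕ) :
    ∑ d ∈ (Finset.Icc 1 n).filter (fun d => p ∣ d), w d = ∑ d ∈ Finset.Icc 1 (n / p), w (p * d) := by
  refine Finset.sum_nbij' (fun d => d / p) (fun d => p * d) ?_ ?_ ?_ ?_ ?_
  · intro d hd
    rw [Finset.mem_filter, Finset.mem_Icc] at hd
    obtain ⟨⟨h1, h2⟩, q, rfl⟩ := hd
    rw [Nat.mul_div_cancel_left _ hp, Finset.mem_Icc]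
    refine ⟨?_, ?_⟩
    · rcases Nat.eq_zero_or_pos q with h | h
      · subst h; simp at h1
      · exact h
    · rw [Nat.le_div_iff_mul_le hp, mul_comm]; exact h2
  · intro d hd
    rw [Finset.mem_Icc] at hd
    rw [Finset.mem_filter, Finset.mem_Icc]
    refine ⟨⟨Nat.mul_pos hp hd.1, ?_⟩, Dvd.intro _ rfl⟩
    have h := hd.2
    rw [Nat.le_div_iff_mul_le hp, mul_comm] at h
    exact h
  · intro d hd
    rw [Finset.mem_filter] at hd
    exact Nat.mul_div_cancel' hd.2
  · intro d _
    exact Nat.mul_div_cancel_left _ hp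
  · intro d hd
    rw [Finset.mem_filter] at hd
    rw [Nat.mul_div_cancel' hd.2]

/-- weights with `w (p d) = 2 w d` if `p` does not divide `d`, and `w d` otherwise -/
def Dil (w : ℕ → ℝ) (p : ℕ) : Prop :=
  ∀ d : ℕ, 0 < d → w (p * d) = 2 * w d - if p ∣ d then w d else 0

theorem lim_dil (w : ℕ → ℝ) (p : ℕ) (hp : 2 ≤ p) (hw : Dil w p) (l : ℝ)
    (hF : Tendsto (fun n : ℕ => (∑ d ∈ Finset.Icc 1 n, w d) / n) atTop (𝓝 l)) :
    Tendsto (fun n : ℕ => (∑ d ∈ (Finset.Icc 1 n).filter (fun d => p ∣ d), w d) / n) atTop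
      (𝓝 (2 / ((p : ℝ) + 1) * l)) := by
  set A : ℕ → ℝ := fun n => ∑ d ∈ (Finset.Icc 1 n).filter (fun d => p ∣ d), w d with hA
  set F : ℕ → ℝ := fun n => ∑ d ∈ Finset.Icc 1 n, w d with hFd
  have hp0 : (0 : ℝ) < (p : ℝ) + 1 := by positivity
  have hrec : ∀ n, A n = 2 * F (n / p) - A (n / p) := by
    intro n
    simp only [hA, hFd]
    rw [sum_dvd w p (by omega) n, Finset.mul_sum, Finset.sum_filter (s := Finset.Icc 1 (n / p)),
      ← Finset.sum_sub_distrib]
    refine Finset.sum_congr rfl fun d hd => ?_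
    rw [hw d (Finset.mem_Icc.1 hd).1]
  have h0 := decay (fun n => A n - 2 / ((p : ℝ) + 1) * l * n) p hp ?_
  · have h1 : Tendsto (fun n : ℕ => (A n - 2 / ((p : ℝ) + 1) * l * n) / n +
        2 / ((p : ℝ) + 1) * l) atTop (𝓝 (0 + 2 / ((p : ℝ) + 1) * l)) :=
      h0.add tendsto_const_nhds
    rw [zero_add] at h1
    refine h1.congr' ?_
    filter_upwards [eventually_gt_atTop 0] with n hn
    have hn' : (n : ℝ) ≠ 0 := by exact_mod_cast hn.ne'
    field_simp
    ring
  · intro ε hε
    rw [Metric.tendsto_atTop] at hF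
    obtain ⟨M0, hM0⟩ := hF (ε / 2) (by positivity)
    obtain ⟨M1, hM1⟩ := exists_nat_gt (4 * |l| / ε)
    filter_upwards [eventually_ge_atTop (p * (M0 + 1)), eventually_ge_atTop (M1 + 1)] with n hn1 hn2
    set m := n / p with hm
    have hm1 : M0 + 1 ≤ m := by
      rw [hm, Nat.le_div_iff_mul_le (by omega), mul_comm]
      exact hn1
    have hm0 : (0 : ℝ) < m := by
      have : 0 < m := by omega
      exact_mod_cast this
    have h1 : |F m - l * m| ≤ ε / 2 * m := by
      have h2 := hM0 m (by omega)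
      rw [Real.dist_eq] at h2
      have h3 : F m / m - l = (F m - l * m) / m := by
        field_simp
      rw [h3, abs_div, abs_of_pos hm0, div_lt_iff₀ hm0] at h2
      exact h2.le
    have hpm : p * m ≤ n := by rw [hm]; exact Nat.mul_div_le n p
    have hpm2 : n < p * m + p := by
      have := Nat.lt_mul_div_succ n (show 0 < p by omega)
      rw [← hm] at this
      calc n < p * (m + 1) := this
        _ = p * m + p := by ring
    have hpmr : ((p : ℝ) * m) ≤ n := by exact_mod_cast hpm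
    have hpmr2 : (n : ℝ) ≤ (p : ℝ) * m + p := by exact_mod_cast hpm2.le
    have h2p : (2 : ℝ) ≤ p := by exact_mod_cast hp
    have h4 : A n - 2 / ((p : ℝ) + 1) * l * n =
        -(A m - 2 / ((p : ℝ) + 1) * l * m) + 2 * (F m - l * m) +
          2 / ((p : ℝ) + 1) * l * (p * m - n) := by
      rw [hrec n, ← hm]
      field_simp
      ring
    have h5 : |2 / ((p : ℝ) + 1) * l * (p * m - n)| ≤ 2 * |l| := by
      rw [abs_mul, abs_mul, abs_of_pos (show (0 : ℝ) < 2 / ((p : ℝ) + 1) by positivity)]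
      have h6 : |(p : ℝ) * m - n| ≤ p + 1 := by
        rw [abs_le]; constructor <;> linarith
      calc 2 / ((p : ℝ) + 1) * |l| * |(p : ℝ) * m - n| ≤ 2 / ((p : ℝ) + 1) * |l| * (p + 1) := by
            gcongr
        _ = 2 * |l| := by field_simp
    have h7 : 4 * |l| ≤ ε * n := by
      have h8 : (M1 : ℝ) ≤ n := by exact_mod_cast (by omega : M1 ≤ n)
      have h9 : 4 * |l| / ε < n := lt_of_lt_of_le hM1 h8
      rw [div_lt_iff₀ hε] at h9
      linarith
    have h10 : (m : ℝ) ≤ n / 2 := by nlinarith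
    rw [h4]
    calc |-(A m - 2 / ((p : ℝ) + 1) * l * m) + 2 * (F m - l * m) +
          2 / ((p : ℝ) + 1) * l * (p * m - n)|
        ≤ |-(A m - 2 / ((p : ℝ) + 1) * l * m) + 2 * (F m - l * m)| +
          |2 / ((p : ℝ) + 1) * l * (p * m - n)| := abs_add_le _ _
      _ ≤ |-(A m - 2 / ((p : ℝ) + 1) * l * m)| + |2 * (F m - l * m)| +
          |2 / ((p : ℝ) + 1) * l * (p * m - n)| := by gcongr; exact abs_add_le _ _
      _ = |A m - 2 / ((p : ℝ) + 1) * l * m| + 2 * |F m - l * m| +
          |2 / ((p : ℝ) + 1) * l * (p * m - n)| := by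
            rw [abs_neg, abs_mul, abs_of_pos (show (0 : ℝ) < 2 by norm_num)]
      _ ≤ |A m - 2 / ((p : ℝ) + 1) * l * m| + ε * n := by nlinarith

end T11

open T11 in
/-- row C4 -/
theorem stTkR_11 (hR : StRho) : StTkR := by
  classical
  intro a b c κ hκ P hP hmass
  obtain ⟨hκ0, -, hF⟩ := hκ
  set ρ : ℕ → ℝ := fun d => (rho a b c d : ℝ) with hρ
  have hF' : Tendsto (fun n : ℕ => (∑ d ∈ Finset.Icc 1 n, ρ d) / n) atTop (𝓝 κ) := by
    refine hF.congr fun n => ?_
    simp only [hρ]
    push_cast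
    rfl
  have hdil : ∀ p ∈ P, Dil ρ p := by
    intro p hp d hd
    simp only [hρ]
    rw [hR a b c p (hP p hp) d hd]
    split_ifs
    · ring
    · push_cast; ring
  have hA : ∀ p ∈ P, Tendsto (fun n : ℕ =>
      (∑ d ∈ (Finset.Icc 1 n).filter (fun d => p ∣ d), ρ d) / n) atTop
      (𝓝 (2 / ((p : ℝ) + 1) * κ)) := fun p hp =>
    lim_dil ρ p (hP p hp).1.two_le (hdil p hp) κ hF'
  have hAA : ∀ p ∈ P, ∀ q ∈ P, p ≠ q → Tendsto (fun n : ℕ =>
      (∑ d ∈ (Finset.Icc 1 n).filter (fun d => p ∣ d), if q ∣ d then ρ d else 0) / n) atTop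
      (𝓝 (2 / ((p : ℝ) + 1) * (2 / ((q : ℝ) + 1) * κ))) := by
    intro p hp q hq hpq
    refine lim_dil (fun d => if q ∣ d then ρ d else 0) p (hP p hp).1.two_le ?_ _ ?_
    · intro d hd
      have hcop : q ∣ p * d ↔ q ∣ d := by
        constructor
        · intro h
          exact (Nat.Coprime.dvd_mul_left
            ((Nat.coprime_primes (hP q hq).1 (hP p hp).1).2 (Ne.symm hpq))).1 h
        · intro h
          exact Dvd.dvd.mul_left h p
      simp only [hcop, hdil p hp d hd]
      split_ifs <;> ring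
    · refine (hA q hq).congr fun n => ?_
      rw [Finset.sum_filter]
  refine ⟨?_, ?_⟩
  · -- the second moment
    set S := mass P with hS
    -- the limit of the second moment
    have hlim : Tendsto (fun n : ℕ => (∑ d ∈ Finset.Icc 1 n, ρ d * ((omP P d : ℝ) - S) ^ 2) / n)
        atTop (𝓝 (∑ p ∈ P, ∑ q ∈ P, (if p = q then 2 / ((p : ℝ) + 1) * κ else
          2 / ((p : ℝ) + 1) * (2 / ((q : ℝ) + 1) * κ)) -
          2 * S * ∑ p ∈ P, 2 / ((p : ℝ) + 1) * κ + S ^ 2 * κ)) := by
      have h1 : Tendsto (fun n : ℕ => ∑ p ∈ P, ∑ q ∈ P,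
          (∑ d ∈ (Finset.Icc 1 n).filter (fun d => p ∣ d), if q ∣ d then ρ d else 0) / (n : ℝ) -
          2 * S * ∑ p ∈ P, (∑ d ∈ (Finset.Icc 1 n).filter (fun d => p ∣ d), ρ d) / (n : ℝ) +
          S ^ 2 * ((∑ d ∈ Finset.Icc 1 n, ρ d) / (n : ℝ))) atTop
          (𝓝 (∑ p ∈ P, ∑ q ∈ P, (if p = q then 2 / ((p : ℝ) + 1) * κ else
          2 / ((p : ℝ) + 1) * (2 / ((q : ℝ) + 1) * κ)) -
          2 * S * ∑ p ∈ P, 2 / ((p : ℝ) + 1) * κ + S ^ 2 * κ)) := by
        refine Tendsto.add (Tendsto.sub ?_ ?_) (hF'.const_mul _)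
        · refine tendsto_finsetSum _ fun p hp => tendsto_finsetSum _ fun q hq => ?_
          by_cases hpq : p = q
          · subst hpq
            rw [if_pos rfl]
            refine (hA p hp).congr fun n => ?_
            congr 1
            refine Finset.sum_congr rfl fun d hd => ?_
            rw [if_pos (Finset.mem_filter.1 hd).2]
          · rw [if_neg hpq]
            exact hAA p hp q hq hpq
        · exact (tendsto_finsetSum _ fun p hp => hA p hp).const_mul _
      refine h1.congr fun n => ?_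
      have h2 : ∀ d : ℕ, ρ d * ((omP P d : ℝ) - S) ^ 2 =
          (∑ p ∈ P, ∑ q ∈ P, if p ∣ d then (if q ∣ d then ρ d else 0) else 0) -
            2 * S * (∑ p ∈ P, if p ∣ d then ρ d else 0) + S ^ 2 * ρ d := by
        intro d
        have h3 : (omP P d : ℝ) = ∑ p ∈ P, if p ∣ d then (1 : ℝ) else 0 := by
          rw [omP, Finset.card_filter]
          push_cast
          rfl
        have h4 : (∑ p ∈ P, if p ∣ d then ρ d else 0) = ρ d * (omP P d : ℝ) := by
          rw [h3, Finset.mul_sum]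
          refine Finset.sum_congr rfl fun p _ => ?_
          split_ifs <;> ring
        have h5 : (∑ p ∈ P, ∑ q ∈ P, if p ∣ d then (if q ∣ d then ρ d else 0) else 0) =
            ρ d * (omP P d : ℝ) ^ 2 := by
          rw [sq, ← mul_assoc, ← h4, h3, Finset.sum_mul_sum, Finset.sum_comm]
          refine Finset.sum_congr rfl fun q _ => Finset.sum_congr rfl fun p _ => ?_
          split_ifs <;> simp
        rw [h4, h5]
        ring
      have h6 : ∑ d ∈ Finset.Icc 1 n, ρ d * ((omP P d : ℝ) - S) ^ 2 =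
          (∑ p ∈ P, ∑ q ∈ P, ∑ d ∈ (Finset.Icc 1 n).filter (fun d => p ∣ d),
            if q ∣ d then ρ d else 0) -
            2 * S * (∑ p ∈ P, ∑ d ∈ (Finset.Icc 1 n).filter (fun d => p ∣ d), ρ d) +
            S ^ 2 * ∑ d ∈ Finset.Icc 1 n, ρ d := by
        rw [Finset.sum_congr rfl fun d _ => h2 d, Finset.sum_add_distrib, Finset.sum_sub_distrib,
          ← Finset.mul_sum, ← Finset.mul_sum, Finset.sum_comm,
          Finset.sum_comm (s := Finset.Icc 1 n) (t := P) (f := fun d p => if p ∣ d then ρ d else 0)]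
        congr 2
        · refine Finset.sum_congr rfl fun p _ => ?_
          rw [Finset.sum_comm]
          refine Finset.sum_congr rfl fun q _ => ?_
          rw [Finset.sum_filter]
        · congr 1
          refine Finset.sum_congr rfl fun p _ => ?_
          rw [Finset.sum_filter]
      rw [h6]
      simp only [add_div, sub_div, mul_div_assoc, Finset.sum_div]
    have hlt : ∑ p ∈ P, ∑ q ∈ P, (if p = q then 2 / ((p : ℝ) + 1) * κ else
          2 / ((p : ℝ) + 1) * (2 / ((q : ℝ) + 1) * κ)) -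
          2 * S * ∑ p ∈ P, 2 / ((p : ℝ) + 1) * κ + S ^ 2 * κ < 2 * κ * S := by
      have h1 : ∑ p ∈ P, ∑ q ∈ P, (if p = q then 2 / ((p : ℝ) + 1) * κ else
          2 / ((p : ℝ) + 1) * (2 / ((q : ℝ) + 1) * κ)) ≤ κ * S + κ * S ^ 2 := by
        have h2 : ∀ p ∈ P, ∑ q ∈ P, (if p = q then 2 / ((p : ℝ) + 1) * κ else
          2 / ((p : ℝ) + 1) * (2 / ((q : ℝ) + 1) * κ)) ≤
            2 / ((p : ℝ) + 1) * κ + 2 / ((p : ℝ) + 1) * κ * S := by
          intro p hp
          calc ∑ q ∈ P, (if p = q then 2 / ((p : ℝ) + 1) * κ else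
                2 / ((p : ℝ) + 1) * (2 / ((q : ℝ) + 1) * κ))
              ≤ ∑ q ∈ P, ((if p = q then 2 / ((p : ℝ) + 1) * κ else 0) +
                2 / ((p : ℝ) + 1) * (2 / ((q : ℝ) + 1) * κ)) := by
                refine Finset.sum_le_sum fun q _ => ?_
                split_ifs
                · have : 0 ≤ 2 / ((p : ℝ) + 1) * (2 / ((q : ℝ) + 1) * κ) := by positivity
                  linarith
                · simp
            _ = 2 / ((p : ℝ) + 1) * κ + 2 / ((p : ℝ) + 1) * κ * S := by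
                rw [Finset.sum_add_distrib, Finset.sum_ite_eq, if_pos hp, hS, mass,
                  Finset.mul_sum]
                congr 1
                refine Finset.sum_congr rfl fun q _ => ?_
                ring
        refine (Finset.sum_le_sum h2).trans (le_of_eq ?_)
        rw [Finset.sum_add_distrib, ← Finset.sum_mul, ← Finset.sum_mul, ← Finset.sum_mul, hS, mass]
        ring
      have h3 : ∑ p ∈ P, 2 / ((p : ℝ) + 1) * κ = S * κ := by
        rw [← Finset.sum_mul, hS, mass]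
      rw [h3]
      nlinarith [mul_pos hκ0 hmass]
    filter_upwards [hlim.eventually (eventually_lt_nhds hlt), eventually_gt_atTop 0] with n hn hn0
    have hn' : (0 : ℝ) < n := by exact_mod_cast hn0
    rw [div_lt_iff₀ hn'] at hn
    exact hn.le
  · intro p hp
    have hpos : (0 : ℝ) < 2 / ((p : ℝ) + 1) * κ := by positivity
    have hlt : 2 / ((p : ℝ) + 1) * κ < 2 * κ * (2 / ((p : ℝ) + 1)) := by linarith
    filter_upwards [(hA p hp).eventually (eventually_lt_nhds hlt), eventually_gt_atTop 0]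
      with n hn hn0
    have hn' : (0 : ℝ) < n := by exact_mod_cast hn0
    rw [div_lt_iff₀ hn'] at hn
    exact hn.le

end Pool.Agent.Lib.MP_a17b09_nt.QT
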