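import Pool.Agent.Lib.MP_a17b09_nt.AN.STwH_42
import Pool.Agent.Lib.MP_a17b09_nt.QT.Stmts99

/-!
QT (MP_a17b09_nt), row X1H: two slots with a periodic weight, positive discriminant.  helper42.
Fork of `AN/STwH_42`: the weight `phi` is multiplied by `χ` of the third coefficient.
-/

set_option autoImplicit false

open Filter Topology Finset

namespace Pool.Agent.Lib.MP_a17b09_nt.QT

open CH HY SP
open PQ (B1 gw)
open CH.G68 (cnd phi norm_phi phi_per fm fm_D)
open SP.TwP27 (q_lin adm)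
open SPH.TwH27 (main_id)
open AS (wslot cf InHW StHNullLW kerHLW)

namespace XH42

/-- the weight -/
noncomputable def phx (a b : ℤ) (χ : ℤ → ℂ) (x y z : ℤ) : ℂ := phi a b 1 0 x y z * χ z

theorem norm_phx (a b : ℤ) {χ : ℤ → ℂ} (hχ : ∀ x, ‖χ x‖ ≤ 1) (x y z : ℤ) :
    ‖phx a b χ x y z‖ ≤ 1 := by
  unfold phx
  rw [norm_mul]
  calc _ ≤ (1 : ℝ) * 1 := mul_le_mul (norm_phi a b 1 0 x y z) (hχ z) (norm_nonneg _) zero_le_one
    _ = 1 := one_mul 1

theorem phx_per {a b : ℤ} {L : ℕ} {χ : ℤ → ℂ} (hχ : Per L χ) (x y z u v t : ℤ) :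
    phx a b χ (x + (2 * a * L) * u) (y + (2 * a * L) * v) (z + (2 * a * L) * t) =
      phx a b χ x y z := by
  unfold phx
  have h1 := phi_per a b 1 0 x y z (L * u) (L * v) (L * t)
  have e1 : x + (2 * a * ((1 : ℕ) : ℤ)) * (L * u) = x + (2 * a * L) * u := by push_cast; ring
  have e2 : y + (2 * a * ((1 : ℕ) : ℤ)) * (L * v) = y + (2 * a * L) * v := by push_cast; ring
  have e3 : z + (2 * a * ((1 : ℕ) : ℤ)) * (L * t) = z + (2 * a * L) * t := by push_cast; ring
  rw [e1, e2, e3] at h1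
  have h2 : χ (z + (2 * a * L) * t) = χ z := by
    rw [← hχ.1 z (2 * a * t)]
    congr 1
    ring
  rw [h1, h2]

/-- the weight on frames -/
noncomputable def omX {ι : Type} (S : HSystem ι) (w : ι → ℕ) (a b : ℤ) (χ : ℤ → ℂ) (i : ι)
    (v v' : V) : ℂ :=
  (1 / (w i : ℂ)) * phx a b χ ((S.Q i).q v) ((S.Q i).B v v') ((S.Q i).q v')

theorem swap (a b c : ℤ) (α β : ℝ) (χ : ℤ → ℂ) (w1 w2 : ℕ → ℂ) (o1 o2 : Option ℕ) (N : ℕ) :
    TwX a b c α β χ w1 w2 o1 o2 N = TwX a b c α β χ w2 w1 o2 o1 N := by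
  unfold TwX
  refine Finset.sum_congr rfl fun t _ => Finset.sum_congr rfl fun d _ => ?_
  rw [mul_comm (w1 _)]

theorem core (hN : StHNullLW) (hFm : StHFm) (a b c : ℤ) (ha : 0 < a) (d : ℕ)
    (hd : b ^ 2 - 4 * a * c = d) (hns : ¬ IsSquare d) (w1 w2 : ℕ → ℂ) (hw1 : B1 w1)
    (hw2 : B1 w2) (hIn : InHW d w1 w2) (L : ℕ) (hL : 0 < L) (χ : ℤ → ℂ) (hχ : Per L χ)
    (α β : ℝ) (hα : 0 < α) (hβ : α < β) (o1 o2 : Option ℕ)
    (ho : Adm (vslot a o1) (vslot a o2)) (M : LMean) :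
    M.E (fun N : ℕ => ‖TwX a b c α β χ w1 w2 o1 o2 N‖ / N) = 0 := by
  obtain ⟨ι, hι, S, w, e, hSd, he, hw0, hws, hF⟩ := stHSys_68 d hns
  have hSd' : (S.d : ℤ) = b ^ 2 - 4 * a * c := by rw [hSd, hd]
  -- the weight
  obtain ⟨K, hK⟩ : ∃ K : ℕ, 2 * a * L = (K : ℤ) :=
    ⟨_, (Int.toNat_of_nonneg (by positivity)).symm⟩
  have hK0 : 0 < K := by
    have hL' : (0 : ℤ) < L := by exact_mod_cast hL
    have : (0 : ℤ) < K := by rw [← hK]; positivity
    exact_mod_cast this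
  have hWt : HWt S K (omX S w a b χ) := by
    apply stHWt_68 ι S w
    · intro p hp h4 i
      rw [hSd] at h4
      exact hws p hp h4 i
    · exact hK0
    · intro x y z u v t
      rw [← hK]
      exact phx_per hχ x y z u v t
  have hNull := hN d hns w1 w2 hw1 hw2 hIn ι S hSd _ _ ho K hK0 _ hWt e he M
  set U := kerHLW S w1 w2 (vslot a o1) (vslot a o2) (omX S w a b χ) with hUd
  have hbd : ∃ C : ℝ, ∀ i v v', ‖U i v v'‖ ≤ C := by
    refine ⟨1, fun i v v' => ?_⟩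
    rw [hUd]
    unfold kerHLW omX
    have h1 : ‖(1 / (w i : ℂ))‖ ≤ 1 := by
      rw [norm_div, norm_one, Complex.norm_natCast]
      have : (1 : ℝ) ≤ w i := by exact_mod_cast hw0 i
      rw [div_le_one (by linarith)]
      exact this
    have h2 := norm_phx a b hχ.2 ((S.Q i).q v) ((S.Q i).B v v') ((S.Q i).q v')
    refine AS.NH42.norm3_le zero_le_one ?_ (hw1 _) (hw2 _)
    rw [norm_mul]
    calc _ ≤ (1 : ℝ) * 1 := mul_le_mul h1 h2 (norm_nonneg _) zero_le_one
      _ = 1 := one_mul 1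
  let T0 : ℕ := b.natAbs + c.natAbs + 1
  have hT1 : 0 < T0 := Nat.succ_pos _
  have hT0 : |b| + |c| < T0 := by
    simp only [T0]
    push_cast
    linarith
  obtain ⟨hfin, hB, hE⟩ := hFm M ι S.d S.Q S.hyp (per e) (per_pos he) _ hbd hNull a b α β ha hα
    hβ T0 hT1
  have hid : ∀ N : ℕ, ∑ i, ∑ᶠ f ∈ HFG (S.Q i) (per e) a b α β T0 N, U i f.1 f.2 =
      ∑ t ∈ (Finset.Icc T0 N).filter (fun t => t ≡ 0 [MOD 1]),
        ∑ d ∈ nearG a b c α β t, χ (a * (fv a b c t / d)) *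
          (w1 (wslot a b c t d o1) * w2 (wslot a b c t d o2)) := by
    intro N
    refine main_id ha S hSd' w (T := per e) (fun F h1 h2 h3 h4 => hF F h1 h2 h3 (by
      rw [h4, hSd])) U (fun t d => χ (a * (fv a b c t / d)) *
          (w1 (wslot a b c t d o1) * w2 (wslot a b c t d o2))) hT0 (fun i => hfin i N) ?_ ?_
    · intro i f hn
      rw [hUd]
      unfold kerHLW omX phx phi
      rw [if_neg hn]
      ring
    · intro i t ht hth d' hd' f hf
      have hb := H68.backward ha hT0 ht hth hd' hf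
      have htZ : |b| + |c| < (t : ℤ) :=
        hT0.trans_le (by exact_mod_cast (Finset.mem_Icc.1 ht).1)
      have hfv := (H68.fv_pos ha htZ).1
      have hdv := ((H68.mem_near hfv).1 hd').1
      have hd'0 : d' ≠ 0 := by
        rintro rfl
        have h4 := hf.2.1.1.q_pos (S.hyp i)
        rw [hf.2.2.2.1] at h4
        simp at h4
      have hphi : phi a b 1 0 ((S.Q i).q f.1) ((S.Q i).B f.1 f.2) ((S.Q i).q f.2) = 1 := by
        unfold phi
        rw [if_pos hb.2]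
      have h3 : (S.Q i).q f.2 = a * (fv a b c t / d') := hf.2.2.2.2.2
      rw [hUd]
      unfold kerHLW omX phx
      rw [hphi, h3, AS.TwH42.slot ha w1 htZ hd'0 hdv hf, AS.TwH42.slot ha w2 htZ hd'0 hdv hf]
      ring
  -- comparison
  let G : ℕ → ℂ := fun t => ∑ d ∈ nearG a b c α β t,
    χ (a * (fv a b c t / d)) * (w1 (wslot a b c t d o1) * w2 (wslot a b c t d o2))
  let C1 : ℝ := ∑ t ∈ Finset.Icc 1 (T0 - 1), ‖G t‖
  have hC1 : 0 ≤ C1 := Finset.sum_nonneg (fun _ _ => norm_nonneg _)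
  have hcmp : ∀ N : ℕ, ‖TwX a b c α β χ w1 w2 o1 o2 N‖ ≤ C1 +
      ‖∑ i, ∑ᶠ f ∈ HFG (S.Q i) (per e) a b α β T0 N, U i f.1 f.2‖ := by
    intro N
    rw [hid N]
    have hmod : (Finset.Icc T0 N).filter (fun t => t ≡ 0 [MOD 1]) = Finset.Icc T0 N :=
      Finset.filter_true_of_mem fun t _ => Nat.modEq_one
    rw [hmod]
    have hsub : Finset.Icc 1 N =
        (Finset.Icc 1 N).filter (fun t => t < T0) ∪ Finset.Icc T0 N := by
      ext t
      rw [Finset.mem_union, Finset.mem_filter, Finset.mem_Icc, Finset.mem_Icc]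
      constructor
      · intro h1
        by_cases h3 : t < T0
        · exact Or.inl ⟨h1, h3⟩
        · exact Or.inr ⟨by omega, h1.2⟩
      · rintro (h1 | h1)
        · exact h1.1
        · exact ⟨by omega, h1.2⟩
    have hdis : Disjoint ((Finset.Icc 1 N).filter (fun t => t < T0)) (Finset.Icc T0 N) := by
      rw [Finset.disjoint_left]
      intro t h1 h2
      rw [Finset.mem_filter] at h1
      rw [Finset.mem_Icc] at h2
      omega
    have e1 : TwX a b c α β χ w1 w2 o1 o2 N =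
        ∑ t ∈ (Finset.Icc 1 N).filter (fun t => t < T0), G t +
        ∑ t ∈ Finset.Icc T0 N, G t := by
      rw [← Finset.sum_union hdis, ← hsub]
      rfl
    rw [e1]
    refine (norm_add_le _ _).trans (add_le_add ?_ le_rfl)
    refine (norm_sum_le _ _).trans ?_
    apply Finset.sum_le_sum_of_subset_of_nonneg
    · intro t ht
      rw [Finset.mem_filter, Finset.mem_Icc] at ht
      rw [Finset.mem_Icc]
      omega
    · intro t _ _
      exact norm_nonneg _
  have hle : ∀ N : ℕ, ‖TwX a b c α β χ w1 w2 o1 o2 N‖ / N ≤ C1 / N +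
      ‖∑ i, ∑ᶠ f ∈ HFG (S.Q i) (per e) a b α β T0 N, U i f.1 f.2‖ / N := by
    intro N
    rw [← add_div]
    exact div_le_div_of_nonneg_right (hcmp N) (Nat.cast_nonneg N)
  have hr0 : Tendsto (fun N : ℕ => C1 / (N : ℝ)) atTop (𝓝 0) :=
    tendsto_const_div_atTop_nhds_zero_nat C1
  have hrB : Bdd (fun N : ℕ => C1 / (N : ℝ)) := by
    refine ⟨C1, fun N => ?_⟩
    rw [abs_of_nonneg (by positivity)]
    rcases Nat.eq_zero_or_pos N with h0 | h0
    · rw [h0]; simpa using hC1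
    · apply div_le_self hC1
      exact_mod_cast h0
  have hfB : Bdd (fun N : ℕ => ‖TwX a b c α β χ w1 w2 o1 o2 N‖ / N) := by
    obtain ⟨C, hC⟩ := hB
    obtain ⟨C', hC'⟩ := hrB
    refine ⟨C' + C, fun N => ?_⟩
    rw [abs_of_nonneg (by positivity)]
    exact (hle N).trans (add_le_add ((le_abs_self _).trans (hC' N))
      ((le_abs_self _).trans (hC N)))
  apply le_antisymm
  · calc M.E (fun N : ℕ => ‖TwX a b c α β χ w1 w2 o1 o2 N‖ / N)
        ≤ M.E (fun N : ℕ => C1 / (N : ℝ) +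
          ‖∑ i, ∑ᶠ f ∈ HFG (S.Q i) (per e) a b α β T0 N, U i f.1 f.2‖ / N) :=
          LMean.mono M hfB (Bdd.add hrB hB) hle
      _ = 0 := by
          rw [M.add _ _ hrB hB, M.null _ hrB hr0, hE, add_zero]
  · exact M.nonneg _ hfB (fun N => by positivity)

end XH42

/-- **(X1H)** -/
theorem stTwXH_42 (hN : StHNullLW) (hFm : StHFm) : StTwXH := by
  intro a b c ha d hd hns w1 w2 hw1 hw2 hIn hIn' α β hα hβ L hL χ hχ o1 o2 ho M
  rcases adm ha ho with hA | hA
  · exact XH42.core hN hFm a b c ha d hd hns w1 w2 hw1 hw2 hIn L hL χ hχ α β hα hβ o1 o2 hA M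
  · have h1 := XH42.core hN hFm a b c ha d hd hns w2 w1 hw2 hw1 hIn' L hL χ hχ α β hα hβ o2 o1
      hA M
    have h2 : (fun N : ℕ => ‖TwX a b c α β χ w1 w2 o1 o2 N‖ / N) =
        fun N : ℕ => ‖TwX a b c α β χ w2 w1 o2 o1 N‖ / N := by
      funext N
      rw [XH42.swap]
    rw [h2]
    exact h1

end Pool.Agent.Lib.MP_a17b09_nt.QT
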