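import Pool.Agent.Lib.MP_a17b09_nt.AN.STw_64
import Pool.Agent.Lib.MP_a17b09_nt.QT.Stmts99

/-!
# Project QT (MP_a17b09): the twisted sums for two slots with a periodic weight (helper64, fork of
`AN/STw_64`)
-/

set_option autoImplicit false

open Filter Topology Finset

namespace Pool.Agent.Lib.MP_a17b09_nt.QT

open Pool.Agent.Lib.MP_a17b09_nt.CH
open Pool.Agent.Lib.MP_a17b09_nt.CH.G68
open PQ (B1 gw kerW)
open SP (lin Adm vslot)
open AS (wslot InW StNullLW kerLW)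
open HY SP

namespace X64

open SP.TwP27 (q_lin main_idX)
open AS.T64 (slot)

/-- the weight -/
noncomputable def phX (a b : ℤ) (χ : ℤ → ℂ) (x y z : ℤ) : ℂ := phi a b 1 0 x y z * χ z

theorem norm_phX (a b : ℤ) {χ : ℤ → ℂ} (hχ : ∀ x, ‖χ x‖ ≤ 1) (x y z : ℤ) :
    ‖phX a b χ x y z‖ ≤ 1 := by
  unfold phX
  rw [norm_mul]
  calc _ ≤ (1 : ℝ) * 1 := mul_le_mul (norm_phi a b 1 0 x y z) (hχ z) (norm_nonneg _) zero_le_one
    _ = 1 := one_mul 1

theorem phX_per (a b : ℤ) {χ : ℤ → ℂ} {L : ℕ} (hχ : ∀ x y : ℤ, χ (x + L * y) = χ x)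
    (x y z u v t : ℤ) :
    phX a b χ (x + (2 * a * L) * u) (y + (2 * a * L) * v) (z + (2 * a * L) * t) =
      phX a b χ x y z := by
  have e1 := phi_per a b 1 0 x y z (L * u) (L * v) (L * t)
  have e2 : χ (z + (2 * a * L) * t) = χ z := by
    have : z + (2 * a * (L : ℤ)) * t = z + L * (2 * a * t) := by ring
    rw [this, hχ]
  have e3 : ∀ w : ℤ, (2 * a * ((1 : ℕ) : ℤ)) * (L * w) = (2 * a * L) * w := by
    intro w; push_cast; ring
  rw [e3, e3, e3] at e1
  unfold phX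
  rw [e1, e2]

/-- the weight of the system -/
noncomputable def omX {ι : Type} (S : System ι) (w : ι → ℕ) (a b : ℤ) (χ : ℤ → ℂ) (i : ι)
    (v v' : V) : ℂ :=
  (1 / (w i : ℂ)) * phX a b χ ((S.Q i).q v) ((S.Q i).B v v') ((S.Q i).q v')

theorem TwX_eq (a b c : ℤ) (α β : ℝ) (χ : ℤ → ℂ) (w1 w2 : ℕ → ℂ) (o1 o2 : Option ℕ) (N : ℕ) :
    TwX a b c α β χ w1 w2 o1 o2 N = ∑ t ∈ (Finset.Icc 1 N).filter (fun t => t ≡ 0 [MOD 1]),
      ∑ d ∈ nearG a b c α β t,
        χ (a * (fv a b c t / d)) * (w1 (wslot a b c t d o1) * w2 (wslot a b c t d o2)) := by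
  unfold TwX
  rw [Finset.filter_true_of_mem (fun t _ => Nat.modEq_one)]

theorem core (hFm : StFm) (a b c : ℤ) (d : ℕ) (ha : 0 < a) (hd0 : 0 < d)
    (hd : 4 * a * c - b ^ 2 = d) (w1 w2 : ℕ → ℂ) (hw1 : B1 w1) (hw2 : B1 w2) (o1 o2 : Option ℕ)
    (hN : ∀ (ι : Type) [Fintype ι] (S : System ι), S.d = d → ∀ (K : ℕ), 0 < K →
      ∀ om : ι → V → V → ℂ, Wt S K om → ∀ M : LMean,
      NullM M S.Q (kerLW S w1 w2 (vslot a o1) (vslot a o2) om))
    (L : ℕ) (hL : 0 < L) (χ : ℤ → ℂ) (hχ : Per L χ) (α β : ℝ) (hα : 0 < α) (hβ : α < β)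
    (M : LMean) : M.E (fun N : ℕ => ‖TwX a b c α β χ w1 w2 o1 o2 N‖ / N) = 0 := by
  have hD : b ^ 2 - 4 * a * c < 0 := by
    have : (0 : ℤ) < d := by exact_mod_cast hd0
    linarith
  obtain ⟨ι, hι, S, w, hSd, hw0, hws, hF⟩ := stSys_68 d hd0
  have hSd' : (S.d : ℤ) = 4 * a * c - b ^ 2 := by rw [hSd, hd]
  obtain ⟨K, hK⟩ : ∃ K : ℕ, 2 * a * L = (K : ℤ) :=
    ⟨_, (Int.toNat_of_nonneg (by positivity)).symm⟩
  have hK0 : 0 < K := by
    have hh' : (0 : ℤ) < L := by exact_mod_cast hL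
    have : (0 : ℤ) < K := by rw [← hK]; positivity
    exact_mod_cast this
  have hWt : Wt S K (omX S w a b χ) := by
    apply stWt_68 ι S w
    · intro p hp h4 i
      rw [hSd] at h4
      exact hws p hp h4 i
    · exact hK0
    · intro x y z u v t
      rw [← hK]
      exact phX_per a b hχ.1 x y z u v t
  have hNull := hN ι S hSd K hK0 _ hWt M
  set U := kerLW S w1 w2 (vslot a o1) (vslot a o2) (omX S w a b χ) with hUd
  have hbd : ∃ C : ℝ, ∀ i v v', ‖U i v v'‖ ≤ C := by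
    refine ⟨1, fun i v v' => ?_⟩
    rw [hUd]
    unfold kerLW gw
    refine AS.N64.le3 ?_ zero_le_one (hw1 _) (hw2 _)
    unfold omX
    rw [norm_mul]
    have h1 : ‖(1 / (w i : ℂ))‖ ≤ 1 := by
      rw [norm_div, norm_one, Complex.norm_natCast]
      have : (1 : ℝ) ≤ w i := by exact_mod_cast hw0 i
      rw [div_le_one (by linarith)]
      exact this
    have h2 := norm_phX a b hχ.2 ((S.Q i).q v) ((S.Q i).B v v') ((S.Q i).q v')
    calc _ ≤ (1 : ℝ) * 1 := mul_le_mul h1 h2 (norm_nonneg _) zero_le_one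
      _ = 1 := one_mul 1
  let T0 : ℕ := b.natAbs + 1
  have hT1 : 0 < T0 := Nat.succ_pos _
  have hT0 : |b| ≤ T0 := by
    simp only [T0]
    push_cast
    rw [Int.abs_eq_natAbs]
    linarith
  obtain ⟨hB, hE⟩ := hFm M ι S.Q S.pos _ hbd hNull a b α β ha hα hβ T0 hT1
  let X : ℕ → ℕ → ℂ := fun t d =>
    χ (a * (fv a b c t / d)) * (w1 (wslot a b c t d o1) * w2 (wslot a b c t d o2))
  have hid : ∀ N : ℕ, ∑ i, ∑ f ∈ FG (S.Q i) a b α β T0 N, U i f.1 f.2 =
      ∑ t ∈ (Finset.Icc T0 N).filter (fun t => t ≡ 0 [MOD 1]),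
        ∑ d ∈ nearG a b c α β t, X t d := by
    intro N
    refine main_idX ha hD S hSd' w (fun F hP hFD => (hF F hP (by rw [hFD, hSd])).2) U X hα
      hβ.le hT0 hT1 ?_ ?_
    · intro i f hn
      rw [hUd]
      unfold kerLW omX phX phi
      rw [if_neg hn]
      ring
    · intro i t ht hth d' hd' f hf
      have hb := backward ha hD (S.pos i) hα hβ.le hT0 ht hth hd' hf
      have hdv := ((mem_near ha hD).1 hd').1
      have hd'0 : d' ≠ 0 := by
        rintro rfl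
        have h4 := (S.pos i).q_pos (F64.ne_zero_of_wd hf.1)
        rw [hf.2.1] at h4
        simp at h4
      have hphi : phX a b χ ((S.Q i).q f.1) ((S.Q i).B f.1 f.2) ((S.Q i).q f.2) =
          χ (a * (fv a b c t / d')) := by
        unfold phX phi
        rw [if_pos hb.2.1, hf.2.2.2, one_mul]
      rw [hUd]
      show omX S w a b χ i f.1 f.2 * _ * _ = _
      unfold omX
      rw [hphi, slot ha w1 hd'0 hdv hf, slot ha w2 hd'0 hdv hf]
      simp only [X]
      ring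
  -- comparison
  let G : ℕ → ℂ := fun t => ∑ d ∈ nearG a b c α β t, X t d
  let C1 : ℝ := ∑ t ∈ Finset.Icc 1 (T0 - 1), ‖G t‖
  have hC1 : 0 ≤ C1 := Finset.sum_nonneg (fun _ _ => norm_nonneg _)
  have hcmp : ∀ N : ℕ, ‖TwX a b c α β χ w1 w2 o1 o2 N‖ ≤ C1 +
      ‖∑ i, ∑ f ∈ FG (S.Q i) a b α β T0 N, U i f.1 f.2‖ := by
    intro N
    have hid2 : ∑ i, ∑ f ∈ FG (S.Q i) a b α β T0 N, U i f.1 f.2 =
        ∑ t ∈ (Finset.Icc T0 N).filter (fun t => t ≡ 0 [MOD 1]), G t := hid N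
    rw [hid2]
    have hsub : (Finset.Icc 1 N).filter (fun t => t ≡ 0 [MOD 1]) =
        ((Finset.Icc 1 N).filter (fun t => t ≡ 0 [MOD 1])).filter (fun t => t < T0) ∪
        (Finset.Icc T0 N).filter (fun t => t ≡ 0 [MOD 1]) := by
      ext t
      rw [Finset.mem_union, Finset.mem_filter, Finset.mem_filter, Finset.mem_filter,
        Finset.mem_filter, Finset.mem_Icc, Finset.mem_Icc]
      constructor
      · rintro ⟨h1, h2⟩
        by_cases h3 : t < T0
        · exact Or.inl ⟨⟨h1, h2⟩, h3⟩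
        · exact Or.inr ⟨⟨by omega, h1.2⟩, h2⟩
      · rintro (h1 | h1)
        · exact h1.1
        · exact ⟨⟨by omega, h1.1.2⟩, h1.2⟩
    have hdis : Disjoint
        (((Finset.Icc 1 N).filter (fun t => t ≡ 0 [MOD 1])).filter (fun t => t < T0))
        ((Finset.Icc T0 N).filter (fun t => t ≡ 0 [MOD 1])) := by
      rw [Finset.disjoint_left]
      intro t h1 h2
      rw [Finset.mem_filter] at h1
      rw [Finset.mem_filter, Finset.mem_Icc] at h2
      omega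
    have e1 : TwX a b c α β χ w1 w2 o1 o2 N =
        ∑ t ∈ ((Finset.Icc 1 N).filter (fun t => t ≡ 0 [MOD 1])).filter (fun t => t < T0), G t +
        ∑ t ∈ (Finset.Icc T0 N).filter (fun t => t ≡ 0 [MOD 1]), G t := by
      rw [← Finset.sum_union hdis, ← hsub]
      exact TwX_eq a b c α β χ w1 w2 o1 o2 N
    rw [e1]
    refine (norm_add_le _ _).trans (add_le_add ?_ le_rfl)
    refine (norm_sum_le _ _).trans ?_
    apply Finset.sum_le_sum_of_subset_of_nonneg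
    · intro t ht
      rw [Finset.mem_filter, Finset.mem_filter, Finset.mem_Icc] at ht
      rw [Finset.mem_Icc]
      omega
    · intro t _ _
      exact norm_nonneg _
  have hle : ∀ N : ℕ, ‖TwX a b c α β χ w1 w2 o1 o2 N‖ / N ≤ C1 / N +
      ‖∑ i, ∑ f ∈ FG (S.Q i) a b α β T0 N, U i f.1 f.2‖ / N := by
    intro N
    rw [← add_div]
    exact div_le_div_of_nonneg_right (hcmp N) (Nat.cast_nonneg N)
  have hr0 : Tendsto (fun N : ℕ => C1 / (N : ℝ)) atTop (𝓝 0) :=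
    tendsto_const_div_atTop_nhds_zero_nat C1
  have hrB : Bdd (fun N : ℕ => C1 / (N : ℝ)) := by
    refine ⟨C1, fun N => ?_⟩
    rw [abs_of_nonneg (by positivity)]
    rcases Nat.eq_zero_or_pos N with h0 | h0
    · rw [h0]; simpa using hC1
    · apply div_le_self hC1
      exact_mod_cast h0
  have hfB : Bdd (fun N : ℕ => ‖TwX a b c α β χ w1 w2 o1 o2 N‖ / N) := by
    obtain ⟨C, hC⟩ := hB
    obtain ⟨C', hC'⟩ := hrB
    refine ⟨C' + C, fun N => ?_⟩
    rw [abs_of_nonneg (by positivity)]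
    exact (hle N).trans (add_le_add ((le_abs_self _).trans (hC' N))
      ((le_abs_self _).trans (hC N)))
  apply le_antisymm
  · calc M.E (fun N : ℕ => ‖TwX a b c α β χ w1 w2 o1 o2 N‖ / N)
        ≤ M.E (fun N : ℕ => C1 / (N : ℝ) +
          ‖∑ i, ∑ f ∈ FG (S.Q i) a b α β T0 N, U i f.1 f.2‖ / N) :=
          LMean.mono M hfB (Bdd.add hrB hB) hle
      _ = 0 := by
          rw [M.add _ _ hrB hB, M.null _ hrB hr0, hE, add_zero]
  · exact M.nonneg _ hfB (fun N => by positivity)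

theorem TwX_swap (a b c : ℤ) (α β : ℝ) (χ : ℤ → ℂ) (w1 w2 : ℕ → ℂ) (o1 o2 : Option ℕ)
    (N : ℕ) : TwX a b c α β χ w1 w2 o1 o2 N = TwX a b c α β χ w2 w1 o2 o1 N := by
  unfold TwX
  exact Finset.sum_congr rfl fun t _ => Finset.sum_congr rfl fun d _ => by rw [mul_comm (w1 _)]

end X64

open X64 in
/-- (X1) the twisted sums of two weights at two different slots with a periodic weight vanish in
mean -/
theorem stTwX_64 (hN : StNullLW) (hFm : StFm) : StTwX := by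
  intro a b c d ha hd0 hd w1 w2 hw1 hw2 hA hB α β hα hβ L hL χ hχ o1 o2 ho M
  rcases SP.TwP27.adm ha ho with hAd | hAd
  · exact core hFm a b c d ha hd0 hd w1 w2 hw1 hw2 o1 o2
      (fun ι _ S hS K hK om hom M => hN d hd0 w1 w2 hw1 hw2 hA ι S hS
        _ _ hAd K hK om hom M) L hL χ hχ α β hα hβ M
  · have h1 := core hFm a b c d ha hd0 hd w2 w1 hw2 hw1 o2 o1
      (fun ι _ S hS K hK om hom M => hN d hd0 w2 w1 hw2 hw1 hB ι S hS
        _ _ hAd K hK om hom M) L hL χ hχ α β hα hβ M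
    have h2 : (fun N : ℕ => ‖TwX a b c α β χ w1 w2 o1 o2 N‖ / N) =
        fun N : ℕ => ‖TwX a b c α β χ w2 w1 o2 o1 N‖ / N := by
      funext N
      rw [TwX_swap]
    rw [h2]
    exact h1

end Pool.Agent.Lib.MP_a17b09_nt.QT
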