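import Pool.Agent.Lib.MP_a17b09_nt.AN.SAll3
import Pool.Agent.Lib.MP_a17b09_nt.AN.SLaw_11
import Pool.Agent.Lib.MP_a17b09_nt.QT.EvX_53
import Pool.Agent.Lib.MP_a17b09_nt.QT.TwX_64
import Pool.Agent.Lib.MP_a17b09_nt.QT.TwXH_42
import Pool.Agent.Lib.MP_a17b09_nt.QT.Kap_3
import Pool.Agent.Lib.MP_a17b09_nt.QT.Rho_11
import Pool.Agent.Lib.MP_a17b09_nt.QT.TkR_11
import Pool.Agent.Lib.MP_a17b09_nt.QT.Mass_64
import Pool.Agent.Lib.MP_a17b09_nt.QT.Tr_64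
import Pool.Agent.Lib.MP_a17b09_nt.QT.Kat0_3
import Pool.Agent.Lib.MP_a17b09_nt.QT.Fin_98
import Pool.Agent.Lib.MP_a17b09_nt.QT.Fin2_98

/-!
# Project QT (MP_a17b09): assembly up to Katai's argument (helper64)
-/

set_option autoImplicit false

open Filter Topology Finset

namespace Pool.Agent.Lib.MP_a17b09_nt.QT

open CH CH.PE HY SP
open AN (Ev Dens)
open AS.L11 (Ev0 ev0_is ev0_ok ev0_dens)

theorem stTwX_all64 : StTwX := stTwX_64 AS.stNullLW_all3 F64.stFm_all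

theorem stTwXH_all64 : StTwXH := stTwXH_42 AS.stHNullLW_all3 TopH20.hFm

theorem stEvX_all64 : StEvX := stEvX_53 stTwX_all64 stTwXH_all64 AS.stInW_all3 AS.stInHW_all3
  (fun d _ => AN.stGA_all98 d) (fun d _ => AN.stGAH_all98 d)

theorem stTkR_all64 : StTkR := stTkR_11 stRho_11

theorem stKat0_all64 : StKat0 := stKat0_3 stTkR_all64 stTr_64

/-- the twisted sums of two powers for two different slots with a periodic weight -/
theorem tw_all64 (a b c : ℤ) (ha : 0 < a) (hns : ¬ IsSquare (b ^ 2 - 4 * a * c)) (z1 z2 : ℂ)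
    (k : ℕ) (hk : 0 < k) (h1 : z1 ^ k = 1) (h2 : z2 ^ k = 1) (hz : z1 ≠ 1 ∨ z2 ≠ 1) :
    TwNullX a b c (fun n => z1 ^ Omn n) (fun n => z2 ^ Omn n) := by
  have h := (stEvX_all64 a b c ha hns Ev0 Ev0 1 1 ev0_ok ev0_ok ev0_dens ev0_dens).1 z1 z2 k hk
    h1 h2 hz
  have e : ∀ z : ℂ, AN.wz z Ev0.Is = fun n => z ^ Omn n := by
    intro z
    funext n
    unfold AN.wz AN.ind
    rw [if_pos (ev0_is n), mul_one]
  rw [e z1, e z2] at h
  exact h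

theorem fv_ne64 {a b c : ℤ} (hns : ¬ IsSquare (b ^ 2 - 4 * a * c)) (t : ℕ) : fv a b c t ≠ 0 :=
  AS.fv_ne hns t

/-- `Ω d` for most `t` -/
theorem quen0_all64 (a b c : ℤ) (ha : 0 < a) (hns : ¬ IsSquare (b ^ 2 - 4 * a * c)) :
    Quen0 a b c := by
  obtain ⟨κ, hκ⟩ := stKap_3 a b c ha hns
  exact stKat0_all64 a b c ha (fv_ne64 hns) κ hκ (fun X => stMass_64 a b c ha hns X)

/-- the values for most `t` (from `StKat`) -/
theorem quen_64 (hK : StKat) (a b c : ℤ) (ha : 0 < a) (hns : ¬ IsSquare (b ^ 2 - 4 * a * c)) :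
    Quen a b c := by
  obtain ⟨κ, hκ⟩ := stKap_3 a b c ha hns
  exact hK a b c ha (fv_ne64 hns) κ hκ (fun X => stMass_64 a b c ha hns X)
    (fun z1 z2 k hk h1 h2 hz => tw_all64 a b c ha hns z1 z2 k hk h1 h2 hz)

end Pool.Agent.Lib.MP_a17b09_nt.QT
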