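import Pool.Agent.Lib.MP_a17b09_nt.QT.ThreeG_3
import Pool.Agent.Lib.MP_a17b09_nt.QT.All_64
import Pool.Agent.Lib.MP_a17b09_nt.QT.Kat_99

/-!
# Project QT (MP_a17b09), stage 3: assembly (helper3)
-/

set_option autoImplicit false

open Filter Topology Finset

namespace Pool.Agent.Lib.MP_a17b09_nt.QT

open CH CH.PE HY SP
open PQ (B1)
open AN (Ev ind wz wd Dens Ty Nd StOk StDen)
open AS (wslot cf LawTy)
open SPH (vl)
open AS.L11 (Ev0 ev0_is ev0_ok ev0_dens)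

/-- the law of pairs for all windows, no hypotheses -/
theorem pair1_all3 (a b c : ℤ) (ha : 0 < a) (hns : ¬ IsSquare (b ^ 2 - 4 * a * c)) :
    Pair1 a b c := by
  intro α β hα hαβ
  obtain ⟨κ, h1, h2, h3, -⟩ := AS.shortT_all3 a b c ha hns 1 0 one_pos α β hα hαβ
  exact ⟨κ, h1, h2, h3⟩

theorem b1_wz {z : ℂ} (hz : ‖z‖ = 1) (P : ℕ → Prop) : B1 (wz z P) := by
  intro n
  unfold AN.wz AN.ind
  rw [norm_mul, norm_pow, hz, one_pow, one_mul]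
  split_ifs <;> simp

theorem b1_wd {δ : ℝ} (h0 : 0 ≤ δ) (h1 : δ ≤ 1) (P : ℕ → Prop) : B1 (wd δ P) := by
  intro n
  unfold AN.wd AN.ind
  split_ifs
  · rw [show (1 : ℂ) - (δ : ℂ) = ((1 - δ : ℝ) : ℂ) by push_cast; ring, Complex.norm_real,
      Real.norm_of_nonneg (by linarith)]
    linarith
  · rw [zero_sub, norm_neg, Complex.norm_real, Real.norm_of_nonneg h0]
    exact h1

/-- the conjugate of `wz z` -/
theorem conj_wz {z : ℂ} (hz : ‖z‖ = 1) (P : ℕ → Prop) :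
    (fun n => (starRingEnd ℂ) (wz z P n)) = wz z⁻¹ P := by
  funext n
  unfold AN.wz AN.ind
  rw [map_mul, map_pow, Complex.inv_def, Complex.normSq_eq_norm_sq, hz]
  split_ifs <;> simp

theorem conj_wd (δ : ℝ) (P : ℕ → Prop) :
    (fun n => (starRingEnd ℂ) (wd δ P n)) = wd δ P := by
  funext n
  unfold AN.wd AN.ind
  rw [map_sub, Complex.conj_ofReal]
  split_ifs <;> simp

/-- `TwX` is linear in the second weight -/
theorem twX_sub (a b c : ℤ) (α β : ℝ) (χ : ℤ → ℂ) (w1 w2 w3 : ℕ → ℂ) (x : ℂ)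
    (o1 o2 : Option ℕ) (N : ℕ) : TwX a b c α β χ w1 (fun n => w2 n - x * w3 n) o1 o2 N =
      TwX a b c α β χ w1 w2 o1 o2 N - x * TwX a b c α β χ w1 w3 o1 o2 N := by
  unfold TwX
  rw [Finset.mul_sum, ← Finset.sum_sub_distrib]
  refine Finset.sum_congr rfl fun t _ => ?_
  rw [Finset.mul_sum, ← Finset.sum_sub_distrib]
  refine Finset.sum_congr rfl fun d _ => ?_
  ring

theorem twx_bdd3 {a b c : ℤ} {κ : ℝ} (hK : Kap a b c κ) {w1 w2 : ℕ → ℂ}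
    (b1 : ∀ n, ‖w1 n‖ ≤ 1) (b2 : ∀ n, ‖w2 n‖ ≤ 1) {α β : ℝ} (h0 : 0 < α) (h1 : α < β)
    {χ : ℤ → ℂ} (hχ : ∀ x, ‖χ x‖ ≤ 1) (o1 o2 : Option ℕ) :
    Bdd (fun N : ℕ => ‖TwX a b c α β χ w1 w2 o1 o2 N‖ / N) := by
  obtain ⟨C, hC⟩ := K99.bdd_near hK h0 h1
  have hle : ∀ N : ℕ, ‖TwX a b c α β χ w1 w2 o1 o2 N‖ ≤
      ∑ t ∈ Finset.Icc 1 N, ((nearG a b c α β t).card : ℝ) := by
    intro N
    unfold TwX
    refine (norm_sum_le _ _).trans (Finset.sum_le_sum fun t _ => ?_)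
    refine (norm_sum_le _ _).trans ?_
    rw [← nsmul_one, ← Finset.sum_const]
    refine Finset.sum_le_sum fun d _ => ?_
    rw [norm_mul, norm_mul]
    exact mul_le_one₀ (hχ _) (by positivity) (mul_le_one₀ (b1 _) (norm_nonneg _) (b2 _))
  refine ⟨|C|, fun N => ?_⟩
  rw [abs_of_nonneg (div_nonneg (norm_nonneg _) (Nat.cast_nonneg N))]
  rcases Nat.eq_zero_or_pos N with h2 | h2
  · subst h2
    simp
  · have hN : (0 : ℝ) < N := by exact_mod_cast h2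
    rw [div_le_iff₀ hN]
    exact (hle N).trans ((hC N).trans (mul_le_mul_of_nonneg_right (le_abs_self C) hN.le))

theorem twNullX_sub {a b c : ℤ} {κ : ℝ} (hK : Kap a b c κ) {w1 w2 w3 : ℕ → ℂ} {x : ℂ}
    (b1 : ∀ n, ‖w1 n‖ ≤ 1) (b2 : ∀ n, ‖w2 n‖ ≤ 1) (b3 : ∀ n, ‖w3 n‖ ≤ 1)
    (b4 : ∀ n, ‖w2 n - x * w3 n‖ ≤ 1) (h2 : TwNullX a b c w1 w2) (h3 : TwNullX a b c w1 w3) :
    TwNullX a b c w1 (fun n => w2 n - x * w3 n) := by
  intro α β hα hαβ L hL χ hχ o1 o2 ho M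
  have B2 := twx_bdd3 hK b1 b2 hα hαβ hχ.2 o1 o2
  have B3 := twx_bdd3 hK b1 b3 hα hαβ hχ.2 o1 o2
  have B4 := twx_bdd3 hK b1 b4 hα hαβ hχ.2 o1 o2
  have e2 := h2 α β hα hαβ L hL χ hχ o1 o2 ho M
  have e3 := h3 α β hα hαβ L hL χ hχ o1 o2 ho M
  have h5 : M.E (fun N : ℕ => ‖TwX a b c α β χ w1 (fun n => w2 n - x * w3 n) o1 o2 N‖ / N) ≤
      M.E (fun N : ℕ => ‖TwX a b c α β χ w1 w2 o1 o2 N‖ / N +
        ‖x‖ * (‖TwX a b c α β χ w1 w3 o1 o2 N‖ / N)) := by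
    refine LMean.mono M B4 (Bdd.add B2 (Bdd.smul ‖x‖ B3)) fun N => ?_
    rw [twX_sub]
    have h6 : ‖TwX a b c α β χ w1 w2 o1 o2 N - x * TwX a b c α β χ w1 w3 o1 o2 N‖ ≤
        ‖TwX a b c α β χ w1 w2 o1 o2 N‖ + ‖x‖ * ‖TwX a b c α β χ w1 w3 o1 o2 N‖ := by
      rw [← norm_mul]
      exact norm_sub_le _ _
    calc ‖TwX a b c α β χ w1 w2 o1 o2 N - x * TwX a b c α β χ w1 w3 o1 o2 N‖ / (N : ℝ) ≤
          (‖TwX a b c α β χ w1 w2 o1 o2 N‖ + ‖x‖ * ‖TwX a b c α β χ w1 w3 o1 o2 N‖) / N :=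
        div_le_div_of_nonneg_right h6 (Nat.cast_nonneg N)
      _ = _ := by ring
  rw [M.add _ _ B2 (Bdd.smul ‖x‖ B3), M.smul _ _ B3, e2, e3, mul_zero, add_zero] at h5
  exact le_antisymm h5 (M.nonneg _ B4 fun N => by positivity)

/-- the twisted sums of the weight `ind E - δ` -/
theorem tw_wd {a b c : ℤ} (ha : 0 < a) (hns : ¬ IsSquare (b ^ 2 - 4 * a * c)) {E : Ev} {δ : ℝ}
    (hE : E.Ok) (hD : Dens E δ) : TwNullX a b c (wd δ E.Is) (wd δ E.Is) := by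
  obtain ⟨κ, hκ⟩ := stKap_3 a b c ha hns
  have h1 := (stEvX_all64 a b c ha hns E E δ δ hE hE hD hD).2.1
  have h2 := (stEvX_all64 a b c ha hns E Ev0 δ 1 hE ev0_ok hD ev0_dens).2.1
  have hb := b1_wd hD.1 hD.2.1 E.Is
  have hi : ∀ P : ℕ → Prop, ∀ n, ‖ind P n‖ ≤ 1 := by
    intro P n
    unfold AN.ind
    split_ifs <;> simp
  have e : (wd δ E.Is : ℕ → ℂ) = fun n => ind E.Is n - (δ : ℂ) * ind Ev0.Is n := by
    funext n
    rw [AS.L11.ind_ev0, mul_one]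
    rfl
  have h3 := twNullX_sub (x := (δ : ℂ)) hκ hb (hi E.Is) (hi Ev0.Is)
    (fun n => by
      have := hb n
      rw [e] at this
      exact this) h1 h2
  rw [← e] at h3
  exact h3

/-- the weights of all events, with a fixed stable weight of the pair -/
theorem quenEG_3 (hKG : StKatG) (hDE : StDilE) (a b c : ℤ) (ha : 0 < a)
    (hns : ¬ IsSquare (b ^ 2 - 4 * a * c)) (g : ℕ → ℕ → ℂ) (hg : ∀ t d, ‖g t d‖ ≤ 1)
    (hD : ∀ p : ℕ, Spl a b c p → DilG a b c g p) : QuenEG a b c g := by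
  intro E δ hE hδ
  obtain ⟨κ, hκ⟩ := stKap_3 a b c ha hns
  have hf := fv_ne64 hns
  have hm := fun X => stMass_64 a b c ha hns X
  have hde := hDE AN.stOk_18 AN.stDen_all98 a b c ha hf (pair1_all3 a b c ha hns) E δ hE hδ
  refine ⟨fun z k hk hz hz1 => ?_, ?_⟩
  · have n1 : ‖z‖ = 1 := Complex.norm_eq_one_of_pow_eq_one hz hk.ne'
    refine hKG a b c ha hf κ hκ hm _ (b1_wz n1 E.Is) g hg hD ?_ fun p hp =>
      ⟨z⁻¹, by rw [norm_inv, n1, inv_one], (hde p hp.1).1 z n1⟩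
    rw [conj_wz n1]
    exact (stEvX_all64 a b c ha hns E E δ δ hE hE hδ hδ).1 z z⁻¹ k hk hz
      (by rw [inv_pow, hz, inv_one]) (Or.inl hz1)
  · refine hKG a b c ha hf κ hκ hm _ (b1_wd hδ.1 hδ.2.1 E.Is) g hg hD ?_ fun p hp =>
      ⟨1, by rw [norm_one], (hde p hp.1).2⟩
    rw [conj_wd]
    exact tw_wd ha hns hE hδ

/-- the weight of two types is bounded -/
theorem gT_le (a b c : ℤ) (T T' : ℕ → Prop) (t d : ℕ) : ‖gT a b c T T' t d‖ ≤ 1 := by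
  unfold gT AN.ind
  split_ifs <;> simp

/-- the law of the slot `j` for a type, with a fixed stable weight of the pair and every completely
multiplicative function of `d` -/
theorem lawG_3 (hKG : StKatG) (hDE : StDilE) (hFE : StFinEG) (hTG : StTypG) (a b c : ℤ)
    (ha : 0 < a) (hns : ¬ IsSquare (b ^ 2 - 4 * a * c)) (g : ℕ → ℕ → ℂ)
    (hg : ∀ t d, ‖g t d‖ ≤ 1) (hD : ∀ p : ℕ, Spl a b c p → DilG a b c g p) (m : ℕ)
    (u v : Fin m → ℝ) (S : Set (Fin m → ℕ)) (δ : ℝ) (hu : ∀ i, 0 < u i)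
    (hδ : Nd (Ty u v S) δ) : LawG a b c g (Ty u v S) δ := by
  obtain ⟨κ, hκ⟩ := stKap_3 a b c ha hns
  have hf := fv_ne64 hns
  have hQ := quenEG_3 hKG hDE a b c ha hns g hg hD
  exact hTG AN.stOk_18 AN.stDen_all98 a b c ha hf (pair1_all3 a b c ha hns) κ hκ g hg
    (fun E δ hE hδ k hk r => hFE a b c ha hf g hQ E δ hE hδ k hk r) m u v S δ hu hδ

/-- for most `t`: the slot `j` over the divisors near `t` with prescribed types -/
theorem condL_3 (hKG : StKatG) (hDE : StDilE) (hDG : StDilG) (hFE : StFinEG) (hTG : StTypG)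
    (hCL : StCondL) (a b c : ℤ) (ha : 0 < a) (hns : ¬ IsSquare (b ^ 2 - 4 * a * c))
    (m m' m'' : ℕ) (u v : Fin m → ℝ) (u' v' : Fin m' → ℝ) (u'' v'' : Fin m'' → ℝ)
    (S : Set (Fin m → ℕ)) (S' : Set (Fin m' → ℕ)) (S'' : Set (Fin m'' → ℕ)) (δ'' : ℝ)
    (hu : ∀ i, 0 < u i) (hu' : ∀ i, 0 < u' i) (hu'' : ∀ i, 0 < u'' i)
    (hδ : Nd (Ty u'' v'' S'') δ'') :
    CondL a b c (Ty u v S) (Ty u' v' S') (Ty u'' v'' S'') δ'' := by
  have hf := fv_ne64 hns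
  refine hCL a b c ha hf _ _ _ _ (lawG_3 hKG hDE hFE hTG a b c ha hns _ (gT_le a b c _ _)
    (fun p hp => ?_) m'' u'' v'' S'' δ'' hu'' hδ)
  exact hDG AN.stOk_18 AN.stDen_all98 a b c ha hf (pair1_all3 a b c ha hns) m m' u v u' v' S S'
    hu hu' p hp.1

/-- **three slots**: `d`, `|f t| / d`, `|f (t + j d)| / d` behave like independent integers -/
theorem three_3 (hKG : StKatG) (hDE : StDilE) (hDG : StDilG) (hFE : StFinEG) (hTG : StTypG)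
    (hCL : StCondL) (a b c : ℤ) (ha : 0 < a) (hns : ¬ IsSquare (b ^ 2 - 4 * a * c)) (κ : ℝ)
    (hκ : Kap a b c κ) : Three a b c κ :=
  stThree_3 a b c ha (fv_ne64 hns) κ hκ (pair1_all3 a b c ha hns)
    fun m m' m'' u v u' v' u'' v'' S S' S'' δ'' hu hu' hu'' hδ =>
      condL_3 hKG hDE hDG hFE hTG hCL a b c ha hns m m' m'' u v u' v' u'' v'' S S' S'' δ''
        hu hu' hu'' hδ

end Pool.Agent.Lib.MP_a17b09_nt.QT
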