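import Pool.Agent.Lib.MP_a17b09_nt.QT.StmtsT3
import Pool.Agent.Lib.MP_a17b09_nt.QT.Fin_98

/-!
Project QT, T3: the classes modulo `k` of the slot `j` for all events, by finite Fourier inversion.
-/

set_option autoImplicit false

open Filter Topology Finset

namespace Pool.Agent.Lib.MP_a17b09_nt.QT

open CH CH.PE HY SP
open AN (Ev ind wz wd Dens)
open AS (wslot cf)
open SPH (vl)

/-- finite linear combinations -/
theorem quenW_lin {a b c : ℤ} {ι : Type*} (s : Finset ι) (u : ι → ℂ) (w : ι → ℕ → ℂ)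
    (hu : ∑ i ∈ s, ‖u i‖ ≤ 1) (hw : ∀ i ∈ s, QuenW a b c (w i)) :
    QuenW a b c (fun n => ∑ i ∈ s, u i * w i n) := by
  classical
  intro j hj ε hε
  have hq : ∀ i ∈ s, ∃ B₀ : ℝ, 2 ≤ B₀ ∧ ∀ B : ℝ, B₀ ≤ B →
      LogNull {N : ℕ | ∃ h : ℕ → ℂ, CMul h ∧ ε * Real.log B * N < ∑ t ∈ Finset.Icc 1 N,
        ‖∑ d ∈ nearG a b c (1 / B) 1 t, h d * w i (wslot a b c t d (some j))‖} :=
    fun i hi => hw i hi j hj ε hε
  choose! B0 hB2 hB0 using hq
  have hsum : ∀ i ∈ s, B0 i ≤ ∑ i ∈ s, B0 i := fun p hp =>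
    single_le_sum (f := B0) (fun q hq => le_trans (by norm_num) (hB2 q hq)) hp
  have hpos : 0 ≤ ∑ i ∈ s, B0 i := sum_nonneg fun q hq => le_trans (by norm_num) (hB2 q hq)
  refine ⟨2 + ∑ i ∈ s, B0 i, by linarith, fun B hB => ?_⟩
  have hB1 : 2 ≤ B := by linarith
  have hlog : 0 ≤ Real.log B := Real.log_nonneg (by linarith)
  refine EndS.LogNull.mono (AN.Ty98.lognull_union s (fun i => {N : ℕ | ∃ h : ℕ → ℂ, CMul h ∧
    ε * Real.log B * N < ∑ t ∈ Finset.Icc 1 N,
      ‖∑ d ∈ nearG a b c (1 / B) 1 t, h d * w i (wslot a b c t d (some j))‖})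
    (fun i hi => hB0 i hi B (by linarith [hsum i hi]))) ?_
  rintro N ⟨h, hh, hN⟩
  by_contra hcon
  have h1 : ∀ i ∈ s, ∑ t ∈ Finset.Icc 1 N,
      ‖∑ d ∈ nearG a b c (1 / B) 1 t, h d * w i (wslot a b c t d (some j))‖ ≤
        ε * Real.log B * N := by
    intro i hi
    by_contra h'
    exact hcon ⟨i, hi, h, hh, not_le.1 h'⟩
  have h2 : ∑ t ∈ Finset.Icc 1 N, ‖∑ d ∈ nearG a b c (1 / B) 1 t,
      h d * ∑ i ∈ s, u i * w i (wslot a b c t d (some j))‖ ≤ ε * Real.log B * N := by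
    calc _ ≤ ∑ t ∈ Finset.Icc 1 N, ∑ i ∈ s, ‖u i‖ *
          ‖∑ d ∈ nearG a b c (1 / B) 1 t, h d * w i (wslot a b c t d (some j))‖ := by
          refine sum_le_sum fun t _ => ?_
          have h3 : ∑ d ∈ nearG a b c (1 / B) 1 t,
              h d * ∑ i ∈ s, u i * w i (wslot a b c t d (some j)) =
              ∑ i ∈ s, u i * ∑ d ∈ nearG a b c (1 / B) 1 t,
                h d * w i (wslot a b c t d (some j)) := by
            simp only [mul_sum]
            rw [sum_comm]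
            exact sum_congr rfl fun i _ => sum_congr rfl fun d _ => by ring
          rw [h3]
          refine (norm_sum_le _ _).trans (le_of_eq (sum_congr rfl fun i _ => norm_mul _ _))
      _ = ∑ i ∈ s, ‖u i‖ * ∑ t ∈ Finset.Icc 1 N,
          ‖∑ d ∈ nearG a b c (1 / B) 1 t, h d * w i (wslot a b c t d (some j))‖ := by
          rw [sum_comm]
          exact sum_congr rfl fun i _ => (mul_sum _ _ _).symm
      _ ≤ ∑ i ∈ s, ‖u i‖ * (ε * Real.log B * N) :=
          sum_le_sum fun i hi => mul_le_mul_of_nonneg_left (h1 i hi) (norm_nonneg _)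
      _ = (∑ i ∈ s, ‖u i‖) * (ε * Real.log B * N) := (sum_mul _ _ _).symm
      _ ≤ 1 * (ε * Real.log B * N) :=
          mul_le_mul_of_nonneg_right hu (by positivity)
      _ = ε * Real.log B * N := one_mul _
  exact absurd hN (not_lt.2 h2)

namespace Fin98

/-- the indicator of a class and an event, by Fourier inversion -/
theorem iT_eq (T : ℕ → Prop) (δ : ℝ) {z : ℂ} {k : ℕ} (hk : 0 < k) (hz : IsPrimitiveRoot z k)
    (r n : ℕ) : iT T δ k r n = ∑ i ∈ range k, ((z⁻¹ ^ i) ^ r / k) *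
      (if i = 0 then wd δ T n else wz (z ^ i) T n) := by
  classical
  have hk0 : (k : ℂ) ≠ 0 := by exact_mod_cast hk.ne'
  have h1 : ∀ i ∈ range k, ((z⁻¹ ^ i) ^ r / k) *
      (if i = 0 then wd δ T n else wz (z ^ i) T n) =
      (1 / (k : ℂ)) * ind T n * ((z ^ i) ^ Omn n * (z⁻¹ ^ i) ^ r) -
        (if i = 0 then (δ : ℂ) / k else 0) := by
    intro i _
    by_cases hi : i = 0
    · subst hi
      rw [if_pos rfl, if_pos rfl]
      unfold AN.wd
      simp only [pow_zero, one_pow]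
      ring
    · rw [if_neg hi, if_neg hi]
      unfold AN.wz
      ring
  rw [sum_congr rfl h1, sum_sub_distrib, ← mul_sum, Inv22.ind hk hz, sum_ite_eq',
    if_pos (mem_range.2 hk)]
  unfold iT AN.ind
  by_cases h2 : T n
  · by_cases h3 : Omn n ≡ r [MOD k]
    · rw [if_pos ⟨h2, h3⟩, if_pos h2, if_pos h3]
      field_simp
    · rw [if_neg (fun h => h3 h.2), if_pos h2, if_neg h3]
      ring
  · rw [if_neg (fun h => h2 h.1), if_neg h2]
    ring

end Fin98

open Fin98 in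
/-- T3 -/
theorem stFinE_98 : StFinE := by
  classical
  intro a b c _ _ hQ E δ hE hD k hk r
  obtain ⟨z, hz⟩ : ∃ z : ℂ, IsPrimitiveRoot z k :=
    ⟨_, Complex.isPrimitiveRoot_exp k hk.ne'⟩
  have hk0 : (0 : ℝ) < k := by exact_mod_cast hk
  have hn : ‖z‖ = 1 := hz.norm'_eq_one hk.ne'
  obtain ⟨h1, h2⟩ := hQ E δ hE hD
  have h3 : iT E.Is δ k r = fun n => ∑ i ∈ range k, ((z⁻¹ ^ i) ^ r / k) *
      (fun i n => if i = 0 then wd δ E.Is n else wz (z ^ i) E.Is n) i n := by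
    funext n
    exact iT_eq E.Is δ hk hz r n
  rw [h3]
  refine quenW_lin (range k) (fun i => (z⁻¹ ^ i) ^ r / k)
    (fun i n => if i = 0 then wd δ E.Is n else wz (z ^ i) E.Is n) (le_of_eq ?_) ?_
  · have h4 : ∀ i ∈ range k, ‖(z⁻¹ ^ i) ^ r / (k : ℂ)‖ = 1 / k := by
      intro i _
      rw [norm_div, norm_pow, norm_pow, norm_inv, hn, inv_one, one_pow, one_pow,
        Complex.norm_natCast]
    rw [sum_congr rfl h4, sum_const, card_range, nsmul_eq_mul]
    field_simp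
  · intro i hi
    by_cases h5 : i = 0
    · simpa only [if_pos h5] using h2
    · simp only [if_neg h5]
      refine h1 (z ^ i) k hk ?_ ?_
      · rw [← pow_mul, Nat.mul_comm, pow_mul, hz.pow_eq_one, one_pow]
      · intro h6
        exact h5 (Nat.eq_zero_of_dvd_of_lt (hz.dvd_of_pow_eq_one i h6) (mem_range.1 hi))

end Pool.Agent.Lib.MP_a17b09_nt.QT
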