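import Pool.Agent.Lib.MP_a17b09_nt.QT.StmtsM99
import Pool.Agent.Lib.MP_a17b09_nt.QT.TypH_64

/-!
# Project QT (MP_a17b09), upgrade M: fork of `TypG_64` for all multiplicative functions of `d`
(helper99)
-/

set_option autoImplicit false

open Filter Topology Finset

namespace Pool.Agent.Lib.MP_a17b09_nt.QT

open CH CH.PE HY SP
open PQ (B1)
open AN (Ev Dens Ty Nd StOk StDen cntN)
open AN.Ty98 (box mem_box is_iff ty_iff ind_ty nd_ty lognull_union pc_sum exists_ok exists_nd)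
open AS (wslot cf LawTy)
open AS.Ty3 (cf_large cf_pos near_mem nd_triv)

open TH64 in
/-- (G4) types, and without the factor `a` -/
theorem stTypM_99 : StTypM := by
  classical
  intro hOk hDen a b c ha hf hLaw κ hK g hg hQ m u v S δ hu hδ k hk j hj ε hε
  choose E D hE hD hi hN using fun c => exists_ok hOk hDen v hu c
  set G := (box u).filter (fun c => c ∈ S) with hG
  have eδ : δ = ∑ c ∈ G, D c := tendsto_nhds_unique hδ (nd_ty hu S D hN)
  have hA1 : 1 ≤ a.natAbs := Int.natAbs_pos.2 ha.ne'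
  set A := a.natAbs with hA
  have hGc : (0 : ℝ) < (G.card : ℝ) + 1 := by positivity
  set e1 : ℝ := ε / (2 * ((G.card : ℝ) + 1)) with he1
  have he10 : 0 < e1 := by positivity
  have hq : ∀ i : (Fin m → ℕ) × ℕ, ∃ B₀ : ℝ, 2 ≤ B₀ ∧ ∀ B : ℝ, B₀ ≤ B →
      LogNull {N : ℕ | ∃ h : ℕ → ℂ, MulB h ∧ e1 * Real.log B * N < ∑ t ∈ Finset.Icc 1 N,
        ‖∑ d ∈ nearG a b c (1 / B) 1 t, h d * g t d * iT (E i.1).Is (D i.1) k i.2
          (wslot a b c t d (some j))‖} := fun i =>
    hQ (E i.1) (D i.1) (hE i.1) (hD i.1) k hk i.2 j hj e1 he10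
  choose B1 hB12 hB1 using hq
  set G2 := G ×ˢ Finset.range k with hG2
  refine ⟨2 + ∑ i ∈ G2, B1 i, ?_, fun B hB => ?_⟩
  · have : 0 ≤ ∑ i ∈ G2, B1 i := Finset.sum_nonneg fun i _ => by linarith [hB12 i]
    linarith
  have hB2 : 2 ≤ B := by
    have : 0 ≤ ∑ i ∈ G2, B1 i := Finset.sum_nonneg fun i _ => by linarith [hB12 i]
    linarith
  have hB0 : 0 < B := by linarith
  have hlB : 0 < Real.log B := Real.log_pos (by linarith)
  have hBi : ∀ i ∈ G2, B1 i ≤ B := by
    intro i hi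
    have := Finset.single_le_sum (f := B1) (fun i _ => by linarith [hB12 i]) hi
    linarith
  -- the pairs for which the type changes
  have hα : (0 : ℝ) < 1 / B := by positivity
  have hαβ : 1 / B < 1 := by
    rw [div_lt_one hB0]
    linarith
  obtain ⟨κ', hκ', hlim, hL⟩ := hLaw (1 / B) 1 hα hαβ
  have hN1 : ∀ (m : ℕ) (u v : Fin m → ℝ) (S : Set (Fin m → ℕ)) (δ : ℝ),
      (∀ i, 0 < u i) → Nd (Ty u v S) δ → ∀ ε : ℝ, 0 < ε → LogNull {N : ℕ | ε * N <
      |(pairCount a b c 1 0 (1 / B) 1 (fun t d => Ty u v S (cf a b c t d j)) N : ℝ)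
        - δ * κ' * N|} := by
    intro m u v S δ hu hδ ε hε
    have h1 := (hL 0 m (fun i : Fin 0 => i.elim0) (fun i : Fin 0 => i.elim0) u v
      Set.univ S 1 δ (fun i => i.elim0) hu nd_triv hδ 1 one_pos 0 0 ε hε).1 j
    refine EndS.LogNull.mono h1 fun N hN => ?_
    simp only [Set.mem_ofPred_eq] at hN ⊢
    have e1 : (fun t d => Ty (fun i : Fin 0 => i.elim0) (fun i : Fin 0 => i.elim0) Set.univ d ∧
        Ty u v S (cf a b c t d j) ∧
        ArithmeticFunction.cardFactors d ≡ 0 [MOD 1] ∧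
        ArithmeticFunction.cardFactors (cf a b c t d j) ≡ 0 [MOD 1]) =
        fun t d => Ty u v S (cf a b c t d j) := by
      funext t d
      apply propext
      constructor
      · exact fun h => h.2.1
      · exact fun h => ⟨by simp [Ty], h, Nat.modEq_one, Nat.modEq_one⟩
    rw [e1]
    have e2 : 1 * δ * κ' / ((1 : ℕ) : ℝ) ^ 2 * (N : ℝ) = δ * κ' * N := by
      push_cast
      ring
    rw [e2]
    exact hN
  have hfew := few (h := 1) (t₀ := 0) hOk hDen hf hA1 hκ' (cf_large ha one_pos j) hN1 u v hu S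
    (show 0 < ε / 2 * Real.log B by positivity)
  have hU : LogNull ({N | ∃ i ∈ G2, N ∈ {N : ℕ | ∃ h : ℕ → ℂ, MulB h ∧ e1 * Real.log B * N <
      ∑ t ∈ Finset.Icc 1 N, ‖∑ d ∈ nearG a b c (1 / B) 1 t, h d * g t d * iT (E i.1).Is (D i.1) k i.2
          (wslot a b c t d (some j))‖}} ∪ {N : ℕ | ε / 2 * Real.log B * N <
      (pairCount a b c 1 0 (1 / B) 1 (fun t d =>
        ¬ (Ty u v S (cf a b c t d j) ↔ Ty u v S (A * cf a b c t d j))) N : ℝ)}) :=
    AS.T11.null_union (lognull_union _ _ fun i hi => hB1 i B (hBi i hi)) hfew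
  refine EndS.LogNull.mono hU fun N hN => ?_
  by_contra hno
  rw [Set.mem_union, not_or] at hno
  obtain ⟨g1, g2⟩ := hno
  simp only [Set.mem_ofPred_eq, not_lt, not_exists, not_and] at g1 g2
  obtain ⟨r, h, hh, hN⟩ := hN
  -- the bound
  set r1 := (r + Omn A) % k with hr1
  have hr1k : r1 < k := Nat.mod_lt _ hk
  have b1 : ∀ c' ∈ G, ∑ t ∈ Finset.Icc 1 N, ‖∑ d ∈ nearG a b c (1 / B) 1 t,
      h d * g t d * iT (E c').Is (D c') k r1 (wslot a b c t d (some j))‖ ≤ e1 * Real.log B * N := by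
    intro c' hc
    exact g1 (c', r1) (Finset.mem_product.2 ⟨hc, Finset.mem_range.2 hr1k⟩) h hh
  have b2 : ∀ t ∈ Finset.Icc 1 N, ‖∑ d ∈ nearG a b c (1 / B) 1 t,
      h d * g t d * iT (Ty u v S) δ k r (cf a b c t d j)‖ ≤
      ∑ c' ∈ G, ‖∑ d ∈ nearG a b c (1 / B) 1 t,
        h d * g t d * iT (E c').Is (D c') k r1 (wslot a b c t d (some j))‖ +
      ∑ d ∈ nearG a b c (1 / B) 1 t,
        if ¬ (Ty u v S (cf a b c t d j) ↔ Ty u v S (A * cf a b c t d j)) then (1 : ℝ) else 0 := by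
    intro t _
    have f1 : ∑ d ∈ nearG a b c (1 / B) 1 t, h d * g t d * iT (Ty u v S) δ k r (cf a b c t d j) =
        ∑ c' ∈ G, (∑ d ∈ nearG a b c (1 / B) 1 t,
          h d * g t d * iT (E c').Is (D c') k r1 (wslot a b c t d (some j))) +
        ∑ d ∈ nearG a b c (1 / B) 1 t, h d * g t d * (iT (Ty u v S) δ k r (cf a b c t d j) -
          iT (Ty u v S) δ k (r + Omn A) (A * cf a b c t d j)) := by
      rw [Finset.sum_comm, ← Finset.sum_add_distrib]
      refine Finset.sum_congr rfl fun d hd => ?_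
      have hx := cf_pos hf (near_mem hd) j
      have h2 : wslot a b c t d (some j) = A * cf a b c t d j := rfl
      rw [← Finset.mul_sum, h2, hr1, Finset.sum_congr rfl fun c' _ => iT_mod _ _ _ _ _,
        ← iT_sum hu S E D hi eδ k (r + Omn A) (Nat.mul_pos hA1 hx)]
      ring
    rw [f1]
    refine (norm_add_le _ _).trans (add_le_add (norm_sum_le _ _) ?_)
    refine (norm_sum_le _ _).trans (Finset.sum_le_sum fun d hd => ?_)
    rw [norm_mul]
    have hx := cf_pos hf (near_mem hd) j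
    refine (mul_le_of_le_one_left (norm_nonneg _) ?_).trans ?_
    · rw [norm_mul]
      exact mul_le_one₀ (hh.2 d) (norm_nonneg _) (hg t d)
    exact iT_mul (Ty u v S) δ k r hA1 hx
  have b3 : ∑ t ∈ Finset.Icc 1 N, ‖∑ d ∈ nearG a b c (1 / B) 1 t,
      h d * g t d * iT (Ty u v S) δ k r (cf a b c t d j)‖ ≤
      G.card * (e1 * Real.log B * N) + ε / 2 * Real.log B * N := by
    refine (Finset.sum_le_sum b2).trans ?_
    rw [Finset.sum_add_distrib, Finset.sum_comm, ← pc_eq hf]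
    refine add_le_add ?_ g2
    refine (Finset.sum_le_sum b1).trans ?_
    rw [Finset.sum_const, nsmul_eq_mul]
  have b4 : (G.card : ℝ) * (e1 * Real.log B * N) ≤ ε / 2 * Real.log B * N := by
    have h1 : (G.card : ℝ) * e1 ≤ ε / 2 := by
      rw [he1, mul_div_assoc', div_le_div_iff₀ (by positivity) (by norm_num)]
      nlinarith
    calc (G.card : ℝ) * (e1 * Real.log B * N) = (G.card * e1) * (Real.log B * N) := by ring
      _ ≤ ε / 2 * (Real.log B * N) := mul_le_mul_of_nonneg_right h1 (by positivity)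
      _ = ε / 2 * Real.log B * N := by ring
  linarith

end Pool.Agent.Lib.MP_a17b09_nt.QT
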