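import Pool.Agent.Lib.MP_a17b09_nt.QT.AllG3
import Pool.Agent.Lib.MP_a17b09_nt.QT.KatM_99
import Pool.Agent.Lib.MP_a17b09_nt.QT.FinEM_99
import Pool.Agent.Lib.MP_a17b09_nt.QT.TypM_99
import Pool.Agent.Lib.MP_a17b09_nt.QT.DilE_11
import Pool.Agent.Lib.MP_a17b09_nt.QT.DilG_42

/-!
# Project QT (MP_a17b09), upgrade M (helper99): the closed theorems for all multiplicative functions
-/

set_option autoImplicit false

open Filter Topology Finset

namespace Pool.Agent.Lib.MP_a17b09_nt.QT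

open CH CH.PE HY SP
open AN (Ev ind wz wd Dens Ty Nd)

/-- all events, every fixed stable weight of the pair, all multiplicative functions of `d` -/
theorem quenEM_99 (a b c : ℤ) (ha : 0 < a)
    (hns : ¬ IsSquare (b ^ 2 - 4 * a * c)) (g : ℕ → ℕ → ℂ) (hg : ∀ t d, ‖g t d‖ ≤ 1)
    (hD : ∀ p : ℕ, Spl a b c p → DilG a b c g p) : QuenEM a b c g := by
  have hKM : StKatM := stKatM_99 stTkR_all64 stTr_64 stRho_11
  intro E δ hE hδ
  obtain ⟨κ, hκ⟩ := stKap_3 a b c ha hns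
  have hf := fv_ne64 hns
  have hm := fun X => stMass_64 a b c ha hns X
  have hde := stDilE_11 AN.stOk_18 AN.stDen_all98 a b c ha hf (pair1_all3 a b c ha hns) E δ hE hδ
  refine ⟨fun z k hk hz hz1 => ?_, ?_⟩
  · have n1 : ‖z‖ = 1 := Complex.norm_eq_one_of_pow_eq_one hz hk.ne'
    refine hKM a b c ha hf κ hκ hm _ (b1_wz n1 E.Is) g hg hD ?_ fun p hp =>
      ⟨z⁻¹, by rw [norm_inv, n1, inv_one], (hde p hp.1).1 z n1⟩
    rw [conj_wz n1]
    exact (stEvX_all64 a b c ha hns E E δ δ hE hE hδ hδ).1 z z⁻¹ k hk hz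
      (by rw [inv_pow, hz, inv_one]) (Or.inl hz1)
  · refine hKM a b c ha hf κ hκ hm _ (b1_wd hδ.1 hδ.2.1 E.Is) g hg hD ?_ fun p hp =>
      ⟨1, by rw [norm_one], (hde p hp.1).2⟩
    rw [conj_wd]
    exact tw_wd ha hns hE hδ

/-- the law of the slot `j` for a type, with a fixed stable weight of the pair and every
multiplicative function of `d` -/
theorem lawM_99 (a b c : ℤ)
    (ha : 0 < a) (hns : ¬ IsSquare (b ^ 2 - 4 * a * c)) (g : ℕ → ℕ → ℂ)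
    (hg : ∀ t d, ‖g t d‖ ≤ 1) (hD : ∀ p : ℕ, Spl a b c p → DilG a b c g p) (m : ℕ)
    (u v : Fin m → ℝ) (S : Set (Fin m → ℕ)) (δ : ℝ) (hu : ∀ i, 0 < u i)
    (hδ : Nd (Ty u v S) δ) : LawM a b c g (Ty u v S) δ := by
  obtain ⟨κ, hκ⟩ := stKap_3 a b c ha hns
  have hf := fv_ne64 hns
  have hQ := quenEM_99 a b c ha hns g hg hD
  exact stTypM_99 AN.stOk_18 AN.stDen_all98 a b c ha hf (pair1_all3 a b c ha hns) κ hκ g hg
    (fun E δ hE hδ k hk r => stFinEM_99 a b c ha hf g hQ E δ hE hδ k hk r) m u v S δ hu hδ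

/-- with the types of `d` and `|f t| / d` -/
theorem lawMT_99 (a b c : ℤ) (ha : 0 < a) (hns : ¬ IsSquare (b ^ 2 - 4 * a * c))
    (m m' m'' : ℕ) (u v : Fin m → ℝ) (u' v' : Fin m' → ℝ) (u'' v'' : Fin m'' → ℝ)
    (S : Set (Fin m → ℕ)) (S' : Set (Fin m' → ℕ)) (S'' : Set (Fin m'' → ℕ)) (δ'' : ℝ)
    (hu : ∀ i, 0 < u i) (hu' : ∀ i, 0 < u' i) (hu'' : ∀ i, 0 < u'' i)
    (hδ : Nd (Ty u'' v'' S'') δ'') :
    LawM a b c (gT a b c (Ty u v S) (Ty u' v' S')) (Ty u'' v'' S'') δ'' :=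
  lawM_99 a b c ha hns _ (gT_le a b c _ _) (fun p hp => stDilG_42 AN.stOk_18 AN.stDen_all98
    a b c ha (fv_ne64 hns) (pair1_all3 a b c ha hns) m m' u v u' v' S S' hu hu' p hp.1)
    m'' u'' v'' S'' δ'' hu'' hδ

end Pool.Agent.Lib.MP_a17b09_nt.QT
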