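import Pool.Agent.Lib.MP_a17b09_nt.QT.AllG3
import Pool.Agent.Lib.MP_a17b09_nt.QT.KatG_99
import Pool.Agent.Lib.MP_a17b09_nt.QT.DilE_11
import Pool.Agent.Lib.MP_a17b09_nt.QT.FinEG_98
import Pool.Agent.Lib.MP_a17b09_nt.QT.TypG_64

/-!
# Project QT (MP_a17b09), stage 3: the closed theorems (helper3)
-/

set_option autoImplicit false

open Filter Topology Finset

namespace Pool.Agent.Lib.MP_a17b09_nt.QT

open CH CH.PE HY SP
open AN (Ev Dens Ty Nd)

theorem stKatG_all3 : StKatG := stKatG_99 stTkR_all64 stTr_64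

/-- all events, every fixed stable weight of the pair; no hypotheses -/
theorem quenEG_all3 (a b c : ℤ) (ha : 0 < a) (hns : ¬ IsSquare (b ^ 2 - 4 * a * c))
    (g : ℕ → ℕ → ℂ) (hg : ∀ t d, ‖g t d‖ ≤ 1)
    (hD : ∀ p : ℕ, Spl a b c p → DilG a b c g p) : QuenEG a b c g :=
  quenEG_3 stKatG_all3 stDilE_11 a b c ha hns g hg hD

/-- the slot `j` for a type, every fixed stable weight of the pair and every completely
multiplicative function of `d`; no hypotheses -/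
theorem lawG_all3 (a b c : ℤ) (ha : 0 < a) (hns : ¬ IsSquare (b ^ 2 - 4 * a * c))
    (g : ℕ → ℕ → ℂ) (hg : ∀ t d, ‖g t d‖ ≤ 1)
    (hD : ∀ p : ℕ, Spl a b c p → DilG a b c g p) (m : ℕ) (u v : Fin m → ℝ)
    (S : Set (Fin m → ℕ)) (δ : ℝ) (hu : ∀ i, 0 < u i) (hδ : Nd (Ty u v S) δ) :
    LawG a b c g (Ty u v S) δ :=
  lawG_3 stKatG_all3 stDilE_11 stFinEG_98 stTypG_64 a b c ha hns g hg hD m u v S δ hu hδ

/-- three slots, from G2 and G5 -/
theorem three_of3 (hDG : StDilG) (hCL : StCondL) (a b c : ℤ) (ha : 0 < a)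
    (hns : ¬ IsSquare (b ^ 2 - 4 * a * c)) (κ : ℝ) (hκ : Kap a b c κ) : Three a b c κ :=
  three_3 stKatG_all3 stDilE_11 hDG stFinEG_98 stTypG_64 hCL a b c ha hns κ hκ

end Pool.Agent.Lib.MP_a17b09_nt.QT
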