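import Pool.Agent.Lib.MP_a17b09_nt.QT.Stmts99
import Pool.Agent.Lib.MP_a17b09_nt.AN.TProg_11
import Pool.Agent.Lib.MP_a17b09_nt.AN.Ty98
import Pool.Agent.Lib.MP_a17b09_nt.AN.Da98
import Pool.Agent.Lib.MP_a17b09_nt.CH.MeanU70

/-!
Project QT (MP_a17b09_nt), module K1 (helper99): `StKat`, Katai's argument for the pairs `(t, d)`.
-/

set_option autoImplicit false

open Filter Topology Finset

namespace Pool.Agent.Lib.MP_a17b09_nt.QT

open CH CH.PE HY SP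
open AS (wslot cf)
open AS.L11 (om_w eslot_ne)
open AS.T11 (null_union null_mono)
open AN.Ty98 (lognull_union)
open AN.Da98 (lognull_lt)
open SPH (vl)

namespace K99

variable {a b c : ℤ}

theorem mem_near {α β : ℝ} {t d : ℕ} : d ∈ nearG a b c α β t ↔
    (d ∣ (fv a b c t).natAbs ∧ (fv a b c t).natAbs ≠ 0) ∧ α * t ≤ (d : ℝ) ∧ (d : ℝ) ≤ β * t := by
  unfold nearG
  rw [Finset.mem_filter, Nat.mem_divisors]

theorem dvd_vl {t d : ℕ} (hd : d ∣ (fv a b c t).natAbs) (i : ℕ) :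
    d ∣ vl a b c (t + i * d) := by
  show d ∣ (fv a b c (t + i * d)).natAbs
  rw [← Int.natCast_dvd] at hd ⊢
  have h2 : fv a b c (t + i * d) = fv a b c t +
      (d : ℤ) * (a * (2 * t * i + i ^ 2 * d) + b * i) := by
    rw [fv, fv]
    push_cast
    ring
  rw [h2]
  exact dvd_add hd (dvd_mul_right _ _)

theorem slot_shift {t p d : ℕ} (hp : 0 < p) (hd0 : 0 < d)
    (hd : p * d ∣ (fv a b c t).natAbs) (j : ℕ) :
    cf a b c t d (j * p) = p * cf a b c t (p * d) j := by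
  unfold AS.cf
  obtain ⟨m, hm⟩ := dvd_vl hd j
  rw [show t + j * p * d = t + j * (p * d) by ring, hm,
    Nat.mul_div_cancel_left _ (Nat.mul_pos hp hd0), show p * d * m = d * (p * m) by ring,
    Nat.mul_div_cancel_left _ hd0]

theorem cf_ne (hf : ∀ t : ℕ, fv a b c t ≠ 0) {t d : ℕ} (hd : d ∣ (fv a b c t).natAbs) (i : ℕ) :
    cf a b c t d i ≠ 0 := eslot_ne hf hd i

theorem om_pmul {p m : ℕ} (hp : p.Prime) (hm : m ≠ 0) : Omn (p * m) = Omn m + 1 := by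
  unfold CH.Omn
  rw [ArithmeticFunction.cardFactors_mul hp.ne_zero hm,
    ArithmeticFunction.cardFactors_apply_prime hp, add_comm]

theorem tw_shift (hf : ∀ t : ℕ, fv a b c t ≠ 0) {z0 z1 : ℂ} (h1 : z1 ≠ 0) {t p d : ℕ}
    (hp : p.Prime) (hd : p * d ∣ (fv a b c t).natAbs) (j : ℕ) :
    z0 ^ Omn (p * d) * z1 ^ Omn (cf a b c t (p * d) j) =
      z0 * z1⁻¹ * (z0 ^ Omn d * z1 ^ Omn (cf a b c t d (j * p))) := by
  have hF : (fv a b c t).natAbs ≠ 0 := Int.natAbs_ne_zero.2 (hf t)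
  have hpd : p * d ≠ 0 := fun h => hF (by rw [h] at hd; exact Nat.eq_zero_of_zero_dvd hd)
  have hd0 : d ≠ 0 := right_ne_zero_of_mul hpd
  rw [slot_shift hp.pos (Nat.pos_of_ne_zero hd0) hd j, om_pmul hp hd0,
    om_pmul hp (cf_ne hf hd j), pow_succ, pow_succ]
  field_simp

/-- the sum over the primes that divide the cofactor -/
noncomputable def ZZ (a b c : ℤ) (z1 : ℂ) (P : Finset ℕ) (j t d : ℕ) : ℂ :=
  ∑ p ∈ P, if p * d ∣ (fv a b c t).natAbs then z1 ^ Omn (cf a b c t d (j * p)) else 0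

theorem diff_le {ι : Type*} [DecidableEq ι] (A A' X Y : Finset ι) (f : ι → ℂ)
    (hf : ∀ i, ‖f i‖ ≤ 1) (h1 : A \ A' ⊆ X) (h2 : A' \ A ⊆ Y) :
    ‖∑ i ∈ A, f i‖ ≤ ‖∑ i ∈ A', f i‖ + ((X.card : ℝ) + Y.card) := by
  have hc : ∀ U : Finset ι, ‖∑ i ∈ U, f i‖ ≤ (U.card : ℝ) := by
    intro U
    refine (norm_sum_le _ _).trans ?_
    refine (Finset.sum_le_sum fun i _ => hf i).trans ?_
    rw [Finset.sum_const, nsmul_eq_mul, mul_one]
  have h3 := Finset.sum_sdiff_sub_sum_sdiff (s₁ := A') (s₂ := A) (f := f)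
  have h4 : ∑ i ∈ A, f i = ∑ i ∈ A', f i + (∑ i ∈ A \ A', f i - ∑ i ∈ A' \ A, f i) := by
    rw [h3]
    ring
  rw [h4]
  refine (norm_add_le _ _).trans (add_le_add le_rfl ?_)
  refine (norm_sub_le _ _).trans (add_le_add ?_ ?_)
  · exact (hc _).trans (by exact_mod_cast Finset.card_le_card h1)
  · exact (hc _).trans (by exact_mod_cast Finset.card_le_card h2)

theorem norm_tw {z0 z1 : ℂ} (n0 : ‖z0‖ = 1) (n1 : ‖z1‖ = 1) (m n : ℕ) :
    ‖z0 ^ m * z1 ^ n‖ = 1 := by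
  rw [norm_mul, norm_pow, norm_pow, n0, n1, one_pow, one_pow, one_mul]

/-- the divisors `p d` near `t` -/
noncomputable def DP (a b c : ℤ) (B : ℝ) (p t : ℕ) : Finset ℕ :=
  (fv a b c t).natAbs.divisors.filter (fun d => p * d ∣ (fv a b c t).natAbs ∧
    1 / B * t ≤ ((p * d : ℕ) : ℝ) ∧ ((p * d : ℕ) : ℝ) ≤ 1 * t)

theorem dp_image {B : ℝ} {p t : ℕ} :
    (nearG a b c (1 / B) 1 t).filter (fun d => p ∣ d) = (DP a b c B p t).image (fun d => p * d) := by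
  ext d
  simp only [Finset.mem_filter, Finset.mem_image, mem_near, DP, Nat.mem_divisors]
  constructor
  · rintro ⟨⟨⟨h1, h2⟩, h3, h4⟩, ⟨e, rfl⟩⟩
    exact ⟨e, ⟨⟨(dvd_mul_left e p).trans h1, h2⟩, h1, h3, h4⟩, rfl⟩
  · rintro ⟨e, ⟨⟨_, h2⟩, h1, h3, h4⟩, rfl⟩
    exact ⟨⟨⟨h1, h2⟩, h3, h4⟩, dvd_mul_right p e⟩

/-- one prime: from the multiples of `p` to all divisors near `t` -/
theorem one_p (hf : ∀ t : ℕ, fv a b c t ≠ 0) {z0 z1 : ℂ} (n1 : ‖z1‖ = 1)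
    {B : ℝ} {p : ℕ} (hp : p.Prime) (j t : ℕ) (g : ℕ → ℂ)
    (hg : ∀ d, g d = z0 ^ Omn d * z1 ^ Omn (cf a b c t d (j * p))) :
    ∑ d ∈ (nearG a b c (1 / B) 1 t).filter (fun d => p ∣ d),
        z0 ^ Omn d * z1 ^ Omn (cf a b c t d j) =
      z0 * z1⁻¹ * ∑ d ∈ DP a b c B p t, g d := by
  have h1 : z1 ≠ 0 := by
    intro h
    rw [h, norm_zero] at n1
    exact zero_ne_one n1
  rw [dp_image, Finset.sum_image (fun x _ y _ h => Nat.eq_of_mul_eq_mul_left hp.pos h),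
    Finset.mul_sum]
  refine Finset.sum_congr rfl fun d hd => ?_
  have hd' : p * d ∣ (fv a b c t).natAbs := by
    unfold DP at hd
    exact (Finset.mem_filter.1 hd).2.1
  rw [hg, tw_shift hf h1 hp hd' j]

theorem err_p {B : ℝ} (hB : 1 ≤ B) {p : ℕ} (hp : p.Prime) (t : ℕ) (g : ℕ → ℂ)
    (hg : ∀ d, ‖g d‖ ≤ 1) :
    ‖∑ d ∈ DP a b c B p t, g d - ∑ d ∈ (nearG a b c (1 / B) 1 t).filter
      (fun d => p * d ∣ (fv a b c t).natAbs), g d‖ ≤
      ((nearG a b c (1 / (p * B)) (1 / B) t).card : ℝ) + (nearG a b c (1 / p) 1 t).card := by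
  classical
  set A := DP a b c B p t with hA
  set A' := (nearG a b c (1 / B) 1 t).filter (fun d => p * d ∣ (fv a b c t).natAbs) with hA'
  have hc : ∀ U : Finset ℕ, ‖∑ i ∈ U, g i‖ ≤ (U.card : ℝ) := by
    intro U
    refine (norm_sum_le _ _).trans ?_
    refine (Finset.sum_le_sum fun i _ => hg i).trans ?_
    rw [Finset.sum_const, nsmul_eq_mul, mul_one]
  have hB0 : 0 < B := by linarith
  have hp0 : (0 : ℝ) < p := by exact_mod_cast hp.pos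
  have hp1 : (1 : ℝ) ≤ p := by exact_mod_cast hp.one_le
  have h1 : A \ A' ⊆ nearG a b c (1 / (p * B)) (1 / B) t := by
    intro d hd
    rw [Finset.mem_sdiff] at hd
    obtain ⟨hd1, hd2⟩ := hd
    rw [hA, DP, Finset.mem_filter, Nat.mem_divisors] at hd1
    obtain ⟨⟨k1, k2⟩, k3, k4, k5⟩ := hd1
    push_cast at k4 k5
    rw [mem_near]
    refine ⟨⟨k1, k2⟩, ?_, ?_⟩
    · have : 1 / (p * B) * (t : ℝ) = (1 / B * t) / p := by field_simp
      rw [this, div_le_iff₀ hp0]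
      linarith
    · by_contra hcon
      push Not at hcon
      apply hd2
      rw [hA', Finset.mem_filter, mem_near]
      refine ⟨⟨⟨k1, k2⟩, hcon.le, ?_⟩, k3⟩
      have h0 : (0 : ℝ) ≤ d := Nat.cast_nonneg d
      nlinarith
  have h2 : A' \ A ⊆ nearG a b c (1 / p) 1 t := by
    intro d hd
    rw [Finset.mem_sdiff] at hd
    obtain ⟨hd1, hd2⟩ := hd
    rw [hA', Finset.mem_filter, mem_near] at hd1
    obtain ⟨⟨⟨k1, k2⟩, k4, k5⟩, k3⟩ := hd1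
    rw [mem_near]
    refine ⟨⟨k1, k2⟩, ?_, k5⟩
    by_contra hcon
    push Not at hcon
    apply hd2
    rw [hA, DP, Finset.mem_filter, Nat.mem_divisors]
    have h0 : (0 : ℝ) ≤ d := Nat.cast_nonneg d
    refine ⟨⟨k1, k2⟩, k3, ?_, ?_⟩
    · push_cast
      nlinarith
    · push_cast
      rw [one_mul]
      have h3 : 1 / (p : ℝ) * t = t / p := by ring
      rw [h3, lt_div_iff₀ hp0] at hcon
      linarith
  have h3 := Finset.sum_sdiff_sub_sum_sdiff (s₁ := A') (s₂ := A) (f := g)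
  rw [← h3]
  refine (norm_sub_le _ _).trans (add_le_add ?_ ?_)
  · exact (hc _).trans (by exact_mod_cast Finset.card_le_card h1)
  · exact (hc _).trans (by exact_mod_cast Finset.card_le_card h2)

/-- Katai's identity for one `t` -/
theorem one_t (hf : ∀ t : ℕ, fv a b c t ≠ 0) {z0 z1 : ℂ} (n0 : ‖z0‖ = 1) (n1 : ‖z1‖ = 1)
    {B : ℝ} (hB : 1 ≤ B) (P : Finset ℕ) (hP : ∀ p ∈ P, p.Prime) (j t : ℕ) :
    mass P * ‖DS a b c B z0 z1 j t‖ ≤
      ∑ d ∈ nearG a b c (1 / B) 1 t, |mass P - omP P d| +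
      ∑ d ∈ nearG a b c (1 / B) 1 t, ‖ZZ a b c z1 P j t d‖ +
      ∑ p ∈ P, (((nearG a b c (1 / (p * B)) (1 / B) t).card : ℝ) +
        (nearG a b c (1 / p) 1 t).card) := by
  classical
  set D := nearG a b c (1 / B) 1 t with hD
  set u : ℕ → ℂ := fun d => z0 ^ Omn d * z1 ^ Omn (cf a b c t d j) with hu
  set g : ℕ → ℕ → ℂ := fun p d => z0 ^ Omn d * z1 ^ Omn (cf a b c t d (j * p)) with hg
  have hm0 : 0 ≤ mass P := Finset.sum_nonneg fun p _ => by positivity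
  have e1 : (mass P : ℂ) * DS a b c B z0 z1 j t =
      ∑ d ∈ D, ((mass P - omP P d : ℝ) : ℂ) * u d + ∑ p ∈ P, ∑ d ∈ D.filter (fun d => p ∣ d),
        u d := by
    have e2 : ∑ p ∈ P, ∑ d ∈ D.filter (fun d => p ∣ d), u d = ∑ d ∈ D, (omP P d : ℂ) * u d := by
      simp_rw [Finset.sum_filter]
      rw [Finset.sum_comm]
      refine Finset.sum_congr rfl fun d _ => ?_
      rw [← Finset.sum_filter, Finset.sum_const, nsmul_eq_mul]
      rfl
    rw [e2, DS, Finset.mul_sum, ← Finset.sum_add_distrib]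
    refine Finset.sum_congr rfl fun d _ => ?_
    push_cast
    ring
  have e3 : ∑ p ∈ P, ∑ d ∈ D.filter (fun d => p ∣ d), u d =
      z0 * z1⁻¹ * (∑ d ∈ D, z0 ^ Omn d * ZZ a b c z1 P j t d) +
      z0 * z1⁻¹ * ∑ p ∈ P, (∑ d ∈ DP a b c B p t, g p d - ∑ d ∈ D.filter
        (fun d => p * d ∣ (fv a b c t).natAbs), g p d) := by
    have e4 : ∑ d ∈ D, z0 ^ Omn d * ZZ a b c z1 P j t d =
        ∑ p ∈ P, ∑ d ∈ D.filter (fun d => p * d ∣ (fv a b c t).natAbs), g p d := by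
      simp_rw [Finset.sum_filter]
      rw [Finset.sum_comm]
      refine Finset.sum_congr rfl fun d _ => ?_
      rw [ZZ, Finset.mul_sum]
      refine Finset.sum_congr rfl fun p _ => ?_
      split_ifs <;> simp [hg]
    rw [e4, Finset.sum_sub_distrib, mul_sub, add_sub_cancel, Finset.mul_sum]
    refine Finset.sum_congr rfl fun p hp => ?_
    exact one_p hf n1 (hP p hp) j t (g p) fun d => rfl
  have hz : ‖z0 * z1⁻¹‖ = 1 := by rw [norm_mul, norm_inv, n0, n1]; norm_num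
  have e5 : mass P * ‖DS a b c B z0 z1 j t‖ = ‖(mass P : ℂ) * DS a b c B z0 z1 j t‖ := by
    rw [norm_mul, Complex.norm_real, Real.norm_eq_abs, abs_of_nonneg hm0]
  rw [e5, e1, e3, ← add_assoc]
  refine (norm_add_le _ _).trans (add_le_add ((norm_add_le _ _).trans (add_le_add ?_ ?_)) ?_)
  · refine (norm_sum_le _ _).trans (Finset.sum_le_sum fun d _ => ?_)
    rw [norm_mul, Complex.norm_real, Real.norm_eq_abs, norm_tw n0 n1, mul_one]
  · rw [norm_mul, hz, one_mul]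
    refine (norm_sum_le _ _).trans (Finset.sum_le_sum fun d _ => ?_)
    rw [norm_mul, norm_pow, n0, one_pow, one_mul]
  · rw [norm_mul, hz, one_mul]
    refine (norm_sum_le _ _).trans (Finset.sum_le_sum fun p hp => ?_)
    exact err_p hB (hP p hp) t (g p) fun d => (norm_tw n0 n1 _ _).le

/-! ### squares -/

theorem am (x : ℝ) {l : ℝ} (hl : 0 < l) : |x| ≤ (l + x ^ 2 / l) / 2 := by
  have h1 : 0 ≤ (l - |x|) ^ 2 / l := by positivity
  have h2 : (l - |x|) ^ 2 / l = l - 2 * |x| + x ^ 2 / l := by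
    rw [sub_sq, sq_abs]
    field_simp
  linarith

theorem amn (x : ℂ) {l : ℝ} (hl : 0 < l) : ‖x‖ ≤ (l + ‖x‖ ^ 2 / l) / 2 := by
  have := am ‖x‖ hl
  rwa [abs_of_nonneg (norm_nonneg _)] at this

/-- the weight `1[p q ∣ x]` -/
noncomputable def chi (p q : ℕ) (x : ℤ) : ℂ := if ((p * q : ℕ) : ℤ) ∣ x then 1 else 0

theorem chi_per (p q : ℕ) : Per (p * q) (chi p q) := by
  refine ⟨fun x y => ?_, fun x => ?_⟩
  · unfold chi
    have h : ((p * q : ℕ) : ℤ) ∣ x + ((p * q : ℕ) : ℤ) * y ↔ ((p * q : ℕ) : ℤ) ∣ x :=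
      dvd_add_left (dvd_mul_right _ _)
    by_cases h1 : ((p * q : ℕ) : ℤ) ∣ x
    · rw [if_pos (h.2 h1), if_pos h1]
    · rw [if_neg (fun h2 => h1 (h.1 h2)), if_neg h1]
  · unfold chi
    split_ifs <;> simp

theorem dvd_iff_p {t d p : ℕ} (hd0 : 0 < d) {e : ℤ} (he : fv a b c t = d * e) :
    p * d ∣ (fv a b c t).natAbs ↔ (p : ℤ) ∣ e := by
  have hd1 : (d : ℤ) ≠ 0 := by exact_mod_cast hd0.ne'
  rw [← Int.natCast_dvd, he]
  push_cast
  rw [mul_comm (p : ℤ) (d : ℤ)]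
  exact mul_dvd_mul_iff_left hd1

theorem chi_iff {t d p q : ℕ} (hd0 : 0 < d) (hd : d ∣ (fv a b c t).natAbs) (hp : p.Prime)
    (hq : q.Prime) (hpq : p ≠ q) (hpa : ¬ (p : ℤ) ∣ a) (hqa : ¬ (q : ℤ) ∣ a) :
    ((p * q : ℕ) : ℤ) ∣ a * (fv a b c t / d) ↔
      p * d ∣ (fv a b c t).natAbs ∧ q * d ∣ (fv a b c t).natAbs := by
  have hd1 : (d : ℤ) ≠ 0 := by exact_mod_cast hd0.ne'
  obtain ⟨e, he⟩ := Int.natCast_dvd.2 hd
  rw [dvd_iff_p hd0 he, dvd_iff_p hd0 he, he, Int.mul_ediv_cancel_left _ hd1]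
  have hpP : Prime (p : ℤ) := Nat.prime_iff_prime_int.1 hp
  have hqP : Prime (q : ℤ) := Nat.prime_iff_prime_int.1 hq
  have hco : IsCoprime (p : ℤ) (q : ℤ) := by
    rw [Nat.isCoprime_iff_coprime]
    exact (Nat.coprime_primes hp hq).2 hpq
  push_cast
  constructor
  · intro h
    exact ⟨(hpP.dvd_or_dvd ((dvd_mul_right _ _).trans h)).resolve_left hpa,
      (hqP.dvd_or_dvd ((dvd_mul_left _ _).trans h)).resolve_left hqa⟩
  · rintro ⟨h1, h2⟩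
    exact (hco.mul_dvd h1 h2).mul_left a

theorem inv_conj {z : ℂ} (n1 : ‖z‖ = 1) (m : ℕ) : (starRingEnd ℂ) (z ^ m) = (z⁻¹) ^ m := by
  rw [map_pow]
  congr 1
  have h0 : z ≠ 0 := by
    intro h
    rw [h, norm_zero] at n1
    exact zero_ne_one n1
  have h1 : z * (starRingEnd ℂ) z = 1 := by
    rw [Complex.mul_conj, Complex.normSq_eq_norm_sq, n1]
    norm_num
  field_simp
  rw [mul_comm]
  exact h1

/-- the weight of one prime -/
noncomputable def gp (a b c : ℤ) (z1 : ℂ) (j t d p : ℕ) : ℂ :=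
  if p * d ∣ (fv a b c t).natAbs then z1 ^ Omn (cf a b c t d (j * p)) else 0

theorem gp_diag {z1 : ℂ} (n1 : ‖z1‖ = 1) (j t d p : ℕ) :
    gp a b c z1 j t d p * (starRingEnd ℂ) (gp a b c z1 j t d p) =
      if p * d ∣ (fv a b c t).natAbs then 1 else 0 := by
  unfold gp
  split_ifs
  · rw [Complex.mul_conj, Complex.normSq_eq_norm_sq, norm_pow, n1]
    norm_num
  · simp

theorem gp_off (ha : 0 < a) (hf : ∀ t : ℕ, fv a b c t ≠ 0) {z1 : ℂ} (n1 : ‖z1‖ = 1)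
    {α β : ℝ} {j t d p q : ℕ} (hd : d ∈ nearG a b c α β t) (hp : p.Prime)
    (hq : q.Prime) (hpq : p ≠ q) (hpa : ¬ (p : ℤ) ∣ a) (hqa : ¬ (q : ℤ) ∣ a) :
    gp a b c z1 j t d p * (starRingEnd ℂ) (gp a b c z1 j t d q) =
      chi p q (a * (fv a b c t / d)) * ((fun n => z1 ^ Omn n) (wslot a b c t d (some (j * p))) *
        (fun n => (z1⁻¹) ^ Omn n) (wslot a b c t d (some (j * q)))) := by
  obtain ⟨⟨hd1, hF⟩, -⟩ := mem_near.1 hd
  have hd0 : 0 < d := Nat.pos_of_ne_zero fun h => hF (by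
    rw [h] at hd1
    exact Nat.eq_zero_of_zero_dvd hd1)
  have h0 : z1 ≠ 0 := by
    intro h
    rw [h, norm_zero] at n1
    exact zero_ne_one n1
  have hi := chi_iff hd0 hd1 hp hq hpq hpa hqa
  unfold gp chi
  by_cases h1 : p * d ∣ (fv a b c t).natAbs
  · by_cases h2 : q * d ∣ (fv a b c t).natAbs
    · rw [if_pos h1, if_pos h2, if_pos (hi.2 ⟨h1, h2⟩), one_mul, inv_conj n1]
      show _ = z1 ^ Omn (wslot a b c t d (some (j * p))) *
        (z1⁻¹) ^ Omn (wslot a b c t d (some (j * q)))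
      rw [om_w ha hf hd1, om_w ha hf hd1]
      show z1 ^ Omn (cf a b c t d (j * p)) * z1⁻¹ ^ Omn (cf a b c t d (j * q)) =
        z1 ^ (Omn a.natAbs + Omn (cf a b c t d (j * p))) *
          z1⁻¹ ^ (Omn a.natAbs + Omn (cf a b c t d (j * q)))
      rw [pow_add, pow_add, inv_pow, inv_pow]
      field_simp
    · rw [if_neg h2, if_neg (fun h => h2 (hi.1 h).2), map_zero, mul_zero, zero_mul]
  · rw [if_neg h1, if_neg (fun h => h1 (hi.1 h).1), zero_mul, zero_mul]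

theorem swap3 {ι : Type*} (s : Finset ι) (T : Finset ℕ) (D : ℕ → Finset ℕ)
    (f : ι → ℕ → ℕ → ℂ) :
    ∑ t ∈ T, ∑ d ∈ D t, ∑ i ∈ s, f i t d = ∑ i ∈ s, ∑ t ∈ T, ∑ d ∈ D t, f i t d := by
  rw [Finset.sum_congr rfl fun t _ => Finset.sum_comm]
  exact Finset.sum_comm

theorem ofReal2 {ι κ : Type*} (T : Finset ι) (D : ι → Finset κ) (f : ι → κ → ℝ) :
    ((∑ t ∈ T, ∑ d ∈ D t, f t d : ℝ) : ℂ) = ∑ t ∈ T, ∑ d ∈ D t, ((f t d : ℝ) : ℂ) := by
  rw [Complex.ofReal_sum]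
  exact Finset.sum_congr rfl fun t _ => Complex.ofReal_sum _ _

/-- the square of `ZZ` -/
theorem sq_le (ha : 0 < a) (hf : ∀ t : ℕ, fv a b c t ≠ 0) {z1 : ℂ} (n1 : ‖z1‖ = 1)
    (B : ℝ) (P : Finset ℕ) (hP : ∀ p ∈ P, p.Prime) (hPa : ∀ p ∈ P, ¬ (p : ℤ) ∣ a) (j N : ℕ) :
    ∑ t ∈ Finset.Icc 1 N, ∑ d ∈ nearG a b c (1 / B) 1 t, ‖ZZ a b c z1 P j t d‖ ^ 2 ≤
      ∑ p ∈ P, ∑ t ∈ Finset.Icc 1 N, (((nearG a b c (1 / B) 1 t).filter
        (fun d => p * d ∣ (fv a b c t).natAbs)).card : ℝ) +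
      ∑ x ∈ P.offDiag, ‖TwX a b c (1 / B) 1 (chi x.1 x.2) (fun n => z1 ^ Omn n)
        (fun n => (z1⁻¹) ^ Omn n) (some (j * x.1)) (some (j * x.2)) N‖ := by
  classical
  have e0 : ∀ t d, ZZ a b c z1 P j t d = ∑ p ∈ P, gp a b c z1 j t d p := fun t d => rfl
  have e1 : ∀ t d, ((‖ZZ a b c z1 P j t d‖ ^ 2 : ℝ) : ℂ) =
      ∑ p ∈ P, (if p * d ∣ (fv a b c t).natAbs then 1 else 0) +
      ∑ x ∈ P.offDiag, gp a b c z1 j t d x.1 * (starRingEnd ℂ) (gp a b c z1 j t d x.2) := by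
    intro t d
    rw [← Complex.normSq_eq_norm_sq, ← Complex.mul_conj, e0, map_sum, Finset.sum_mul_sum,
      ← Finset.sum_product', ← Finset.diag_union_offDiag,
      Finset.sum_union (Finset.disjoint_diag_offDiag P), Finset.sum_diag]
    congr 1
    exact Finset.sum_congr rfl fun p _ => gp_diag n1 j t d p
  have e2 : ((∑ t ∈ Finset.Icc 1 N, ∑ d ∈ nearG a b c (1 / B) 1 t,
      ‖ZZ a b c z1 P j t d‖ ^ 2 : ℝ) : ℂ) =
      ((∑ p ∈ P, ∑ t ∈ Finset.Icc 1 N, (((nearG a b c (1 / B) 1 t).filter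
        (fun d => p * d ∣ (fv a b c t).natAbs)).card : ℝ) : ℝ) : ℂ) +
      ∑ x ∈ P.offDiag, TwX a b c (1 / B) 1 (chi x.1 x.2) (fun n => z1 ^ Omn n)
        (fun n => (z1⁻¹) ^ Omn n) (some (j * x.1)) (some (j * x.2)) N := by
    rw [ofReal2, ofReal2]
    have e3 : ∀ t ∈ Finset.Icc 1 N, ∀ d ∈ nearG a b c (1 / B) 1 t,
        ((‖ZZ a b c z1 P j t d‖ ^ 2 : ℝ) : ℂ) =
        ∑ p ∈ P, (if p * d ∣ (fv a b c t).natAbs then 1 else 0) +
        ∑ x ∈ P.offDiag, chi x.1 x.2 (a * (fv a b c t / d)) *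
          ((fun n => z1 ^ Omn n) (wslot a b c t d (some (j * x.1))) *
          (fun n => (z1⁻¹) ^ Omn n) (wslot a b c t d (some (j * x.2)))) := by
      intro t _ d hd
      rw [e1 t d]
      congr 1
      refine Finset.sum_congr rfl fun x hx => ?_
      rw [Finset.mem_offDiag] at hx
      exact gp_off ha hf n1 hd (hP _ hx.1) (hP _ hx.2.1) hx.2.2 (hPa _ hx.1) (hPa _ hx.2.1)
    rw [Finset.sum_congr rfl fun t ht => Finset.sum_congr rfl fun d hd => e3 t ht d hd,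
      Finset.sum_congr rfl fun t _ => Finset.sum_add_distrib, Finset.sum_add_distrib,
      swap3, swap3]
    congr 1
    refine Finset.sum_congr rfl fun p _ => Finset.sum_congr rfl fun t _ => ?_
    rw [← Finset.sum_filter, Finset.sum_const, nsmul_eq_mul, mul_one, Complex.ofReal_natCast]
  have e5 : 0 ≤ (∑ t ∈ Finset.Icc 1 N, ∑ d ∈ nearG a b c (1 / B) 1 t,
      ‖ZZ a b c z1 P j t d‖ ^ 2 : ℝ) :=
    Finset.sum_nonneg fun t _ => Finset.sum_nonneg fun d _ => by positivity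
  have e6 : 0 ≤ ∑ p ∈ P, ∑ t ∈ Finset.Icc 1 N, (((nearG a b c (1 / B) 1 t).filter
        (fun d => p * d ∣ (fv a b c t).natAbs)).card : ℝ) :=
    Finset.sum_nonneg fun t _ => Finset.sum_nonneg fun d _ => Nat.cast_nonneg _
  have e4 := congrArg norm e2
  rw [Complex.norm_real, Real.norm_eq_abs, abs_of_nonneg e5] at e4
  rw [e4]
  refine (norm_add_le _ _).trans (add_le_add ?_ (norm_sum_le _ _))
  rw [Complex.norm_real, Real.norm_eq_abs, abs_of_nonneg e6]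

/-- the diagonal for one `t` -/
theorem diag_le {B : ℝ} (hB : 1 ≤ B) {p : ℕ} (hp : p.Prime) (t : ℕ) :
    (((nearG a b c (1 / B) 1 t).filter (fun d => p * d ∣ (fv a b c t).natAbs)).card : ℝ) ≤
      ∑ d ∈ nearG a b c (1 / B) 1 t, (if p ∣ d then (1 : ℝ) else 0) +
        (nearG a b c (1 / p) 1 t).card := by
  classical
  set A := (nearG a b c (1 / B) 1 t).filter (fun d => p * d ∣ (fv a b c t).natAbs) with hA
  have hB0 : 0 < B := by linarith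
  have hp0 : (0 : ℝ) < p := by exact_mod_cast hp.pos
  have hp1 : (1 : ℝ) ≤ p := by exact_mod_cast hp.one_le
  have h1 : A.card ≤ ((nearG a b c (1 / B) 1 t).filter (fun d => p ∣ d)).card +
      (nearG a b c (1 / p) 1 t).card := by
    rw [← Finset.card_filter_add_card_filter_not (s := A) (fun d : ℕ => (p * d : ℝ) ≤ t)]
    refine add_le_add ?_ (Finset.card_le_card ?_)
    · rw [dp_image]
      rw [Finset.card_image_of_injective _ (fun x y h => Nat.eq_of_mul_eq_mul_left hp.pos h)]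
      refine Finset.card_le_card fun d hd => ?_
      rw [Finset.mem_filter, hA, Finset.mem_filter, mem_near] at hd
      obtain ⟨⟨⟨⟨k1, k2⟩, k3, k4⟩, k5⟩, k6⟩ := hd
      rw [DP, Finset.mem_filter, Nat.mem_divisors]
      have h0 : (0 : ℝ) ≤ d := Nat.cast_nonneg d
      refine ⟨⟨k1, k2⟩, k5, ?_, ?_⟩
      · push_cast
        nlinarith
      · push_cast
        rw [one_mul]
        exact k6
    · intro d hd
      rw [Finset.mem_filter, hA, Finset.mem_filter, mem_near] at hd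
      obtain ⟨⟨⟨⟨k1, k2⟩, k3, k4⟩, k5⟩, k6⟩ := hd
      push Not at k6
      rw [mem_near]
      refine ⟨⟨k1, k2⟩, ?_, k4⟩
      rw [one_div_mul_eq_div, div_le_iff₀ hp0]
      linarith
  have h2 : ∑ d ∈ nearG a b c (1 / B) 1 t, (if p ∣ d then (1 : ℝ) else 0) =
      ((nearG a b c (1 / B) 1 t).filter (fun d => p ∣ d)).card := by
    rw [← Finset.sum_filter, Finset.sum_const, nsmul_eq_mul, mul_one]
  rw [h2]
  exact_mod_cast h1

/-- the sum over `t ≤ N` -/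
theorem all_t (ha : 0 < a) (hf : ∀ t : ℕ, fv a b c t ≠ 0) {z0 z1 : ℂ} (n0 : ‖z0‖ = 1)
    (n1 : ‖z1‖ = 1) {B : ℝ} (hB : 1 ≤ B) (P : Finset ℕ) (hP : ∀ p ∈ P, p.Prime)
    (hPa : ∀ p ∈ P, ¬ (p : ℤ) ∣ a) (j N : ℕ) {l : ℝ} (hl : 0 < l) :
    mass P * ∑ t ∈ Finset.Icc 1 N, ‖DS a b c B z0 z1 j t‖ ≤
      l * ∑ t ∈ Finset.Icc 1 N, ((nearG a b c (1 / B) 1 t).card : ℝ) +
      (∑ t ∈ Finset.Icc 1 N, ∑ d ∈ nearG a b c (1 / B) 1 t, ((omP P d : ℝ) - mass P) ^ 2) /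
        (2 * l) +
      (∑ p ∈ P, ∑ t ∈ Finset.Icc 1 N, ∑ d ∈ nearG a b c (1 / B) 1 t,
        (if p ∣ d then (1 : ℝ) else 0)) / (2 * l) +
      (∑ x ∈ P.offDiag, ‖TwX a b c (1 / B) 1 (chi x.1 x.2) (fun n => z1 ^ Omn n)
        (fun n => (z1⁻¹) ^ Omn n) (some (j * x.1)) (some (j * x.2)) N‖) / (2 * l) +
      ∑ p ∈ P, (∑ t ∈ Finset.Icc 1 N, ((nearG a b c (1 / (p * B)) (1 / B) t).card : ℝ) +
        (1 + 1 / (2 * l)) * ∑ t ∈ Finset.Icc 1 N, ((nearG a b c (1 / p) 1 t).card : ℝ)) := by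
  set D : ℕ → Finset ℕ := fun t => nearG a b c (1 / B) 1 t with hD
  have e1 : mass P * ∑ t ∈ Finset.Icc 1 N, ‖DS a b c B z0 z1 j t‖ ≤
      ∑ t ∈ Finset.Icc 1 N, (∑ d ∈ D t, |mass P - omP P d| +
      ∑ d ∈ D t, ‖ZZ a b c z1 P j t d‖ +
      ∑ p ∈ P, (((nearG a b c (1 / (p * B)) (1 / B) t).card : ℝ) +
        (nearG a b c (1 / p) 1 t).card)) := by
    rw [Finset.mul_sum]
    exact Finset.sum_le_sum fun t _ => one_t hf n0 n1 hB P hP j t
  have e2 : ∑ t ∈ Finset.Icc 1 N, ∑ d ∈ D t, |mass P - omP P d| ≤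
      l / 2 * ∑ t ∈ Finset.Icc 1 N, ((D t).card : ℝ) +
      (∑ t ∈ Finset.Icc 1 N, ∑ d ∈ D t, ((omP P d : ℝ) - mass P) ^ 2) / (2 * l) := by
    rw [Finset.mul_sum, Finset.sum_div, ← Finset.sum_add_distrib]
    refine Finset.sum_le_sum fun t _ => ?_
    rw [Finset.sum_div, ← nsmul_one, ← Finset.sum_const, Finset.mul_sum,
      ← Finset.sum_add_distrib]
    refine Finset.sum_le_sum fun d _ => ?_
    rw [abs_sub_comm]
    refine (am _ hl).trans (le_of_eq ?_)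
    field_simp
  have e3 : ∑ t ∈ Finset.Icc 1 N, ∑ d ∈ D t, ‖ZZ a b c z1 P j t d‖ ≤
      l / 2 * ∑ t ∈ Finset.Icc 1 N, ((D t).card : ℝ) +
      (∑ t ∈ Finset.Icc 1 N, ∑ d ∈ D t, ‖ZZ a b c z1 P j t d‖ ^ 2) / (2 * l) := by
    rw [Finset.mul_sum, Finset.sum_div, ← Finset.sum_add_distrib]
    refine Finset.sum_le_sum fun t _ => ?_
    rw [Finset.sum_div, ← nsmul_one, ← Finset.sum_const, Finset.mul_sum,
      ← Finset.sum_add_distrib]
    refine Finset.sum_le_sum fun d _ => ?_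
    refine (amn _ hl).trans (le_of_eq ?_)
    field_simp
  have e4 := sq_le ha hf n1 B P hP hPa j N
  have e5 : ∑ p ∈ P, ∑ t ∈ Finset.Icc 1 N, (((D t).filter
        (fun d => p * d ∣ (fv a b c t).natAbs)).card : ℝ) ≤
      ∑ p ∈ P, ∑ t ∈ Finset.Icc 1 N, ∑ d ∈ D t, (if p ∣ d then (1 : ℝ) else 0) +
      ∑ p ∈ P, ∑ t ∈ Finset.Icc 1 N, ((nearG a b c (1 / p) 1 t).card : ℝ) := by
    rw [← Finset.sum_add_distrib]
    refine Finset.sum_le_sum fun p hp => ?_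
    rw [← Finset.sum_add_distrib]
    exact Finset.sum_le_sum fun t _ => diag_le hB (hP p hp) t
  have e6 : ∑ t ∈ Finset.Icc 1 N, ∑ p ∈ P, (((nearG a b c (1 / (p * B)) (1 / B) t).card : ℝ) +
        (nearG a b c (1 / p) 1 t).card) =
      ∑ p ∈ P, (∑ t ∈ Finset.Icc 1 N, ((nearG a b c (1 / (p * B)) (1 / B) t).card : ℝ) +
        ∑ t ∈ Finset.Icc 1 N, ((nearG a b c (1 / p) 1 t).card : ℝ)) := by
    rw [Finset.sum_comm]
    exact Finset.sum_congr rfl fun p _ => Finset.sum_add_distrib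
  have hl2 : 0 < 2 * l := by positivity
  have e7 : (∑ t ∈ Finset.Icc 1 N, ∑ d ∈ D t, ‖ZZ a b c z1 P j t d‖ ^ 2) / (2 * l) ≤
      (∑ p ∈ P, ∑ t ∈ Finset.Icc 1 N, ∑ d ∈ D t, (if p ∣ d then (1 : ℝ) else 0)) / (2 * l) +
      1 / (2 * l) * (∑ p ∈ P, ∑ t ∈ Finset.Icc 1 N, ((nearG a b c (1 / p) 1 t).card : ℝ)) +
      (∑ x ∈ P.offDiag, ‖TwX a b c (1 / B) 1 (chi x.1 x.2) (fun n => z1 ^ Omn n)
        (fun n => (z1⁻¹) ^ Omn n) (some (j * x.1)) (some (j * x.2)) N‖) / (2 * l) := by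
    rw [one_div_mul_eq_div, ← add_div, ← add_div]
    exact div_le_div_of_nonneg_right (e4.trans (add_le_add_left e5 _)) hl2.le
  rw [Finset.sum_add_distrib, Finset.sum_add_distrib, e6] at e1
  have e8 : ∑ p ∈ P, (∑ t ∈ Finset.Icc 1 N, ((nearG a b c (1 / (p * B)) (1 / B) t).card : ℝ) +
        (1 + 1 / (2 * l)) * ∑ t ∈ Finset.Icc 1 N, ((nearG a b c (1 / p) 1 t).card : ℝ)) =
      ∑ p ∈ P, (∑ t ∈ Finset.Icc 1 N, ((nearG a b c (1 / (p * B)) (1 / B) t).card : ℝ) +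
        ∑ t ∈ Finset.Icc 1 N, ((nearG a b c (1 / p) 1 t).card : ℝ)) +
      1 / (2 * l) * (∑ p ∈ P, ∑ t ∈ Finset.Icc 1 N, ((nearG a b c (1 / p) 1 t).card : ℝ)) := by
    rw [Finset.mul_sum, ← Finset.sum_add_distrib]
    exact Finset.sum_congr rfl fun p _ => by ring
  rw [e8]
  linarith

/-! ### limits -/

variable {κ : ℝ}

theorem sum_cast (α β : ℝ) (N : ℕ) :
    ((∑ t ∈ Finset.Icc 1 N, (nearG a b c α β t).card : ℕ) : ℝ) =
      ∑ t ∈ Finset.Icc 1 N, ((nearG a b c α β t).card : ℝ) := by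
  push_cast
  rfl

theorem bdd_near (hK : Kap a b c κ) {α β : ℝ} (h0 : 0 < α) (h1 : α < β) : ∃ C : ℝ, ∀ N : ℕ,
    ∑ t ∈ Finset.Icc 1 N, ((nearG a b c α β t).card : ℝ) ≤ C * N := by
  obtain ⟨C, hC⟩ := (hK.2.1 α β h0 h1).bddAbove_range
  refine ⟨C, fun N => ?_⟩
  rcases Nat.eq_zero_or_pos N with h | h
  · subst h
    simp
  · have hN : (0 : ℝ) < N := by exact_mod_cast h
    have h2 := hC ⟨N, rfl⟩
    simp only at h2
    rw [sum_cast, div_le_iff₀ hN] at h2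
    exact h2

theorem ev_near (hK : Kap a b c κ) {α β : ℝ} (h0 : 0 < α) (h1 : α < β) : ∀ᶠ N : ℕ in atTop,
    ∑ t ∈ Finset.Icc 1 N, ((nearG a b c α β t).card : ℝ) ≤
      2 * (κ * Real.log (β / α)) * N := by
  have hx : 0 < κ * Real.log (β / α) :=
    mul_pos hK.1 (Real.log_pos (by rw [lt_div_iff₀ h0, one_mul]; exact h1))
  have h2 := (tendsto_order.1 (hK.2.1 α β h0 h1)).2 (2 * (κ * Real.log (β / α))) (by linarith)
  filter_upwards [h2, eventually_gt_atTop 0] with N hN hN0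
  have hN1 : (0 : ℝ) < N := by exact_mod_cast hN0
  rw [sum_cast, div_lt_iff₀ hN1] at hN
  exact hN.le

theorem twx_null (hK : Kap a b c κ) {w1 w2 : ℕ → ℂ} (b1 : ∀ n, ‖w1 n‖ ≤ 1)
    (b2 : ∀ n, ‖w2 n‖ ≤ 1) (h : TwNullX a b c w1 w2) {α β : ℝ} (h0 : 0 < α) (h1 : α < β)
    {L : ℕ} (hL : 0 < L) {χ : ℤ → ℂ} (hχ : Per L χ) {o1 o2 : Option ℕ} (ho : o1 ≠ o2) {ε : ℝ}
    (hε : 0 < ε) : LogNull {N : ℕ | ε * N < ‖TwX a b c α β χ w1 w2 o1 o2 N‖} := by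
  obtain ⟨C, hC⟩ := bdd_near hK h0 h1
  have hle : ∀ N : ℕ, ‖TwX a b c α β χ w1 w2 o1 o2 N‖ ≤
      ∑ t ∈ Finset.Icc 1 N, ((nearG a b c α β t).card : ℝ) := by
    intro N
    unfold TwX
    refine (norm_sum_le _ _).trans (Finset.sum_le_sum fun t _ => ?_)
    refine (norm_sum_le _ _).trans ?_
    rw [← nsmul_one, ← Finset.sum_const]
    refine Finset.sum_le_sum fun d _ => ?_
    rw [norm_mul, norm_mul]
    exact mul_le_one₀ (hχ.2 _) (by positivity) (mul_le_one₀ (b1 _) (norm_nonneg _) (b2 _))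
  have hB : Bdd (fun N : ℕ => ‖TwX a b c α β χ w1 w2 o1 o2 N‖ / N) := by
    refine ⟨|C|, fun N => ?_⟩
    rw [abs_of_nonneg (div_nonneg (norm_nonneg _) (Nat.cast_nonneg N))]
    rcases Nat.eq_zero_or_pos N with h2 | h2
    · subst h2
      simp
    · have hN : (0 : ℝ) < N := by exact_mod_cast h2
      rw [div_le_iff₀ hN]
      exact (hle N).trans ((hC N).trans (mul_le_mul_of_nonneg_right (le_abs_self C) hN.le))
  refine null_mono (EndS.logNull_of stMeanU_70 hB (fun N => by positivity)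
    (fun M => h α β h0 h1 L hL χ hχ o1 o2 ho M) hε) fun N hN => ?_
  simp only [Set.mem_ofPred_eq] at hN ⊢
  rcases Nat.eq_zero_or_pos N with h2 | h2
  · subst h2
    simp [TwX] at hN
  · have hN1 : (0 : ℝ) < N := by exact_mod_cast h2
    rwa [lt_div_iff₀ hN1]

theorem null_ev {p : ℕ → Prop} (h : ∀ᶠ N : ℕ in atTop, p N) {E E' : Set ℕ} (hE : LogNull E)
    (hs : ∀ N ∈ E', p N → N ∈ E) : LogNull E' := by
  obtain ⟨N1, hN1⟩ := eventually_atTop.1 h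
  refine null_mono (null_union (lognull_lt N1) hE) fun N hN => ?_
  by_cases h1 : N < N1
  · exact Or.inl h1
  · exact Or.inr (hs N hN (hN1 N (not_lt.1 h1)))

end K99

end Pool.Agent.Lib.MP_a17b09_nt.QT
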