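import Pool.Agent.Lib.MP_a17b09_nt.QT.StmtsT3
import Pool.Agent.Lib.MP_a17b09_nt.QT.KatL_99

/-!
Project QT (MP_a17b09_nt), row T1 (helper3): `StKatW`, Katai's argument for the pairs `(t, d)` with a
weight of the slot `j` and a completely multiplicative function of `d` (fork of `Kat_99`).
-/

set_option autoImplicit false

open Filter Topology Finset

namespace Pool.Agent.Lib.MP_a17b09_nt.QT

open CH CH.PE HY SP
open PQ (B1)
open AS (wslot cf)
open AS.L11 (om_w eslot_ne)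
open AS.T11 (null_union null_mono)
open AN.Ty98 (lognull_union)
open AN.Da98 (lognull_lt)
open SPH (vl)
open K99

namespace KW3

variable {a b c : ℤ}

/-- the slot after the dilation -/
theorem wslot_shift {t p d : ℕ} (hp : 0 < p) (hd0 : 0 < d)
    (hd : p * d ∣ (fv a b c t).natAbs) (j : ℕ) :
    wslot a b c t (p * d) (some j) = wslot a b c t d (some (j * p)) / p := by
  show a.natAbs * cf a b c t (p * d) j = a.natAbs * cf a b c t d (j * p) / p
  rw [slot_shift hp hd0 hd j, show a.natAbs * (p * cf a b c t (p * d) j) =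
    p * (a.natAbs * cf a b c t (p * d) j) by ring, Nat.mul_div_cancel_left _ hp]

/-- the sum -/
noncomputable def DW (a b c : ℤ) (B : ℝ) (h w : ℕ → ℂ) (j t : ℕ) : ℂ :=
  ∑ d ∈ nearG a b c (1 / B) 1 t, h d * w (wslot a b c t d (some j))

/-- the weight of one prime -/
noncomputable def gw (a b c : ℤ) (w : ℕ → ℂ) (j t d p : ℕ) : ℂ :=
  if p * d ∣ (fv a b c t).natAbs then w (wslot a b c t d (some (j * p))) else 0

/-- the sum over the primes that divide the cofactor -/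
noncomputable def ZW (a b c : ℤ) (w g : ℕ → ℂ) (P : Finset ℕ) (j t d : ℕ) : ℂ :=
  ∑ p ∈ P, g p * gw a b c w j t d p

open Classical in
/-- the bad pairs -/
noncomputable def Bad (a b c : ℤ) (B : ℝ) (w : ℕ → ℂ) (cp : ℂ) (j p t : ℕ) : ℕ :=
  ((nearG a b c (1 / B) 1 t).filter
    (fun d => p * d ∣ (fv a b c t).natAbs ∧ w (wslot a b c t d (some (j * p)) / p) ≠
      cp * w (wslot a b c t d (some (j * p))))).card

/-- one prime -/
theorem one_pw (hf : ∀ t : ℕ, fv a b c t ≠ 0) {h w : ℕ → ℂ} (hh : CMul h) {B : ℝ} {p : ℕ}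
    (hp : p.Prime) (j t : ℕ) :
    ∑ d ∈ (nearG a b c (1 / B) 1 t).filter (fun d => p ∣ d),
        h d * w (wslot a b c t d (some j)) =
      h p * ∑ d ∈ DP a b c B p t, h d * w (wslot a b c t d (some (j * p)) / p) := by
  have hF : (fv a b c t).natAbs ≠ 0 := Int.natAbs_ne_zero.2 (hf t)
  rw [dp_image, Finset.sum_image (fun x _ y _ h => Nat.eq_of_mul_eq_mul_left hp.pos h),
    Finset.mul_sum]
  refine Finset.sum_congr rfl fun d hd => ?_
  have hd' : p * d ∣ (fv a b c t).natAbs := by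
    unfold DP at hd
    exact (Finset.mem_filter.1 hd).2.1
  have hpd : p * d ≠ 0 := fun h => hF (by rw [h] at hd'; exact Nat.eq_zero_of_zero_dvd hd')
  have hd0 : d ≠ 0 := right_ne_zero_of_mul hpd
  rw [hh.1 p d hp.ne_zero hd0, wslot_shift hp.pos (Nat.pos_of_ne_zero hd0) hd' j]
  ring

/-- the bad pairs of one prime -/
theorem bad_le {h w : ℕ → ℂ} (hh : CMul h) (hw : B1 w) {cp : ℂ} (hcp : ‖cp‖ ≤ 1) {B : ℝ}
    (j p t : ℕ) :
    ‖∑ d ∈ (nearG a b c (1 / B) 1 t).filter (fun d => p * d ∣ (fv a b c t).natAbs),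
        h d * w (wslot a b c t d (some (j * p)) / p) -
      ∑ d ∈ (nearG a b c (1 / B) 1 t).filter (fun d => p * d ∣ (fv a b c t).natAbs),
        h d * (cp * w (wslot a b c t d (some (j * p))))‖ ≤ 2 * (Bad a b c B w cp j p t : ℝ) := by
  classical
  rw [← Finset.sum_sub_distrib]
  refine (norm_sum_le _ _).trans ?_
  unfold Bad
  rw [Finset.card_filter, Finset.sum_filter]
  push_cast
  rw [Finset.mul_sum]
  refine Finset.sum_le_sum fun d _ => ?_
  by_cases h1 : p * d ∣ (fv a b c t).natAbs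
  · rw [if_pos h1]
    by_cases h2 : w (wslot a b c t d (some (j * p)) / p) =
        cp * w (wslot a b c t d (some (j * p)))
    · rw [if_neg (fun h => h.2 h2), h2, sub_self, norm_zero, mul_zero]
    · rw [if_pos ⟨h1, h2⟩, ← mul_sub, norm_mul]
      have h3 : ‖w (wslot a b c t d (some (j * p)) / p) -
          cp * w (wslot a b c t d (some (j * p)))‖ ≤ 2 := by
        refine (norm_sub_le _ _).trans ?_
        rw [norm_mul]
        have h4 := hw (wslot a b c t d (some (j * p)) / p)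
        have h5 := mul_le_one₀ hcp (norm_nonneg _) (hw (wslot a b c t d (some (j * p))))
        linarith
      have h6 := mul_le_mul (hh.2 d) h3 (norm_nonneg _) zero_le_one
      linarith
  · rw [if_neg h1, if_neg (fun h => h1 h.1), mul_zero]

/-- Katai's identity for one `t` -/
theorem one_tw (hf : ∀ t : ℕ, fv a b c t ≠ 0) {h w : ℕ → ℂ} (hh : CMul h) (hw : B1 w)
    {cp : ℕ → ℂ} (hcp : ∀ p, ‖cp p‖ ≤ 1)
    {B : ℝ} (hB : 1 ≤ B) (P : Finset ℕ) (hP : ∀ p ∈ P, p.Prime) (j t : ℕ) :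
    mass P * ‖DW a b c B h w j t‖ ≤
      ∑ d ∈ nearG a b c (1 / B) 1 t, |mass P - omP P d| +
      ∑ d ∈ nearG a b c (1 / B) 1 t, ‖ZW a b c w (fun p => h p * cp p) P j t d‖ +
      ∑ p ∈ P, (((nearG a b c (1 / (p * B)) (1 / B) t).card : ℝ) +
        (nearG a b c (1 / p) 1 t).card) +
      ∑ p ∈ P, 2 * (Bad a b c B w (cp p) j p t : ℝ) := by
  classical
  set D := nearG a b c (1 / B) 1 t with hD
  set u : ℕ → ℂ := fun d => h d * w (wslot a b c t d (some j)) with hu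
  set g : ℕ → ℕ → ℂ := fun p d => h d * w (wslot a b c t d (some (j * p)) / p) with hg
  set g' : ℕ → ℕ → ℂ := fun p d => h d * (cp p * w (wslot a b c t d (some (j * p)))) with hg'
  have hm0 : 0 ≤ mass P := Finset.sum_nonneg fun p _ => by positivity
  have e1 : (mass P : ℂ) * DW a b c B h w j t =
      ∑ d ∈ D, ((mass P - omP P d : ℝ) : ℂ) * u d + ∑ p ∈ P, ∑ d ∈ D.filter (fun d => p ∣ d),
        u d := by
    have e2 : ∑ p ∈ P, ∑ d ∈ D.filter (fun d => p ∣ d), u d = ∑ d ∈ D, (omP P d : ℂ) * u d := by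
      simp_rw [Finset.sum_filter]
      rw [Finset.sum_comm]
      refine Finset.sum_congr rfl fun d _ => ?_
      rw [← Finset.sum_filter, Finset.sum_const, nsmul_eq_mul]
      rfl
    rw [e2, DW, Finset.mul_sum, ← Finset.sum_add_distrib]
    refine Finset.sum_congr rfl fun d _ => ?_
    push_cast
    ring
  have e3 : ∑ p ∈ P, ∑ d ∈ D.filter (fun d => p ∣ d), u d =
      (∑ d ∈ D, h d * ZW a b c w (fun p => h p * cp p) P j t d) +
      ∑ p ∈ P, h p * (∑ d ∈ DP a b c B p t, g p d - ∑ d ∈ D.filter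
        (fun d => p * d ∣ (fv a b c t).natAbs), g p d) +
      ∑ p ∈ P, h p * (∑ d ∈ D.filter (fun d => p * d ∣ (fv a b c t).natAbs), g p d -
        ∑ d ∈ D.filter (fun d => p * d ∣ (fv a b c t).natAbs), g' p d) := by
    have e4 : ∑ d ∈ D, h d * ZW a b c w (fun p => h p * cp p) P j t d =
        ∑ p ∈ P, h p * ∑ d ∈ D.filter (fun d => p * d ∣ (fv a b c t).natAbs), g' p d := by
      simp_rw [Finset.sum_filter, Finset.mul_sum]
      rw [Finset.sum_comm]
      refine Finset.sum_congr rfl fun d _ => ?_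
      rw [ZW, Finset.mul_sum]
      refine Finset.sum_congr rfl fun p _ => ?_
      unfold gw
      split_ifs
      · simp only [hg']
        ring
      · simp
    rw [e4, ← Finset.sum_add_distrib, ← Finset.sum_add_distrib]
    refine Finset.sum_congr rfl fun p hp => ?_
    rw [one_pw hf hh (hP p hp) j t]
    ring
  have e5 : mass P * ‖DW a b c B h w j t‖ = ‖(mass P : ℂ) * DW a b c B h w j t‖ := by
    rw [norm_mul, Complex.norm_real, Real.norm_eq_abs, abs_of_nonneg hm0]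
  rw [e5, e1, e3, ← add_assoc, ← add_assoc]
  refine (norm_add_le _ _).trans (add_le_add ((norm_add_le _ _).trans (add_le_add
    ((norm_add_le _ _).trans (add_le_add ?_ ?_)) ?_)) ?_)
  · refine (norm_sum_le _ _).trans (Finset.sum_le_sum fun d _ => ?_)
    rw [norm_mul, Complex.norm_real, Real.norm_eq_abs]
    refine mul_le_of_le_one_right (abs_nonneg _) ?_
    rw [hu, norm_mul]
    exact mul_le_one₀ (hh.2 d) (norm_nonneg _) (hw _)
  · refine (norm_sum_le _ _).trans (Finset.sum_le_sum fun d _ => ?_)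
    rw [norm_mul]
    exact mul_le_of_le_one_left (norm_nonneg _) (hh.2 d)
  · refine (norm_sum_le _ _).trans (Finset.sum_le_sum fun p hp => ?_)
    rw [norm_mul]
    refine (mul_le_of_le_one_left (norm_nonneg _) (hh.2 p)).trans ?_
    refine err_p hB (hP p hp) t (g p) fun d => ?_
    rw [hg, norm_mul]
    exact mul_le_one₀ (hh.2 d) (norm_nonneg _) (hw _)
  · refine (norm_sum_le _ _).trans (Finset.sum_le_sum fun p hp => ?_)
    rw [norm_mul]
    refine (mul_le_of_le_one_left (norm_nonneg _) (hh.2 p)).trans ?_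
    exact bad_le hh hw (hcp p) j p t

/-! ### squares -/

theorem gw_off (hf : ∀ t : ℕ, fv a b c t ≠ 0) {w : ℕ → ℂ}
    {α β : ℝ} {j t d p q : ℕ} (hd : d ∈ nearG a b c α β t) (hp : p.Prime)
    (hq : q.Prime) (hpq : p ≠ q) (hpa : ¬ (p : ℤ) ∣ a) (hqa : ¬ (q : ℤ) ∣ a) :
    gw a b c w j t d p * (starRingEnd ℂ) (gw a b c w j t d q) =
      chi p q (a * (fv a b c t / d)) * (w (wslot a b c t d (some (j * p))) *
        (fun n => (starRingEnd ℂ) (w n)) (wslot a b c t d (some (j * q)))) := by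
  obtain ⟨⟨hd1, hF⟩, -⟩ := K99.mem_near.1 hd
  have hd0 : 0 < d := Nat.pos_of_ne_zero fun h => hF (by
    rw [h] at hd1
    exact Nat.eq_zero_of_zero_dvd hd1)
  have hi := chi_iff hd0 hd1 hp hq hpq hpa hqa
  unfold gw chi
  by_cases h1 : p * d ∣ (fv a b c t).natAbs
  · by_cases h2 : q * d ∣ (fv a b c t).natAbs
    · rw [if_pos h1, if_pos h2, if_pos (hi.2 ⟨h1, h2⟩), one_mul]
    · rw [if_neg h2, if_neg (fun h => h2 (hi.1 h).2), map_zero, mul_zero, zero_mul]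
  · rw [if_neg h1, if_neg (fun h => h1 (hi.1 h).1), zero_mul, zero_mul]

/-- the square of `ZW` -/
theorem sq_lew (hf : ∀ t : ℕ, fv a b c t ≠ 0) {w g : ℕ → ℂ} (hw : B1 w)
    (hg : ∀ p, ‖g p‖ ≤ 1)
    (B : ℝ) (P : Finset ℕ) (hP : ∀ p ∈ P, p.Prime) (hPa : ∀ p ∈ P, ¬ (p : ℤ) ∣ a) (j N : ℕ) :
    ∑ t ∈ Finset.Icc 1 N, ∑ d ∈ nearG a b c (1 / B) 1 t, ‖ZW a b c w g P j t d‖ ^ 2 ≤
      ∑ p ∈ P, ∑ t ∈ Finset.Icc 1 N, (((nearG a b c (1 / B) 1 t).filter
        (fun d => p * d ∣ (fv a b c t).natAbs)).card : ℝ) +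
      ∑ x ∈ P.offDiag, ‖TwX a b c (1 / B) 1 (chi x.1 x.2) w
        (fun n => (starRingEnd ℂ) (w n)) (some (j * x.1)) (some (j * x.2)) N‖ := by
  classical
  have e1 : ∀ t d, ((‖ZW a b c w g P j t d‖ ^ 2 : ℝ) : ℂ) =
      ∑ p ∈ P, (g p * (starRingEnd ℂ) (g p)) *
        (gw a b c w j t d p * (starRingEnd ℂ) (gw a b c w j t d p)) +
      ∑ x ∈ P.offDiag, (g x.1 * (starRingEnd ℂ) (g x.2)) *
        (gw a b c w j t d x.1 * (starRingEnd ℂ) (gw a b c w j t d x.2)) := by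
    intro t d
    rw [← Complex.normSq_eq_norm_sq, ← Complex.mul_conj, ZW, map_sum, Finset.sum_mul_sum,
      ← Finset.sum_product', ← Finset.diag_union_offDiag,
      Finset.sum_union (Finset.disjoint_diag_offDiag P), Finset.sum_diag]
    congr 1
    · exact Finset.sum_congr rfl fun p _ => by rw [map_mul]; ring
    · exact Finset.sum_congr rfl fun x _ => by rw [map_mul]; ring
  have e2 : ((∑ t ∈ Finset.Icc 1 N, ∑ d ∈ nearG a b c (1 / B) 1 t,
      ‖ZW a b c w g P j t d‖ ^ 2 : ℝ) : ℂ) =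
      ∑ p ∈ P, (g p * (starRingEnd ℂ) (g p)) * ∑ t ∈ Finset.Icc 1 N,
        ∑ d ∈ nearG a b c (1 / B) 1 t,
          (gw a b c w j t d p * (starRingEnd ℂ) (gw a b c w j t d p)) +
      ∑ x ∈ P.offDiag, (g x.1 * (starRingEnd ℂ) (g x.2)) *
        TwX a b c (1 / B) 1 (chi x.1 x.2) w
        (fun n => (starRingEnd ℂ) (w n)) (some (j * x.1)) (some (j * x.2)) N := by
    rw [ofReal2]
    rw [Finset.sum_congr rfl fun t ht => Finset.sum_congr rfl fun d hd => e1 t d,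
      Finset.sum_congr rfl fun t _ => Finset.sum_add_distrib, Finset.sum_add_distrib,
      swap3, swap3]
    congr 1
    · refine Finset.sum_congr rfl fun p _ => ?_
      simp_rw [Finset.mul_sum]
    · refine Finset.sum_congr rfl fun x hx => ?_
      rw [Finset.mem_offDiag] at hx
      unfold TwX
      simp_rw [Finset.mul_sum]
      refine Finset.sum_congr rfl fun t _ => Finset.sum_congr rfl fun d hd => ?_
      rw [gw_off hf hd (hP _ hx.1) (hP _ hx.2.1) hx.2.2 (hPa _ hx.1) (hPa _ hx.2.1)]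
  have e5 : 0 ≤ (∑ t ∈ Finset.Icc 1 N, ∑ d ∈ nearG a b c (1 / B) 1 t,
      ‖ZW a b c w g P j t d‖ ^ 2 : ℝ) :=
    Finset.sum_nonneg fun t _ => Finset.sum_nonneg fun d _ => by positivity
  have e4 := congrArg norm e2
  rw [Complex.norm_real, Real.norm_eq_abs, abs_of_nonneg e5] at e4
  rw [e4]
  have hgg : ∀ p q, ‖g p * (starRingEnd ℂ) (g q)‖ ≤ 1 := fun p q => by
    rw [norm_mul, RCLike.norm_conj]
    exact mul_le_one₀ (hg p) (norm_nonneg _) (hg q)
  refine (norm_add_le _ _).trans (add_le_add ?_ ?_)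
  · refine (norm_sum_le _ _).trans (Finset.sum_le_sum fun p _ => ?_)
    rw [norm_mul]
    refine (mul_le_of_le_one_left (norm_nonneg _) (hgg p p)).trans ?_
    refine (norm_sum_le _ _).trans (Finset.sum_le_sum fun t _ => ?_)
    refine (norm_sum_le _ _).trans ?_
    rw [Finset.card_filter]
    push_cast
    refine Finset.sum_le_sum fun d _ => ?_
    unfold gw
    split_ifs
    · rw [norm_mul, RCLike.norm_conj]
      exact mul_le_one₀ (hw _) (norm_nonneg _) (hw _)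
    · simp
  · refine (norm_sum_le _ _).trans (Finset.sum_le_sum fun x _ => ?_)
    rw [norm_mul]
    exact mul_le_of_le_one_left (norm_nonneg _) (hgg x.1 x.2)

/-- the sum over `t ≤ N` -/
theorem all_tw (hf : ∀ t : ℕ, fv a b c t ≠ 0) {h w : ℕ → ℂ} (hh : CMul h) (hw : B1 w)
    {cp : ℕ → ℂ} (hcp : ∀ p, ‖cp p‖ ≤ 1) {B : ℝ} (hB : 1 ≤ B) (P : Finset ℕ)
    (hP : ∀ p ∈ P, p.Prime)
    (hPa : ∀ p ∈ P, ¬ (p : ℤ) ∣ a) (j N : ℕ) {l : ℝ} (hl : 0 < l) :
    mass P * ∑ t ∈ Finset.Icc 1 N, ‖DW a b c B h w j t‖ ≤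
      l * ∑ t ∈ Finset.Icc 1 N, ((nearG a b c (1 / B) 1 t).card : ℝ) +
      (∑ t ∈ Finset.Icc 1 N, ∑ d ∈ nearG a b c (1 / B) 1 t, ((omP P d : ℝ) - mass P) ^ 2) /
        (2 * l) +
      (∑ p ∈ P, ∑ t ∈ Finset.Icc 1 N, ∑ d ∈ nearG a b c (1 / B) 1 t,
        (if p ∣ d then (1 : ℝ) else 0)) / (2 * l) +
      (∑ x ∈ P.offDiag, ‖TwX a b c (1 / B) 1 (chi x.1 x.2) w
        (fun n => (starRingEnd ℂ) (w n)) (some (j * x.1)) (some (j * x.2)) N‖) / (2 * l) +
      ∑ p ∈ P, (∑ t ∈ Finset.Icc 1 N, ((nearG a b c (1 / (p * B)) (1 / B) t).card : ℝ) +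
        (1 + 1 / (2 * l)) * ∑ t ∈ Finset.Icc 1 N, ((nearG a b c (1 / p) 1 t).card : ℝ)) +
      2 * ∑ p ∈ P, ∑ t ∈ Finset.Icc 1 N, (Bad a b c B w (cp p) j p t : ℝ) := by
  set D : ℕ → Finset ℕ := fun t => nearG a b c (1 / B) 1 t with hD
  set gg : ℕ → ℂ := fun p => h p * cp p with hgg
  have hgg1 : ∀ p, ‖gg p‖ ≤ 1 := fun p => by
    rw [hgg, norm_mul]
    exact mul_le_one₀ (hh.2 p) (norm_nonneg _) (hcp p)
  have e1 : mass P * ∑ t ∈ Finset.Icc 1 N, ‖DW a b c B h w j t‖ ≤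
      ∑ t ∈ Finset.Icc 1 N, (∑ d ∈ D t, |mass P - omP P d| +
      ∑ d ∈ D t, ‖ZW a b c w gg P j t d‖ +
      ∑ p ∈ P, (((nearG a b c (1 / (p * B)) (1 / B) t).card : ℝ) +
        (nearG a b c (1 / p) 1 t).card) + ∑ p ∈ P, 2 * (Bad a b c B w (cp p) j p t : ℝ)) := by
    rw [Finset.mul_sum]
    exact Finset.sum_le_sum fun t _ => one_tw hf hh hw hcp hB P hP j t
  have e2 : ∑ t ∈ Finset.Icc 1 N, ∑ d ∈ D t, |mass P - omP P d| ≤
      l / 2 * ∑ t ∈ Finset.Icc 1 N, ((D t).card : ℝ) +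
      (∑ t ∈ Finset.Icc 1 N, ∑ d ∈ D t, ((omP P d : ℝ) - mass P) ^ 2) / (2 * l) := by
    rw [Finset.mul_sum, Finset.sum_div, ← Finset.sum_add_distrib]
    refine Finset.sum_le_sum fun t _ => ?_
    rw [Finset.sum_div, ← nsmul_one, ← Finset.sum_const, Finset.mul_sum,
      ← Finset.sum_add_distrib]
    refine Finset.sum_le_sum fun d _ => ?_
    rw [abs_sub_comm]
    refine (am _ hl).trans (le_of_eq ?_)
    field_simp
  have e3 : ∑ t ∈ Finset.Icc 1 N, ∑ d ∈ D t, ‖ZW a b c w gg P j t d‖ ≤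
      l / 2 * ∑ t ∈ Finset.Icc 1 N, ((D t).card : ℝ) +
      (∑ t ∈ Finset.Icc 1 N, ∑ d ∈ D t, ‖ZW a b c w gg P j t d‖ ^ 2) / (2 * l) := by
    rw [Finset.mul_sum, Finset.sum_div, ← Finset.sum_add_distrib]
    refine Finset.sum_le_sum fun t _ => ?_
    rw [Finset.sum_div, ← nsmul_one, ← Finset.sum_const, Finset.mul_sum,
      ← Finset.sum_add_distrib]
    refine Finset.sum_le_sum fun d _ => ?_
    refine (amn _ hl).trans (le_of_eq ?_)
    field_simp
  have e4 := sq_lew hf hw hgg1 B P hP hPa j N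
  have e5 : ∑ p ∈ P, ∑ t ∈ Finset.Icc 1 N, (((D t).filter
        (fun d => p * d ∣ (fv a b c t).natAbs)).card : ℝ) ≤
      ∑ p ∈ P, ∑ t ∈ Finset.Icc 1 N, ∑ d ∈ D t, (if p ∣ d then (1 : ℝ) else 0) +
      ∑ p ∈ P, ∑ t ∈ Finset.Icc 1 N, ((nearG a b c (1 / p) 1 t).card : ℝ) := by
    rw [← Finset.sum_add_distrib]
    refine Finset.sum_le_sum fun p hp => ?_
    rw [← Finset.sum_add_distrib]
    exact Finset.sum_le_sum fun t _ => diag_le hB (hP p hp) t
  have e6 : ∑ t ∈ Finset.Icc 1 N, ∑ p ∈ P, (((nearG a b c (1 / (p * B)) (1 / B) t).card : ℝ) +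
        (nearG a b c (1 / p) 1 t).card) =
      ∑ p ∈ P, (∑ t ∈ Finset.Icc 1 N, ((nearG a b c (1 / (p * B)) (1 / B) t).card : ℝ) +
        ∑ t ∈ Finset.Icc 1 N, ((nearG a b c (1 / p) 1 t).card : ℝ)) := by
    rw [Finset.sum_comm]
    exact Finset.sum_congr rfl fun p _ => Finset.sum_add_distrib
  have e9 : ∑ t ∈ Finset.Icc 1 N, ∑ p ∈ P, 2 * (Bad a b c B w (cp p) j p t : ℝ) =
      2 * ∑ p ∈ P, ∑ t ∈ Finset.Icc 1 N, (Bad a b c B w (cp p) j p t : ℝ) := by
    rw [Finset.sum_comm, Finset.mul_sum]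
    exact Finset.sum_congr rfl fun p _ => (Finset.mul_sum _ _ _).symm
  have hl2 : 0 < 2 * l := by positivity
  have e7 : (∑ t ∈ Finset.Icc 1 N, ∑ d ∈ D t, ‖ZW a b c w gg P j t d‖ ^ 2) / (2 * l) ≤
      (∑ p ∈ P, ∑ t ∈ Finset.Icc 1 N, ∑ d ∈ D t, (if p ∣ d then (1 : ℝ) else 0)) / (2 * l) +
      1 / (2 * l) * (∑ p ∈ P, ∑ t ∈ Finset.Icc 1 N, ((nearG a b c (1 / p) 1 t).card : ℝ)) +
      (∑ x ∈ P.offDiag, ‖TwX a b c (1 / B) 1 (chi x.1 x.2) w
        (fun n => (starRingEnd ℂ) (w n)) (some (j * x.1)) (some (j * x.2)) N‖) / (2 * l) := by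
    rw [one_div_mul_eq_div, ← add_div, ← add_div]
    exact div_le_div_of_nonneg_right (e4.trans (add_le_add_left e5 _)) hl2.le
  rw [Finset.sum_add_distrib, Finset.sum_add_distrib, Finset.sum_add_distrib, e6, e9] at e1
  have e8 : ∑ p ∈ P, (∑ t ∈ Finset.Icc 1 N, ((nearG a b c (1 / (p * B)) (1 / B) t).card : ℝ) +
        (1 + 1 / (2 * l)) * ∑ t ∈ Finset.Icc 1 N, ((nearG a b c (1 / p) 1 t).card : ℝ)) =
      ∑ p ∈ P, (∑ t ∈ Finset.Icc 1 N, ((nearG a b c (1 / (p * B)) (1 / B) t).card : ℝ) +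
        ∑ t ∈ Finset.Icc 1 N, ((nearG a b c (1 / p) 1 t).card : ℝ)) +
      1 / (2 * l) * (∑ p ∈ P, ∑ t ∈ Finset.Icc 1 N, ((nearG a b c (1 / p) 1 t).card : ℝ)) := by
    rw [Finset.mul_sum, ← Finset.sum_add_distrib]
    exact Finset.sum_congr rfl fun p _ => by ring
  rw [e8]
  linarith

end KW3

end Pool.Agent.Lib.MP_a17b09_nt.QT
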