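import Pool.Agent.Lib.MP_a17b09_nt.QT.StmtsG99
import Pool.Agent.Lib.MP_a17b09_nt.QT.KatWL_3

/-!
Project QT (MP_a17b09_nt), row G1 (helper99): `StKatG`, Katai's argument for the pairs `(t, d)` with a
weight of the slot `j`, a fixed stable weight `g t d` and a completely multiplicative function of `d`
(fork of `KatW_3`).
-/

set_option autoImplicit false

open Filter Topology Finset

namespace Pool.Agent.Lib.MP_a17b09_nt.QT

open CH CH.PE HY SP
open PQ (B1)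
open AS (wslot cf)
open AS.L11 (om_w eslot_ne)
open AS.T11 (null_union null_mono)
open AN.Ty98 (lognull_union)
open AN.Da98 (lognull_lt)
open SPH (vl)
open K99
open KW3 (wslot_shift gw ZW Bad gw_off sq_lew)

namespace KG99

variable {a b c : ℤ}

/-- the sum -/
noncomputable def DG (a b c : ℤ) (B : ℝ) (h : ℕ → ℂ) (g : ℕ → ℕ → ℂ) (w : ℕ → ℂ) (j t : ℕ) : ℂ :=
  ∑ d ∈ nearG a b c (1 / B) 1 t, h d * g t d * w (wslot a b c t d (some j))

open Classical in
/-- the bad pairs of the weight `g` -/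
noncomputable def BadG (a b c : ℤ) (B : ℝ) (g : ℕ → ℕ → ℂ) (p t : ℕ) : ℕ :=
  ((nearG a b c (1 / B) 1 t).filter
    (fun d => p * d ∣ (fv a b c t).natAbs ∧ g t (p * d) ≠ g t d)).card

/-- one prime -/
theorem one_pg (hf : ∀ t : ℕ, fv a b c t ≠ 0) {h w : ℕ → ℂ} (hh : CMul h) (g : ℕ → ℕ → ℂ)
    {B : ℝ} {p : ℕ} (hp : p.Prime) (j t : ℕ) :
    ∑ d ∈ (nearG a b c (1 / B) 1 t).filter (fun d => p ∣ d),
        h d * g t d * w (wslot a b c t d (some j)) =
      h p * ∑ d ∈ DP a b c B p t, h d * g t (p * d) *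
        w (wslot a b c t d (some (j * p)) / p) := by
  have hF : (fv a b c t).natAbs ≠ 0 := Int.natAbs_ne_zero.2 (hf t)
  rw [dp_image, Finset.sum_image (fun x _ y _ h => Nat.eq_of_mul_eq_mul_left hp.pos h),
    Finset.mul_sum]
  refine Finset.sum_congr rfl fun d hd => ?_
  have hd' : p * d ∣ (fv a b c t).natAbs := by
    unfold DP at hd
    exact (Finset.mem_filter.1 hd).2.1
  have hpd : p * d ≠ 0 := fun h => hF (by rw [h] at hd'; exact Nat.eq_zero_of_zero_dvd hd')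
  have hd0 : d ≠ 0 := right_ne_zero_of_mul hpd
  rw [hh.1 p d hp.ne_zero hd0, wslot_shift hp.pos (Nat.pos_of_ne_zero hd0) hd' j]
  ring

/-- the bad pairs of one prime -/
theorem bad_leg {h w : ℕ → ℂ} (hh : CMul h) {g : ℕ → ℕ → ℂ} (hg : ∀ t d, ‖g t d‖ ≤ 1)
    (hw : B1 w) {cp : ℂ} (hcp : ‖cp‖ ≤ 1) {B : ℝ} (j p t : ℕ) :
    ‖∑ d ∈ (nearG a b c (1 / B) 1 t).filter (fun d => p * d ∣ (fv a b c t).natAbs),
        h d * g t (p * d) * w (wslot a b c t d (some (j * p)) / p) -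
      ∑ d ∈ (nearG a b c (1 / B) 1 t).filter (fun d => p * d ∣ (fv a b c t).natAbs),
        h d * g t d * (cp * w (wslot a b c t d (some (j * p))))‖ ≤
      2 * ((Bad a b c B w cp j p t : ℝ) + BadG a b c B g p t) := by
  classical
  rw [← Finset.sum_sub_distrib]
  refine (norm_sum_le _ _).trans ?_
  unfold Bad BadG
  rw [Finset.card_filter, Finset.card_filter, Finset.sum_filter]
  push_cast
  rw [← Finset.sum_add_distrib, Finset.mul_sum]
  refine Finset.sum_le_sum fun d _ => ?_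
  by_cases h1 : p * d ∣ (fv a b c t).natAbs
  · rw [if_pos h1]
    set X := w (wslot a b c t d (some (j * p)) / p) with hX
    set Y := cp * w (wslot a b c t d (some (j * p))) with hY
    have hXn : ‖X‖ ≤ 1 := hw _
    have hYn : ‖Y‖ ≤ 1 := by
      rw [hY, norm_mul]
      exact mul_le_one₀ hcp (norm_nonneg _) (hw _)
    have hA : ‖h d * g t (p * d) * X‖ ≤ 1 := by
      rw [norm_mul, norm_mul]
      exact mul_le_one₀ (mul_le_one₀ (hh.2 d) (norm_nonneg _) (hg _ _)) (norm_nonneg _) hXn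
    have hB : ‖h d * g t d * Y‖ ≤ 1 := by
      rw [norm_mul, norm_mul]
      exact mul_le_one₀ (mul_le_one₀ (hh.2 d) (norm_nonneg _) (hg _ _)) (norm_nonneg _) hYn
    have hAB : ‖h d * g t (p * d) * X - h d * g t d * Y‖ ≤ 2 := by
      refine (norm_sub_le _ _).trans ?_
      linarith
    by_cases h2 : X = Y
    · by_cases h3 : g t (p * d) = g t d
      · rw [if_neg (fun h => h.2 h2), if_neg (fun h => h.2 h3), h2, h3, sub_self, norm_zero]
        norm_num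
      · rw [if_neg (fun h => h.2 h2), if_pos ⟨h1, h3⟩]
        linarith
    · rw [if_pos ⟨h1, h2⟩]
      have h5 : (0 : ℝ) ≤ if p * d ∣ (fv a b c t).natAbs ∧ g t (p * d) ≠ g t d then 1 else 0 := by
        split_ifs <;> norm_num
      linarith
  · rw [if_neg h1, if_neg (fun h => h1 h.1), if_neg (fun h => h1 h.1)]
    norm_num

/-- Katai's identity for one `t` -/
theorem one_tg (hf : ∀ t : ℕ, fv a b c t ≠ 0) {h w : ℕ → ℂ} (hh : CMul h) {g : ℕ → ℕ → ℂ}
    (hg : ∀ t d, ‖g t d‖ ≤ 1) (hw : B1 w) {cp : ℕ → ℂ} (hcp : ∀ p, ‖cp p‖ ≤ 1)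
    {B : ℝ} (hB : 1 ≤ B) (P : Finset ℕ) (hP : ∀ p ∈ P, p.Prime) (j t : ℕ) :
    mass P * ‖DG a b c B h g w j t‖ ≤
      ∑ d ∈ nearG a b c (1 / B) 1 t, |mass P - omP P d| +
      ∑ d ∈ nearG a b c (1 / B) 1 t, ‖ZW a b c w (fun p => h p * cp p) P j t d‖ +
      ∑ p ∈ P, (((nearG a b c (1 / (p * B)) (1 / B) t).card : ℝ) +
        (nearG a b c (1 / p) 1 t).card) +
      ∑ p ∈ P, 2 * ((Bad a b c B w (cp p) j p t : ℝ) + BadG a b c B g p t) := by
  classical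
  set D := nearG a b c (1 / B) 1 t with hD
  set u : ℕ → ℂ := fun d => h d * g t d * w (wslot a b c t d (some j)) with hu
  set G : ℕ → ℕ → ℂ := fun p d => h d * g t (p * d) *
    w (wslot a b c t d (some (j * p)) / p) with hG
  set G' : ℕ → ℕ → ℂ := fun p d => h d * g t d *
    (cp p * w (wslot a b c t d (some (j * p)))) with hG'
  have hm0 : 0 ≤ mass P := Finset.sum_nonneg fun p _ => by positivity
  have e1 : (mass P : ℂ) * DG a b c B h g w j t =
      ∑ d ∈ D, ((mass P - omP P d : ℝ) : ℂ) * u d + ∑ p ∈ P, ∑ d ∈ D.filter (fun d => p ∣ d),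
        u d := by
    have e2 : ∑ p ∈ P, ∑ d ∈ D.filter (fun d => p ∣ d), u d = ∑ d ∈ D, (omP P d : ℂ) * u d := by
      simp_rw [Finset.sum_filter]
      rw [Finset.sum_comm]
      refine Finset.sum_congr rfl fun d _ => ?_
      rw [← Finset.sum_filter, Finset.sum_const, nsmul_eq_mul]
      rfl
    rw [e2, DG, Finset.mul_sum, ← Finset.sum_add_distrib]
    refine Finset.sum_congr rfl fun d _ => ?_
    push_cast
    ring
  have e3 : ∑ p ∈ P, ∑ d ∈ D.filter (fun d => p ∣ d), u d =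
      (∑ d ∈ D, h d * g t d * ZW a b c w (fun p => h p * cp p) P j t d) +
      ∑ p ∈ P, h p * (∑ d ∈ DP a b c B p t, G p d - ∑ d ∈ D.filter
        (fun d => p * d ∣ (fv a b c t).natAbs), G p d) +
      ∑ p ∈ P, h p * (∑ d ∈ D.filter (fun d => p * d ∣ (fv a b c t).natAbs), G p d -
        ∑ d ∈ D.filter (fun d => p * d ∣ (fv a b c t).natAbs), G' p d) := by
    have e4 : ∑ d ∈ D, h d * g t d * ZW a b c w (fun p => h p * cp p) P j t d =
        ∑ p ∈ P, h p * ∑ d ∈ D.filter (fun d => p * d ∣ (fv a b c t).natAbs), G' p d := by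
      simp_rw [Finset.sum_filter, Finset.mul_sum]
      rw [Finset.sum_comm]
      refine Finset.sum_congr rfl fun d _ => ?_
      rw [ZW, Finset.mul_sum]
      refine Finset.sum_congr rfl fun p _ => ?_
      unfold KW3.gw
      split_ifs
      · simp only [hG']
        ring
      · simp
    rw [e4, ← Finset.sum_add_distrib, ← Finset.sum_add_distrib]
    refine Finset.sum_congr rfl fun p hp => ?_
    rw [one_pg hf hh g (hP p hp) j t]
    ring
  have e5 : mass P * ‖DG a b c B h g w j t‖ = ‖(mass P : ℂ) * DG a b c B h g w j t‖ := by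
    rw [norm_mul, Complex.norm_real, Real.norm_eq_abs, abs_of_nonneg hm0]
  have hhg : ∀ d e, ‖h d * g t e‖ ≤ 1 := fun d e => by
    rw [norm_mul]
    exact mul_le_one₀ (hh.2 d) (norm_nonneg _) (hg _ _)
  rw [e5, e1, e3, ← add_assoc, ← add_assoc]
  refine (norm_add_le _ _).trans (add_le_add ((norm_add_le _ _).trans (add_le_add
    ((norm_add_le _ _).trans (add_le_add ?_ ?_)) ?_)) ?_)
  · refine (norm_sum_le _ _).trans (Finset.sum_le_sum fun d _ => ?_)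
    rw [norm_mul, Complex.norm_real, Real.norm_eq_abs]
    refine mul_le_of_le_one_right (abs_nonneg _) ?_
    rw [hu, norm_mul]
    exact mul_le_one₀ (hhg d d) (norm_nonneg _) (hw _)
  · refine (norm_sum_le _ _).trans (Finset.sum_le_sum fun d _ => ?_)
    rw [norm_mul]
    exact mul_le_of_le_one_left (norm_nonneg _) (hhg d d)
  · refine (norm_sum_le _ _).trans (Finset.sum_le_sum fun p hp => ?_)
    rw [norm_mul]
    refine (mul_le_of_le_one_left (norm_nonneg _) (hh.2 p)).trans ?_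
    refine err_p hB (hP p hp) t (G p) fun d => ?_
    rw [hG, norm_mul]
    exact mul_le_one₀ (hhg d (p * d)) (norm_nonneg _) (hw _)
  · refine (norm_sum_le _ _).trans (Finset.sum_le_sum fun p hp => ?_)
    rw [norm_mul]
    refine (mul_le_of_le_one_left (norm_nonneg _) (hh.2 p)).trans ?_
    exact bad_leg hh hg hw (hcp p) j p t

/-- the sum over `t ≤ N` -/
theorem all_tg (hf : ∀ t : ℕ, fv a b c t ≠ 0) {h w : ℕ → ℂ} (hh : CMul h) {g : ℕ → ℕ → ℂ}
    (hg : ∀ t d, ‖g t d‖ ≤ 1) (hw : B1 w)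
    {cp : ℕ → ℂ} (hcp : ∀ p, ‖cp p‖ ≤ 1) {B : ℝ} (hB : 1 ≤ B) (P : Finset ℕ)
    (hP : ∀ p ∈ P, p.Prime)
    (hPa : ∀ p ∈ P, ¬ (p : ℤ) ∣ a) (j N : ℕ) {l : ℝ} (hl : 0 < l) :
    mass P * ∑ t ∈ Finset.Icc 1 N, ‖DG a b c B h g w j t‖ ≤
      l * ∑ t ∈ Finset.Icc 1 N, ((nearG a b c (1 / B) 1 t).card : ℝ) +
      (∑ t ∈ Finset.Icc 1 N, ∑ d ∈ nearG a b c (1 / B) 1 t, ((omP P d : ℝ) - mass P) ^ 2) /
        (2 * l) +
      (∑ p ∈ P, ∑ t ∈ Finset.Icc 1 N, ∑ d ∈ nearG a b c (1 / B) 1 t,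
        (if p ∣ d then (1 : ℝ) else 0)) / (2 * l) +
      (∑ x ∈ P.offDiag, ‖TwX a b c (1 / B) 1 (chi x.1 x.2) w
        (fun n => (starRingEnd ℂ) (w n)) (some (j * x.1)) (some (j * x.2)) N‖) / (2 * l) +
      ∑ p ∈ P, (∑ t ∈ Finset.Icc 1 N, ((nearG a b c (1 / (p * B)) (1 / B) t).card : ℝ) +
        (1 + 1 / (2 * l)) * ∑ t ∈ Finset.Icc 1 N, ((nearG a b c (1 / p) 1 t).card : ℝ)) +
      2 * ∑ p ∈ P, ∑ t ∈ Finset.Icc 1 N, ((Bad a b c B w (cp p) j p t : ℝ) + BadG a b c B g p t) := by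
  set D : ℕ → Finset ℕ := fun t => nearG a b c (1 / B) 1 t with hD
  set gg : ℕ → ℂ := fun p => h p * cp p with hgg
  have hgg1 : ∀ p, ‖gg p‖ ≤ 1 := fun p => by
    rw [hgg, norm_mul]
    exact mul_le_one₀ (hh.2 p) (norm_nonneg _) (hcp p)
  have e1 : mass P * ∑ t ∈ Finset.Icc 1 N, ‖DG a b c B h g w j t‖ ≤
      ∑ t ∈ Finset.Icc 1 N, (∑ d ∈ D t, |mass P - omP P d| +
      ∑ d ∈ D t, ‖ZW a b c w gg P j t d‖ +
      ∑ p ∈ P, (((nearG a b c (1 / (p * B)) (1 / B) t).card : ℝ) +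
        (nearG a b c (1 / p) 1 t).card) + ∑ p ∈ P, 2 * ((Bad a b c B w (cp p) j p t : ℝ) + BadG a b c B g p t)) := by
    rw [Finset.mul_sum]
    exact Finset.sum_le_sum fun t _ => one_tg hf hh hg hw hcp hB P hP j t
  have e2 : ∑ t ∈ Finset.Icc 1 N, ∑ d ∈ D t, |mass P - omP P d| ≤
      l / 2 * ∑ t ∈ Finset.Icc 1 N, ((D t).card : ℝ) +
      (∑ t ∈ Finset.Icc 1 N, ∑ d ∈ D t, ((omP P d : ℝ) - mass P) ^ 2) / (2 * l) := by
    rw [Finset.mul_sum, Finset.sum_div, ← Finset.sum_add_distrib]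
    refine Finset.sum_le_sum fun t _ => ?_
    rw [Finset.sum_div, ← nsmul_one, ← Finset.sum_const, Finset.mul_sum,
      ← Finset.sum_add_distrib]
    refine Finset.sum_le_sum fun d _ => ?_
    rw [abs_sub_comm]
    refine (am _ hl).trans (le_of_eq ?_)
    field_simp
  have e3 : ∑ t ∈ Finset.Icc 1 N, ∑ d ∈ D t, ‖ZW a b c w gg P j t d‖ ≤
      l / 2 * ∑ t ∈ Finset.Icc 1 N, ((D t).card : ℝ) +
      (∑ t ∈ Finset.Icc 1 N, ∑ d ∈ D t, ‖ZW a b c w gg P j t d‖ ^ 2) / (2 * l) := by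
    rw [Finset.mul_sum, Finset.sum_div, ← Finset.sum_add_distrib]
    refine Finset.sum_le_sum fun t _ => ?_
    rw [Finset.sum_div, ← nsmul_one, ← Finset.sum_const, Finset.mul_sum,
      ← Finset.sum_add_distrib]
    refine Finset.sum_le_sum fun d _ => ?_
    refine (amn _ hl).trans (le_of_eq ?_)
    field_simp
  have e4 := sq_lew hf hw hgg1 B P hP hPa j N
  have e5 : ∑ p ∈ P, ∑ t ∈ Finset.Icc 1 N, (((D t).filter
        (fun d => p * d ∣ (fv a b c t).natAbs)).card : ℝ) ≤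
      ∑ p ∈ P, ∑ t ∈ Finset.Icc 1 N, ∑ d ∈ D t, (if p ∣ d then (1 : ℝ) else 0) +
      ∑ p ∈ P, ∑ t ∈ Finset.Icc 1 N, ((nearG a b c (1 / p) 1 t).card : ℝ) := by
    rw [← Finset.sum_add_distrib]
    refine Finset.sum_le_sum fun p hp => ?_
    rw [← Finset.sum_add_distrib]
    exact Finset.sum_le_sum fun t _ => diag_le hB (hP p hp) t
  have e6 : ∑ t ∈ Finset.Icc 1 N, ∑ p ∈ P, (((nearG a b c (1 / (p * B)) (1 / B) t).card : ℝ) +
        (nearG a b c (1 / p) 1 t).card) =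
      ∑ p ∈ P, (∑ t ∈ Finset.Icc 1 N, ((nearG a b c (1 / (p * B)) (1 / B) t).card : ℝ) +
        ∑ t ∈ Finset.Icc 1 N, ((nearG a b c (1 / p) 1 t).card : ℝ)) := by
    rw [Finset.sum_comm]
    exact Finset.sum_congr rfl fun p _ => Finset.sum_add_distrib
  have e9 : ∑ t ∈ Finset.Icc 1 N, ∑ p ∈ P, 2 * ((Bad a b c B w (cp p) j p t : ℝ) + BadG a b c B g p t) =
      2 * ∑ p ∈ P, ∑ t ∈ Finset.Icc 1 N, ((Bad a b c B w (cp p) j p t : ℝ) + BadG a b c B g p t) := by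
    rw [Finset.sum_comm, Finset.mul_sum]
    exact Finset.sum_congr rfl fun p _ => (Finset.mul_sum _ _ _).symm
  have hl2 : 0 < 2 * l := by positivity
  have e7 : (∑ t ∈ Finset.Icc 1 N, ∑ d ∈ D t, ‖ZW a b c w gg P j t d‖ ^ 2) / (2 * l) ≤
      (∑ p ∈ P, ∑ t ∈ Finset.Icc 1 N, ∑ d ∈ D t, (if p ∣ d then (1 : ℝ) else 0)) / (2 * l) +
      1 / (2 * l) * (∑ p ∈ P, ∑ t ∈ Finset.Icc 1 N, ((nearG a b c (1 / p) 1 t).card : ℝ)) +
      (∑ x ∈ P.offDiag, ‖TwX a b c (1 / B) 1 (chi x.1 x.2) w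
        (fun n => (starRingEnd ℂ) (w n)) (some (j * x.1)) (some (j * x.2)) N‖) / (2 * l) := by
    rw [one_div_mul_eq_div, ← add_div, ← add_div]
    exact div_le_div_of_nonneg_right (e4.trans (add_le_add_left e5 _)) hl2.le
  rw [Finset.sum_add_distrib, Finset.sum_add_distrib, Finset.sum_add_distrib, e6, e9] at e1
  have e8 : ∑ p ∈ P, (∑ t ∈ Finset.Icc 1 N, ((nearG a b c (1 / (p * B)) (1 / B) t).card : ℝ) +
        (1 + 1 / (2 * l)) * ∑ t ∈ Finset.Icc 1 N, ((nearG a b c (1 / p) 1 t).card : ℝ)) =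
      ∑ p ∈ P, (∑ t ∈ Finset.Icc 1 N, ((nearG a b c (1 / (p * B)) (1 / B) t).card : ℝ) +
        ∑ t ∈ Finset.Icc 1 N, ((nearG a b c (1 / p) 1 t).card : ℝ)) +
      1 / (2 * l) * (∑ p ∈ P, ∑ t ∈ Finset.Icc 1 N, ((nearG a b c (1 / p) 1 t).card : ℝ)) := by
    rw [Finset.mul_sum, ← Finset.sum_add_distrib]
    exact Finset.sum_congr rfl fun p _ => by ring
  rw [e8]
  linarith

end KG99

end Pool.Agent.Lib.MP_a17b09_nt.QT
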