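import Pool.Agent.Lib.MP_a17b09_nt.QT.KatWL_3

/-!
Project QT (MP_a17b09_nt), row T1 (helper3): `StKatW`, Katai's argument for the pairs `(t, d)` with a
weight of the slot `j` and a completely multiplicative function of `d` (fork of `Kat_99`).
-/

set_option autoImplicit false

open Filter Topology Finset

namespace Pool.Agent.Lib.MP_a17b09_nt.QT

open CH CH.PE HY SP
open PQ (B1)
open AS (wslot cf)
open AS.L11 (om_w eslot_ne)
open AS.T11 (null_union null_mono)
open AN.Ty98 (lognull_union)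
open AN.Da98 (lognull_lt)
open SPH (vl)
open K99

open KW3 in
/-- **row T1** -/
theorem stKatW_3 (hR : StTkR) (hT : StTr) : StKatW := by
  intro a b c ha hf κ hK hP w hw hTw hD j hj ε hε
  have hκ := hK.1
  obtain ⟨P, hPs, hPX⟩ := hP (max 1 ((400 * κ / ε) ^ 2))
  have hPp : ∀ p ∈ P, p.Prime := fun p hp => (hPs p hp).1
  have hPa : ∀ p ∈ P, ¬ (p : ℤ) ∣ a := fun p hp h => (hPs p hp).2.1 (h.mul_left 2)
  obtain ⟨cp, hcp, hcpD⟩ : ∃ cp : ℕ → ℂ, (∀ p, ‖cp p‖ ≤ 1) ∧
      ∀ p, Spl a b c p → DilW a b c w p (cp p) := by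
    choose! cp h1 h2 using hD
    classical
    refine ⟨fun p => if Spl a b c p then cp p else 0, fun p => ?_, fun p hp => ?_⟩
    · show ‖if Spl a b c p then cp p else 0‖ ≤ 1
      split_ifs with h
      · exact h1 p h
      · simp
    · show DilW a b c w p (if Spl a b c p then cp p else 0)
      rw [if_pos hp]
      exact h2 p hp
  set S := mass P with hS
  have hS1 : 1 ≤ S := (le_max_left _ _).trans hPX
  have hS2 : (400 * κ / ε) ^ 2 ≤ S := (le_max_right _ _).trans hPX
  have hS0 : 0 < S := by linarith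
  set l := √S with hl
  have hl1 : 1 ≤ l := Real.one_le_sqrt.2 hS1
  have hl0 : 0 < l := by linarith
  have hll : l * l = S := Real.mul_self_sqrt hS0.le
  have hl2 : 400 * κ / ε ≤ l := Real.le_sqrt_of_sq_le hS2
  set L := ∑ p ∈ P, Real.log p with hL
  have hlogp : ∀ p ∈ P, 0 < Real.log p := fun p hp =>
    Real.log_pos (by exact_mod_cast (hPp p hp).one_lt)
  have hL0 : 0 ≤ L := Finset.sum_nonneg fun p hp => (hlogp p hp).le
  refine ⟨max 2 (Real.exp (40 * κ * L / ε)), le_max_left _ _, fun B hB => ?_⟩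
  have hB2 : 2 ≤ B := (le_max_left _ _).trans hB
  have hB0 : 0 < B := by linarith
  have hB1 : 1 ≤ B := by linarith
  have hlB : 40 * κ * L / ε ≤ Real.log B := by
    rw [Real.le_log_iff_exp_le hB0]
    exact (le_max_right _ _).trans hB
  have hlB0 : 0 < Real.log B := Real.log_pos (by linarith)
  have E1 := ev_near hK (α := 1 / B) (β := 1) (by positivity)
    (by rw [div_lt_one hB0]; linarith)
  have hlog1 : Real.log (1 / (1 / B)) = Real.log B := by
    congr 1
    field_simp
  rw [hlog1] at E1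
  obtain ⟨hR1, hR2⟩ := hR a b c κ hK P hPs hS0
  have E2 := hT a b c hf (fun d => ((omP P d : ℝ) - mass P) ^ 2) (fun d => sq_nonneg _)
    (2 * κ * mass P) (by positivity) hR1 B hB2
  have E3 : ∀ᶠ N : ℕ in atTop, ∀ p ∈ P, ∑ t ∈ Finset.Icc 1 N,
      ∑ d ∈ nearG a b c (1 / B) 1 t, (if p ∣ d then (1 : ℝ) else 0) ≤
        40 * (2 * κ * (2 / ((p : ℝ) + 1))) * Real.log B * N := by
    rw [Filter.eventually_all_finset]
    intro p hp
    refine hT a b c hf (fun d => if p ∣ d then (1 : ℝ) else 0)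
      (fun d => by split_ifs <;> norm_num) _ (by positivity) ?_ B hB2
    filter_upwards [hR2 p hp] with n hn
    refine le_trans (le_of_eq ?_) hn
    rw [Finset.sum_filter]
    refine Finset.sum_congr rfl fun d _ => ?_
    split_ifs <;> simp
  have E4 : ∀ᶠ N : ℕ in atTop, ∀ p ∈ P, ∑ t ∈ Finset.Icc 1 N,
      ((nearG a b c (1 / (p * B)) (1 / B) t).card : ℝ) ≤ 2 * (κ * Real.log p) * N := by
    rw [Filter.eventually_all_finset]
    intro p hp
    have hp0 : (0 : ℝ) < p := by exact_mod_cast (hPp p hp).pos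
    have hp1 : (1 : ℝ) < p := by exact_mod_cast (hPp p hp).one_lt
    have h2 := ev_near hK (α := 1 / (p * B)) (β := 1 / B) (by positivity) (by
      apply one_div_lt_one_div_of_lt hB0
      nlinarith)
    have h3 : 1 / B / (1 / (p * B)) = p := by field_simp
    rw [h3] at h2
    exact h2
  have E5 : ∀ᶠ N : ℕ in atTop, ∀ p ∈ P, ∑ t ∈ Finset.Icc 1 N,
      ((nearG a b c (1 / p) 1 t).card : ℝ) ≤ 2 * (κ * Real.log p) * N := by
    rw [Filter.eventually_all_finset]
    intro p hp
    have hp0 : (0 : ℝ) < p := by exact_mod_cast (hPp p hp).pos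
    have hp1 : (1 : ℝ) < p := by exact_mod_cast (hPp p hp).one_lt
    have h2 := ev_near hK (α := 1 / (p : ℝ)) (β := 1) (by positivity) (by
      rw [div_lt_one hp0]
      exact hp1)
    have h3 : 1 / (1 / (p : ℝ)) = p := by field_simp
    rw [h3] at h2
    exact h2
  set e' : ℝ := ε * Real.log B / (2 * (P.offDiag.card + 1)) with he'
  have he0 : 0 < e' := by positivity
  set e'' : ℝ := ε * Real.log B / (16 * (P.card + 1)) with he''
  have he0' : 0 < e'' := by positivity
  have hLN : LogNull {N : ℕ | ∃ x ∈ P.offDiag, N ∈ {N : ℕ | e' * N <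
      ‖TwX a b c (1 / B) 1 (chi x.1 x.2) w
        (fun n => (starRingEnd ℂ) (w n)) (some (j * x.1)) (some (j * x.2)) N‖}} := by
    refine lognull_union _ _ fun x hx => ?_
    rw [Finset.mem_offDiag] at hx
    have hx1 := (hPp _ hx.1).pos
    have hx2 := (hPp _ hx.2.1).pos
    refine twx_null hK hw (fun n => ?_) hTw (by positivity)
      (by rw [div_lt_one hB0]; linarith) (Nat.mul_pos hx1 hx2) (chi_per _ _) ?_ he0
    · show ‖(starRingEnd ℂ) (w n)‖ ≤ 1
      rw [RCLike.norm_conj]
      exact hw n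
    · intro h
      rw [Option.some.injEq] at h
      exact hx.2.2 (Nat.eq_of_mul_eq_mul_left hj h)
  have hLB : LogNull {N : ℕ | ∃ p ∈ P, N ∈ {N : ℕ | e'' * N <
      ∑ t ∈ Finset.Icc 1 N, (Bad a b c B w (cp p) j p t : ℝ)}} := by
    refine lognull_union _ _ fun p hp => ?_
    refine null_mono (hcpD p (hPs p hp) j B hB2 e'' he0') fun N hN => ?_
    simp only [Set.mem_ofPred_eq] at hN ⊢
    refine hN.trans_le (le_of_eq (Finset.sum_congr rfl fun t _ => ?_))
    unfold Bad
    congr!
  refine null_ev (E1.and (E2.and (E3.and (E4.and E5)))) (null_union hLN hLB) ?_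
  rintro N ⟨h, hh, hN⟩ ⟨F1, F2, F3, F4, F5⟩
  by_contra hcon'
  rw [Set.mem_union, not_or] at hcon'
  obtain ⟨hcon, hconB⟩ := hcon'
  simp only [Set.mem_ofPred_eq, not_exists, not_and, not_lt] at hcon hconB
  have hmain := all_tw hf hh hw hcp hB1 P hPp hPa j N hl0
  rw [← hS] at hmain
  have hN0 : (0 : ℝ) ≤ N := Nat.cast_nonneg N
  have G1 : l * ∑ t ∈ Finset.Icc 1 N, ((nearG a b c (1 / B) 1 t).card : ℝ) ≤
      l * (2 * (κ * Real.log B) * N) := mul_le_mul_of_nonneg_left F1 hl0.le
  have G2 : (∑ t ∈ Finset.Icc 1 N, ∑ d ∈ nearG a b c (1 / B) 1 t,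
      ((omP P d : ℝ) - S) ^ 2) / (2 * l) ≤ 40 * κ * l * Real.log B * N := by
    refine (div_le_div_of_nonneg_right F2 (by positivity)).trans (le_of_eq ?_)
    rw [← hS, ← hll]
    field_simp
  have G3 : (∑ p ∈ P, ∑ t ∈ Finset.Icc 1 N, ∑ d ∈ nearG a b c (1 / B) 1 t,
        (if p ∣ d then (1 : ℝ) else 0)) / (2 * l) ≤ 40 * κ * l * Real.log B * N := by
    have h3 : ∑ p ∈ P, ∑ t ∈ Finset.Icc 1 N, ∑ d ∈ nearG a b c (1 / B) 1 t,
        (if p ∣ d then (1 : ℝ) else 0) ≤ 40 * (2 * κ * S) * Real.log B * N := by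
      refine (Finset.sum_le_sum F3).trans (le_of_eq ?_)
      rw [hS, mass, ← Finset.sum_mul, ← Finset.sum_mul, ← Finset.mul_sum, ← Finset.mul_sum]
    refine (div_le_div_of_nonneg_right h3 (by positivity)).trans (le_of_eq ?_)
    rw [← hll]
    field_simp
  have G4 : (∑ x ∈ P.offDiag, ‖TwX a b c (1 / B) 1 (chi x.1 x.2) w
        (fun n => (starRingEnd ℂ) (w n)) (some (j * x.1)) (some (j * x.2)) N‖) / (2 * l) ≤
      ε / 4 * Real.log B * N := by
    have h3 : ∑ x ∈ P.offDiag, ‖TwX a b c (1 / B) 1 (chi x.1 x.2) w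
        (fun n => (starRingEnd ℂ) (w n)) (some (j * x.1)) (some (j * x.2)) N‖ ≤
        ε / 2 * Real.log B * N := by
      refine (Finset.sum_le_sum fun x hx => hcon x hx).trans ?_
      rw [Finset.sum_const, nsmul_eq_mul, he']
      have h4 : (P.offDiag.card : ℝ) * (ε * Real.log B / (2 * (P.offDiag.card + 1)) * N) =
          (P.offDiag.card / (P.offDiag.card + 1)) * (ε / 2 * Real.log B * N) := by
        rw [← div_div]
        ring
      rw [h4]
      refine mul_le_of_le_one_left (by positivity) ?_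
      rw [div_le_one (by positivity)]
      linarith
    refine (div_le_div_of_nonneg_right h3 (by positivity)).trans ?_
    rw [div_le_iff₀ (by positivity)]
    have h5 : 0 ≤ ε / 2 * Real.log B * N := by positivity
    have h6 := mul_le_mul_of_nonneg_left hl1 h5
    linear_combination h6
  have G5 : ∑ p ∈ P, (∑ t ∈ Finset.Icc 1 N, ((nearG a b c (1 / (p * B)) (1 / B) t).card : ℝ) +
        (1 + 1 / (2 * l)) * ∑ t ∈ Finset.Icc 1 N, ((nearG a b c (1 / p) 1 t).card : ℝ)) ≤
      5 * κ * L * N := by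
    have h3 : ∀ p ∈ P, ∑ t ∈ Finset.Icc 1 N, ((nearG a b c (1 / (p * B)) (1 / B) t).card : ℝ) +
        (1 + 1 / (2 * l)) * ∑ t ∈ Finset.Icc 1 N, ((nearG a b c (1 / p) 1 t).card : ℝ) ≤
        5 * κ * Real.log p * N := by
      intro p hp
      have h4 := F4 p hp
      have h5 := F5 p hp
      have h6 : (1 + 1 / (2 * l)) ≤ 3 / 2 := by
        have : 1 / (2 * l) ≤ 1 / 2 := by
          apply one_div_le_one_div_of_le (by norm_num)
          linarith
        linarith
      have h7 : (1 + 1 / (2 * l)) * ∑ t ∈ Finset.Icc 1 N, ((nearG a b c (1 / p) 1 t).card : ℝ) ≤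
          3 / 2 * (2 * (κ * Real.log p) * N) :=
        mul_le_mul h6 h5 (Finset.sum_nonneg fun t _ => Nat.cast_nonneg _) (by norm_num)
      linarith
    refine (Finset.sum_le_sum h3).trans (le_of_eq ?_)
    rw [hL, ← Finset.sum_mul, Finset.mul_sum]
  have G6 : 2 * ∑ p ∈ P, ∑ t ∈ Finset.Icc 1 N, (Bad a b c B w (cp p) j p t : ℝ) ≤
      ε / 8 * Real.log B * N := by
    have h3 : ∑ p ∈ P, ∑ t ∈ Finset.Icc 1 N, (Bad a b c B w (cp p) j p t : ℝ) ≤
        ε / 16 * Real.log B * N := by
      refine (Finset.sum_le_sum fun p hp => hconB p hp).trans ?_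
      rw [Finset.sum_const, nsmul_eq_mul, he'']
      have h4 : (P.card : ℝ) * (ε * Real.log B / (16 * (P.card + 1)) * N) =
          (P.card / (P.card + 1)) * (ε / 16 * Real.log B * N) := by
        rw [← div_div]
        ring
      rw [h4]
      refine mul_le_of_le_one_left (by positivity) ?_
      rw [div_le_one (by positivity)]
      linarith
    linarith
  -- the end
  have H1 : S * (ε * Real.log B * N) < S * ∑ t ∈ Finset.Icc 1 N, ‖DW a b c B h w j t‖ :=
    mul_lt_mul_of_pos_left hN hS0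
  have H2 : l * (2 * (κ * Real.log B) * N) + 40 * κ * l * Real.log B * N +
      40 * κ * l * Real.log B * N ≤ S * (ε / 4 * Real.log B * N) := by
    have h3 : 400 * κ * l ≤ ε * S := by
      rw [div_le_iff₀ hε] at hl2
      rw [← hll]
      have h4 := mul_le_mul_of_nonneg_right hl2 hl0.le
      linear_combination h4
    have h4 : 0 ≤ Real.log B * N := by positivity
    have h5 := mul_le_mul_of_nonneg_right h3 h4
    have h6 : 0 ≤ κ * l * (Real.log B * N) := by positivity
    linarith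
  have H3 : ε / 8 * Real.log B * N ≤ S * (ε / 8 * Real.log B * N) :=
    le_mul_of_one_le_left (by positivity) hS1
  have H4 : 5 * κ * L * N ≤ S * (ε / 8 * Real.log B * N) := by
    refine le_trans ?_ H3
    rw [div_le_iff₀ hε] at hlB
    have h5 := mul_le_mul_of_nonneg_right hlB hN0
    linarith
  have H5 : 0 ≤ S * (ε / 4 * Real.log B * N) := by positivity
  have H6 : ε / 4 * Real.log B * N ≤ S * (ε / 4 * Real.log B * N) :=
    le_mul_of_one_le_left (by positivity) hS1
  linarith

end Pool.Agent.Lib.MP_a17b09_nt.QT
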