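import Pool.Agent.Lib.MP_a17b09_nt.QT.AllQ3
import Pool.Agent.Lib.MP_a17b09_nt.QT.All2_64
import Pool.Agent.Lib.MP_a17b09_nt.QT.DilG_42
import Pool.Agent.Lib.MP_a17b09_nt.QT.CondG_53

/-!
Project QT (MP_a17b09_nt), row H3 (helper99): for most `t`, the classes of `Ω d`, `Ω (f (t + j d))` and
the type of `|f (t + j d)| / d` over the divisors `d` of `f t` near `t`.
-/

set_option autoImplicit false

open Filter Topology Finset

namespace Pool.Agent.Lib.MP_a17b09_nt.QT

open CH CH.PE HY SP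
open AN (Ty Nd)
open AS (wslot cf)
open AS.T11 (null_union null_mono)
open SPH (vl)

/-- the closed form of `CondL` -/
theorem condL_99 (a b c : ℤ) (ha : 0 < a) (hns : ¬ IsSquare (b ^ 2 - 4 * a * c))
    (m m' m'' : ℕ) (u v : Fin m → ℝ) (u' v' : Fin m' → ℝ) (u'' v'' : Fin m'' → ℝ)
    (S : Set (Fin m → ℕ)) (S' : Set (Fin m' → ℕ)) (S'' : Set (Fin m'' → ℕ)) (δ'' : ℝ)
    (hu : ∀ i, 0 < u i) (hu' : ∀ i, 0 < u' i) (hu'' : ∀ i, 0 < u'' i)
    (hδ : Nd (Ty u'' v'' S'') δ'') :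
    CondL a b c (Ty u v S) (Ty u' v' S') (Ty u'' v'' S'') δ'' :=
  condL_3 stKatG_all3 stDilE_11 stDilG_42 stFinEG_98 stTypG_64 stCondL_53 a b c ha hns m m' m''
    u v u' v' u'' v'' S S' S'' δ'' hu hu' hu'' hδ

namespace PT99

variable {a b c : ℤ}

theorem nd_congr {B : ℝ} {t : ℕ} {P Q : ℕ → Prop}
    (h : ∀ d ∈ nearG a b c (1 / B) 1 t, (P d ↔ Q d)) : nd a b c B t P = nd a b c B t Q := by
  classical
  unfold nd
  congr 1
  exact Finset.filter_congr h

/-- the classes of the slot `j` -/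
theorem nd_sum (B : ℝ) (t : ℕ) (P : ℕ → Prop) (F : ℕ → ℕ) {k : ℕ} (hk : 0 < k) :
    nd a b c B t P = ∑ s ∈ Finset.range k, nd a b c B t (fun d => P d ∧ F d ≡ s [MOD k]) := by
  classical
  have h1 := Finset.card_eq_sum_card_fiberwise (s := (nearG a b c (1 / B) 1 t).filter P)
    (t := Finset.range k) (f := fun d => F d % k) (fun d _ => by
      rw [Finset.coe_range, Set.mem_Iio]
      exact Nat.mod_lt _ hk)
  have h2 : nd a b c B t P = ((nearG a b c (1 / B) 1 t).filter P).card := by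
    unfold nd
    congr!
  rw [h2, h1]
  refine Finset.sum_congr rfl fun s hs => ?_
  unfold nd
  congr 1
  ext d
  have h3 : F d % k = s ↔ F d ≡ s [MOD k] := by
    show F d % k = s ↔ F d % k = s % k
    rw [Nat.mod_eq_of_lt (Finset.mem_range.1 hs)]
  simp only [Finset.mem_filter, h3, and_assoc]

end PT99

open PT99 in
/-- **the pair law with a type**, for most `t` -/
theorem pairT_99 (a b c : ℤ) (ha : 0 < a) (hns : ¬ IsSquare (b ^ 2 - 4 * a * c)) (m : ℕ)
    (u v : Fin m → ℝ) (S : Set (Fin m → ℕ)) (δ : ℝ) (hu : ∀ i, 0 < u i)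
    (hδ : Nd (Ty u v S) δ) (k : ℕ) (hk : 0 < k) (j : ℕ) (hj : 0 < j) (ε : ℝ) (hε : 0 < ε) :
    ∃ B₀ : ℝ, 2 ≤ B₀ ∧ ∀ B : ℝ, B₀ ≤ B → LogNull {N : ℕ | ∃ r s : ℕ, ε * Real.log B * N <
      ∑ t ∈ Finset.Icc 1 N, |(nd a b c B t (fun d => Omn d ≡ r [MOD k] ∧
        Omn (vl a b c (t + j * d)) ≡ s [MOD k] ∧ Ty u v S (cf a b c t d j)) : ℝ) -
        δ / k ^ 2 * (nd a b c B t (fun _ => True) : ℝ)|} := by
  classical
  have hf := fv_ne64 hns
  have hk0 : (0 : ℝ) < k := by exact_mod_cast hk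
  have hk1 : (1 : ℝ) ≤ k := by exact_mod_cast hk
  obtain ⟨hδ0, hδ1⟩ := AS.nd_mem hδ
  obtain ⟨B1, hB1, g1⟩ := condL_99 a b c ha hns 0 0 m (fun i : Fin 0 => i.elim0)
    (fun i : Fin 0 => i.elim0) (fun i : Fin 0 => i.elim0) (fun i : Fin 0 => i.elim0) u v
    Set.univ Set.univ S δ (fun i => i.elim0) (fun i => i.elim0) hu hδ k hk j hj (ε / 2)
    (by positivity)
  obtain ⟨B2, hB2, g2⟩ := finQ2_all64 a b c ha hns k hk j hj (ε / (2 * k)) (by positivity)
  refine ⟨max B1 B2, hB1.trans (le_max_left _ _), fun B hB => ?_⟩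
  refine null_mono (null_union (g1 B ((le_max_left _ _).trans hB))
    (g2 B ((le_max_right _ _).trans hB))) fun N hN => ?_
  have hB0 : 2 ≤ B := hB1.trans ((le_max_left _ _).trans hB)
  have hlB : 0 < Real.log B := Real.log_pos (by linarith)
  simp only [Set.mem_union, Set.mem_ofPred_eq] at hN ⊢
  by_contra hcon
  push Not at hcon
  obtain ⟨c1, c2⟩ := hcon
  obtain ⟨r, s, hrs⟩ := hN
  have hN0 : (0 : ℝ) ≤ N := Nat.cast_nonneg N
  -- the two parts
  have k1 := c1 r (s + (k - 1) * r)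
  have k2 : ∑ t ∈ Finset.Icc 1 N, |(nd a b c B t (fun d => Omn d ≡ r [MOD k]) : ℝ) -
      (nd a b c B t (fun _ => True) : ℝ) / k| ≤ ε / 2 * Real.log B * N := by
    have h1 : ∀ t : ℕ, |(nd a b c B t (fun d => Omn d ≡ r [MOD k]) : ℝ) -
        (nd a b c B t (fun _ => True) : ℝ) / k| ≤ ∑ q ∈ Finset.range k,
        |(nd a b c B t (fun d => Omn d ≡ r [MOD k] ∧
          Omn (vl a b c (t + j * d)) ≡ q [MOD k]) : ℝ) -
            (nd a b c B t (fun _ => True) : ℝ) / k ^ 2| := by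
      intro t
      have h2 : (nd a b c B t (fun d => Omn d ≡ r [MOD k]) : ℝ) -
          (nd a b c B t (fun _ => True) : ℝ) / k = ∑ q ∈ Finset.range k,
          ((nd a b c B t (fun d => Omn d ≡ r [MOD k] ∧
          Omn (vl a b c (t + j * d)) ≡ q [MOD k]) : ℝ) -
            (nd a b c B t (fun _ => True) : ℝ) / k ^ 2) := by
        rw [Finset.sum_sub_distrib, Finset.sum_const, Finset.card_range, nsmul_eq_mul,
          nd_sum B t (fun d => Omn d ≡ r [MOD k]) (fun d => Omn (vl a b c (t + j * d))) hk]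
        push_cast
        congr 1
        field_simp
      rw [h2]
      exact Finset.abs_sum_le_sum_abs _ _
    refine (Finset.sum_le_sum fun t _ => h1 t).trans ?_
    rw [Finset.sum_comm]
    refine (Finset.sum_le_sum fun q _ => c2 q r).trans (le_of_eq ?_)
    rw [Finset.sum_const, Finset.card_range, nsmul_eq_mul]
    field_simp
  -- together
  have k3 : ∀ t : ℕ, |(nd a b c B t (fun d => Omn d ≡ r [MOD k] ∧
        Omn (vl a b c (t + j * d)) ≡ s [MOD k] ∧ Ty u v S (cf a b c t d j)) : ℝ) -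
        δ / k ^ 2 * (nd a b c B t (fun _ => True) : ℝ)| ≤
      |(nd a b c B t (fun d => Ty (fun i : Fin 0 => i.elim0) (fun i : Fin 0 => i.elim0)
          Set.univ d ∧ Ty (fun i : Fin 0 => i.elim0) (fun i : Fin 0 => i.elim0) Set.univ
          (cf a b c t d 0) ∧ Ty u v S (cf a b c t d j) ∧ Omn d ≡ r [MOD k] ∧
          Omn (cf a b c t d j) ≡ s + (k - 1) * r [MOD k]) : ℝ) -
        δ / k * (nd a b c B t (fun d => Ty (fun i : Fin 0 => i.elim0)
          (fun i : Fin 0 => i.elim0) Set.univ d ∧ Ty (fun i : Fin 0 => i.elim0)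
          (fun i : Fin 0 => i.elim0) Set.univ (cf a b c t d 0) ∧ Omn d ≡ r [MOD k]) : ℝ)| +
      |(nd a b c B t (fun d => Omn d ≡ r [MOD k]) : ℝ) -
        (nd a b c B t (fun _ => True) : ℝ) / k| := by
    intro t
    have e1 : nd a b c B t (fun d => Omn d ≡ r [MOD k] ∧
        Omn (vl a b c (t + j * d)) ≡ s [MOD k] ∧ Ty u v S (cf a b c t d j)) =
        nd a b c B t (fun d => Ty (fun i : Fin 0 => i.elim0) (fun i : Fin 0 => i.elim0)
          Set.univ d ∧ Ty (fun i : Fin 0 => i.elim0) (fun i : Fin 0 => i.elim0) Set.univ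
          (cf a b c t d 0) ∧ Ty u v S (cf a b c t d j) ∧ Omn d ≡ r [MOD k] ∧
          Omn (cf a b c t d j) ≡ s + (k - 1) * r [MOD k]) := by
      refine nd_congr fun d hd => ?_
      have h2 := Fin98.omn_eq hf hd j
      rw [h2]
      have e2 : ∀ n : ℕ, Ty (fun i : Fin 0 => i.elim0) (fun i : Fin 0 => i.elim0)
          Set.univ n := fun n => by simp [Ty]
      constructor
      · rintro ⟨h3, h4, h5⟩
        refine ⟨e2 _, e2 _, h5, h3, ?_⟩
        obtain ⟨k', rfl⟩ : ∃ k', k = k' + 1 := ⟨k - 1, by omega⟩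
        rw [Nat.add_sub_cancel]
        have h6 : r + Omn (cf a b c t d j) ≡ s [MOD (k' + 1)] :=
          (Nat.ModEq.add_right _ h3.symm).trans h4
        have h7 : r + (s + k' * r) ≡ s [MOD (k' + 1)] := by
          have : r + (s + k' * r) = s + (k' + 1) * r := by ring
          rw [this]
          exact Nat.add_modulus_mul_modEq_iff.2 rfl
        exact Nat.ModEq.add_left_cancel' r (h6.trans h7.symm)
      · rintro ⟨-, -, h5, h3, h4⟩
        refine ⟨h3, ?_, h5⟩
        obtain ⟨k', rfl⟩ : ∃ k', k = k' + 1 := ⟨k - 1, by omega⟩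
        rw [Nat.add_sub_cancel] at h4
        have h7 : r + (s + k' * r) ≡ s [MOD (k' + 1)] := by
          have : r + (s + k' * r) = s + (k' + 1) * r := by ring
          rw [this]
          exact Nat.add_modulus_mul_modEq_iff.2 rfl
        exact (Nat.ModEq.add h3 h4).trans h7
    have e3 : nd a b c B t (fun d => Ty (fun i : Fin 0 => i.elim0)
          (fun i : Fin 0 => i.elim0) Set.univ d ∧ Ty (fun i : Fin 0 => i.elim0)
          (fun i : Fin 0 => i.elim0) Set.univ (cf a b c t d 0) ∧ Omn d ≡ r [MOD k]) =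
        nd a b c B t (fun d => Omn d ≡ r [MOD k]) := by
      refine nd_congr fun d hd => ?_
      simp [Ty]
    rw [e1, e3]
    set X : ℝ := (nd a b c B t (fun d => Ty (fun i : Fin 0 => i.elim0)
          (fun i : Fin 0 => i.elim0)
          Set.univ d ∧ Ty (fun i : Fin 0 => i.elim0) (fun i : Fin 0 => i.elim0) Set.univ
          (cf a b c t d 0) ∧ Ty u v S (cf a b c t d j) ∧ Omn d ≡ r [MOD k] ∧
          Omn (cf a b c t d j) ≡ s + (k - 1) * r [MOD k]) : ℝ)
    set Y : ℝ := (nd a b c B t (fun d => Omn d ≡ r [MOD k]) : ℝ)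
    set Z : ℝ := (nd a b c B t (fun _ => True) : ℝ)
    have h1 : X - δ / k ^ 2 * Z = (X - δ / k * Y) + δ / k * (Y - Z / k) := by
      field_simp
      ring
    rw [h1]
    refine (abs_add_le _ _).trans (add_le_add le_rfl ?_)
    rw [abs_mul]
    refine mul_le_of_le_one_left (abs_nonneg _) ?_
    rw [abs_of_nonneg (by positivity), div_le_one hk0]
    linarith
  have k4 := Finset.sum_le_sum (s := Finset.Icc 1 N) fun t _ => k3 t
  rw [Finset.sum_add_distrib] at k4
  linarith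

end Pool.Agent.Lib.MP_a17b09_nt.QT
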