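import Pool.Agent.Lib.MP_a17b09_nt.QT.All2_64
import Pool.Agent.Lib.MP_a17b09_nt.AN.Ty98

/-!
Project QT (MP_a17b09_nt), row H1 (helper99): for most `t` there are many divisors near `t`, and all
classes occur among them many times; patterns of every length.
-/

set_option autoImplicit false

open Filter Topology Finset

namespace Pool.Agent.Lib.MP_a17b09_nt.QT

open CH CH.PE HY SP
open AS (wslot cf)
open AS.T11 (null_union null_mono)
open AN.Ty98 (lognull_union)
open SPH (vl)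
open SPH.FinA11 (count_eq)

namespace P99

variable {a b c : ℤ}

/-- the number of divisors near `t` -/
noncomputable def wt (a b c : ℤ) (B : ℝ) (t : ℕ) : ℕ := nd a b c B t (fun _ => True)

theorem wt_eq (B : ℝ) (t : ℕ) : wt a b c B t = (nearG a b c (1 / B) 1 t).card := by
  unfold wt nd
  simp

theorem nd_le (B : ℝ) (t : ℕ) (P : ℕ → Prop) : nd a b c B t P ≤ wt a b c B t := by
  classical
  rw [wt_eq]
  unfold nd
  exact Finset.card_filter_le _ _

/-- a statement for every `i` of a finite set, one `B₀` -/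
theorem common {ι : Type*} (I : Finset ι) {p : ι → ℝ → Prop}
    (h : ∀ i ∈ I, ∃ B₀ : ℝ, 2 ≤ B₀ ∧ ∀ B : ℝ, B₀ ≤ B → p i B) :
    ∃ B₀ : ℝ, 2 ≤ B₀ ∧ ∀ B : ℝ, B₀ ≤ B → ∀ i ∈ I, p i B := by
  classical
  choose! b0 h1 h2 using h
  refine ⟨2 + ∑ i ∈ I, |b0 i|, ?_, fun B hB i hi => h2 i hi B ?_⟩
  · have : 0 ≤ ∑ i ∈ I, |b0 i| := Finset.sum_nonneg fun i _ => abs_nonneg _
    linarith
  · have h3 : |b0 i| ≤ ∑ i ∈ I, |b0 i| :=
      Finset.single_le_sum (f := fun i => |b0 i|) (fun i _ => abs_nonneg _) hi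
    have h4 := le_abs_self (b0 i)
    linarith

/-- every divisor has a class -/
theorem wt_le_sum (B : ℝ) (t j : ℕ) {k : ℕ} (hk : 0 < k) :
    wt a b c B t ≤ ∑ x ∈ Finset.range k ×ˢ Finset.range k,
      nd a b c B t (fun d => Omn d ≡ x.2 [MOD k] ∧ Omn (vl a b c (t + j * d)) ≡ x.1 [MOD k]) := by
  classical
  rw [wt_eq]
  have h1 : nearG a b c (1 / B) 1 t ⊆ (Finset.range k ×ˢ Finset.range k).biUnion fun x =>
      (nearG a b c (1 / B) 1 t).filter (fun d => Omn d ≡ x.2 [MOD k] ∧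
        Omn (vl a b c (t + j * d)) ≡ x.1 [MOD k]) := by
    intro d hd
    rw [Finset.mem_biUnion]
    refine ⟨(Omn (vl a b c (t + j * d)) % k, Omn d % k), ?_, ?_⟩
    · rw [Finset.mem_product, Finset.mem_range, Finset.mem_range]
      exact ⟨Nat.mod_lt _ hk, Nat.mod_lt _ hk⟩
    · rw [Finset.mem_filter]
      exact ⟨hd, (Nat.mod_modEq _ _).symm, (Nat.mod_modEq _ _).symm⟩
  refine (Finset.card_le_card h1).trans (Finset.card_biUnion_le.trans (le_of_eq ?_))
  refine Finset.sum_congr rfl fun x _ => ?_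
  unfold nd
  congr!

/-- the `t` with few divisors near `t` carry little weight -/
theorem small_wt (ha : 0 < a) (hns : ¬ IsSquare (b ^ 2 - 4 * a * c)) (W : ℕ) {ε : ℝ}
    (hε : 0 < ε) : ∃ B₀ : ℝ, 2 ≤ B₀ ∧ ∀ B : ℝ, B₀ ≤ B → LogNull {N : ℕ | ε * Real.log B * N <
      ∑ t ∈ (Finset.Icc 1 N).filter (fun t => wt a b c B t ≤ W), (wt a b c B t : ℝ)} := by
  classical
  set k : ℕ := 2 * W + 2 with hk
  have hk0 : 0 < k := by omega
  have hkR : (0 : ℝ) < k := by exact_mod_cast hk0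
  obtain ⟨B₀, hB0, hB⟩ := finQ2_all64 a b c ha hns k hk0 1 one_pos (ε / (2 * k ^ 2))
    (by positivity)
  refine ⟨B₀, hB0, fun B hBB => null_mono (hB B hBB) fun N hN => ?_⟩
  simp only [Set.mem_ofPred_eq] at hN ⊢
  by_contra hcon
  push Not at hcon
  have hN0 : (0 : ℝ) ≤ N := Nat.cast_nonneg N
  set X : ℕ → ℕ × ℕ → ℝ := fun t x => |(nd a b c B t (fun d => Omn d ≡ x.2 [MOD k] ∧
    Omn (vl a b c (t + 1 * d)) ≡ x.1 [MOD k]) : ℝ) -
      (nd a b c B t (fun _ => True) : ℝ) / k ^ 2| with hX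
  have h1 : ∀ t : ℕ, wt a b c B t ≤ W → (wt a b c B t : ℝ) ≤
      2 * ∑ x ∈ Finset.range k ×ˢ Finset.range k, X t x := by
    intro t ht
    have h2 : ∀ x : ℕ × ℕ, (nd a b c B t (fun d => Omn d ≡ x.2 [MOD k] ∧
        Omn (vl a b c (t + 1 * d)) ≡ x.1 [MOD k]) : ℝ) ≤ 2 * X t x := by
      intro x
      set n := nd a b c B t (fun d => Omn d ≡ x.2 [MOD k] ∧
        Omn (vl a b c (t + 1 * d)) ≡ x.1 [MOD k]) with hn
      rcases Nat.eq_zero_or_pos n with h0 | h0
      · rw [h0]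
        have : 0 ≤ X t x := abs_nonneg _
        push_cast
        linarith
      · have h3 : (1 : ℝ) ≤ n := by exact_mod_cast h0
        have h4 : (nd a b c B t (fun _ => True) : ℝ) / k ^ 2 ≤ 1 / 2 := by
          rw [div_le_iff₀ (by positivity)]
          have h5 : (wt a b c B t : ℝ) ≤ W := by exact_mod_cast ht
          have h6 : (k : ℝ) = 2 * W + 2 := by
            rw [hk]
            push_cast
            ring
          have h7 : (0 : ℝ) ≤ W := Nat.cast_nonneg W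
          have h8 : (nd a b c B t (fun _ => True) : ℝ) = wt a b c B t := rfl
          rw [h8, h6]
          nlinarith
        have h5 := le_abs_self ((n : ℝ) - (nd a b c B t (fun _ => True) : ℝ) / k ^ 2)
        have h6 : X t x = |(n : ℝ) - (nd a b c B t (fun _ => True) : ℝ) / k ^ 2| := rfl
        rw [h6]
        linarith
    have h3 : (wt a b c B t : ℝ) ≤ ∑ x ∈ Finset.range k ×ˢ Finset.range k,
        (nd a b c B t (fun d => Omn d ≡ x.2 [MOD k] ∧
          Omn (vl a b c (t + 1 * d)) ≡ x.1 [MOD k]) : ℝ) := by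
      exact_mod_cast wt_le_sum B t 1 hk0
    rw [Finset.mul_sum]
    exact h3.trans (Finset.sum_le_sum fun x _ => h2 x)
  have h2 : ∑ t ∈ (Finset.Icc 1 N).filter (fun t => wt a b c B t ≤ W), (wt a b c B t : ℝ) ≤
      2 * ∑ x ∈ Finset.range k ×ˢ Finset.range k, ∑ t ∈ Finset.Icc 1 N, X t x := by
    rw [Finset.sum_comm, Finset.mul_sum]
    refine (Finset.sum_le_sum fun t ht => h1 t (Finset.mem_filter.1 ht).2).trans ?_
    refine Finset.sum_le_sum_of_subset_of_nonneg (Finset.filter_subset _ _) fun t _ _ => ?_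
    exact mul_nonneg zero_le_two (Finset.sum_nonneg fun x _ => abs_nonneg _)
  have h3 : ∑ x ∈ Finset.range k ×ˢ Finset.range k, ∑ t ∈ Finset.Icc 1 N, X t x ≤
      ε / 2 * Real.log B * N := by
    refine (Finset.sum_le_sum fun x _ => hcon x.1 x.2).trans (le_of_eq ?_)
    rw [Finset.sum_const, Finset.card_product, Finset.card_range, nsmul_eq_mul]
    push_cast
    field_simp
  linarith

/-- a family of properties with positive proportions: the `t` for which one of them has fewer than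
`R` divisors carry little weight -/
theorem bad_wt (ha : 0 < a) (hns : ¬ IsSquare (b ^ 2 - 4 * a * c)) {ι : Type*} (I : Finset ι)
    (P : ι → ℕ → ℕ → Prop) (ω : ι → ℝ) (hω : ∀ i ∈ I, 0 < ω i)
    (hP : ∀ i ∈ I, ∀ ε : ℝ, 0 < ε → ∃ B₀ : ℝ, 2 ≤ B₀ ∧ ∀ B : ℝ, B₀ ≤ B →
      LogNull {N : ℕ | ε * Real.log B * N < ∑ t ∈ Finset.Icc 1 N,
        |(nd a b c B t (P i t) : ℝ) - ω i * (wt a b c B t : ℝ)|}) (R : ℕ) {ε : ℝ} (hε : 0 < ε) :
    ∃ B₀ : ℝ, 2 ≤ B₀ ∧ ∀ B : ℝ, B₀ ≤ B → LogNull {N : ℕ | ε * Real.log B * N <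
      ∑ t ∈ (Finset.Icc 1 N).filter (fun t => ∃ i ∈ I, nd a b c B t (P i t) < R),
        (wt a b c B t : ℝ)} := by
  classical
  -- one property
  have hone : ∀ i ∈ I, ∀ ε : ℝ, 0 < ε → ∃ B₀ : ℝ, 2 ≤ B₀ ∧ ∀ B : ℝ, B₀ ≤ B →
      LogNull {N : ℕ | ε * Real.log B * N <
      ∑ t ∈ (Finset.Icc 1 N).filter (fun t => nd a b c B t (P i t) < R),
        (wt a b c B t : ℝ)} := by
    intro i hi ε hε
    have hωi := hω i hi
    obtain ⟨W, hW⟩ := exists_nat_ge (2 * R / ω i)
    obtain ⟨B1, hB1, g1⟩ := small_wt ha hns W (half_pos hε)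
    obtain ⟨B2, hB2, g2⟩ := hP i hi (ε * ω i / 4) (by positivity)
    refine ⟨max B1 B2, hB1.trans (le_max_left _ _), fun B hB => ?_⟩
    refine null_mono (null_union (g1 B ((le_max_left _ _).trans hB))
      (g2 B ((le_max_right _ _).trans hB))) fun N hN => ?_
    simp only [Set.mem_union, Set.mem_ofPred_eq] at hN ⊢
    by_contra hcon
    push Not at hcon
    obtain ⟨c1, c2⟩ := hcon
    have hN0 : (0 : ℝ) ≤ N := Nat.cast_nonneg N
    have h1 : ∀ t ∈ (Finset.Icc 1 N).filter (fun t => nd a b c B t (P i t) < R),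
        (wt a b c B t : ℝ) ≤ (if wt a b c B t ≤ W then (wt a b c B t : ℝ) else 0) +
          2 / ω i * |(nd a b c B t (P i t) : ℝ) - ω i * (wt a b c B t : ℝ)| := by
      intro t ht
      have h2 := (Finset.mem_filter.1 ht).2
      by_cases h3 : wt a b c B t ≤ W
      · rw [if_pos h3]
        have : 0 ≤ 2 / ω i * |(nd a b c B t (P i t) : ℝ) - ω i * (wt a b c B t : ℝ)| := by
          positivity
        linarith
      · rw [if_neg h3, zero_add]
        have h4 : (W : ℝ) < wt a b c B t := by exact_mod_cast not_le.1 h3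
        have h5 : (nd a b c B t (P i t) : ℝ) < R := by exact_mod_cast h2
        have h6 : 2 * (R : ℝ) ≤ ω i * wt a b c B t := by
          rw [div_le_iff₀ hωi] at hW
          nlinarith
        have h7 := neg_abs_le ((nd a b c B t (P i t) : ℝ) - ω i * (wt a b c B t : ℝ))
        rw [div_mul_eq_mul_div, le_div_iff₀ hωi]
        linarith
    have h2 := Finset.sum_le_sum h1
    rw [Finset.sum_add_distrib, ← Finset.mul_sum] at h2
    have h3 : ∑ t ∈ (Finset.Icc 1 N).filter (fun t => nd a b c B t (P i t) < R),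
        (if wt a b c B t ≤ W then (wt a b c B t : ℝ) else 0) ≤
        ∑ t ∈ (Finset.Icc 1 N).filter (fun t => wt a b c B t ≤ W), (wt a b c B t : ℝ) := by
      rw [Finset.sum_filter (fun t => wt a b c B t ≤ W)]
      refine Finset.sum_le_sum_of_subset_of_nonneg (Finset.filter_subset _ _) fun t _ _ => ?_
      split_ifs
      · exact Nat.cast_nonneg _
      · exact le_rfl
    have h4 : ∑ t ∈ (Finset.Icc 1 N).filter (fun t => nd a b c B t (P i t) < R),
        |(nd a b c B t (P i t) : ℝ) - ω i * (wt a b c B t : ℝ)| ≤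
        ∑ t ∈ Finset.Icc 1 N, |(nd a b c B t (P i t) : ℝ) - ω i * (wt a b c B t : ℝ)| :=
      Finset.sum_le_sum_of_subset_of_nonneg (Finset.filter_subset _ _)
        fun t _ _ => abs_nonneg _
    have h5 : 2 / ω i * ∑ t ∈ (Finset.Icc 1 N).filter (fun t => nd a b c B t (P i t) < R),
        |(nd a b c B t (P i t) : ℝ) - ω i * (wt a b c B t : ℝ)| ≤
        2 / ω i * (ε * ω i / 4 * Real.log B * N) :=
      mul_le_mul_of_nonneg_left (h4.trans c2) (by positivity)
    have h6 : 2 / ω i * (ε * ω i / 4 * Real.log B * N) = ε / 2 * Real.log B * N := by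
      field_simp
      ring
    linarith
  obtain ⟨B₀, hB0, hB⟩ := common I fun i hi => hone i hi (ε / (I.card + 1)) (by positivity)
  refine ⟨B₀, hB0, fun B hBB => null_mono (lognull_union I _ fun i hi => hB B hBB i hi)
    fun N hN => ?_⟩
  have hlB : 0 < Real.log B := Real.log_pos (by linarith)
  simp only [Set.mem_ofPred_eq] at hN ⊢
  by_contra hcon
  push Not at hcon
  have hN0 : (0 : ℝ) ≤ N := Nat.cast_nonneg N
  have h1 : ∑ t ∈ (Finset.Icc 1 N).filter (fun t => ∃ i ∈ I, nd a b c B t (P i t) < R),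
      (wt a b c B t : ℝ) ≤ ∑ i ∈ I, ∑ t ∈ (Finset.Icc 1 N).filter
        (fun t => nd a b c B t (P i t) < R), (wt a b c B t : ℝ) := by
    simp_rw [Finset.sum_filter]
    rw [Finset.sum_comm]
    refine Finset.sum_le_sum fun t _ => ?_
    split_ifs with h
    · obtain ⟨i, hi, hit⟩ := h
      refine le_trans (le_of_eq ?_) (Finset.single_le_sum (f := fun i =>
        if nd a b c B t (P i t) < R then (wt a b c B t : ℝ) else 0) (fun i _ => ?_) hi)
      · show _ = if nd a b c B t (P i t) < R then (wt a b c B t : ℝ) else 0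
        rw [if_pos hit]
      · show 0 ≤ if nd a b c B t (P i t) < R then (wt a b c B t : ℝ) else 0
        split_ifs
        · exact Nat.cast_nonneg _
        · exact le_rfl
    · exact Finset.sum_nonneg fun i _ => by
        split_ifs
        · exact Nat.cast_nonneg _
        · exact le_rfl
  have h2 : ∑ i ∈ I, ∑ t ∈ (Finset.Icc 1 N).filter
        (fun t => nd a b c B t (P i t) < R), (wt a b c B t : ℝ) ≤
      I.card * (ε / (I.card + 1) * Real.log B * N) := by
    rw [← nsmul_eq_mul, ← Finset.sum_const]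
    exact Finset.sum_le_sum fun i hi => hcon i hi
  have h3 : (I.card : ℝ) * (ε / (I.card + 1) * Real.log B * N) ≤ ε * Real.log B * N := by
    have h4 : (I.card : ℝ) * (ε / (I.card + 1) * Real.log B * N) =
        (I.card / (I.card + 1)) * (ε * Real.log B * N) := by
      field_simp
    rw [h4]
    refine mul_le_of_le_one_left (by positivity) ?_
    rw [div_le_one (by positivity)]
    linarith
  linarith

/-- **patterns of every length**: a positive proportion of the pairs `(t, d)` has `Ω (f t) ≡ q` and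
at least `R` divisors near `t` for each property of the family -/
theorem pat_gen (ha : 0 < a) (hns : ¬ IsSquare (b ^ 2 - 4 * a * c)) {k : ℕ} (hk : 0 < k)
    {ι : Type*} (I : Finset ι) (P : ι → ℕ → ℕ → Prop) (ω : ι → ℝ) (hω : ∀ i ∈ I, 0 < ω i)
    (hP : ∀ i ∈ I, ∀ ε : ℝ, 0 < ε → ∃ B₀ : ℝ, 2 ≤ B₀ ∧ ∀ B : ℝ, B₀ ≤ B →
      LogNull {N : ℕ | ε * Real.log B * N < ∑ t ∈ Finset.Icc 1 N,
        |(nd a b c B t (P i t) : ℝ) - ω i * (wt a b c B t : ℝ)|}) (R : ℕ) :
    ∃ B₀ : ℝ, 2 ≤ B₀ ∧ ∀ B : ℝ, B₀ ≤ B → ∀ q : ℕ, ∃ c' : ℝ, 0 < c' ∧ ∀ᶠ N : ℕ in atTop,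
      c' * N ≤ (pairCount a b c 1 0 (1 / B) 1 (fun t _ => Om a b c t ≡ q [MOD k] ∧
        ∀ i ∈ I, R ≤ nd a b c B t (P i t)) N : ℝ) := by
  classical
  have hf := TP79.fv_ne hns
  obtain ⟨κ, hκ⟩ := stKap_3 a b c ha hns
  have hκ0 := hκ.1
  have hk0 : (0 : ℝ) < k := by exact_mod_cast hk
  obtain ⟨B₀, hB0, hB⟩ := bad_wt ha hns I P ω hω hP R (ε := κ / (4 * k ^ 2)) (by positivity)
  refine ⟨B₀, hB0, fun B hBB q => ?_⟩
  have hB2 : 2 ≤ B := hB0.trans hBB
  have hlB : 0 < Real.log B := Real.log_pos (by linarith)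
  obtain ⟨hO, hT, -⟩ := TP79.input ha hns one_pos 0 (α := 1 / B) (β := 1) (by positivity)
    (by rw [div_lt_one (by linarith)]; linarith)
  have h1 := law_dt hf hO hT (kap_lim hf hκ hB2) hk 0 q (ε := κ / (4 * k ^ 2) * Real.log B)
    (by positivity)
  refine SP.EndP27.lower_all' (κ := κ / (2 * k ^ 2) * Real.log B) (fun m n hmn => Nat.cast_le.2
    (TP79.pc_mono _ hmn)) (by positivity) (null_mono (null_union (hB B hBB) h1)
      fun N hN => ?_)
  simp only [Set.mem_union, Set.mem_ofPred_eq] at hN ⊢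
  by_contra hcon
  push Not at hcon
  obtain ⟨c1, c2⟩ := hcon
  have h2 := (abs_le.1 c2).1
  have h3 : (pairCount a b c 1 0 (1 / B) 1 (fun t d => Omn d ≡ 0 [MOD k] ∧
      Om a b c t ≡ q [MOD k]) N : ℝ) ≤
      (pairCount a b c 1 0 (1 / B) 1 (fun t _ => Om a b c t ≡ q [MOD k] ∧
        ∀ i ∈ I, R ≤ nd a b c B t (P i t)) N : ℝ) +
      ∑ t ∈ (Finset.Icc 1 N).filter (fun t => ∃ i ∈ I, nd a b c B t (P i t) < R),
        (wt a b c B t : ℝ) := by
    rw [count_eq hf, count_eq hf, filt_one, Finset.sum_filter]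
    push_cast
    rw [← Finset.sum_add_distrib]
    refine Finset.sum_le_sum fun t _ => ?_
    by_cases hbad : ∃ i ∈ I, nd a b c B t (P i t) < R
    · rw [if_pos hbad]
      have h4 : (((nearG a b c (1 / B) 1 t).filter (fun d => Omn d ≡ 0 [MOD k] ∧
          Om a b c t ≡ q [MOD k])).card : ℝ) ≤ wt a b c B t := by
        rw [wt_eq]
        exact_mod_cast Finset.card_filter_le _ _
      have h5 : (0 : ℝ) ≤ (((nearG a b c (1 / B) 1 t).filter (fun _ =>
        Om a b c t ≡ q [MOD k] ∧ ∀ i ∈ I, R ≤ nd a b c B t (P i t))).card : ℝ) :=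
        Nat.cast_nonneg _
      linarith
    · rw [if_neg hbad, add_zero]
      push Not at hbad
      have h4 : (nearG a b c (1 / B) 1 t).filter (fun d => Omn d ≡ 0 [MOD k] ∧
          Om a b c t ≡ q [MOD k]) ⊆ (nearG a b c (1 / B) 1 t).filter (fun _ =>
        Om a b c t ≡ q [MOD k] ∧ ∀ i ∈ I, R ≤ nd a b c B t (P i t)) := by
        intro d hd
        rw [Finset.mem_filter] at hd ⊢
        exact ⟨hd.1, hd.2.2, hbad⟩
      exact_mod_cast Finset.card_le_card h4
  have h4 : κ * Real.log B / k ^ 2 * N = κ / (2 * k ^ 2) * Real.log B * N +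
      κ / (4 * k ^ 2) * Real.log B * N + κ / (4 * k ^ 2) * Real.log B * N := by
    field_simp
    ring
  linarith

end P99

open P99 in
/-- **all patterns of every length** modulo `k`, for all `j ≤ J` -/
theorem pat_99 {a b c : ℤ} (ha : 0 < a) (hns : ¬ IsSquare (b ^ 2 - 4 * a * c)) {k : ℕ}
    (hk : 0 < k) (J R : ℕ) : ∃ B₀ : ℝ, 2 ≤ B₀ ∧ ∀ B : ℝ, B₀ ≤ B → ∀ q : ℕ, ∃ c' : ℝ, 0 < c' ∧
    ∀ᶠ N : ℕ in atTop, c' * N ≤ (pairCount a b c 1 0 (1 / B) 1 (fun t _ =>
      Om a b c t ≡ q [MOD k] ∧ ∀ j : ℕ, 0 < j → j ≤ J → ∀ r s : ℕ, R ≤ nd a b c B t (fun d =>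
        Omn d ≡ r [MOD k] ∧ Omn (vl a b c (t + j * d)) ≡ s [MOD k])) N : ℝ) := by
  classical
  have hk0 : (0 : ℝ) < k := by exact_mod_cast hk
  obtain ⟨B₀, hB0, hB⟩ := pat_gen ha hns hk
    (Finset.Icc 1 J ×ˢ (Finset.range k ×ˢ Finset.range k))
    (fun i t d => Omn d ≡ i.2.1 [MOD k] ∧ Omn (vl a b c (t + i.1 * d)) ≡ i.2.2 [MOD k])
    (fun _ => 1 / (k : ℝ) ^ 2) (fun i _ => by positivity) (fun i hi ε hε => by
      rw [Finset.mem_product, Finset.mem_Icc] at hi
      obtain ⟨B1, hB1, g1⟩ := finQ2_all64 a b c ha hns k hk i.1 hi.1.1 ε hε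
      refine ⟨B1, hB1, fun B hB => null_mono (g1 B hB) fun N hN => ?_⟩
      simp only [Set.mem_ofPred_eq] at hN ⊢
      refine ⟨i.2.2, i.2.1, hN.trans_le (le_of_eq (Finset.sum_congr rfl fun t _ => ?_))⟩
      unfold P99.wt
      rw [one_div_mul_eq_div]) R
  refine ⟨B₀, hB0, fun B hBB q => ?_⟩
  obtain ⟨c', hc', hev⟩ := hB B hBB q
  refine ⟨c', hc', ?_⟩
  filter_upwards [hev] with N hN
  refine hN.trans (le_of_eq ?_)
  congr 2
  funext t d
  apply propext
  refine and_congr_right fun _ => ?_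
  constructor
  · intro h j hj hjJ r s
    have h1 := h (j, (r % k, s % k)) (by
      rw [Finset.mem_product, Finset.mem_Icc, Finset.mem_product, Finset.mem_range,
        Finset.mem_range]
      exact ⟨⟨hj, hjJ⟩, Nat.mod_lt _ hk, Nat.mod_lt _ hk⟩)
    refine h1.trans (le_of_eq ?_)
    congr 1
    funext d
    apply propext
    simp only [Nat.ModEq, Nat.mod_mod]
  · intro h i hi
    rw [Finset.mem_product, Finset.mem_Icc] at hi
    exact h i.1 hi.1.1 hi.1.2 i.2.1 i.2.2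

end Pool.Agent.Lib.MP_a17b09_nt.QT
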