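import Pool.Agent.Lib.MP_a17b09_nt.QT.Rich_98
import Pool.Agent.Lib.MP_a17b09_nt.QT.PairT_99

/-!
Project QT (MP_a17b09_nt): trees whose edges `t → t + j d` carry the classes of `Ω d`,
`Ω (f (t + j d))` modulo `k` and a type of `|f (t + j d)| / d` (fork of `Rich_98`).
-/

set_option autoImplicit false

open Filter Topology Finset

namespace Pool.Agent.Lib.MP_a17b09_nt.QT

open Pool.Agent.Lib.MP_a17b09_nt.CH Pool.Agent.Lib.MP_a17b09_nt.SP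
open Pool.Agent.Lib.MP_a17b09_nt.CH.EndS
open Pool.Agent.Lib.MP_a17b09_nt.SP.EndP27
open Pool.Agent.Lib.MP_a17b09_nt.SPH Pool.Agent.Lib.MP_a17b09_nt.SPH.FinA11
open Pool.Agent.Lib.MP_a17b09_nt.TP79
open AN (Ty Nd)
open AS (cf)
open R98

/-- rich numbers with a type of the cofactors -/
def RichT (a b c : ℤ) (T : ℕ → Prop) (k J R : ℕ) (B : ℝ) : ℕ → ℕ → Prop
  | 0, _ => True
  | L + 1, t => ∀ j : ℕ, 0 < j → j ≤ J → ∀ r s : ℕ, R ≤ nd a b c B t (fun d =>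
      Omn d ≡ r [MOD k] ∧ Om a b c (t + j * d) ≡ s [MOD k] ∧ T (cf a b c t d j) ∧
      RichT a b c T k J R B L (t + j * d))

/-- the classes and the type -/
def PKT (a b c : ℤ) (T : ℕ → Prop) (J k : ℕ) (i : Fin J × Fin k × Fin k) (t d : ℕ) : Prop :=
  Omn d ≡ (i.2.1 : ℕ) [MOD k] ∧ Omn (vl a b c (t + ((i.1 : ℕ) + 1) * d)) ≡ (i.2.2 : ℕ) [MOD k] ∧
    T (cf a b c t d ((i.1 : ℕ) + 1))

theorem richT_of {a b c : ℤ} {T : ℕ → Prop} {k : ℕ} (hk : 0 < k) (J R : ℕ) (B : ℝ) (L : ℕ) :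
    ∀ t : ℕ, RichP a b c B (jK J k) (PKT a b c T J k) R L t → RichT a b c T k J R B L t := by
  induction L with
  | zero => exact fun _ _ => trivial
  | succ L ih =>
    intro t h j hj hjJ r s
    have h1 : R ≤ nd a b c B t (fun d => (Omn d ≡ r % k [MOD k] ∧
        Omn (vl a b c (t + (j - 1 + 1) * d)) ≡ s % k [MOD k] ∧ T (cf a b c t d (j - 1 + 1))) ∧
        RichP a b c B (jK J k) (PKT a b c T J k) R L (t + (j - 1 + 1) * d)) :=
      h (⟨j - 1, by omega⟩, ⟨r % k, Nat.mod_lt _ hk⟩, ⟨s % k, Nat.mod_lt _ hk⟩)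
    refine h1.trans (nd_mono fun d hd => ?_)
    obtain ⟨⟨h2, h3, h5⟩, h4⟩ := hd
    have e1 : j - 1 + 1 = j := by omega
    rw [e1] at h3 h4 h5
    exact ⟨h2.trans (Nat.mod_modEq _ _), h3.trans (Nat.mod_modEq _ _), h5, ih _ h4⟩

/-- **most `t` are rich** -/
theorem richT_wt {a b c : ℤ} (ha : 0 < a) (hns : ¬ IsSquare (b ^ 2 - 4 * a * c)) {m : ℕ}
    {u v : Fin m → ℝ} {S : Set (Fin m → ℕ)} {δ : ℝ} (hu : ∀ i, 0 < u i) (hδ : Nd (Ty u v S) δ)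
    (h0 : 0 < δ) {k : ℕ} (hk : 0 < k) (J R L : ℕ) {ε : ℝ} (hε : 0 < ε) :
    ∃ B₀ : ℝ, 2 ≤ B₀ ∧ ∀ B : ℝ, B₀ ≤ B → LogNull {N : ℕ | ε * Real.log B * N <
      (pairCount a b c 1 0 (1 / B) 1 (fun t _ => ¬ RichT a b c (Ty u v S) k J R B L t) N : ℝ)} := by
  have hf := fv_ne hns
  obtain ⟨κ, hκ⟩ := stKap_3 a b c ha hns
  have hk0 : (0 : ℝ) < k := by exact_mod_cast hk
  obtain ⟨B₀, hB0, h1⟩ := rich_most hf hκ (jK J k) (PKT a b c (Ty u v S) J k)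
    (fun _ => δ / (k : ℝ) ^ 2) (fun _ => by positivity) (by
      intro i ε' hε'
      obtain ⟨B₁, hB1, h2⟩ := pairT_99 a b c ha hns m u v S δ hu hδ k hk ((i.1 : ℕ) + 1)
        (Nat.succ_pos _) ε' hε'
      refine ⟨B₁, hB1, fun B hB => LogNull.mono (h2 B hB) fun N hN => ?_⟩
      exact ⟨(i.2.1 : ℕ), (i.2.2 : ℕ), hN⟩) R L ε hε
  refine ⟨B₀, hB0, fun B hB => LogNull.mono (h1 B hB) fun N hN => ?_⟩
  rw [Set.mem_ofPred_eq] at hN ⊢
  refine lt_of_lt_of_le hN ?_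
  have h3 := Six79.pc_le (h := 1) (t₀ := 0) hf (α := 1 / B) (β := 1)
    (P := fun t _ => ¬ RichT a b c (Ty u v S) k J R B L t)
    (Q := fun t _ => ¬ RichP a b c B (jK J k) (PKT a b c (Ty u v S) J k) R L t)
    (fun t _ h h' => h (richT_of hk J R B L t h')) N
  exact_mod_cast h3

/-- **all classes of rich numbers**, every large `N` -/
theorem richT_pos {a b c : ℤ} (ha : 0 < a) (hns : ¬ IsSquare (b ^ 2 - 4 * a * c)) {m : ℕ}
    {u v : Fin m → ℝ} {S : Set (Fin m → ℕ)} {δ : ℝ} (hu : ∀ i, 0 < u i) (hδ : Nd (Ty u v S) δ)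
    (h0 : 0 < δ) {k : ℕ} (hk : 0 < k) (J R L : ℕ) :
    ∃ B₀ : ℝ, 2 ≤ B₀ ∧ ∀ B : ℝ, B₀ ≤ B → ∀ q : ℕ, ∃ c' : ℝ,
    0 < c' ∧ ∀ᶠ N : ℕ in atTop, c' * N ≤ (pairCount a b c 1 0 (1 / B) 1
      (fun t _ => Om a b c t ≡ q [MOD k] ∧ RichT a b c (Ty u v S) k J R B L t) N : ℝ) := by
  have hf := fv_ne hns
  obtain ⟨κ, hκ⟩ := stKap_3 a b c ha hns
  have hκ0 := hκ.1
  have hk0 : (0 : ℝ) < k := by exact_mod_cast hk
  obtain ⟨B₀, hB0, h1⟩ := richT_wt ha hns hu hδ h0 hk J R L (ε := κ / (4 * k ^ 2)) (by positivity)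
  refine ⟨B₀, hB0, fun B hB q => ?_⟩
  have hB2 : 2 ≤ B := hB0.trans hB
  have hlB : 0 < Real.log B := Real.log_pos (by linarith)
  obtain ⟨hO, hT, -⟩ := input ha hns one_pos 0 (α := 1 / B) (β := 1) (by positivity)
    (by rw [div_lt_one (by linarith)]; linarith)
  have h2 := law_dt hf hO hT (kap_lim hf hκ hB2) hk 0 q
    (ε := κ / (4 * k ^ 2) * Real.log B) (by positivity)
  refine lower_all' (κ := κ / (4 * k ^ 2) * Real.log B) (fun m n hmn => Nat.cast_le.2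
    (pc_mono _ hmn)) (by positivity)
    (LogNull.mono (logNull_union (h1 B hB) h2) fun N hN => ?_)
  by_contra hcon
  rw [Set.mem_union, not_or] at hcon
  obtain ⟨g1, g2⟩ := hcon
  rw [Set.mem_ofPred_eq, not_lt] at g1 g2
  rw [Set.mem_ofPred_eq] at hN
  have g3 : (pairCount a b c 1 0 (1 / B) 1 (fun t d => Omn d ≡ 0 [MOD k] ∧
      Om a b c t ≡ q [MOD k]) N : ℝ) ≤
      pairCount a b c 1 0 (1 / B) 1 (fun t _ => Om a b c t ≡ q [MOD k] ∧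
        RichT a b c (Ty u v S) k J R B L t) N +
      pairCount a b c 1 0 (1 / B) 1 (fun t _ => ¬ RichT a b c (Ty u v S) k J R B L t) N := by
    exact_mod_cast Six79.pc_le_add hf (fun t d h => by
      by_cases h3 : RichT a b c (Ty u v S) k J R B L t
      · exact Or.inl ⟨h.2, h3⟩
      · exact Or.inr h3) N
  have g4 := (abs_le.1 g2).1
  have e1 : κ * Real.log B / k ^ 2 * N = 4 * (κ / (4 * k ^ 2) * Real.log B * N) := by
    field_simp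
  rw [e1] at g4
  have g5 : 0 ≤ κ / (4 * k ^ 2) * Real.log B * N := by positivity
  linarith

end Pool.Agent.Lib.MP_a17b09_nt.QT
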