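import Pool.Agent.Lib.MP_a17b09_nt.QT.Six79
import Pool.Agent.Lib.MP_a17b09_nt.QT.All2_64
import Pool.Agent.Lib.MP_a17b09_nt.QT.Kap_3
import Pool.Agent.Lib.MP_a17b09_nt.AN.Ty98

/-!
Project QT (MP_a17b09_nt), H2 (helper98): trees.  In the graph `t → t + j d`, `d ∣ f t` near `t`, most
vertices `t` are roots of all finite labelled trees.  Abstract form: finitely many properties `P i` of
the pairs `(t, d)`, each with a positive proportion `ω i` of the divisors `d` of `f t` near `t`, for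
most `t`.
-/

set_option autoImplicit false

open Filter Topology Finset

namespace Pool.Agent.Lib.MP_a17b09_nt.QT

open Pool.Agent.Lib.MP_a17b09_nt.CH Pool.Agent.Lib.MP_a17b09_nt.SP
open Pool.Agent.Lib.MP_a17b09_nt.CH.EndS
open Pool.Agent.Lib.MP_a17b09_nt.SP.EndP27
open Pool.Agent.Lib.MP_a17b09_nt.SPH Pool.Agent.Lib.MP_a17b09_nt.SPH.FinA11
open Pool.Agent.Lib.MP_a17b09_nt.TP79

/-- each property `P i` has the proportion `ω i` for most `t` -/
def PropL (a b c : ℤ) {ι : Type} (P : ι → ℕ → ℕ → Prop) (ω : ι → ℝ) : Prop :=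
  ∀ i : ι, ∀ ε : ℝ, 0 < ε → ∃ B₀ : ℝ, 2 ≤ B₀ ∧ ∀ B : ℝ, B₀ ≤ B →
  LogNull {N : ℕ | ε * Real.log B * N < ∑ t ∈ Finset.Icc 1 N,
    |(nd a b c B t (P i t) : ℝ) - ω i * (nd a b c B t (fun _ => True) : ℝ)|}

/-- `t` is the root of all labelled trees of depth `L` and degree `R` -/
def RichP (a b c : ℤ) (B : ℝ) {ι : Type} (jj : ι → ℕ) (P : ι → ℕ → ℕ → Prop) (R : ℕ) :
    ℕ → ℕ → Prop
  | 0, _ => True
  | L + 1, t => ∀ i : ι, R ≤ nd a b c B t (fun d => P i t d ∧
      RichP a b c B jj P R L (t + jj i * d))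

namespace R98

theorem nd_le_add {a b c : ℤ} {B : ℝ} {t : ℕ} {P Q S : ℕ → Prop} (h : ∀ d, P d → Q d ∨ S d) :
    nd a b c B t P ≤ nd a b c B t Q + nd a b c B t S := by
  classical
  unfold nd
  refine (Finset.card_le_card ?_).trans (Finset.card_union_le _ _)
  intro d hd
  rw [Finset.mem_union, Finset.mem_filter, Finset.mem_filter]
  rw [Finset.mem_filter] at hd
  rcases h d hd.2 with h1 | h1
  · exact Or.inl ⟨hd.1, h1⟩
  · exact Or.inr ⟨hd.1, h1⟩

theorem pc_nd {a b c : ℤ} (hf : ∀ t : ℕ, fv a b c t ≠ 0) (B : ℝ) (P : ℕ → ℕ → Prop) (N : ℕ) :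
    (pairCount a b c 1 0 (1 / B) 1 P N : ℝ) = ∑ t ∈ Finset.Icc 1 N,
      (nd a b c B t (P t) : ℝ) := by
  classical
  rw [count_eq hf P N, filt_one, Nat.cast_sum]
  refine Finset.sum_congr rfl fun t _ => ?_
  unfold nd
  congr!

/-- the weight of the `t` with a property -/
theorem pc_wt {a b c : ℤ} (hf : ∀ t : ℕ, fv a b c t ≠ 0) (B : ℝ) (φ : ℕ → Prop)
    [DecidablePred φ] (N : ℕ) :
    (pairCount a b c 1 0 (1 / B) 1 (fun t _ => φ t) N : ℝ) = ∑ t ∈ Finset.Icc 1 N,
      if φ t then (nd a b c B t (fun _ => True) : ℝ) else 0 := by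
  rw [pc_nd hf]
  refine Finset.sum_congr rfl fun t _ => ?_
  by_cases h : φ t
  · simp only [h, if_true]
  · rw [if_neg h]
    unfold nd
    simp [h]

end R98

open R98 in
open Classical in
/-- **most `t` are rich**: the pairs `(t, d)` with `t` not rich are few -/
theorem rich_most {a b c : ℤ} (hf : ∀ t : ℕ, fv a b c t ≠ 0) {κ : ℝ} (hκ : Kap a b c κ)
    {ι : Type} [Fintype ι] (jj : ι → ℕ) (P : ι → ℕ → ℕ → Prop) (ω : ι → ℝ) (hω : ∀ i, 0 < ω i)
    (hP : PropL a b c P ω) (R : ℕ) (L : ℕ) : ∀ ε : ℝ, 0 < ε → ∃ B₀ : ℝ, 2 ≤ B₀ ∧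
    ∀ B : ℝ, B₀ ≤ B → LogNull {N : ℕ | ε * Real.log B * N <
      (pairCount a b c 1 0 (1 / B) 1 (fun t _ => ¬ RichP a b c B jj P R L t) N : ℝ)} := by
  have hκ0 := hκ.1
  induction L with
  | zero =>
    intro ε hε
    refine ⟨2, le_rfl, fun B hB => ?_⟩
    have hlB : 0 < Real.log B := Real.log_pos (by linarith)
    refine logNull_fin (E := ∅) ?_ 0 fun N hN _ => ?_
    · intro ε' hε'
      refine ⟨0, fun H _ => ⟨0, fun N _ => ?_⟩⟩
      simp only [Set.indicator_empty, Finset.sum_const_zero]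
      positivity
    · exfalso
      rw [Set.mem_ofPred_eq, pc_wt hf] at hN
      have h1 : ∑ t ∈ Finset.Icc 1 N, (if ¬ RichP a b c B jj P R 0 t then
          (nd a b c B t (fun _ => True) : ℝ) else 0) = 0 := by
        refine Finset.sum_eq_zero fun t _ => ?_
        rw [if_neg]
        intro h
        exact h trivial
      rw [h1] at hN
      have : 0 ≤ ε * Real.log B * N := by positivity
      linarith
  | succ L ih =>
    intro ε hε
    set A : ℝ := ∑ i, 1 / ω i with hA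
    have hA0 : 0 ≤ A := Finset.sum_nonneg fun i _ => (one_div_pos.2 (hω i)).le
    set ε1 : ℝ := ε / (3 * (A + 1)) with hε1
    have hε1p : 0 < ε1 := by positivity
    obtain ⟨B1, hB1, g1⟩ := ih ε1 hε1p
    choose B2 hB2 g2 using fun i => hP i ε1 hε1p
    set C : ℝ := ∑ i, ((R : ℝ) + κ * (3 * jj i + 1)) with hC
    have hCi : ∀ i, (R : ℝ) + κ * (3 * jj i + 1) ≤ C := fun i =>
      Finset.single_le_sum (f := fun i => (R : ℝ) + κ * (3 * jj i + 1))
        (fun i _ => by positivity) (Finset.mem_univ i)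
    have hS2 : ∀ i, B2 i ≤ ∑ i, B2 i := fun i =>
      Finset.single_le_sum (f := B2) (fun i _ => le_trans (by norm_num) (hB2 i))
        (Finset.mem_univ i)
    have hS0 : 0 ≤ ∑ i, B2 i := Finset.sum_nonneg fun i _ => le_trans (by norm_num) (hB2 i)
    refine ⟨B1 + ∑ i, B2 i + Real.exp (C / ε1), ?_, fun B hB => ?_⟩
    · have := Real.exp_pos (C / ε1)
      linarith
    have hexp := Real.exp_pos (C / ε1)
    have hBB1 : B1 ≤ B := by linarith
    have hBB2 : ∀ i, B2 i ≤ B := fun i => by linarith [hS2 i]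
    have h2B : 2 ≤ B := hB1.trans hBB1
    have hlB : 0 < Real.log B := Real.log_pos (by linarith)
    have hCB : C ≤ ε1 * Real.log B := by
      have h1 : C / ε1 ≤ Real.log B := by
        rw [Real.le_log_iff_exp_le (by linarith)]
        linarith
      rw [div_le_iff₀ hε1p] at h1
      linarith
    -- the exceptional scales
    have hsh : ∀ i : ι, ∃ N0 : ℕ, ∀ N : ℕ, N0 ≤ N → ∀ φ : ℕ → ℕ → Prop,
        (pairCount a b c 1 0 (1 / B) 1 (fun t d => φ (t + jj i * d) d) N : ℝ) ≤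
          pairCount a b c 1 0 (1 / B) 1 φ N + κ * (3 * jj i + 1) * N := fun i =>
      Filter.eventually_atTop.1 (Six79.shift_le hf hκ (jj i) h2B)
    choose N0 hN0 using hsh
    have hbad := logNull_union (g1 B hBB1) (AN.Ty98.lognull_union (Finset.univ : Finset ι) _
      (fun i _ => g2 i B (hBB2 i)))
    refine logNull_fin hbad (∑ i, N0 i) fun N hN hNN => ?_
    by_contra hcon
    simp only [Set.mem_union, not_or, Set.mem_ofPred_eq, not_lt, Finset.mem_univ, true_and,
      not_exists] at hcon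
    obtain ⟨a1, a2⟩ := hcon
    rw [Set.mem_ofPred_eq] at hN
    have hNi : ∀ i, N0 i ≤ N := fun i =>
      (Finset.single_le_sum (f := N0) (fun i _ => Nat.zero_le _) (Finset.mem_univ i)).trans hNN
    have hNr : (0 : ℝ) ≤ N := Nat.cast_nonneg _
    -- one `t`
    have key : ∀ t : ℕ, (if ¬ RichP a b c B jj P R (L + 1) t then
        (nd a b c B t (fun _ => True) : ℝ) else 0) ≤
        ∑ i, (1 / ω i) * (|(nd a b c B t (P i t) : ℝ) -
          ω i * (nd a b c B t (fun _ => True) : ℝ)| + R +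
          (nd a b c B t (fun d => ¬ RichP a b c B jj P R L (t + jj i * d)) : ℝ)) := by
      intro t
      have hnn : ∀ i ∈ (Finset.univ : Finset ι), 0 ≤ (1 / ω i) * (|(nd a b c B t (P i t) : ℝ) -
          ω i * (nd a b c B t (fun _ => True) : ℝ)| + R +
          (nd a b c B t (fun d => ¬ RichP a b c B jj P R L (t + jj i * d)) : ℝ)) := by
        intro i _
        have := hω i
        positivity
      by_cases h : RichP a b c B jj P R (L + 1) t
      · rw [if_neg (not_not.2 h)]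
        exact Finset.sum_nonneg hnn
      · rw [if_pos h]
        have h1 : ¬ ∀ i : ι, R ≤ nd a b c B t (fun d => P i t d ∧
            RichP a b c B jj P R L (t + jj i * d)) := h
        push Not at h1
        obtain ⟨i, hi⟩ := h1
        have h2 : nd a b c B t (P i t) ≤ nd a b c B t (fun d => P i t d ∧
            RichP a b c B jj P R L (t + jj i * d)) +
            nd a b c B t (fun d => ¬ RichP a b c B jj P R L (t + jj i * d)) :=
          nd_le_add fun d hd => by
            by_cases h3 : RichP a b c B jj P R L (t + jj i * d)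
            · exact Or.inl ⟨hd, h3⟩
            · exact Or.inr h3
        have h3 : (nd a b c B t (P i t) : ℝ) ≤ R +
            (nd a b c B t (fun d => ¬ RichP a b c B jj P R L (t + jj i * d)) : ℝ) := by
          have h4 : (nd a b c B t (P i t) : ℝ) ≤ (nd a b c B t (fun d => P i t d ∧
            RichP a b c B jj P R L (t + jj i * d)) : ℝ) +
            (nd a b c B t (fun d => ¬ RichP a b c B jj P R L (t + jj i * d)) : ℝ) := by
            exact_mod_cast h2
          have h5 : (nd a b c B t (fun d => P i t d ∧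
            RichP a b c B jj P R L (t + jj i * d)) : ℝ) ≤ R := by exact_mod_cast hi.le
          linarith
        refine le_trans ?_ (Finset.single_le_sum hnn (Finset.mem_univ i))
        have hωi := hω i
        rw [one_div_mul_eq_div, le_div_iff₀ hωi]
        have h6 := neg_abs_le ((nd a b c B t (P i t) : ℝ) -
          ω i * (nd a b c B t (fun _ => True) : ℝ))
        linarith
    -- the sum over `t`
    have hsum : (pairCount a b c 1 0 (1 / B) 1
        (fun t _ => ¬ RichP a b c B jj P R (L + 1) t) N : ℝ) ≤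
        ∑ i, (1 / ω i) * (3 * (ε1 * Real.log B * N)) := by
      rw [pc_wt hf]
      refine (Finset.sum_le_sum fun t _ => key t).trans ?_
      rw [Finset.sum_comm]
      refine Finset.sum_le_sum fun i _ => ?_
      rw [← Finset.mul_sum]
      refine mul_le_mul_of_nonneg_left ?_ (one_div_pos.2 (hω i)).le
      rw [Finset.sum_add_distrib, Finset.sum_add_distrib]
      have e1 := a2 i
      have e2 : ∑ _t ∈ Finset.Icc 1 N, (R : ℝ) = R * N := by
        rw [Finset.sum_const, Nat.card_Icc, nsmul_eq_mul, Nat.add_sub_cancel]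
        ring
      have e3 : ∑ t ∈ Finset.Icc 1 N,
          (nd a b c B t (fun d => ¬ RichP a b c B jj P R L (t + jj i * d)) : ℝ) ≤
          ε1 * Real.log B * N + κ * (3 * jj i + 1) * N := by
        have h1 := hN0 i N (hNi i) (fun t _ => ¬ RichP a b c B jj P R L t)
        rw [pc_nd hf] at h1
        linarith
      have e4 : ((R : ℝ) + κ * (3 * jj i + 1)) * N ≤ ε1 * Real.log B * N :=
        mul_le_mul_of_nonneg_right ((hCi i).trans hCB) hNr
      rw [e2]
      have e5 : ((R : ℝ) + κ * (3 * jj i + 1)) * N = R * N + κ * (3 * jj i + 1) * N := by ring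
      linarith
    have hfin : ∑ i, (1 / ω i) * (3 * (ε1 * Real.log B * N)) ≤ ε * Real.log B * N := by
      rw [← Finset.sum_mul, ← hA]
      have e1 : A * (3 * (ε1 * Real.log B * N)) = (A / (A + 1)) * (ε * Real.log B * N) := by
        rw [hε1]
        field_simp
      rw [e1]
      have e2 : A / (A + 1) ≤ 1 := by
        rw [div_le_one (by positivity)]
        linarith
      have e3 : 0 ≤ ε * Real.log B * N := by positivity
      calc (A / (A + 1)) * (ε * Real.log B * N) ≤ 1 * (ε * Real.log B * N) :=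
            mul_le_mul_of_nonneg_right e2 e3
        _ = ε * Real.log B * N := one_mul _
    linarith

/-- **rich numbers**: `t` is the root of all labelled trees of depth `L` and degree `R`, the labels
are `Ω (f t)` modulo `k` at the vertices, `Ω d` modulo `k` and `1 ≤ j ≤ J` at the edges
`t → t + j d`, `d ∣ f t`, `t / B ≤ d ≤ t` -/
def Rich (a b c : ℤ) (k J R : ℕ) (B : ℝ) : ℕ → ℕ → Prop
  | 0, _ => True
  | L + 1, t => ∀ j : ℕ, 0 < j → j ≤ J → ∀ r s : ℕ, R ≤ nd a b c B t (fun d =>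
      Omn d ≡ r [MOD k] ∧ Om a b c (t + j * d) ≡ s [MOD k] ∧ Rich a b c k J R B L (t + j * d))

namespace R98

theorem nd_mono {a b c : ℤ} {B : ℝ} {t : ℕ} {P Q : ℕ → Prop} (h : ∀ d, P d → Q d) :
    nd a b c B t P ≤ nd a b c B t Q := by
  classical
  unfold nd
  refine Finset.card_le_card ?_
  intro d hd
  rw [Finset.mem_filter] at hd ⊢
  exact ⟨hd.1, h d hd.2⟩

/-- the jumps -/
def jK (J k : ℕ) (i : Fin J × Fin k × Fin k) : ℕ := (i.1 : ℕ) + 1

/-- the classes -/
def PK (a b c : ℤ) (J k : ℕ) (i : Fin J × Fin k × Fin k) (t d : ℕ) : Prop :=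
  Omn d ≡ (i.2.1 : ℕ) [MOD k] ∧ Omn (vl a b c (t + ((i.1 : ℕ) + 1) * d)) ≡ (i.2.2 : ℕ) [MOD k]

theorem rich_of {a b c : ℤ} {k : ℕ} (hk : 0 < k) (J R : ℕ) (B : ℝ) (L : ℕ) : ∀ t : ℕ,
    RichP a b c B (jK J k) (PK a b c J k) R L t → Rich a b c k J R B L t := by
  induction L with
  | zero => exact fun _ _ => trivial
  | succ L ih =>
    intro t h j hj hjJ r s
    have h1 : R ≤ nd a b c B t (fun d => (Omn d ≡ r % k [MOD k] ∧
        Omn (vl a b c (t + (j - 1 + 1) * d)) ≡ s % k [MOD k]) ∧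
        RichP a b c B (jK J k) (PK a b c J k) R L (t + (j - 1 + 1) * d)) :=
      h (⟨j - 1, by omega⟩, ⟨r % k, Nat.mod_lt _ hk⟩, ⟨s % k, Nat.mod_lt _ hk⟩)
    refine h1.trans (nd_mono fun d hd => ?_)
    obtain ⟨⟨h2, h3⟩, h4⟩ := hd
    have e1 : j - 1 + 1 = j := by omega
    rw [e1] at h3 h4
    exact ⟨h2.trans (Nat.mod_modEq _ _), h3.trans (Nat.mod_modEq _ _), ih _ h4⟩

end R98

open R98 in
/-- **most `t` are rich** (weight: the number of `d ∣ f t`, `t / B ≤ d ≤ t`) -/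
theorem rich_wt {a b c : ℤ} (ha : 0 < a) (hns : ¬ IsSquare (b ^ 2 - 4 * a * c)) {k : ℕ}
    (hk : 0 < k) (J R L : ℕ) {ε : ℝ} (hε : 0 < ε) : ∃ B₀ : ℝ, 2 ≤ B₀ ∧ ∀ B : ℝ, B₀ ≤ B →
    LogNull {N : ℕ | ε * Real.log B * N <
      (pairCount a b c 1 0 (1 / B) 1 (fun t _ => ¬ Rich a b c k J R B L t) N : ℝ)} := by
  have hf := fv_ne hns
  obtain ⟨κ, hκ⟩ := stKap_3 a b c ha hns
  have hk0 : (0 : ℝ) < k := by exact_mod_cast hk
  obtain ⟨B₀, hB0, h1⟩ := rich_most hf hκ (jK J k) (PK a b c J k) (fun _ => 1 / (k : ℝ) ^ 2)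
    (fun _ => by positivity) (by
      intro i ε' hε'
      obtain ⟨B₁, hB1, h2⟩ := finQ2_all64 a b c ha hns k hk ((i.1 : ℕ) + 1) (Nat.succ_pos _) ε' hε'
      refine ⟨B₁, hB1, fun B hB => LogNull.mono (h2 B hB) fun N hN => ?_⟩
      refine ⟨(i.2.2 : ℕ), (i.2.1 : ℕ), lt_of_lt_of_eq hN (Finset.sum_congr rfl fun t _ => ?_)⟩
      rw [one_div_mul_eq_div]
      rfl) R L ε hε
  refine ⟨B₀, hB0, fun B hB => LogNull.mono (h1 B hB) fun N hN => ?_⟩
  rw [Set.mem_ofPred_eq] at hN ⊢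
  refine lt_of_lt_of_le hN ?_
  have h3 := Six79.pc_le (h := 1) (t₀ := 0) hf (α := 1 / B) (β := 1)
    (P := fun t _ => ¬ Rich a b c k J R B L t)
    (Q := fun t _ => ¬ RichP a b c B (jK J k) (PK a b c J k) R L t)
    (fun t _ h h' => h (rich_of hk J R B L t h')) N
  exact_mod_cast h3

/-- **all classes of rich numbers**, every large `N` -/
theorem rich_pos {a b c : ℤ} (ha : 0 < a) (hns : ¬ IsSquare (b ^ 2 - 4 * a * c)) {k : ℕ}
    (hk : 0 < k) (J R L : ℕ) : ∃ B₀ : ℝ, 2 ≤ B₀ ∧ ∀ B : ℝ, B₀ ≤ B → ∀ q : ℕ, ∃ c' : ℝ,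
    0 < c' ∧ ∀ᶠ N : ℕ in atTop, c' * N ≤ (pairCount a b c 1 0 (1 / B) 1
      (fun t _ => Om a b c t ≡ q [MOD k] ∧ Rich a b c k J R B L t) N : ℝ) := by
  have hf := fv_ne hns
  obtain ⟨κ, hκ⟩ := stKap_3 a b c ha hns
  have hκ0 := hκ.1
  have hk0 : (0 : ℝ) < k := by exact_mod_cast hk
  obtain ⟨B₀, hB0, h1⟩ := rich_wt ha hns hk J R L (ε := κ / (4 * k ^ 2)) (by positivity)
  refine ⟨B₀, hB0, fun B hB q => ?_⟩
  have hB2 : 2 ≤ B := hB0.trans hB
  have hlB : 0 < Real.log B := Real.log_pos (by linarith)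
  obtain ⟨hO, hT, -⟩ := input ha hns one_pos 0 (α := 1 / B) (β := 1) (by positivity)
    (by rw [div_lt_one (by linarith)]; linarith)
  have h2 := law_dt hf hO hT (kap_lim hf hκ hB2) hk 0 q
    (ε := κ / (4 * k ^ 2) * Real.log B) (by positivity)
  refine lower_all' (κ := κ / (4 * k ^ 2) * Real.log B) (fun m n hmn => Nat.cast_le.2
    (pc_mono _ hmn)) (by positivity)
    (LogNull.mono (logNull_union (h1 B hB) h2) fun N hN => ?_)
  by_contra hcon
  rw [Set.mem_union, not_or] at hcon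
  obtain ⟨g1, g2⟩ := hcon
  rw [Set.mem_ofPred_eq, not_lt] at g1 g2
  rw [Set.mem_ofPred_eq] at hN
  have g3 : (pairCount a b c 1 0 (1 / B) 1 (fun t d => Omn d ≡ 0 [MOD k] ∧
      Om a b c t ≡ q [MOD k]) N : ℝ) ≤
      pairCount a b c 1 0 (1 / B) 1 (fun t _ => Om a b c t ≡ q [MOD k] ∧
        Rich a b c k J R B L t) N +
      pairCount a b c 1 0 (1 / B) 1 (fun t _ => ¬ Rich a b c k J R B L t) N := by
    exact_mod_cast Six79.pc_le_add hf (fun t d h => by
      by_cases h3 : Rich a b c k J R B L t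
      · exact Or.inl ⟨h.2, h3⟩
      · exact Or.inr h3) N
  have g4 := (abs_le.1 g2).1
  have e1 : κ * Real.log B / k ^ 2 * N = 4 * (κ / (4 * k ^ 2) * Real.log B * N) := by
    field_simp
  rw [e1] at g4
  have g5 : 0 ≤ κ / (4 * k ^ 2) * Real.log B * N := by positivity
  linarith

end Pool.Agent.Lib.MP_a17b09_nt.QT
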