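import Pool.Agent.Lib.MP_a17b09_nt.QT.All79

/-!
Project QT (MP_a17b09_nt): the law of three independent random integers for `d`,
`|f (t + l d)| / d`, `|f (t + j d)| / d`, `0 ≤ l < j` (helper99).
-/

set_option autoImplicit false

open Filter Topology Finset

namespace Pool.Agent.Lib.MP_a17b09_nt.QT

open CH CH.PE HY SP
open CH.EndS SP.EndP27 SPH SPH.FinA11 TP79
open AN (Ty Nd)
open AS (cf)

namespace S99

/-- the slots of the shifted pair -/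
theorem cf_shift (a b c : ℤ) (t d l i : ℕ) : cf a b c (t + l * d) d i = cf a b c t d (l + i) := by
  unfold cf
  have e1 : t + l * d + i * d = t + (l + i) * d := by ring
  rw [e1]

/-- a condition and its negation -/
theorem pc_compl {a b c : ℤ} (hf : ∀ t : ℕ, fv a b c t ≠ 0) (α β : ℝ) (φ : ℕ → ℕ → Prop)
    (N : ℕ) : (pairCount a b c 1 0 α β φ N : ℝ) +
      pairCount a b c 1 0 α β (fun t d => ¬ φ t d) N =
      pairCount a b c 1 0 α β (fun _ _ => True) N := by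
  classical
  rw [count_eq hf, count_eq hf, count_eq hf, ← Nat.cast_add, ← Finset.sum_add_distrib]
  congr 1
  refine Finset.sum_congr rfl fun t _ => ?_
  rw [Finset.filter_true, Finset.card_filter_add_card_filter_not]

/-- two sided comparison with the shifted pairs -/
theorem shift_abs {a b c : ℤ} (hf : ∀ t : ℕ, fv a b c t ≠ 0) {κ : ℝ} (hκ : Kap a b c κ) (l : ℕ)
    {B : ℝ} (hB : 2 ≤ B) : ∀ᶠ N : ℕ in atTop, ∀ φ : ℕ → ℕ → Prop,
    |(pairCount a b c 1 0 (1 / B) 1 (fun t d => φ (t + l * d) d) N : ℝ) -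
      pairCount a b c 1 0 (1 / B) 1 φ N| ≤ κ * (3 * l + 1) * N := by
  filter_upwards [Six79.shift_le hf hκ l hB] with N hN φ
  have h1 := hN φ
  have h2 := hN (fun t d => ¬ φ t d)
  have h3 := pc_compl hf (1 / B) 1 φ N
  have h4 := pc_compl hf (1 / B) 1 (fun t d => φ (t + l * d) d) N
  rw [abs_le]
  constructor <;> linarith

end S99

/-- `d`, `|f (t + l d)| / d`, `|f (t + j d)| / d`, `l < j`, are three independent random integers -/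
def ThreeS (a b c : ℤ) (κ : ℝ) : Prop := ∀ (m m' m'' : ℕ) (u v : Fin m → ℝ) (u' v' : Fin m' → ℝ)
  (u'' v'' : Fin m'' → ℝ) (S : Set (Fin m → ℕ)) (S' : Set (Fin m' → ℕ)) (S'' : Set (Fin m'' → ℕ))
  (δ δ' δ'' : ℝ), (∀ i, 0 < u i) → (∀ i, 0 < u' i) → (∀ i, 0 < u'' i) → Nd (Ty u v S) δ →
  Nd (Ty u' v' S') δ' → Nd (Ty u'' v'' S'') δ'' → ∀ k : ℕ, 0 < k → ∀ l j : ℕ, l < j → ∀ ε : ℝ,
  0 < ε → ∃ B₀ : ℝ, 2 ≤ B₀ ∧ ∀ B : ℝ, B₀ ≤ B → LogNull {N : ℕ | ∃ r s q : ℕ,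
    ε * Real.log B * N < |(pairCount a b c 1 0 (1 / B) 1 (fun t d => Ty u v S d ∧
      Ty u' v' S' (cf a b c t d l) ∧ Ty u'' v'' S'' (cf a b c t d j) ∧ Omn d ≡ r [MOD k] ∧
      Omn (cf a b c t d l) ≡ s [MOD k] ∧ Omn (cf a b c t d j) ≡ q [MOD k]) N : ℝ) -
      δ * δ' * δ'' * κ * Real.log B / k ^ 3 * N|}

open S99 in
/-- from the law with the slot `0` by a shift of the pairs -/
theorem threeS_of {a b c : ℤ} (hf : ∀ t : ℕ, fv a b c t ≠ 0) {κ : ℝ} (hκ : Kap a b c κ)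
    (hT : Three a b c κ) : ThreeS a b c κ := by
  intro m m' m'' u v u' v' u'' v'' S S' S'' δ δ' δ'' hu hu' hu'' hδ hδ' hδ'' k hk l j hlj ε hε
  have hκ0 := hκ.1
  obtain ⟨B1, hB1, g1⟩ := hT m m' m'' u v u' v' u'' v'' S S' S'' δ δ' δ'' hu hu' hu'' hδ hδ' hδ''
    k hk (j - l) (by omega) (ε / 2) (by positivity)
  set B2 : ℝ := Real.exp (κ * (3 * l + 1) / (ε / 2)) with hB2
  refine ⟨max B1 B2, hB1.trans (le_max_left _ _), fun B hB => ?_⟩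
  have hBB1 : B1 ≤ B := (le_max_left _ _).trans hB
  have hBB2 : B2 ≤ B := (le_max_right _ _).trans hB
  have h2B : 2 ≤ B := hB1.trans hBB1
  have hC : κ * (3 * l + 1) ≤ ε / 2 * Real.log B := by
    have h1 : κ * (3 * l + 1) / (ε / 2) ≤ Real.log B := by
      rw [Real.le_log_iff_exp_le (by linarith)]
      exact hBB2
    rw [div_le_iff₀ (by positivity)] at h1
    linarith
  obtain ⟨N0, hN0⟩ := Filter.eventually_atTop.1 (shift_abs hf hκ l h2B)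
  refine logNull_fin (g1 B hBB1) N0 fun N hN hNN => ?_
  obtain ⟨r, s, q, hN⟩ := hN
  refine ⟨r, s, q, ?_⟩
  have h1 := hN0 N hNN (fun t d => Ty u v S d ∧ Ty u' v' S' (cf a b c t d 0) ∧
    Ty u'' v'' S'' (cf a b c t d (j - l)) ∧ Omn d ≡ r [MOD k] ∧
    Omn (cf a b c t d 0) ≡ s [MOD k] ∧ Omn (cf a b c t d (j - l)) ≡ q [MOD k])
  have e1 : l + (j - l) = j := by omega
  simp only [cf_shift, add_zero, e1] at h1
  have hN0 : (0 : ℝ) ≤ N := Nat.cast_nonneg _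
  have h2 : κ * (3 * l + 1) * N ≤ ε / 2 * Real.log B * N := mul_le_mul_of_nonneg_right hC hN0
  set x : ℝ := (pairCount a b c 1 0 (1 / B) 1 (fun t d => Ty u v S d ∧
      Ty u' v' S' (cf a b c t d l) ∧ Ty u'' v'' S'' (cf a b c t d j) ∧ Omn d ≡ r [MOD k] ∧
      Omn (cf a b c t d l) ≡ s [MOD k] ∧ Omn (cf a b c t d j) ≡ q [MOD k]) N : ℝ)
  set y : ℝ := (pairCount a b c 1 0 (1 / B) 1 (fun t d => Ty u v S d ∧
      Ty u' v' S' (cf a b c t d 0) ∧ Ty u'' v'' S'' (cf a b c t d (j - l)) ∧ Omn d ≡ r [MOD k] ∧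
      Omn (cf a b c t d 0) ≡ s [MOD k] ∧ Omn (cf a b c t d (j - l)) ≡ q [MOD k]) N : ℝ)
  have h3 := abs_sub_le x y (δ * δ' * δ'' * κ * Real.log B / k ^ 3 * N)
  linarith

/-- types of positive density: a positive proportion of the pairs with `t ≤ N`, every large `N` -/
theorem threeS_pos {a b c : ℤ} {κ : ℝ} (hκ0 : 0 < κ) (hT : ThreeS a b c κ) {m m' m'' : ℕ}
    {u v : Fin m → ℝ} {u' v' : Fin m' → ℝ} {u'' v'' : Fin m'' → ℝ} {S : Set (Fin m → ℕ)}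
    {S' : Set (Fin m' → ℕ)} {S'' : Set (Fin m'' → ℕ)} {δ δ' δ'' : ℝ} (hu : ∀ i, 0 < u i)
    (hu' : ∀ i, 0 < u' i) (hu'' : ∀ i, 0 < u'' i) (hδ : Nd (Ty u v S) δ)
    (hδ' : Nd (Ty u' v' S') δ') (hδ'' : Nd (Ty u'' v'' S'') δ'') (h0 : 0 < δ) (h0' : 0 < δ')
    (h0'' : 0 < δ'') {k : ℕ} (hk : 0 < k) {l j : ℕ} (hlj : l < j) :
    ∃ B₀ : ℝ, 2 ≤ B₀ ∧ ∀ B : ℝ, B₀ ≤ B → ∀ r s q : ℕ, ∃ c' : ℝ, 0 < c' ∧ ∀ᶠ N : ℕ in atTop,
      c' * N ≤ (pairCount a b c 1 0 (1 / B) 1 (fun t d => Ty u v S d ∧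
        Ty u' v' S' (cf a b c t d l) ∧ Ty u'' v'' S'' (cf a b c t d j) ∧ Omn d ≡ r [MOD k] ∧
        Omn (cf a b c t d l) ≡ s [MOD k] ∧ Omn (cf a b c t d j) ≡ q [MOD k]) N : ℝ) := by
  have hk0 : (0 : ℝ) < k := by exact_mod_cast hk
  obtain ⟨B₀, hB0, hB⟩ := hT m m' m'' u v u' v' u'' v'' S S' S'' δ δ' δ'' hu hu' hu'' hδ hδ' hδ''
    k hk l j hlj (δ * δ' * δ'' * κ / (2 * k ^ 3)) (by positivity)
  refine ⟨B₀, hB0, fun B hBB r s q => ?_⟩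
  have hlB : 0 < Real.log B := Real.log_pos (by linarith)
  refine lower_all' (κ := δ * δ' * δ'' * κ / (2 * k ^ 3) * Real.log B) (fun m n hmn =>
    Nat.cast_le.2 (pc_mono _ hmn)) (by positivity) (LogNull.mono (hB B hBB) fun N hN =>
      ⟨r, s, q, ?_⟩)
  rw [Set.mem_ofPred_eq] at hN
  have h1 : δ * δ' * δ'' * κ * Real.log B / k ^ 3 * N =
      δ * δ' * δ'' * κ / (2 * k ^ 3) * Real.log B * N +
      δ * δ' * δ'' * κ / (2 * k ^ 3) * Real.log B * N := by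
    field_simp
    ring
  rw [lt_abs]
  right
  linarith

/-- closed -/
theorem threeS_all99 (a b c : ℤ) (ha : 0 < a) (hns : ¬ IsSquare (b ^ 2 - 4 * a * c)) (κ : ℝ)
    (hκ : Kap a b c κ) : ThreeS a b c κ :=
  threeS_of (fv_ne64 hns) hκ (three_all79 a b c ha hns κ hκ)

end Pool.Agent.Lib.MP_a17b09_nt.QT
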