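import Pool.Agent.Lib.MP_a17b09_nt.QT.Tri79

/-!
Project QT (MP_a17b09_nt): all sixteen parity patterns of `Ω d`, `Ω (f t)`, `Ω (f (t + j d))`,
`Ω (f (t + 2 j d))`, each for at least `1 / 32 - ε` of the pairs.  For large `B` the pairs with
`t / B ≤ d ≤ t` are almost invariant under `(t, d) ↦ (t + j d, d)`.
-/

set_option autoImplicit false

open Filter Topology Finset

namespace Pool.Agent.Lib.MP_a17b09_nt.QT

open Pool.Agent.Lib.MP_a17b09_nt.CH Pool.Agent.Lib.MP_a17b09_nt.SP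
open Pool.Agent.Lib.MP_a17b09_nt.CH.EndS
open Pool.Agent.Lib.MP_a17b09_nt.SP.EndP27
open Pool.Agent.Lib.MP_a17b09_nt.SPH Pool.Agent.Lib.MP_a17b09_nt.SPH.FinA11
open Pool.Agent.Lib.MP_a17b09_nt.TP79

namespace Six79

/-- `j` periods -/
theorem periods (a b c : ℤ) (d n j : ℕ) :
    ((Finset.Ico n (n + j * d)).filter (fun t : ℕ => (d : ℤ) ∣ fv a b c t)).card =
      j * rho a b c d := by
  have hp : Function.Periodic (fun t : ℕ => (d : ℤ) ∣ fv a b c t) d := by
    intro t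
    apply propext
    have h2 : fv a b c (t + d) = fv a b c t + (d : ℤ) * (a * (2 * t + d) + b) := by
      rw [fv, fv]
      push_cast
      ring
    show (d : ℤ) ∣ fv a b c (t + d) ↔ (d : ℤ) ∣ fv a b c t
    rw [h2]
    exact dvd_add_left (dvd_mul_right _ _)
  have h1 : rho a b c d = d.count (fun t : ℕ => (d : ℤ) ∣ fv a b c t) := by
    rw [rho, Nat.count_eq_card_filter_range]
  induction j with
  | zero => simp
  | succ j ih =>
    have h3 : Finset.Ico n (n + (j + 1) * d) = Finset.Ico n (n + j * d) ∪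
        Finset.Ico (n + j * d) (n + j * d + d) := by
      rw [Finset.Ico_union_Ico_eq_Ico (by omega) (by omega)]
      congr 1
      ring
    have h4 : Disjoint (Finset.Ico n (n + j * d)) (Finset.Ico (n + j * d) (n + j * d + d)) :=
      Finset.Ico_disjoint_Ico_consecutive _ _ _
    rw [h3, Finset.filter_union, Finset.card_union_of_disjoint
      (Finset.disjoint_filter_filter h4), ih, Nat.filter_Ico_card_eq_of_periodic _ _ _ hp, ← h1]
    ring

/-- the image of the pairs under the shift `(t, d) ↦ (t + j d, d)` -/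
theorem shift_card {a b c : ℤ} (hf : ∀ t : ℕ, fv a b c t ≠ 0) (j : ℕ) {B : ℝ} (hB : 2 ≤ B)
    (φ : ℕ → ℕ → Prop) (N : ℕ) :
    pairCount a b c 1 0 (1 / B) 1 (fun t d => φ (t + j * d) d) N ≤
      pairCount a b c 1 0 (1 / B) 1 φ N + ∑ t ∈ Finset.Icc 1 N,
        (nearG a b c (1 / (B + j)) (1 / B) t).card + j * ∑ d ∈ Finset.Icc 1 N, rho a b c d := by
  classical
  have hB0 : 0 < B := by linarith
  have hj0 : (0 : ℝ) ≤ j := Nat.cast_nonneg _
  rw [count_eq hf, count_eq hf, filt_one]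
  set S := (Finset.Icc 1 N).sigma
    (fun t => (nearG a b c (1 / B) 1 t).filter (fun d => φ (t + j * d) d)) with hS
  set T1 := (Finset.Icc 1 N).sigma (fun t => (nearG a b c (1 / B) 1 t).filter (φ t)) with hT1
  set T2 := (Finset.Icc 1 N).sigma (fun t => nearG a b c (1 / (B + j)) (1 / B) t) with hT2
  set T3 := (Finset.Icc 1 N).sigma (fun d => (Finset.Ico (N + 1) (N + 1 + j * d)).filter
    (fun t : ℕ => (d : ℤ) ∣ fv a b c t)) with hT3
  set T3' : Finset (Σ _ : ℕ, ℕ) := T3.image (fun x => ⟨x.2, x.1⟩) with hT3'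
  have c1 : S.card = ∑ t ∈ Finset.Icc 1 N,
      ((nearG a b c (1 / B) 1 t).filter (fun d => φ (t + j * d) d)).card := Finset.card_sigma _ _
  have c2 : T1.card = ∑ t ∈ Finset.Icc 1 N, ((nearG a b c (1 / B) 1 t).filter (φ t)).card :=
    Finset.card_sigma _ _
  have c3 : T2.card = ∑ t ∈ Finset.Icc 1 N, (nearG a b c (1 / (B + j)) (1 / B) t).card :=
    Finset.card_sigma _ _
  have c4 : T3.card = j * ∑ d ∈ Finset.Icc 1 N, rho a b c d := by
    rw [hT3, Finset.card_sigma, Finset.mul_sum]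
    exact Finset.sum_congr rfl fun d _ => periods a b c d _ j
  have c5 : T3'.card ≤ T3.card := Finset.card_image_le
  have key : S.card ≤ (T1 ∪ T2 ∪ T3').card := by
    refine Finset.card_le_card_of_injOn (fun x : (Σ _ : ℕ, ℕ) => ⟨x.1 + j * x.2, x.2⟩) ?_ ?_
    · rintro ⟨t, d⟩ hx
      have hx' : (⟨t, d⟩ : (Σ _ : ℕ, ℕ)) ∈ S := hx
      rw [hS, Finset.mem_sigma, Finset.mem_filter, Finset.mem_Icc, nearG, Finset.mem_filter,
        Nat.mem_divisors] at hx'
      simp only at hx'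
      obtain ⟨⟨h1, h2⟩, ⟨⟨h3, h4⟩, h5, h6⟩, h7⟩ := hx'
      have h8 : (d : ℤ) ∣ fv a b c t := by
        rw [← Int.natCast_dvd_natCast, Int.dvd_natAbs] at h3
        exact h3
      have h9 : (d : ℤ) ∣ fv a b c (t + j * d) := by
        have e1 : fv a b c (t + j * d) = fv a b c t +
            (d : ℤ) * (a * (2 * t * j + j ^ 2 * d) + b * j) := by
          rw [fv, fv]
          push_cast
          ring
        rw [e1]
        exact dvd_add h8 (dvd_mul_right _ _)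
      have h10 : d ≤ t := by
        rw [one_mul] at h6
        exact_mod_cast h6
      have h11 : 0 < d := Nat.pos_of_ne_zero (fun h0 => h4 (Nat.eq_zero_of_zero_dvd (h0 ▸ h3)))
      have h12 : d ∣ (fv a b c (t + j * d)).natAbs := by
        rw [← Int.natCast_dvd_natCast, Int.dvd_natAbs]
        exact h9
      show (⟨t + j * d, d⟩ : (Σ _ : ℕ, ℕ)) ∈ T1 ∪ T2 ∪ T3'
      rw [Finset.mem_union, Finset.mem_union]
      by_cases g1 : t + j * d ≤ N
      · left
        by_cases g2 : 1 / B * ((t + j * d : ℕ) : ℝ) ≤ d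
        · left
          rw [hT1, Finset.mem_sigma, Finset.mem_filter, Finset.mem_Icc, nearG, Finset.mem_filter,
            Nat.mem_divisors]
          refine ⟨⟨by simp only; omega, g1⟩, ⟨⟨h12, Int.natAbs_ne_zero.2 (hf _)⟩, g2, ?_⟩, h7⟩
          simp only
          rw [one_mul]
          exact_mod_cast h10.trans (Nat.le_add_right _ _)
        · right
          rw [hT2, Finset.mem_sigma, Finset.mem_Icc, nearG, Finset.mem_filter, Nat.mem_divisors]
          refine ⟨⟨by simp only; omega, g1⟩, ⟨h12, Int.natAbs_ne_zero.2 (hf _)⟩, ?_,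
            (not_le.1 g2).le⟩
          simp only
          rw [div_mul_eq_mul_div, one_mul, div_le_iff₀ hB0] at h5
          rw [div_mul_eq_mul_div, one_mul, div_le_iff₀ (by positivity)]
          push_cast
          linarith
      · right
        rw [hT3', Finset.mem_image]
        refine ⟨⟨d, t + j * d⟩, ?_, rfl⟩
        rw [hT3, Finset.mem_sigma, Finset.mem_filter, Finset.mem_Icc, Finset.mem_Ico]
        refine ⟨⟨h11, h10.trans h2⟩, ⟨by simp only; omega, by simp only; omega⟩, h9⟩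
    · rintro ⟨t, d⟩ _ ⟨t', d'⟩ _ hxy
      have h1 : (⟨t + j * d, d⟩ : (Σ _ : ℕ, ℕ)) = ⟨t' + j * d', d'⟩ := hxy
      rw [Sigma.mk.injEq] at h1
      obtain ⟨h2, h3⟩ := h1
      have h4 : d = d' := eq_of_heq h3
      subst h4
      have h5 : t = t' := by omega
      rw [h5]
  have k1 := Finset.card_union_le (T1 ∪ T2) T3'
  have k2 := Finset.card_union_le T1 T2
  omega

/-- the pairs are almost invariant under the shift -/
theorem shift_le {a b c : ℤ} (hf : ∀ t : ℕ, fv a b c t ≠ 0) {κ : ℝ} (hκ : Kap a b c κ) (j : ℕ)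
    {B : ℝ} (hB : 2 ≤ B) : ∀ᶠ N : ℕ in atTop, ∀ φ : ℕ → ℕ → Prop,
    (pairCount a b c 1 0 (1 / B) 1 (fun t d => φ (t + j * d) d) N : ℝ) ≤
      pairCount a b c 1 0 (1 / B) 1 φ N + κ * (3 * j + 1) * N := by
  have hB0 : 0 < B := by linarith
  have hj0 : (0 : ℝ) ≤ j := Nat.cast_nonneg _
  have hκ0 := hκ.1
  rcases Nat.eq_zero_or_pos j with rfl | hj
  · filter_upwards with N φ
    simp only [zero_mul, add_zero]
    have h1 : 0 ≤ κ * (3 * ((0 : ℕ) : ℝ) + 1) * N := by positivity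
    exact le_add_of_nonneg_right h1
  have hj1 : (1 : ℝ) ≤ j := by exact_mod_cast hj
  have h1 := hκ.2.1 (1 / (B + j)) (1 / B) (by positivity)
    (one_div_lt_one_div_of_lt hB0 (by linarith))
  have e1 : (1 : ℝ) / B / (1 / (B + j)) = 1 + j / B := by
    field_simp
  rw [e1] at h1
  have h2 : κ * Real.log (1 + j / B) < κ * (j + 1) := by
    apply mul_lt_mul_of_pos_left _ hκ0
    have h3 : Real.log (1 + j / B) ≤ (1 + j / B) - 1 := Real.log_le_sub_one_of_pos (by positivity)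
    have h4 : (j : ℝ) / B ≤ j := div_le_self hj0 (by linarith)
    linarith
  have h3 := h1.eventually_lt_const h2
  have h4 := hκ.2.2.eventually_lt_const (show κ < κ * 2 by linarith)
  filter_upwards [h3, h4, eventually_gt_atTop 0] with N g1 g2 g3 φ
  have hN : (0 : ℝ) < N := by exact_mod_cast g3
  rw [div_lt_iff₀ hN] at g1 g2
  have g4 := shift_card hf j hB φ N
  have g5 : (pairCount a b c 1 0 (1 / B) 1 (fun t d => φ (t + j * d) d) N : ℝ) ≤
      pairCount a b c 1 0 (1 / B) 1 φ N + ((∑ t ∈ Finset.Icc 1 N,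
        (nearG a b c (1 / (B + j)) (1 / B) t).card : ℕ) : ℝ) +
        j * ((∑ d ∈ Finset.Icc 1 N, rho a b c d : ℕ) : ℝ) := by
    exact_mod_cast g4
  have g6 : (j : ℝ) * ((∑ d ∈ Finset.Icc 1 N, rho a b c d : ℕ) : ℝ) ≤ j * (κ * 2 * N) :=
    mul_le_mul_of_nonneg_left g2.le hj0
  have g7 : κ * (3 * j + 1) * N = κ * (j + 1) * N + j * (κ * 2 * N) := by ring
  linarith

/-- the number of pairs of a parity class of patterns -/
theorem pc_parity_w {a b c : ℤ} {h t₀ : ℕ} (hf : ∀ t : ℕ, fv a b c t ≠ 0) (α β : ℝ)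
    (Q : ℕ → ℕ → Prop) (X Y Z : ℕ → ℕ → ℕ) (r s u N : ℕ) :
    (pairCount a b c h t₀ α β (fun t d => Q t d ∧
      X t d + Y t d + Z t d ≡ r + s + u [MOD 2]) N : ℝ) =
      4 * (pairCount a b c h t₀ α β (fun t d => Q t d ∧ X t d ≡ r [MOD 2] ∧
        Y t d ≡ s [MOD 2] ∧ Z t d ≡ u [MOD 2]) N : ℝ) +
      (pairCount a b c h t₀ α β (fun t d => Q t d ∧ X t d ≡ r [MOD 2] ∧
        Z t d ≡ u + 1 [MOD 2]) N : ℝ) -
      2 * (pairCount a b c h t₀ α β (fun t d => Q t d ∧ X t d ≡ r [MOD 2] ∧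
        Y t d ≡ s [MOD 2]) N : ℝ) +
      (pairCount a b c h t₀ α β (fun t d => Q t d ∧ Y t d ≡ s [MOD 2] ∧
        Z t d ≡ u + 1 [MOD 2]) N : ℝ) +
      (pairCount a b c h t₀ α β (fun t d => Q t d ∧ Y t d ≡ s + 1 [MOD 2] ∧
        Z t d ≡ u [MOD 2]) N : ℝ) -
      (pairCount a b c h t₀ α β (fun t d => Q t d ∧ X t d ≡ r [MOD 2] ∧
        Z t d ≡ u [MOD 2]) N : ℝ) := by
  classical
  simp only [pc_sum hf, Finset.mul_sum, ← Finset.sum_add_distrib, ← Finset.sum_sub_distrib]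
  refine Finset.sum_congr rfl fun t _ => Finset.sum_congr rfl fun d _ => ?_
  have k1 : ∀ x y : ℕ, x ≡ y [MOD 2] ↔ x % 2 = y % 2 := fun x y => Iff.rfl
  simp only [k1]
  by_cases hQ : Q t d
  · simp only [hQ, true_and]
    rcases Nat.mod_two_eq_zero_or_one (X t d) with hX | hX <;>
    rcases Nat.mod_two_eq_zero_or_one (Y t d) with hY | hY <;>
    rcases Nat.mod_two_eq_zero_or_one (Z t d) with hZ | hZ <;>
    rcases Nat.mod_two_eq_zero_or_one r with hr | hr <;>
    rcases Nat.mod_two_eq_zero_or_one s with hs | hs <;>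
    rcases Nat.mod_two_eq_zero_or_one u with hu | hu <;>
    simp [hX, hY, hZ, hr, hs, hu, Nat.add_mod] <;> norm_num
  · simp [hQ]

/-- comparison of two numbers of pairs -/
theorem pc_le {a b c : ℤ} {h t₀ : ℕ} (hf : ∀ t : ℕ, fv a b c t ≠ 0) {α β : ℝ}
    {P Q : ℕ → ℕ → Prop} (hPQ : ∀ t d, P t d → Q t d) (N : ℕ) :
    pairCount a b c h t₀ α β P N ≤ pairCount a b c h t₀ α β Q N := by
  classical
  rw [count_eq hf, count_eq hf]
  refine Finset.sum_le_sum fun t _ => Finset.card_le_card ?_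
  intro d hd
  rw [Finset.mem_filter] at hd ⊢
  exact ⟨hd.1, hPQ t d hd.2⟩

/-- comparison with two numbers of pairs -/
theorem pc_le_add {a b c : ℤ} {h t₀ : ℕ} (hf : ∀ t : ℕ, fv a b c t ≠ 0) {α β : ℝ}
    {P Q R : ℕ → ℕ → Prop} (hPQ : ∀ t d, P t d → Q t d ∨ R t d) (N : ℕ) :
    pairCount a b c h t₀ α β P N ≤ pairCount a b c h t₀ α β Q N +
      pairCount a b c h t₀ α β R N := by
  classical
  rw [count_eq hf, count_eq hf, count_eq hf, ← Finset.sum_add_distrib]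
  refine Finset.sum_le_sum fun t _ => (Finset.card_le_card ?_).trans (Finset.card_union_le _ _)
  intro d hd
  rw [Finset.mem_union, Finset.mem_filter, Finset.mem_filter]
  rw [Finset.mem_filter] at hd
  rcases hPQ t d hd.2 with h1 | h1
  · exact Or.inl ⟨hd.1, h1⟩
  · exact Or.inr ⟨hd.1, h1⟩

/-- the number of pairs with different parities -/
theorem pc_diff_w {a b c : ℤ} {h t₀ : ℕ} (hf : ∀ t : ℕ, fv a b c t ≠ 0) (α β : ℝ)
    (Q : ℕ → ℕ → Prop) (U V : ℕ → ℕ → ℕ) (N : ℕ) :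
    (pairCount a b c h t₀ α β (fun t d => Q t d ∧ U t d + V t d ≡ 1 [MOD 2]) N : ℝ) =
      (pairCount a b c h t₀ α β (fun t d => Q t d ∧ U t d ≡ 0 [MOD 2] ∧
        V t d ≡ 1 [MOD 2]) N : ℝ) +
      (pairCount a b c h t₀ α β (fun t d => Q t d ∧ U t d ≡ 1 [MOD 2] ∧
        V t d ≡ 0 [MOD 2]) N : ℝ) := by
  classical
  simp only [pc_sum hf, ← Finset.sum_add_distrib]
  refine Finset.sum_congr rfl fun t _ => Finset.sum_congr rfl fun d _ => ?_
  have k1 : ∀ x y : ℕ, x ≡ y [MOD 2] ↔ x % 2 = y % 2 := fun x y => Iff.rfl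
  simp only [k1]
  by_cases hQ : Q t d
  · rcases Nat.mod_two_eq_zero_or_one (U t d) with hX | hX <;>
    rcases Nat.mod_two_eq_zero_or_one (V t d) with hY | hY <;>
    simp [hQ, hX, hY, Nat.add_mod]
  · simp [hQ]

end Six79

open Six79 in
/-- **sixteen patterns**: `Ω d`, `Ω (f t)`, `Ω (f (t + j d))`, `Ω (f (t + 2 j d))` have each of the
sixteen parity patterns for at least `1 / 32 - ε` of the pairs `(t, d)`, `t / B ≤ d ≤ t` -/
theorem six {a b c : ℤ} (ha : 0 < a) (hns : ¬ IsSquare (b ^ 2 - 4 * a * c)) (hQ : FinQ a b c)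
    {κ : ℝ} (hκ : Kap a b c κ) {j : ℕ} (hj : 0 < j) {ε : ℝ} (hε : 0 < ε) :
    ∃ B₀ : ℝ, 2 ≤ B₀ ∧ ∀ B : ℝ, B₀ ≤ B → ∀ w r s u : ℕ, LogNull {N : ℕ |
      (pairCount a b c 1 0 (1 / B) 1 (fun t d => Omn d ≡ w [MOD 2] ∧ Om a b c t ≡ r [MOD 2] ∧
        Om a b c (t + j * d) ≡ s [MOD 2] ∧ Om a b c (t + 2 * j * d) ≡ u [MOD 2]) N : ℝ) <
        (1 / 32 - ε) * (κ * Real.log B) * N} := by
  have hf := fv_ne hns
  have hκ0 := hκ.1
  set ε' : ℝ := ε * κ / 8 with hε'
  have hε0 : 0 < ε' := by positivity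
  obtain ⟨B1, hB1, g1⟩ := tri ha hns hQ hκ two_pos hj hε0
  obtain ⟨B2, hB2, g2⟩ := tri ha hns hQ hκ two_pos (show 0 < 2 * j by omega) hε0
  obtain ⟨B3, hB3, g3⟩ := tri ha hns hQ hκ two_pos (show 0 < 3 * j by omega) hε0
  set B4 : ℝ := Real.exp ((3 * j + 1) / (ε / 2)) with hB4
  refine ⟨max (max B1 B2) (max B3 B4), le_trans hB1 ((le_max_left _ _).trans (le_max_left _ _)),
    fun B hB w r s u => ?_⟩
  have hBB1 : B1 ≤ B := ((le_max_left _ _).trans (le_max_left _ _)).trans hB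
  have hBB2 : B2 ≤ B := ((le_max_right _ _).trans (le_max_left _ _)).trans hB
  have hBB3 : B3 ≤ B := ((le_max_left _ _).trans (le_max_right _ _)).trans hB
  have hBB4 : B4 ≤ B := ((le_max_right _ _).trans (le_max_right _ _)).trans hB
  have h2B : 2 ≤ B := hB1.trans hBB1
  have hlB : 0 < Real.log B := Real.log_pos (by linarith)
  have hC : κ * (3 * j + 1) ≤ ε / 2 * κ * Real.log B := by
    have h1 : (3 * j + 1) / (ε / 2) ≤ Real.log B := by
      rw [Real.le_log_iff_exp_le (by linarith)]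
      exact hBB4
    rw [div_le_iff₀ (by positivity)] at h1
    calc κ * (3 * j + 1) ≤ κ * (Real.log B * (ε / 2)) := mul_le_mul_of_nonneg_left h1 hκ0.le
      _ = ε / 2 * κ * Real.log B := by ring
  -- the bad scales
  obtain ⟨N0, hN0⟩ := Filter.eventually_atTop.1 (shift_le hf hκ j h2B)
  have hbad := logNull_union (logNull_union (g1 B hBB1 w r s) (g1 B hBB1 w s (u + 1)))
    (logNull_union (logNull_union (g1 B hBB1 w (s + 1) u) (logNull_union (g2 B hBB2 w r (u + 1))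
      (g2 B hBB2 w r u))) (logNull_union (g3 B hBB3 w 0 1) (g3 B hBB3 w 1 0)))
  refine logNull_fin hbad N0 fun N hN hNN => ?_
  by_contra hcon
  simp only [Set.mem_union, not_or, Set.mem_ofPred_eq, not_lt] at hcon
  rw [Set.mem_ofPred_eq] at hN
  obtain ⟨⟨a1, a2⟩, ⟨a3, a4, a5⟩, a6, a7⟩ := hcon
  have hsh := hN0 N hNN
  have hN0 : (0 : ℝ) ≤ N := Nat.cast_nonneg _
  have hS : κ * (3 * j + 1) * N ≤ ε / 2 * κ * Real.log B * N :=
    mul_le_mul_of_nonneg_right hC hN0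
  have e1 : ∀ t d : ℕ, t + j * d + j * d = t + 2 * j * d := fun t d => by ring
  have e2 : ∀ t d : ℕ, t + j * d + 2 * j * d = t + 3 * j * d := fun t d => by ring
  -- two shifted pairs
  have b1 := hsh (fun t d => Omn d ≡ w [MOD 2] ∧ Om a b c t ≡ s [MOD 2] ∧
    Om a b c (t + j * d) ≡ u + 1 [MOD 2])
  have b2 := hsh (fun t d => Omn d ≡ w [MOD 2] ∧ Om a b c t ≡ s + 1 [MOD 2] ∧
    Om a b c (t + j * d) ≡ u [MOD 2])
  -- the parity class
  have b3 := hsh (fun t d => Omn d ≡ w [MOD 2] ∧ Om a b c t + Om a b c (t + j * d) +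
    Om a b c (t + 2 * j * d) ≡ r + s + u [MOD 2])
  simp only [e1, e2] at b1 b2 b3
  have b4 := pc_le_add (h := 1) (t₀ := 0) hf (α := 1 / B) (β := 1)
    (P := fun t d => Omn d ≡ w [MOD 2] ∧ Om a b c t + Om a b c (t + 3 * j * d) ≡ 1 [MOD 2])
    (Q := fun t d => Omn d ≡ w [MOD 2] ∧ Om a b c t + Om a b c (t + j * d) +
      Om a b c (t + 2 * j * d) ≡ r + s + u [MOD 2])
    (R := fun t d => Omn d ≡ w [MOD 2] ∧ Om a b c (t + j * d) + Om a b c (t + 2 * j * d) +
      Om a b c (t + 3 * j * d) ≡ r + s + u [MOD 2]) (by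
        intro t d h1
        obtain ⟨h2, h3⟩ := h1
        simp only [Nat.ModEq] at h2 h3 ⊢
        simp only [h2, true_and]
        omega) N
  have b5 := pc_diff_w (h := 1) (t₀ := 0) hf (1 / B) 1 (fun _ d => Omn d ≡ w [MOD 2])
    (fun t _ => Om a b c t) (fun t d => Om a b c (t + 3 * j * d)) N
  have b6 := pc_parity_w (h := 1) (t₀ := 0) hf (1 / B) 1 (fun _ d => Omn d ≡ w [MOD 2])
    (fun t _ => Om a b c t) (fun t d => Om a b c (t + j * d))
    (fun t d => Om a b c (t + 2 * j * d)) r s u N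
  have b4' : (pairCount a b c 1 0 (1 / B) 1 (fun t d => Omn d ≡ w [MOD 2] ∧
      Om a b c t + Om a b c (t + 3 * j * d) ≡ 1 [MOD 2]) N : ℝ) ≤
      pairCount a b c 1 0 (1 / B) 1 (fun t d => Omn d ≡ w [MOD 2] ∧ Om a b c t +
        Om a b c (t + j * d) + Om a b c (t + 2 * j * d) ≡ r + s + u [MOD 2]) N +
      pairCount a b c 1 0 (1 / B) 1 (fun t d => Omn d ≡ w [MOD 2] ∧ Om a b c (t + j * d) +
        Om a b c (t + 2 * j * d) + Om a b c (t + 3 * j * d) ≡ r + s + u [MOD 2]) N := by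
    exact_mod_cast b4
  rw [abs_le] at a1 a2 a3 a4 a5 a6 a7
  have f1 : κ * Real.log B / ((2 : ℕ) : ℝ) ^ 3 * N = κ * Real.log B * N / 8 := by
    push_cast
    ring
  rw [f1] at a1 a2 a3 a4 a5 a6 a7
  have f2 : ε' * Real.log B * N = ε / 8 * (κ * Real.log B * N) := by
    rw [hε']
    ring
  rw [f2] at a1 a2 a3 a4 a5 a6 a7
  have f3 : ε / 2 * κ * Real.log B * N = ε / 2 * (κ * Real.log B * N) := by ring
  rw [f3] at hS
  have f4 : (1 / 32 - ε) * (κ * Real.log B) * N =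
      κ * Real.log B * N / 32 - ε * (κ * Real.log B * N) := by ring
  rw [f4] at hN
  have f5 : 0 ≤ ε * (κ * Real.log B * N) := by positivity
  have c1 := a1.1
  have c2 := a2.2
  have c3 := a3.2
  have c4 := a4.2
  have c5 := a5.1
  have c6 := a6.1
  have c7 := a7.1
  have f6 : ε / 8 * (κ * Real.log B * N) = ε * (κ * Real.log B * N) / 8 := by ring
  have f7 : ε / 2 * (κ * Real.log B * N) = ε * (κ * Real.log B * N) / 2 := by ring
  rw [f6] at c1 c2 c3 c4 c5 c6 c7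
  rw [f7] at hS
  generalize ε * (κ * Real.log B * N) = E at *
  generalize κ * Real.log B * N = M at *
  generalize κ * (3 * j + 1) * N = S at *
  linarith

/-- **all sixteen patterns occur**, for a positive proportion of the pairs with `t ≤ N`, every large
`N` -/
theorem six_pos {a b c : ℤ} (ha : 0 < a) (hns : ¬ IsSquare (b ^ 2 - 4 * a * c))
    (hQ : FinQ a b c) {κ : ℝ} (hκ : Kap a b c κ) {j : ℕ} (hj : 0 < j) :
    ∃ B₀ : ℝ, 2 ≤ B₀ ∧ ∀ B : ℝ, B₀ ≤ B → ∀ w r s u : ℕ, ∃ c' : ℝ, 0 < c' ∧ ∀ᶠ N : ℕ in atTop,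
      c' * N ≤ (pairCount a b c 1 0 (1 / B) 1 (fun t d => Omn d ≡ w [MOD 2] ∧
        Om a b c t ≡ r [MOD 2] ∧ Om a b c (t + j * d) ≡ s [MOD 2] ∧
        Om a b c (t + 2 * j * d) ≡ u [MOD 2]) N : ℝ) := by
  have hκ0 := hκ.1
  obtain ⟨B₀, hB0, hB⟩ := six ha hns hQ hκ hj (ε := 1 / 64) (by norm_num)
  refine ⟨B₀, hB0, fun B hBB w r s u => ?_⟩
  have hlB : 0 < Real.log B := Real.log_pos (by linarith)
  refine lower_all' (κ := (1 / 32 - 1 / 64) * (κ * Real.log B)) (fun m n hmn => Nat.cast_le.2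
    (pc_mono _ hmn)) (by norm_num; positivity) (LogNull.mono (hB B hBB w r s u) fun N hN => hN)

end Pool.Agent.Lib.MP_a17b09_nt.QT
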