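import Pool.Agent.Lib.MP_a17b09_nt.QT.SixT79
import Pool.Agent.Lib.MP_a17b09_nt.QT.Shift_99

/-!
Project QT (MP_a17b09_nt): the eight parity patterns of `Ω` at `f (t + l d)`, `f (t + (l + j) d)`,
`f (t + (l + 2 j) d)`, for the pairs with a prescribed type of `d` and a prescribed class of `Ω d`.
-/

set_option autoImplicit false

open Filter Topology Finset

namespace Pool.Agent.Lib.MP_a17b09_nt.QT

open Pool.Agent.Lib.MP_a17b09_nt.CH Pool.Agent.Lib.MP_a17b09_nt.SP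
open Pool.Agent.Lib.MP_a17b09_nt.CH.EndS
open Pool.Agent.Lib.MP_a17b09_nt.SP.EndP27
open Pool.Agent.Lib.MP_a17b09_nt.SPH Pool.Agent.Lib.MP_a17b09_nt.SPH.FinA11
open Pool.Agent.Lib.MP_a17b09_nt.TP79
open AN (Ty Nd)
open AS (cf)

/-- **eight patterns** on `t + l d`, `t + (l + j) d`, `t + (l + 2 j) d` -/
theorem six_s {a b c : ℤ} (hf : ∀ t : ℕ, fv a b c t ≠ 0) {κ : ℝ} (hκ : Kap a b c κ)
    (hT : Three a b c κ) {m : ℕ} {u v : Fin m → ℝ} {S : Set (Fin m → ℕ)} {δ : ℝ}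
    (hu : ∀ i, 0 < u i) (hδ : Nd (Ty u v S) δ) {k : ℕ} (hk : 0 < k) (l : ℕ) {j : ℕ} (hj : 0 < j)
    {ε : ℝ} (hε : 0 < ε) : ∃ B₀ : ℝ, 2 ≤ B₀ ∧ ∀ B : ℝ, B₀ ≤ B → ∀ w r s q : ℕ, LogNull {N : ℕ |
      (pairCount a b c 1 0 (1 / B) 1 (fun t d => (Ty u v S d ∧ Omn d ≡ w [MOD k]) ∧
        Om a b c (t + l * d) ≡ r [MOD 2] ∧ Om a b c (t + (l + j) * d) ≡ s [MOD 2] ∧
        Om a b c (t + (l + 2 * j) * d) ≡ q [MOD 2]) N : ℝ) <
        (δ / k / 16 - ε) * (κ * Real.log B) * N} := by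
  have hκ0 := hκ.1
  obtain ⟨B1, hB1, g1⟩ := six_t hf hκ hT hu hδ hk hj (ε := ε / 2) (by positivity)
  set B2 : ℝ := Real.exp ((3 * l + 1) / (ε / 2)) with hB2
  refine ⟨max B1 B2, hB1.trans (le_max_left _ _), fun B hB w r s q => ?_⟩
  have hBB1 : B1 ≤ B := (le_max_left _ _).trans hB
  have hBB2 : B2 ≤ B := (le_max_right _ _).trans hB
  have h2B : 2 ≤ B := hB1.trans hBB1
  have hC : κ * (3 * l + 1) ≤ ε / 2 * (κ * Real.log B) := by
    have h1 : (3 * l + 1) / (ε / 2) ≤ Real.log B := by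
      rw [Real.le_log_iff_exp_le (by linarith)]
      exact hBB2
    rw [div_le_iff₀ (by positivity)] at h1
    calc κ * (3 * l + 1) ≤ κ * (Real.log B * (ε / 2)) := mul_le_mul_of_nonneg_left h1 hκ0.le
      _ = ε / 2 * (κ * Real.log B) := by ring
  obtain ⟨N0, hN0⟩ := Filter.eventually_atTop.1 (S99.shift_abs hf hκ l h2B)
  refine logNull_fin (g1 B hBB1 w r s q) N0 fun N hN hNN => ?_
  rw [Set.mem_ofPred_eq] at hN ⊢
  have h1 := hN0 N hNN (fun t d => (Ty u v S d ∧ Omn d ≡ w [MOD k]) ∧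
    Om a b c t ≡ r [MOD 2] ∧ Om a b c (t + j * d) ≡ s [MOD 2] ∧
    Om a b c (t + 2 * j * d) ≡ q [MOD 2])
  have e1 : ∀ t d : ℕ, t + l * d + j * d = t + (l + j) * d := fun t d => by ring
  have e2 : ∀ t d : ℕ, t + l * d + 2 * j * d = t + (l + 2 * j) * d := fun t d => by ring
  simp only [e1, e2] at h1
  have hN0 : (0 : ℝ) ≤ N := Nat.cast_nonneg _
  have h2 : κ * (3 * l + 1) * N ≤ ε / 2 * (κ * Real.log B) * N :=
    mul_le_mul_of_nonneg_right hC hN0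
  have h3 := (abs_le.1 h1).1
  have e3 : (δ / k / 16 - ε / 2) * (κ * Real.log B) * N =
      (δ / k / 16 - ε) * (κ * Real.log B) * N + ε / 2 * (κ * Real.log B) * N := by ring
  rw [e3]
  linarith

end Pool.Agent.Lib.MP_a17b09_nt.QT
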