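import Pool.Agent.Lib.MP_a17b09_nt.QT.StmtsG99

/-!
Project QT (MP_a17b09_nt), upgrade M (helper99): all multiplicative functions `h` of `d`, `|h| ≤ 1`.
-/

set_option autoImplicit false

open Filter Topology Finset

namespace Pool.Agent.Lib.MP_a17b09_nt.QT

open CH CH.PE HY SP
open PQ (B1)
open AN (Ev ind wz wd Dens Ty Nd StOk StDen)
open AS (wslot cf LawTy)
open SPH (vl)

/-- multiplicative and bounded by `1` -/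
def MulB (h : ℕ → ℂ) : Prop := (∀ m n : ℕ, m ≠ 0 → n ≠ 0 → m.Coprime n → h (m * n) = h m * h n) ∧
  ∀ n, ‖h n‖ ≤ 1

/-- a weight of the slot `j`, a fixed weight of the pair, all multiplicative `h d` -/
def QuenM (a b c : ℤ) (g : ℕ → ℕ → ℂ) (w : ℕ → ℂ) : Prop := ∀ j : ℕ, 0 < j → ∀ ε : ℝ, 0 < ε →
  ∃ B₀ : ℝ, 2 ≤ B₀ ∧ ∀ B : ℝ, B₀ ≤ B → LogNull {N : ℕ | ∃ h : ℕ → ℂ, MulB h ∧
    ε * Real.log B * N < ∑ t ∈ Finset.Icc 1 N, ‖∑ d ∈ nearG a b c (1 / B) 1 t,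
      h d * g t d * w (wslot a b c t d (some j))‖}

/-- Katai's argument (fork of `StKatG`) -/
def StKatM : Prop := ∀ (a b c : ℤ), 0 < a → (∀ t : ℕ, fv a b c t ≠ 0) → ∀ κ : ℝ, Kap a b c κ →
  (∀ X : ℝ, ∃ P : Finset ℕ, (∀ p ∈ P, Spl a b c p) ∧ X ≤ mass P) → ∀ w : ℕ → ℂ, B1 w →
  ∀ g : ℕ → ℕ → ℂ, (∀ t d, ‖g t d‖ ≤ 1) → (∀ p : ℕ, Spl a b c p → DilG a b c g p) →
  TwNullX a b c w (fun n => (starRingEnd ℂ) (w n)) →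
  (∀ p : ℕ, Spl a b c p → ∃ cp : ℂ, ‖cp‖ ≤ 1 ∧ DilW a b c w p cp) → QuenM a b c g w

/-- the weights of all events with the fixed weight `g` -/
def QuenEM (a b c : ℤ) (g : ℕ → ℕ → ℂ) : Prop := ∀ (E : Ev) (δ : ℝ), E.Ok → Dens E δ →
  (∀ (z : ℂ) (k : ℕ), 0 < k → z ^ k = 1 → z ≠ 1 → QuenM a b c g (wz z E.Is)) ∧
  QuenM a b c g (wd δ E.Is)

/-- Fourier inversion in the slot `j` -/
def StFinEM : Prop := ∀ (a b c : ℤ), 0 < a → (∀ t : ℕ, fv a b c t ≠ 0) → ∀ g : ℕ → ℕ → ℂ,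
  QuenEM a b c g → ∀ (E : Ev) (δ : ℝ), E.Ok → Dens E δ → ∀ k : ℕ, 0 < k → ∀ r : ℕ,
  QuenM a b c g (iT E.Is δ k r)

/-- the final law for a type of the slot `j` -/
def LawM (a b c : ℤ) (g : ℕ → ℕ → ℂ) (T : ℕ → Prop) (δ : ℝ) : Prop := ∀ k : ℕ, 0 < k →
  ∀ j : ℕ, 0 < j → ∀ ε : ℝ, 0 < ε → ∃ B₀ : ℝ, 2 ≤ B₀ ∧ ∀ B : ℝ, B₀ ≤ B → LogNull {N : ℕ |
    ∃ r : ℕ, ∃ h : ℕ → ℂ, MulB h ∧ ε * Real.log B * N < ∑ t ∈ Finset.Icc 1 N,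
      ‖∑ d ∈ nearG a b c (1 / B) 1 t, h d * g t d * iT T δ k r (cf a b c t d j)‖}

/-- types, and without the factor `a` (`StTypG`) -/
def StTypM : Prop := StOk → StDen → ∀ (a b c : ℤ), 0 < a → (∀ t : ℕ, fv a b c t ≠ 0) →
  Pair1 a b c → ∀ κ : ℝ, Kap a b c κ → ∀ g : ℕ → ℕ → ℂ, (∀ t d, ‖g t d‖ ≤ 1) →
  (∀ (E : Ev) (δ : ℝ), E.Ok → Dens E δ → ∀ k : ℕ, 0 < k → ∀ r : ℕ,
    QuenM a b c g (iT E.Is δ k r)) →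
  ∀ (m : ℕ) (u v : Fin m → ℝ) (S : Set (Fin m → ℕ)) (δ : ℝ), (∀ i, 0 < u i) →
    Nd (Ty u v S) δ → LawM a b c g (Ty u v S) δ

end Pool.Agent.Lib.MP_a17b09_nt.QT
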