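import Pool.Agent.Lib.MP_a17b09_nt.QT.Stmts99

/-!
Project QT (MP_a17b09_nt), addition (helper3): the numbers `Ω d`, `d ∣ f t`, `t / B ≤ d ≤ t`, are
equidistributed modulo `k` for most `t` (elementary, for all large `N`), so that the pair
`(Ω d, Ω (f (t + j d)))` is equidistributed modulo `k` for most `t`.

Proof: `S ∑_D z^Ω(d) = ∑_D (S - om d) z^Ω(d) + ∑_p ∑_(d = p d')  z^Ω(d)` and the last sum is
`z ∑_(d' in D) om (f t / d') z^Ω(d')` up to the ends of the window, so `(1 - z) S ∑_D z^Ω(d)` is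
`∑_D (S - om d) z^Ω + z ∑_D (om (f t / d) - S) z^Ω + Err`.  The second variance is the first one up to
`C_P N`: the pairs `(t, d)`, `p q ∣ f t / d`, are the pairs `(t, d'')`, `d'' = p q d`, `p q ∣ d''`, of
the window shifted by the factor `p q`.
-/

set_option autoImplicit false

open Filter Topology Finset

namespace Pool.Agent.Lib.MP_a17b09_nt.QT

open CH CH.PE HY SP
open SPH (vl)

/-- the numbers `Ω d` for most `t` -/
def Quen0 (a b c : ℤ) : Prop := ∀ (z : ℂ) (k : ℕ), 0 < k → z ^ k = 1 → z ≠ 1 → ∀ ε : ℝ, 0 < ε →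
  ∃ B₀ : ℝ, 2 ≤ B₀ ∧ ∀ B : ℝ, B₀ ≤ B → ∀ᶠ N : ℕ in atTop, ∑ t ∈ Finset.Icc 1 N,
    ‖∑ d ∈ nearG a b c (1 / B) 1 t, z ^ Omn d‖ ≤ ε * Real.log B * N

/-- (K0) from the counts -/
def StKat0 : Prop := ∀ (a b c : ℤ), 0 < a → (∀ t : ℕ, fv a b c t ≠ 0) → ∀ κ : ℝ, Kap a b c κ →
  (∀ X : ℝ, ∃ P : Finset ℕ, (∀ p ∈ P, Spl a b c p) ∧ X ≤ mass P) → Quen0 a b c

/-- (K3) the final statement modulo `k` in both coordinates, from `Quen` and `Quen0` -/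
def StFinQ2 : Prop := ∀ (a b c : ℤ), 0 < a → (∀ t : ℕ, fv a b c t ≠ 0) → Quen a b c →
  Quen0 a b c → ∀ k : ℕ, 0 < k → ∀ j : ℕ, 0 < j → ∀ ε : ℝ, 0 < ε → ∃ B₀ : ℝ, 2 ≤ B₀ ∧
  ∀ B : ℝ, B₀ ≤ B → LogNull {N : ℕ | ∃ r s : ℕ, ε * Real.log B * N < ∑ t ∈ Finset.Icc 1 N,
    |(nd a b c B t (fun d => Omn d ≡ s [MOD k] ∧ Omn (vl a b c (t + j * d)) ≡ r [MOD k]) : ℝ) -
      (nd a b c B t (fun _ => True) : ℝ) / k ^ 2|}

end Pool.Agent.Lib.MP_a17b09_nt.QT
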