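import Pool.Agent.Lib.MP_a17b09_nt.QT.StmtsQ3
import Pool.Agent.Lib.MP_a17b09_nt.AN.STy3

/-!
Project QT (MP_a17b09_nt), stage 2 (helper3): the types of the cofactors for most `t`, and every
completely multiplicative function of `d`.

For most `t` (weighted by the number of the divisors `d` of `f t`, `t / B ≤ d ≤ t`) the cofactor
`e j = |f (t + j d)| / d`, `j ≥ 1`, behaves like a random integer when `d` runs over these divisors,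
and it is independent of the numbers `h d`, for every completely multiplicative `h`, `|h| ≤ 1` (the
exceptional set of `N` does not depend on `h`).
-/

set_option autoImplicit false

open Filter Topology Finset

namespace Pool.Agent.Lib.MP_a17b09_nt.QT

open CH CH.PE HY SP
open PQ (B1)
open AN (Ev ind wz wd Dens Ty Nd StOk StDen)
open AS (wslot cf LawTy)
open SPH (vl)

/-- completely multiplicative and bounded by `1` -/
def CMul (h : ℕ → ℂ) : Prop := (∀ m n : ℕ, m ≠ 0 → n ≠ 0 → h (m * n) = h m * h n) ∧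
  ∀ n, ‖h n‖ ≤ 1

/-- `w (n / p) = cp w n` for almost all pairs with `p ∣ f t / d`, `n = a |f (t + i p d)| / d` -/
def DilW (a b c : ℤ) (w : ℕ → ℂ) (p : ℕ) (cp : ℂ) : Prop := ∀ i : ℕ, ∀ B : ℝ, 2 ≤ B → ∀ ε : ℝ,
  0 < ε → LogNull {N : ℕ | ε * N < ∑ t ∈ Finset.Icc 1 N, (((nearG a b c (1 / B) 1 t).filter
    (fun d => p * d ∣ (fv a b c t).natAbs ∧ w (wslot a b c t d (some (i * p)) / p) ≠
      cp * w (wslot a b c t d (some (i * p))))).card : ℝ)}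

/-- a weight of the slot `j`, for all completely multiplicative functions of `d` -/
def QuenW (a b c : ℤ) (w : ℕ → ℂ) : Prop := ∀ j : ℕ, 0 < j → ∀ ε : ℝ, 0 < ε → ∃ B₀ : ℝ, 2 ≤ B₀ ∧
  ∀ B : ℝ, B₀ ≤ B → LogNull {N : ℕ | ∃ h : ℕ → ℂ, CMul h ∧ ε * Real.log B * N <
    ∑ t ∈ Finset.Icc 1 N, ‖∑ d ∈ nearG a b c (1 / B) 1 t, h d * w (wslot a b c t d (some j))‖}

/-- (T1) Katai's argument for a weight (fork of `Kat_99`) -/
def StKatW : Prop := ∀ (a b c : ℤ), 0 < a → (∀ t : ℕ, fv a b c t ≠ 0) → ∀ κ : ℝ, Kap a b c κ →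
  (∀ X : ℝ, ∃ P : Finset ℕ, (∀ p ∈ P, Spl a b c p) ∧ X ≤ mass P) → ∀ w : ℕ → ℂ, B1 w →
  TwNullX a b c w (fun n => (starRingEnd ℂ) (w n)) →
  (∀ p : ℕ, Spl a b c p → ∃ cp : ℂ, ‖cp‖ ≤ 1 ∧ DilW a b c w p cp) → QuenW a b c w

/-- (T2) the weights of AN: `E.Is (n / p) ↔ E.Is n` unless `n` has a prime factor near the ends of
the windows; the pairs with such a cofactor have small density (`LawTy` with `k = 1` and the type
`c ≠ 0` for the windows `(w - η, w + η]`, `AN.Da98.dens_w`, as in `AS.Ty3.dil`) -/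
def StDilE : Prop := StOk → StDen → ∀ (a b c : ℤ), 0 < a → (∀ t : ℕ, fv a b c t ≠ 0) →
  (∀ α β : ℝ, 0 < α → α < β → ∃ κ : ℝ, 0 < κ ∧
    Tendsto (fun N : ℕ => (pairCount a b c 1 0 α β (fun _ _ => True) N : ℝ) / N) atTop (𝓝 κ) ∧
    LawTy a b c 1 0 α β κ) → ∀ (E : Ev) (δ : ℝ), E.Ok → Dens E δ → ∀ p : ℕ, p.Prime →
  (∀ z : ℂ, ‖z‖ = 1 → DilW a b c (wz z E.Is) p z⁻¹) ∧ DilW a b c (wd δ E.Is) p 1

/-- the weights of all events -/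
def QuenE (a b c : ℤ) : Prop := ∀ (E : Ev) (δ : ℝ), E.Ok → Dens E δ →
  (∀ (z : ℂ) (k : ℕ), 0 < k → z ^ k = 1 → z ≠ 1 → QuenW a b c (wz z E.Is)) ∧
  QuenW a b c (wd δ E.Is)

open Classical in
/-- the difference between the indicator of a class and type and its density -/
noncomputable def iT (T : ℕ → Prop) (δ : ℝ) (k r n : ℕ) : ℂ :=
  (if T n ∧ Omn n ≡ r [MOD k] then (1 : ℂ) else 0) - (δ : ℂ) / k

/-- (T3) events: from `QuenE`, Fourier inversion modulo `k` in the slot `j` -/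
def StFinE : Prop := ∀ (a b c : ℤ), 0 < a → (∀ t : ℕ, fv a b c t ≠ 0) → QuenE a b c →
  ∀ (E : Ev) (δ : ℝ), E.Ok → Dens E δ → ∀ k : ℕ, 0 < k → ∀ r : ℕ, QuenW a b c (iT E.Is δ k r)

/-- the final law for a type: every completely multiplicative `h` -/
def LawH (a b c : ℤ) (T : ℕ → Prop) (δ : ℝ) : Prop := ∀ k : ℕ, 0 < k → ∀ j : ℕ, 0 < j →
  ∀ ε : ℝ, 0 < ε → ∃ B₀ : ℝ, 2 ≤ B₀ ∧ ∀ B : ℝ, B₀ ≤ B → LogNull {N : ℕ | ∃ r : ℕ,
    ∃ h : ℕ → ℂ, CMul h ∧ ε * Real.log B * N < ∑ t ∈ Finset.Icc 1 N,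
      ‖∑ d ∈ nearG a b c (1 / B) 1 t, h d * iT T δ k r (cf a b c t d j)‖}

/-- (T4) types, and without the factor `a` (as `AS.Ty3.ofE`, `AS.Ty3.dil`) -/
def StTypH : Prop := StOk → StDen → ∀ (a b c : ℤ), 0 < a → (∀ t : ℕ, fv a b c t ≠ 0) →
  (∀ α β : ℝ, 0 < α → α < β → ∃ κ : ℝ, 0 < κ ∧
    Tendsto (fun N : ℕ => (pairCount a b c 1 0 α β (fun _ _ => True) N : ℝ) / N) atTop (𝓝 κ) ∧
    LawTy a b c 1 0 α β κ) → ∀ κ : ℝ, Kap a b c κ →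
  (∀ (E : Ev) (δ : ℝ), E.Ok → Dens E δ → ∀ k : ℕ, 0 < k → ∀ r : ℕ,
    QuenW a b c (iT E.Is δ k r)) →
  ∀ (m : ℕ) (u v : Fin m → ℝ) (S : Set (Fin m → ℕ)) (δ : ℝ), (∀ i, 0 < u i) →
    Nd (Ty u v S) δ → LawH a b c (Ty u v S) δ

/-- (T5) the pair law for a type, from `LawH` (`h = z ^ Ω`) and `Quen0` -/
def StPairH : Prop := ∀ (a b c : ℤ), 0 < a → (∀ t : ℕ, fv a b c t ≠ 0) → Quen0 a b c →
  ∀ (T : ℕ → Prop) (δ : ℝ), 0 ≤ δ → δ ≤ 1 → LawH a b c T δ → ∀ k : ℕ, 0 < k → ∀ j : ℕ, 0 < j →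
  ∀ ε : ℝ, 0 < ε → ∃ B₀ : ℝ, 2 ≤ B₀ ∧ ∀ B : ℝ, B₀ ≤ B → LogNull {N : ℕ | ∃ r s : ℕ,
    ε * Real.log B * N < ∑ t ∈ Finset.Icc 1 N,
    |(nd a b c B t (fun d => Omn d ≡ s [MOD k] ∧ T (cf a b c t d j) ∧
      Omn (cf a b c t d j) ≡ r [MOD k]) : ℝ) - δ * (nd a b c B t (fun _ => True) : ℝ) / k ^ 2|}

end Pool.Agent.Lib.MP_a17b09_nt.QT
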