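import Pool.Agent.Lib.MP_a17b09_nt.QT.StmtsG99
import Pool.Agent.Lib.MP_a17b09_nt.QT.Tri79
import Pool.Agent.Lib.MP_a17b09_nt.AN.SAll3

/-!
Project QT (MP_a17b09_nt), module G6 (helper3): the law of three slots `d`, `|f t| / d`,
`|f (t + j d)| / d` from `CondL` and the law of pairs.
-/

set_option autoImplicit false

open Filter Topology Finset

namespace Pool.Agent.Lib.MP_a17b09_nt.QT

open CH CH.PE HY SP
open AN (Ev ind wz wd Dens Ty Nd StOk StDen)
open AS (wslot cf LawTy LawT)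
open SPH (vl)
open SPH.FinA11 (count_eq)

namespace TG3

variable {a b c : ℤ}

/-- `Ω (f t) = Ω d + Ω (|f t| / d)` -/
theorem om_cf (hf : ∀ t : ℕ, fv a b c t ≠ 0) {t d : ℕ} (hd : d ∣ (fv a b c t).natAbs) :
    Omn (vl a b c t) = Omn d + Omn (cf a b c t d 0) := by
  have h0 : (fv a b c t).natAbs ≠ 0 := Int.natAbs_ne_zero.2 (hf t)
  have e1 : cf a b c t d 0 = (fv a b c t).natAbs / d := by
    unfold AS.cf vl fv
    rw [zero_mul, add_zero]
  have e2 : vl a b c t = (fv a b c t).natAbs := rfl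
  obtain ⟨e, he⟩ := hd
  have hd0 : d ≠ 0 := by
    rintro rfl
    exact h0 (by rw [he, zero_mul])
  have he0 : e ≠ 0 := by
    rintro rfl
    exact h0 (by rw [he, mul_zero])
  rw [e1, e2, he, Nat.mul_div_cancel_left e (Nat.pos_of_ne_zero hd0)]
  unfold Omn
  exact ArithmeticFunction.cardFactors_mul hd0 he0

/-- the class of `Ω (|f t| / d)` is given by the classes of `Ω (f t)` and `Ω d` -/
theorem cls_iff (hf : ∀ t : ℕ, fv a b c t ≠ 0) {t d : ℕ} (hd : d ∣ (fv a b c t).natAbs)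
    {k r s : ℕ} (hr : Omn d ≡ r [MOD k]) :
    Omn (cf a b c t d 0) ≡ s [MOD k] ↔ Omn (vl a b c t) ≡ r + s [MOD k] := by
  rw [om_cf hf hd]
  constructor
  · intro h
    exact Nat.ModEq.add hr h
  · intro h
    exact Nat.ModEq.add_left_cancel hr h

/-- restriction to the `t` of one class -/
theorem pc_cls3 (hf : ∀ t : ℕ, fv a b c t ≠ 0) (B : ℝ) (T T' T'' : ℕ → Prop) (x : ℝ)
    (j k r s q N : ℕ) :
    |(pairCount a b c 1 0 (1 / B) 1 (fun t d => T d ∧ T' (cf a b c t d 0) ∧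
        T'' (cf a b c t d j) ∧ Omn d ≡ r [MOD k] ∧ Omn (cf a b c t d 0) ≡ s [MOD k] ∧
        Omn (cf a b c t d j) ≡ q [MOD k]) N : ℝ) -
      x * (pairCount a b c 1 0 (1 / B) 1 (fun t d => T d ∧ T' (cf a b c t d 0) ∧
        Omn d ≡ r [MOD k] ∧ Omn (cf a b c t d 0) ≡ s [MOD k]) N : ℝ)| ≤ ∑ t ∈ Finset.Icc 1 N,
    |(nd a b c B t (fun d => T d ∧ T' (cf a b c t d 0) ∧ T'' (cf a b c t d j) ∧
      Omn d ≡ r [MOD k] ∧ Omn (cf a b c t d j) ≡ q [MOD k]) : ℝ) -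
      x * (nd a b c B t (fun d => T d ∧ T' (cf a b c t d 0) ∧ Omn d ≡ r [MOD k]) : ℝ)| := by
  classical
  rw [count_eq hf, count_eq hf, filt_one]
  push_cast
  rw [Finset.mul_sum, ← Finset.sum_sub_distrib]
  refine (Finset.abs_sum_le_sum_abs _ _).trans (Finset.sum_le_sum fun t _ => ?_)
  have hdv : ∀ d ∈ nearG a b c (1 / B) 1 t, d ∣ (fv a b c t).natAbs := fun d hd =>
    Nat.dvd_of_mem_divisors (Finset.mem_filter.1 hd).1
  by_cases ht : Omn (vl a b c t) ≡ r + s [MOD k]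
  · apply le_of_eq
    have e1 : ((nearG a b c (1 / B) 1 t).filter (fun d => T d ∧ T' (cf a b c t d 0) ∧
        T'' (cf a b c t d j) ∧ Omn d ≡ r [MOD k] ∧ Omn (cf a b c t d 0) ≡ s [MOD k] ∧
        Omn (cf a b c t d j) ≡ q [MOD k])).card =
        nd a b c B t (fun d => T d ∧ T' (cf a b c t d 0) ∧ T'' (cf a b c t d j) ∧
      Omn d ≡ r [MOD k] ∧ Omn (cf a b c t d j) ≡ q [MOD k]) := by
      unfold nd
      congr 1
      ext d
      simp only [Finset.mem_filter]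
      constructor
      · rintro ⟨h1, h2, h3, h4, h5, -, h6⟩
        exact ⟨h1, h2, h3, h4, h5, h6⟩
      · rintro ⟨h1, h2, h3, h4, h5, h6⟩
        exact ⟨h1, h2, h3, h4, h5, (cls_iff hf (hdv d h1) h5).2 ht, h6⟩
    have e2 : ((nearG a b c (1 / B) 1 t).filter (fun d => T d ∧ T' (cf a b c t d 0) ∧
        Omn d ≡ r [MOD k] ∧ Omn (cf a b c t d 0) ≡ s [MOD k])).card =
        nd a b c B t (fun d => T d ∧ T' (cf a b c t d 0) ∧ Omn d ≡ r [MOD k]) := by
      unfold nd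
      congr 1
      ext d
      simp only [Finset.mem_filter]
      constructor
      · rintro ⟨h1, h2, h3, h4, -⟩
        exact ⟨h1, h2, h3, h4⟩
      · rintro ⟨h1, h2, h3, h4⟩
        exact ⟨h1, h2, h3, h4, (cls_iff hf (hdv d h1) h4).2 ht⟩
    rw [e1, e2]
  · have e1 : (nearG a b c (1 / B) 1 t).filter (fun d => T d ∧ T' (cf a b c t d 0) ∧
        T'' (cf a b c t d j) ∧ Omn d ≡ r [MOD k] ∧ Omn (cf a b c t d 0) ≡ s [MOD k] ∧
        Omn (cf a b c t d j) ≡ q [MOD k]) = ∅ :=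
      Finset.filter_false_of_mem fun d hd h =>
        ht ((cls_iff hf (hdv d hd) h.2.2.2.1).1 h.2.2.2.2.1)
    have e2 : (nearG a b c (1 / B) 1 t).filter (fun d => T d ∧ T' (cf a b c t d 0) ∧
        Omn d ≡ r [MOD k] ∧ Omn (cf a b c t d 0) ≡ s [MOD k]) = ∅ :=
      Finset.filter_false_of_mem fun d hd h =>
        ht ((cls_iff hf (hdv d hd) h.2.2.1).1 h.2.2.2)
    rw [e1, e2]
    simp only [Finset.card_empty, Nat.cast_zero, mul_zero, sub_zero, abs_zero]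
    exact abs_nonneg _

/-- only the classes count -/
theorem pc_mod {B : ℝ} (T T' : ℕ → Prop) (k r s N : ℕ) :
    pairCount a b c 1 0 (1 / B) 1 (fun t d => T d ∧ T' (cf a b c t d 0) ∧
        Omn d ≡ r % k [MOD k] ∧ Omn (cf a b c t d 0) ≡ s % k [MOD k]) N =
      pairCount a b c 1 0 (1 / B) 1 (fun t d => T d ∧ T' (cf a b c t d 0) ∧
        Omn d ≡ r [MOD k] ∧ Omn (cf a b c t d 0) ≡ s [MOD k]) N := by
  have e : ∀ x y : ℕ, (x ≡ y % k [MOD k]) = (x ≡ y [MOD k]) := by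
    intro x y
    unfold Nat.ModEq
    rw [Nat.mod_mod]
  simp only [e]

end TG3

open TG3 in
/-- **G6** -/
theorem stThree_3 : StThree := by
  classical
  intro a b c _ha hf κ hκ hP hC m m' m'' u v u' v' u'' v'' S S' S'' δ δ' δ'' hu hu' hu'' hδ hδ'
    hδ'' k hk j hj ε hε
  have hk0 : (0 : ℝ) < k := by exact_mod_cast hk
  have hk1 : (1 : ℝ) ≤ k := by exact_mod_cast hk
  have hm := AS.nd_mem hδ''
  obtain ⟨B₀, hB0, hB⟩ := hC m m' m'' u v u' v' u'' v'' S S' S'' δ'' hu hu' hu'' hδ'' k hk j hj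
    (ε / 2) (by positivity)
  refine ⟨B₀, hB0, fun B hBB => ?_⟩
  have hB2 : 2 ≤ B := hB0.trans hBB
  have hlB : 0 < Real.log B := Real.log_pos (by linarith)
  obtain ⟨κ', -, hlim, hLT⟩ := hP (1 / B) 1 (by positivity)
    (by rw [div_lt_one (by linarith)]; linarith)
  have hκ' : κ' = κ * Real.log B := tendsto_nhds_unique hlim (kap_lim hf hκ hB2)
  subst hκ'
  have hL := hLT m m' u v u' v' S S' δ δ' hu hu' hδ hδ'
  have hU := AN.Ty98.lognull_union (Finset.range k ×ˢ Finset.range k) (fun i : ℕ × ℕ =>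
    {N : ℕ | ε / 2 * Real.log B * N < |(pairCount a b c 1 0 (1 / B) 1 (fun t d =>
      Ty u v S d ∧ Ty u' v' S' (cf a b c t d 0) ∧ Omn d ≡ i.1 [MOD k] ∧
      Omn (cf a b c t d 0) ≡ i.2 [MOD k]) N : ℝ) -
      δ * δ' * (κ * Real.log B) / k ^ 2 * N|})
    (fun i _ => (hL k hk i.1 i.2 (ε / 2 * Real.log B) (by positivity)).1 0)
  refine EndS.LogNull.mono (TP79.logNull_union (hB B hBB) hU) fun N hN => ?_
  by_contra hcon
  rw [Set.mem_union, not_or] at hcon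
  obtain ⟨g1, g2⟩ := hcon
  simp only [Set.mem_ofPred_eq, not_exists, not_lt, not_and] at g1 g2
  obtain ⟨r, s, q, hN⟩ := hN
  have g3 := (pc_cls3 hf B (Ty u v S) (Ty u' v' S') (Ty u'' v'' S'') (δ'' / k) j k r s q N).trans
    (g1 r q)
  have g4 := g2 (r % k, s % k) (Finset.mem_product.2 ⟨Finset.mem_range.2 (Nat.mod_lt _ hk),
    Finset.mem_range.2 (Nat.mod_lt _ hk)⟩)
  simp only at g4
  rw [pc_mod] at g4
  have hN0 : (0 : ℝ) ≤ N := Nat.cast_nonneg _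
  set x : ℝ := (pairCount a b c 1 0 (1 / B) 1 (fun t d => Ty u v S d ∧
      Ty u' v' S' (cf a b c t d 0) ∧ Ty u'' v'' S'' (cf a b c t d j) ∧ Omn d ≡ r [MOD k] ∧
      Omn (cf a b c t d 0) ≡ s [MOD k] ∧ Omn (cf a b c t d j) ≡ q [MOD k]) N : ℝ)
  set y : ℝ := (pairCount a b c 1 0 (1 / B) 1 (fun t d => Ty u v S d ∧
      Ty u' v' S' (cf a b c t d 0) ∧ Omn d ≡ r [MOD k] ∧
      Omn (cf a b c t d 0) ≡ s [MOD k]) N : ℝ)
  have g5 : |δ'' / k * y - δ * δ' * δ'' * κ * Real.log B / k ^ 3 * N| ≤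
      ε / 2 * Real.log B * N := by
    have e1 : δ'' / k * y - δ * δ' * δ'' * κ * Real.log B / k ^ 3 * N =
        δ'' / k * (y - δ * δ' * (κ * Real.log B) / k ^ 2 * N) := by
      field_simp
    have h1 : |δ'' / k| ≤ 1 := by
      rw [abs_of_nonneg (div_nonneg hm.1 hk0.le), div_le_one hk0]
      linarith
    rw [e1, abs_mul]
    calc |δ'' / k| * |y - δ * δ' * (κ * Real.log B) / k ^ 2 * N| ≤
          1 * |y - δ * δ' * (κ * Real.log B) / k ^ 2 * N| :=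
        mul_le_mul_of_nonneg_right h1 (abs_nonneg _)
      _ ≤ ε / 2 * Real.log B * N := by rw [one_mul]; exact g4
  have g6 : |x - δ * δ' * δ'' * κ * Real.log B / k ^ 3 * N| ≤ |x - δ'' / k * y| +
      |δ'' / k * y - δ * δ' * δ'' * κ * Real.log B / k ^ 3 * N| := abs_sub_le _ _ _
  linarith

end Pool.Agent.Lib.MP_a17b09_nt.QT
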