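import Pool.Agent.Lib.MP_a17b09_nt.QT.Stmts99

/-!
Row C5 of project QT: from the weight `rho` to the pairs `(t, d)` with `t / B ≤ d ≤ t`.
-/

set_option autoImplicit false

open Filter Topology Finset

namespace Pool.Agent.Lib.MP_a17b09_nt.QT

open CH

namespace Tr11

theorem mem_near {a b c : ℤ} {B : ℝ} {t d : ℕ} (h : d ∈ nearG a b c (1 / B) 1 t) :
    0 < d ∧ (d : ℤ) ∣ fv a b c t ∧ 1 / B * t ≤ (d : ℝ) ∧ d ≤ t := by
  rw [nearG, Finset.mem_filter, Nat.mem_divisors] at h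
  obtain ⟨⟨h1, h2⟩, h3, h4⟩ := h
  refine ⟨Nat.pos_of_dvd_of_pos h1 (Nat.pos_of_ne_zero h2), ?_, h3, ?_⟩
  · exact Int.natCast_dvd.2 h1
  · rw [one_mul] at h4
    exact_mod_cast h4

/-- the number of `t` for one `d` -/
theorem cnt_t (a b c : ℤ) (B : ℝ) (hB : 2 ≤ B) (N d : ℕ) (hd : 0 < d) :
    ((Finset.Icc 1 N).filter (fun t => d ∈ nearG a b c (1 / B) 1 t)).card ≤
      rho a b c d * min ⌊B⌋₊ (N / d) := by
  classical
  have hB0 : 0 < B := by linarith
  have h1 : ((Finset.range d).filter (fun t : ℕ => (d : ℤ) ∣ fv a b c t) ×ˢ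
      Finset.Icc 1 (min ⌊B⌋₊ (N / d))).card = rho a b c d * min ⌊B⌋₊ (N / d) := by
    rw [Finset.card_product, Nat.card_Icc, rho, Nat.add_sub_cancel]
  rw [← h1]
  refine Finset.card_le_card_of_injOn (fun t => (t % d, t / d)) ?_ ?_
  · intro t ht
    rw [Finset.mem_coe, Finset.mem_filter, Finset.mem_Icc] at ht
    obtain ⟨⟨-, htN⟩, hm⟩ := ht
    obtain ⟨-, h2, h3, h4⟩ := mem_near hm
    rw [Finset.mem_coe, Finset.mem_product, Finset.mem_filter, Finset.mem_range, Finset.mem_Icc]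
    refine ⟨⟨Nat.mod_lt _ hd, ?_⟩, ?_, ?_⟩
    · have h5 : fv a b c t = fv a b c (t % d) + d * ((t / d : ℕ) *
          (2 * a * (t % d : ℕ) + b) + a * d * (t / d : ℕ) ^ 2) := by
        have h6 : (t : ℤ) = (t % d : ℕ) + d * (t / d : ℕ) := by
          exact_mod_cast (Nat.mod_add_div t d).symm
        simp only [fv]
        rw [h6]
        ring
      rw [h5] at h2
      exact (dvd_add_left (Dvd.intro _ rfl)).1 h2
    · exact (Nat.one_le_div_iff hd).2 h4
    · refine le_min ?_ (Nat.div_le_div_right htN)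
      refine Nat.le_floor ?_
      have h5 : (t : ℝ) ≤ B * d := by
        have h6 := mul_le_mul_of_nonneg_left h3 hB0.le
        have h7 : B * (1 / B * t) = t := by field_simp
        rw [h7] at h6
        exact h6
      have h8 : ((t / d : ℕ) : ℝ) ≤ t / d := Nat.cast_div_le
      have hd0 : (0 : ℝ) < d := by exact_mod_cast hd
      refine h8.trans ?_
      rw [div_le_iff₀ hd0]
      exact h5
  · intro t _ t' _ h
    simp only [Prod.mk.injEq] at h
    rw [← Nat.mod_add_div t d, ← Nat.mod_add_div t' d, h.1, h.2]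

/-- powers of two -/
theorem pow_bound (M N d : ℕ) :
    min M (N / d) ≤ 2 * ∑ i ∈ Finset.range (Nat.log 2 M + 1),
      if d ∈ Finset.Icc 1 (N / 2 ^ i) then 2 ^ i else 0 := by
  rcases Nat.eq_zero_or_pos (min M (N / d)) with h | h
  · rw [h]; exact Nat.zero_le _
  · set K := min M (N / d) with hK
    have hd : 0 < d := by
      rcases Nat.eq_zero_or_pos d with h0 | h0
      · rw [h0, Nat.div_zero, Nat.min_zero] at hK
        omega
      · exact h0
    have h1 : 2 ^ Nat.log 2 K ≤ K := Nat.pow_log_le_self 2 (by omega)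
    have h2 : K < 2 ^ (Nat.log 2 K + 1) := Nat.lt_pow_succ_log_self (by norm_num) K
    have h3 : Nat.log 2 K ≤ Nat.log 2 M := Nat.log_mono_right (min_le_left _ _)
    have h4 : K * d ≤ N := by
      calc K * d ≤ N / d * d := Nat.mul_le_mul_right _ (min_le_right _ _)
        _ ≤ N := Nat.div_mul_le_self N d
    have h5 : d ∈ Finset.Icc 1 (N / 2 ^ Nat.log 2 K) := by
      rw [Finset.mem_Icc, Nat.le_div_iff_mul_le (by positivity)]
      refine ⟨hd, ?_⟩
      calc d * 2 ^ Nat.log 2 K ≤ d * K := Nat.mul_le_mul_left _ h1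
        _ = K * d := mul_comm _ _
        _ ≤ N := h4
    have h6 : (if d ∈ Finset.Icc 1 (N / 2 ^ Nat.log 2 K) then 2 ^ Nat.log 2 K else 0) ≤
        ∑ i ∈ Finset.range (Nat.log 2 M + 1),
          if d ∈ Finset.Icc 1 (N / 2 ^ i) then 2 ^ i else 0 :=
      Finset.single_le_sum
        (f := fun i => if d ∈ Finset.Icc 1 (N / 2 ^ i) then 2 ^ i else 0)
        (fun _ _ => Nat.zero_le _) (Finset.mem_range.2 (by omega))
    rw [if_pos h5] at h6
    rw [pow_succ] at h2
    omega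

end Tr11

open Tr11 in
/-- row C5 -/
theorem stTr_11 : StTr := by
  classical
  intro a b c _ φ hφ c0 hc0 hev B hB
  have hB0 : 0 < B := by linarith
  obtain ⟨n0, hn0⟩ := eventually_atTop.1 hev
  set L := Nat.log 2 ⌊B⌋₊ with hL
  set g : ℕ → ℝ := fun d => (rho a b c d : ℝ) * φ d with hg
  have hg0 : ∀ d, 0 ≤ g d := fun d => mul_nonneg (Nat.cast_nonneg _) (hφ d)
  filter_upwards [eventually_ge_atTop (2 ^ L * n0)] with N hN
  -- step 1
  have h1 : ∑ t ∈ Finset.Icc 1 N, ∑ d ∈ nearG a b c (1 / B) 1 t, φ d =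
      ∑ d ∈ Finset.Icc 1 N,
        (((Finset.Icc 1 N).filter (fun t => d ∈ nearG a b c (1 / B) 1 t)).card : ℝ) * φ d := by
    have h2 : ∀ t ∈ Finset.Icc 1 N, ∑ d ∈ nearG a b c (1 / B) 1 t, φ d =
        ∑ d ∈ Finset.Icc 1 N, if d ∈ nearG a b c (1 / B) 1 t then φ d else 0 := by
      intro t ht
      rw [← Finset.sum_filter]
      refine Finset.sum_congr ?_ fun _ _ => rfl
      ext d
      rw [Finset.mem_filter, Finset.mem_Icc]
      constructor
      · intro h
        obtain ⟨h3, -, -, h4⟩ := mem_near h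
        exact ⟨⟨h3, h4.trans (Finset.mem_Icc.1 ht).2⟩, h⟩
      · exact fun h => h.2
    rw [Finset.sum_congr rfl h2, Finset.sum_comm]
    refine Finset.sum_congr rfl fun d _ => ?_
    rw [← Finset.sum_filter, Finset.sum_const, nsmul_eq_mul]
  -- step 2
  have h2 : ∀ d ∈ Finset.Icc 1 N,
      (((Finset.Icc 1 N).filter (fun t => d ∈ nearG a b c (1 / B) 1 t)).card : ℝ) * φ d ≤
        2 * ∑ i ∈ Finset.range (L + 1),
          (2 : ℝ) ^ i * (if d ∈ Finset.Icc 1 (N / 2 ^ i) then g d else 0) := by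
    intro d hd
    have h3 := cnt_t a b c B hB N d (Finset.mem_Icc.1 hd).1
    have h4 := h3.trans (Nat.mul_le_mul_left _ (pow_bound ⌊B⌋₊ N d))
    have h5 : (((Finset.Icc 1 N).filter (fun t => d ∈ nearG a b c (1 / B) 1 t)).card : ℝ) ≤
        (rho a b c d : ℝ) * (2 * ∑ i ∈ Finset.range (L + 1),
          if d ∈ Finset.Icc 1 (N / 2 ^ i) then (2 : ℝ) ^ i else 0) := by
      have h6 := (Nat.cast_le (α := ℝ)).2 h4
      push_cast at h6
      exact h6
    refine (mul_le_mul_of_nonneg_right h5 (hφ d)).trans (le_of_eq ?_)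
    rw [mul_assoc, mul_comm _ (φ d), ← mul_assoc, mul_left_comm, Finset.mul_sum]
    congr 1
    refine Finset.sum_congr rfl fun i _ => ?_
    split_ifs
    · simp only [hg]; ring
    · simp
  -- step 3
  have h3 : ∀ i ∈ Finset.range (L + 1), ∑ d ∈ Finset.Icc 1 N,
      (2 : ℝ) ^ i * (if d ∈ Finset.Icc 1 (N / 2 ^ i) then g d else 0) ≤ c0 * N := by
    intro i hi
    have hiL : i ≤ L := by have := Finset.mem_range.1 hi; omega
    rw [← Finset.mul_sum, ← Finset.sum_filter]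
    have h4 : (Finset.Icc 1 N).filter (fun d => d ∈ Finset.Icc 1 (N / 2 ^ i)) =
        Finset.Icc 1 (N / 2 ^ i) := by
      ext d
      rw [Finset.mem_filter, Finset.mem_Icc, Finset.mem_Icc]
      have h5 : N / 2 ^ i ≤ N := Nat.div_le_self _ _
      constructor
      · exact fun h => h.2
      · exact fun h => ⟨⟨h.1, h.2.trans h5⟩, h⟩
    rw [h4]
    have h5 : n0 ≤ N / 2 ^ i := by
      rw [Nat.le_div_iff_mul_le (by positivity)]
      calc n0 * 2 ^ i ≤ n0 * 2 ^ L :=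
            Nat.mul_le_mul_left _ (Nat.pow_le_pow_right (by norm_num) hiL)
        _ = 2 ^ L * n0 := mul_comm _ _
        _ ≤ N := hN
    have h6 := hn0 _ h5
    have h7 : ((N / 2 ^ i : ℕ) : ℝ) ≤ N / 2 ^ i := by
      have := @Nat.cast_div_le ℝ _ _ _ N (2 ^ i)
      push_cast at this
      exact this
    have h8 : (0 : ℝ) < 2 ^ i := by positivity
    calc (2 : ℝ) ^ i * ∑ d ∈ Finset.Icc 1 (N / 2 ^ i), g d
        ≤ 2 ^ i * (c0 * ((N / 2 ^ i : ℕ) : ℝ)) := mul_le_mul_of_nonneg_left h6 h8.le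
      _ ≤ 2 ^ i * (c0 * (N / 2 ^ i)) := by gcongr
      _ = c0 * N := by field_simp
  -- step 4
  have h4 : ∑ t ∈ Finset.Icc 1 N, ∑ d ∈ nearG a b c (1 / B) 1 t, φ d ≤
      2 * ((L + 1 : ℕ) * (c0 * N)) := by
    rw [h1]
    calc ∑ d ∈ Finset.Icc 1 N,
          (((Finset.Icc 1 N).filter (fun t => d ∈ nearG a b c (1 / B) 1 t)).card : ℝ) * φ d
        ≤ ∑ d ∈ Finset.Icc 1 N, 2 * ∑ i ∈ Finset.range (L + 1),
          (2 : ℝ) ^ i * (if d ∈ Finset.Icc 1 (N / 2 ^ i) then g d else 0) :=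
          Finset.sum_le_sum h2
      _ = 2 * ∑ i ∈ Finset.range (L + 1), ∑ d ∈ Finset.Icc 1 N,
          (2 : ℝ) ^ i * (if d ∈ Finset.Icc 1 (N / 2 ^ i) then g d else 0) := by
          rw [← Finset.mul_sum, Finset.sum_comm]
      _ ≤ 2 * ∑ i ∈ Finset.range (L + 1), c0 * N := by
          gcongr with i hi
          exact h3 i hi
      _ = 2 * ((L + 1 : ℕ) * (c0 * N)) := by
          rw [Finset.sum_const, Finset.card_range, nsmul_eq_mul]
  refine h4.trans ?_
  have hlog2 : (0.69 : ℝ) < Real.log 2 := by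
    have := Real.log_two_gt_d9
    linarith
  have hlogB : Real.log 2 ≤ Real.log B := Real.log_le_log (by norm_num) hB
  have hLB : (L : ℝ) * Real.log 2 ≤ Real.log B := by
    rw [← Real.log_pow]
    refine Real.log_le_log (by positivity) ?_
    have h5 : 2 ^ L ≤ ⌊B⌋₊ := by
      refine Nat.pow_log_le_self 2 ?_
      have : 2 ≤ ⌊B⌋₊ := Nat.le_floor (by exact_mod_cast hB)
      omega
    calc (2 : ℝ) ^ L = ((2 ^ L : ℕ) : ℝ) := by push_cast; rfl
      _ ≤ (⌊B⌋₊ : ℝ) := by exact_mod_cast h5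
      _ ≤ B := Nat.floor_le hB0.le
  have hL1 : ((L + 1 : ℕ) : ℝ) ≤ 20 * Real.log B := by
    push_cast
    nlinarith [Nat.cast_nonneg (α := ℝ) L]
  have hN0 : (0 : ℝ) ≤ c0 * N := by positivity
  calc 2 * (((L + 1 : ℕ) : ℝ) * (c0 * N)) ≤ 2 * (20 * Real.log B * (c0 * N)) := by gcongr
    _ = 40 * c0 * Real.log B * N := by ring

end Pool.Agent.Lib.MP_a17b09_nt.QT
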