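import Pool.Agent.Lib.MP_a17b09_nt.QT.Stmts99

/-!
# Project QT (MP_a17b09): from the weight `rho` to the pairs (helper64)

A divisor `d ≤ t ≤ B d`, `t ≤ N`, has `t < 2 ^ (i + 1) d` for some `i ≤ log₂ B` with `2 ^ i d ≤ N`.
-/

set_option autoImplicit false

open Filter Topology Finset

namespace Pool.Agent.Lib.MP_a17b09_nt.QT

open CH CH.PE HY SP

namespace Tr64

theorem fv_per (a b c : ℤ) (d : ℕ) :
    Function.Periodic (fun t : ℕ => (d : ℤ) ∣ fv a b c t) d := by
  intro t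
  have h : fv a b c (t + d : ℕ) = fv a b c t + d * (2 * a * t + a * d + b) := by
    unfold fv
    push_cast
    ring
  apply propext
  show (d : ℤ) ∣ fv a b c (t + d : ℕ) ↔ (d : ℤ) ∣ fv a b c t
  rw [h]
  exact dvd_add_left ⟨_, rfl⟩

theorem card_mul (a b c : ℤ) (d m : ℕ) :
    ((Finset.range (m * d)).filter (fun t : ℕ => (d : ℤ) ∣ fv a b c t)).card =
      m * rho a b c d := by
  induction m with
  | zero => simp
  | succ m ih =>
    have h1 : Finset.range ((m + 1) * d) = Finset.range (m * d) ∪ Finset.Ico (m * d) (m * d + d) := by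
      ext x
      rw [Finset.mem_union, Finset.mem_range, Finset.mem_range, Finset.mem_Ico, Nat.succ_mul]
      omega
    have h2 : Disjoint (Finset.range (m * d)) (Finset.Ico (m * d) (m * d + d)) := by
      rw [Finset.disjoint_left]
      intro x hx hy
      rw [Finset.mem_range] at hx
      rw [Finset.mem_Ico] at hy
      omega
    rw [h1, Finset.filter_union, Finset.card_union_of_disjoint (Finset.disjoint_filter_filter h2), ih,
      Nat.filter_Ico_card_eq_of_periodic _ _ _ (fv_per a b c d), Nat.count_eq_card_filter_range,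
      Nat.succ_mul]
    rfl

/-- the number of `t` for one `d` -/
theorem cnt_le {a b c : ℤ} {B : ℝ} (hB : 0 < B) {I : ℕ} (hI : B < 2 ^ (I + 1)) {N d : ℕ}
    (hd1 : 1 ≤ d) (hdN : d ≤ N) : ∃ i ∈ Finset.range (I + 1), d * 2 ^ i ≤ N ∧
      ((Finset.Icc 1 N).filter (fun t => d ∈ nearG a b c (1 / B) 1 t)).card ≤
        2 ^ (i + 1) * rho a b c d := by
  have hND : N / d ≠ 0 := (Nat.div_pos hdN hd1).ne'
  have hBd : ∀ t : ℕ, d ∈ nearG a b c (1 / B) 1 t → (d : ℤ) ∣ fv a b c t ∧ (t : ℝ) ≤ B * d := by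
    intro t ht
    unfold nearG at ht
    rw [Finset.mem_filter, Nat.mem_divisors] at ht
    refine ⟨Int.natCast_dvd.2 ht.1.1, ?_⟩
    have h1 := ht.2.1
    rw [one_div, inv_mul_le_iff₀ hB] at h1
    exact h1
  -- the index
  obtain ⟨i, hi, hdi, hlt⟩ : ∃ i ∈ Finset.range (I + 1), d * 2 ^ i ≤ N ∧
      ∀ t : ℕ, t ≤ N → (t : ℝ) ≤ B * d → t < 2 ^ (i + 1) * d := by
    by_cases hc : Nat.log 2 (N / d) ≤ I
    · refine ⟨Nat.log 2 (N / d), Finset.mem_range.2 (by omega), ?_, ?_⟩
      · have := Nat.pow_log_le_self 2 hND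
        rw [Nat.le_div_iff_mul_le hd1] at this
        rwa [mul_comm]
      · intro t ht _
        have := Nat.lt_pow_succ_log_self (b := 2) (by norm_num) (N / d)
        rw [Nat.div_lt_iff_lt_mul hd1] at this
        exact lt_of_le_of_lt ht this
    · refine ⟨I, Finset.mem_range.2 (by omega), ?_, ?_⟩
      · have h1 : 2 ^ I ≤ 2 ^ Nat.log 2 (N / d) := Nat.pow_le_pow_right (by norm_num) (by omega)
        have := h1.trans (Nat.pow_log_le_self 2 hND)
        rw [Nat.le_div_iff_mul_le hd1] at this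
        rwa [mul_comm]
      · intro t _ ht
        have hd0 : (0 : ℝ) < d := by exact_mod_cast hd1
        have : (t : ℝ) < ((2 ^ (I + 1) * d : ℕ) : ℝ) := by
          push_cast
          exact lt_of_le_of_lt ht (mul_lt_mul_of_pos_right hI hd0)
        exact_mod_cast this
  refine ⟨i, hi, hdi, ?_⟩
  rw [← card_mul]
  apply Finset.card_le_card
  intro t ht
  rw [Finset.mem_filter, Finset.mem_Icc] at ht
  obtain ⟨h1, h2⟩ := hBd t ht.2
  rw [Finset.mem_filter, Finset.mem_range]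
  exact ⟨hlt t ht.1.2 h2, h1⟩

end Tr64

open Tr64 in
/-- (C5) from the weight `rho` to the pairs -/
theorem stTr_64 : StTr := by
  classical
  intro a b c hf φ hφ c0 hc0 hS B hB
  obtain ⟨n0, hn0⟩ := eventually_atTop.1 hS
  have hB0 : 0 < B := by linarith
  set I := Nat.log 2 ⌊B⌋₊ with hIdef
  have hfl : 2 ≤ ⌊B⌋₊ := Nat.le_floor (by exact_mod_cast hB)
  have hI1 : (2 : ℝ) ^ I ≤ B := by
    have h1 : 2 ^ I ≤ ⌊B⌋₊ := Nat.pow_log_le_self 2 (by omega)
    have h2 : ((2 ^ I : ℕ) : ℝ) ≤ (⌊B⌋₊ : ℝ) := by exact_mod_cast h1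
    push_cast at h2
    exact h2.trans (Nat.floor_le hB0.le)
  have hI2 : B < 2 ^ (I + 1) := by
    have h1 : ⌊B⌋₊ < 2 ^ (I + 1) := Nat.lt_pow_succ_log_self (by norm_num) _
    have h2 : ((⌊B⌋₊ + 1 : ℕ) : ℝ) ≤ ((2 ^ (I + 1) : ℕ) : ℝ) := by exact_mod_cast h1
    push_cast at h2
    exact lt_of_lt_of_le (Nat.lt_floor_add_one B) h2
  have hlogB : Real.log 2 ≤ Real.log B := Real.log_le_log (by norm_num) hB
  have hIlog : (I : ℝ) * Real.log 2 ≤ Real.log B := by
    rw [← Real.log_pow]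
    exact Real.log_le_log (by positivity) hI1
  filter_upwards [eventually_ge_atTop (2 ^ I * n0)] with N hN
  -- one exchange of the sums
  have e1 : ∑ t ∈ Finset.Icc 1 N, ∑ d ∈ nearG a b c (1 / B) 1 t, φ d =
      ∑ d ∈ Finset.Icc 1 N,
        (((Finset.Icc 1 N).filter (fun t => d ∈ nearG a b c (1 / B) 1 t)).card : ℝ) * φ d := by
    have h1 : ∀ t ∈ Finset.Icc 1 N, ∑ d ∈ nearG a b c (1 / B) 1 t, φ d =
        ∑ d ∈ Finset.Icc 1 N, if d ∈ nearG a b c (1 / B) 1 t then φ d else 0 := by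
      intro t ht
      rw [Finset.mem_Icc] at ht
      rw [← Finset.sum_filter]
      refine Finset.sum_congr ?_ fun _ _ => rfl
      ext d
      rw [Finset.mem_filter, Finset.mem_Icc]
      constructor
      · intro hd
        refine ⟨?_, hd⟩
        unfold nearG at hd
        rw [Finset.mem_filter] at hd
        have h2 := Nat.pos_of_mem_divisors hd.1
        have h3 := hd.2.2
        rw [one_mul] at h3
        have h4 : d ≤ t := by exact_mod_cast h3
        exact ⟨h2, h4.trans ht.2⟩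
      · exact fun h => h.2
    rw [Finset.sum_congr rfl h1, Finset.sum_comm]
    refine Finset.sum_congr rfl fun d _ => ?_
    rw [← Finset.sum_filter, Finset.sum_const, nsmul_eq_mul]
  have e2 : ∑ d ∈ Finset.Icc 1 N,
        (((Finset.Icc 1 N).filter (fun t => d ∈ nearG a b c (1 / B) 1 t)).card : ℝ) * φ d ≤
      ∑ d ∈ Finset.Icc 1 N, ∑ i ∈ Finset.range (I + 1),
        if d * 2 ^ i ≤ N then 2 ^ (i + 1) * ((rho a b c d : ℝ) * φ d) else 0 := by
    apply Finset.sum_le_sum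
    intro d hd
    rw [Finset.mem_Icc] at hd
    obtain ⟨i, hi, hdi, hcard⟩ := cnt_le (a := a) (b := b) (c := c) hB0 hI2 hd.1 hd.2
    have h1 : (if d * 2 ^ i ≤ N then 2 ^ (i + 1) * ((rho a b c d : ℝ) * φ d) else 0) ≤
        ∑ i ∈ Finset.range (I + 1),
          if d * 2 ^ i ≤ N then 2 ^ (i + 1) * ((rho a b c d : ℝ) * φ d) else 0 := by
      apply Finset.single_le_sum (f := fun i =>
        if d * 2 ^ i ≤ N then 2 ^ (i + 1) * ((rho a b c d : ℝ) * φ d) else (0 : ℝ)) _ hi
      intro i _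
      show (0 : ℝ) ≤ if d * 2 ^ i ≤ N then _ else _
      split_ifs
      · have := hφ d
        positivity
      · exact le_rfl
    rw [if_pos hdi] at h1
    refine le_trans ?_ h1
    rw [← mul_assoc]
    apply mul_le_mul_of_nonneg_right _ (hφ d)
    exact_mod_cast hcard
  have e3 : ∑ d ∈ Finset.Icc 1 N, ∑ i ∈ Finset.range (I + 1),
        (if d * 2 ^ i ≤ N then 2 ^ (i + 1) * ((rho a b c d : ℝ) * φ d) else 0) =
      ∑ i ∈ Finset.range (I + 1), 2 ^ (i + 1) *
        ∑ d ∈ Finset.Icc 1 (N / 2 ^ i), (rho a b c d : ℝ) * φ d := by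
    rw [Finset.sum_comm]
    refine Finset.sum_congr rfl fun i _ => ?_
    rw [← Finset.sum_filter, Finset.mul_sum]
    refine Finset.sum_congr ?_ fun _ _ => rfl
    ext d
    rw [Finset.mem_filter, Finset.mem_Icc, Finset.mem_Icc,
      Nat.le_div_iff_mul_le (by positivity)]
    constructor
    · exact fun h => ⟨h.1.1, h.2⟩
    · intro h
      refine ⟨⟨h.1, le_trans ?_ h.2⟩, h.2⟩
      exact Nat.le_mul_of_pos_right _ (by positivity)
  have e4 : ∀ i ∈ Finset.range (I + 1), (2 : ℝ) ^ (i + 1) *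
        ∑ d ∈ Finset.Icc 1 (N / 2 ^ i), (rho a b c d : ℝ) * φ d ≤ 2 * c0 * N := by
    intro i hi
    rw [Finset.mem_range] at hi
    have h1 : n0 ≤ N / 2 ^ i := by
      rw [Nat.le_div_iff_mul_le (by positivity)]
      calc n0 * 2 ^ i ≤ n0 * 2 ^ I :=
            Nat.mul_le_mul_left _ (Nat.pow_le_pow_right (by norm_num) (by omega))
        _ = 2 ^ I * n0 := mul_comm _ _
        _ ≤ N := hN
    have h2 := hn0 _ h1
    have h3 : ((N / 2 ^ i : ℕ) : ℝ) ≤ (N : ℝ) / 2 ^ i := by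
      have := @Nat.cast_div_le ℝ _ _ _ N (2 ^ i)
      push_cast at this
      exact this
    have hp : (0 : ℝ) < 2 ^ i := by positivity
    calc (2 : ℝ) ^ (i + 1) * ∑ d ∈ Finset.Icc 1 (N / 2 ^ i), (rho a b c d : ℝ) * φ d
        ≤ 2 ^ (i + 1) * (c0 * ((N : ℝ) / 2 ^ i)) := by
          apply mul_le_mul_of_nonneg_left _ (by positivity)
          exact h2.trans (mul_le_mul_of_nonneg_left h3 hc0.le)
      _ = 2 * c0 * N := by
          rw [pow_succ]
          field_simp
  have e5 : ∑ i ∈ Finset.range (I + 1), (2 : ℝ) ^ (i + 1) *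
        ∑ d ∈ Finset.Icc 1 (N / 2 ^ i), (rho a b c d : ℝ) * φ d ≤ (I + 1) * (2 * c0 * N) := by
    refine (Finset.sum_le_sum e4).trans ?_
    rw [Finset.sum_const, Finset.card_range, nsmul_eq_mul]
    push_cast
    exact le_rfl
  rw [e1]
  refine e2.trans (e3.trans_le (e5.trans ?_))
  have hl2 := Real.log_two_gt_d9
  have h6 : ((I : ℝ) + 1) ≤ 20 * Real.log B := by
    have h7 : ((I : ℝ) + 1) * Real.log 2 ≤ 2 * Real.log B := by linarith
    nlinarith
  have h8 : 0 ≤ c0 * (N : ℝ) := by positivity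
  nlinarith

end Pool.Agent.Lib.MP_a17b09_nt.QT
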